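import Pool.Agent.LibW64.Defs
import Pool.Agent.LibHPF.P3a

/-! # Row A0: `L` is algebraically closed in `K`

Plan. Let `α : K` be a root of the monic `h` with coefficients in `L`. Then `σ α` is a root of
`h.map (algebraMap K (RF K r))` (the coefficients of `h` are in `L`, so `σ` agrees with `algebraMap`
on them: `Polynomial.hom_eval₂`/`Polynomial.eval₂_congr`-like argument, write
`h.map σ = h.map (algebraMap K (RF K r))` by `Polynomial.ext`). `K` is algebraically closed in
`RF K r` (LibHPF/P3a.lean or LibHPF/P3*.lean contain this; otherwise: an element of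
`FractionRing (MvPolynomial (Fin r) K)` integral over `K` is integral over
`MvPolynomial (Fin r) K`, hence a polynomial (`IsIntegrallyClosed`), and a polynomial of positive total
degree is not a root of a monic polynomial with constant coefficients), so
`σ α = algebraMap K (RF K r) b` for some `b : K`. If `α` is not in `L` then `1, α` are linearly
independent over `L` (`LinearIndependent.pair_iff`), and `b * σ 1 - 1 * σ α = 0` gives, by `LinDisj`
with `n = 2`, `l = ![b, -1]`, `c = ![1, α]`, that `-1 = 0`. -/

set_option autoImplicit false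
open Polynomial

namespace Pool.Agent.LibHP

private theorem A0_const {K : Type} [Field K] (r : ℕ) (θ : RF K r) (h : IsIntegral K θ) :
    ∃ b : K, algebraMap K (RF K r) b = θ := by
  have h1 : IsIntegral (MvPolynomial (Fin r) K) θ := h.tower_top
  obtain ⟨p, hp⟩ := IsIntegrallyClosed.algebraMap_eq_of_integral h1
  have h2 : IsIntegral K p := by
    rw [← hp] at h
    exact (isIntegral_algebraMap_iff (IsFractionRing.injective _ _)).1 h
  have h3 : (minpoly K p).IsRoot (MvPolynomial.aeval (fun _ => (0 : K)) p) := by
    have h4 := congrArg (MvPolynomial.aeval (R := K) (fun _ : Fin r => (0 : K))) (minpoly.aeval K p)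
    rw [← Polynomial.aeval_algHom_apply, map_zero] at h4
    rw [Polynomial.IsRoot, ← Polynomial.coe_aeval_eq_eval]
    exact h4
  have h5 := Polynomial.degree_eq_one_of_irreducible_of_root (minpoly.irreducible h2) h3
  obtain ⟨b, hb⟩ := minpoly.mem_range_of_degree_eq_one K p h5
  refine ⟨b, ?_⟩
  rw [← hp, ← hb]
  exact IsScalarTower.algebraMap_apply K (MvPolynomial (Fin r) K) (RF K r) b

theorem W_A0 {K : Type} [Field K] [CharZero K] (L : Subfield K) (r : ℕ) (σ : K →+* RF K r)
    (hσ : ∀ c ∈ L, σ c = algebraMap K (RF K r) c) (hd : LinDisj L (algebraMap K (RF K r)) σ) :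
    ClosedSub L := by
  rintro α ⟨h, hm, hL, h0⟩
  have h1 : h.map σ = h.map (algebraMap K (RF K r)) := by
    ext i
    rw [Polynomial.coeff_map, Polynomial.coeff_map]
    exact hσ _ (hL i)
  have h2 : (h.map (algebraMap K (RF K r))).eval (σ α) = 0 := by
    rw [← h1, Polynomial.eval_map, Polynomial.eval₂_at_apply]
    have h3 : h.eval α = 0 := h0
    rw [h3, map_zero]
  have h3 : IsIntegral K (σ α) := ⟨h, hm, by rwa [Polynomial.eval_map] at h2⟩
  obtain ⟨b, hb⟩ := A0_const r (σ α) h3
  by_contra hα
  have h4 : LinearIndependent L ![(1 : K), α] := by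
    rw [LinearIndependent.pair_iff]
    intro s t hst
    have hst' : (s : K) + (t : K) * α = 0 := by
      have e1 : s • (1 : K) = (s : K) * 1 := rfl
      have e2 : t • α = (t : K) * α := rfl
      rw [e1, e2, mul_one] at hst
      exact hst
    have ht : t = 0 := by
      by_contra ht
      apply hα
      have ht' : (t : K) ≠ 0 := fun h => ht (Subtype.ext h)
      have e3 : α = -(s : K) / t := by
        field_simp
        linear_combination hst'
      rw [e3]
      exact L.div_mem (L.neg_mem s.2) t.2
    refine ⟨?_, ht⟩
    rw [ht] at hst'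
    apply Subtype.ext
    simpa using hst'
  have h5 := hd 2 ![b, -1] ![1, α] h4 (by
    rw [Fin.sum_univ_two]
    simp only [Matrix.cons_val_zero, Matrix.cons_val_one, map_one, map_neg]
    rw [hb]
    ring) 1
  simp at h5

end Pool.Agent.LibHP
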