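import Pool.Agent.LibW64.A1a
import Pool.Agent.LibCH33.R6

/-! # Row A1: the roots are in the field generated by `\bar K` and `σ (K)`

Plan. Let `E0 := Subfield.closure (Set.range (algebraMap K (RF K r)) ∪ Set.range σ)` (a subfield of
`RF K r`). Take `e` from `W_A1a` (row A1a, cite it). Apply `genBy_of_closed` (LibCH33/R6.lean) with
`F := E0`, `E := RF K r`, `Ω := RF (AlgebraicClosure K) r`, `ι := E0.subtype`,
`ε := rfmap (algebraMap K (AlgebraicClosure K)) r`, `x := algebraMap _ _ e`, `x' := θ`:
* `hcl`: from `hcl` here (`IsAlgebraic E0 z` is `∃ P : E0[X], P ≠ 0 ∧ aeval z P = 0`, and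
  `aeval z P = P.eval₂ E0.subtype z`);
* `e` is algebraic over `K`, so its image is a root of the image of `minpoly K e` in `E0[X]`
  (`rfmap_const`);
* `θ` is a root of `T` via `sbar σ = (rfmap _ r).comp σ`, and `σ` takes values in `E0`:
  `T.map (σ.codRestrict E0 _)`, nonzero because `T` is monic.
The conclusion `GenBy (ε.comp ι) x θ` says that `θ` is in
`Subfield.closure (Set.range (ε.comp ι) ∪ {x})`, and `Set.range (ε.comp ι) ⊆` the closure of the
statement (`Subfield.closure_le`/`Subfield.map_closure`-argument: the preimage under `ε` of the closure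
of the statement is a subfield containing `algebraMap K (RF K r) a` - `rfmap_const` - and `σ a`,
hence `E0`). -/

set_option autoImplicit false
open Polynomial

namespace Pool.Agent.LibHP

theorem W_A1 {K : Type} [Field K] [CharZero K] (r : ℕ) (σ : K →+* RF K r)
    (hcl : ∀ z : RF K r,
      IsAlgebraic (Subfield.closure (Set.range (algebraMap K (RF K r)) ∪ Set.range σ)) z →
        z ∈ Subfield.closure (Set.range (algebraMap K (RF K r)) ∪ Set.range σ))
    (T : K[X]) (hT : T.Monic) (θ : RF (AlgebraicClosure K) r) (hθ : T.eval₂ (sbar σ) θ = 0) :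
    θ ∈ Subfield.closure
      (Set.range (algebraMap (AlgebraicClosure K) (RF (AlgebraicClosure K) r)) ∪
        Set.range (sbar σ)) := by
  have hK : ∀ a, algebraMap K (RF K r) a ∈
      Subfield.closure (Set.range (algebraMap K (RF K r)) ∪ Set.range σ) :=
    fun a => Subfield.subset_closure (Or.inl ⟨a, rfl⟩)
  have hσ : ∀ a, σ a ∈ Subfield.closure (Set.range (algebraMap K (RF K r)) ∪ Set.range σ) :=
    fun a => Subfield.subset_closure (Or.inr ⟨a, rfl⟩)
  revert hcl hK hσ
  generalize hE0 : Subfield.closure (Set.range (algebraMap K (RF K r)) ∪ Set.range σ) = E0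
  intro hcl hK hσ
  obtain ⟨e, he⟩ := W_A1a r θ
  let κ : K →+* E0 := (algebraMap K (RF K r)).codRestrict E0 hK
  let s : K →+* E0 := σ.codRestrict E0 hσ
  have hch : CharZero E0 := charZero_of_injective_ringHom κ.injective
  have key := genBy_of_closed E0.subtype (rfmap (algebraMap K (AlgebraicClosure K)) r)
    (fun z hz => by
      obtain ⟨P, hP, hP2⟩ := hz
      exact ⟨⟨z, hcl z ⟨P, hP, hP2⟩⟩, rfl⟩)
    (algebraMap (AlgebraicClosure K) (RF (AlgebraicClosure K) r) e) θ
    (by
      have hi : IsIntegral K e := Algebra.IsIntegral.isIntegral e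
      refine ⟨(minpoly K e).map κ, ((minpoly.monic hi).map κ).ne_zero, ?_⟩
      rw [Polynomial.eval₂_map]
      have h1 : ((rfmap (algebraMap K (AlgebraicClosure K)) r).comp E0.subtype).comp κ =
          (algebraMap (AlgebraicClosure K) (RF (AlgebraicClosure K) r)).comp
            (algebraMap K (AlgebraicClosure K)) := by
        ext a
        exact rfmap_const (algebraMap K (AlgebraicClosure K)) a
      rw [h1, ← Polynomial.hom_eval₂]
      have h2 : (minpoly K e).eval₂ (algebraMap K (AlgebraicClosure K)) e = 0 :=
        minpoly.aeval K e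
      rw [h2, map_zero])
    (by
      refine ⟨T.map s, (hT.map s).ne_zero, ?_⟩
      rw [Polynomial.eval₂_map]
      exact hθ)
    he
  have hle : Subfield.closure (Set.range
      ((rfmap (algebraMap K (AlgebraicClosure K)) r).comp E0.subtype) ∪
        {algebraMap (AlgebraicClosure K) (RF (AlgebraicClosure K) r) e}) ≤
      Subfield.closure
        (Set.range (algebraMap (AlgebraicClosure K) (RF (AlgebraicClosure K) r)) ∪
          Set.range (sbar σ)) := by
    rw [Subfield.closure_le]
    rintro y (⟨a, rfl⟩ | hy)
    · have h3 : E0 ≤ (Subfield.closure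
        (Set.range (algebraMap (AlgebraicClosure K) (RF (AlgebraicClosure K) r)) ∪
          Set.range (sbar σ))).comap (rfmap (algebraMap K (AlgebraicClosure K)) r) := by
        rw [← hE0, Subfield.closure_le]
        rintro z (⟨b, rfl⟩ | ⟨b, rfl⟩)
        · rw [SetLike.mem_coe, Subfield.mem_comap, rfmap_const]
          exact Subfield.subset_closure (Or.inl ⟨_, rfl⟩)
        · rw [SetLike.mem_coe, Subfield.mem_comap]
          exact Subfield.subset_closure (Or.inr ⟨b, rfl⟩)
      exact h3 a.2
    · rw [Set.mem_singleton_iff] at hy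
      rw [hy]
      exact Subfield.subset_closure (Or.inl ⟨e, rfl⟩)
  exact hle key

end Pool.Agent.LibHP
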