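import Pool.Agent.LibW64.Defs
import Pool.Agent.LibHP2.A1

/-! # Row A1a: one constant generates an element of `\bar K(u)` over `K(u)`

Plan. `θ = p / q` with `p, q : MvPolynomial (Fin r) (AlgebraicClosure K)` (`IsFractionRing.div_surjective`).
Let `S` be the finite set of the coefficients of `p` and `q`; `K(S)` is a finite (separable, as `K` has
characteristic zero) extension of `K`, so `IntermediateField.adjoin K S = IntermediateField.adjoin K {e}`
for some `e` (`Field.exists_primitive_element` for the finite dimensional field
`IntermediateField.adjoin K S`, as in LibCH33/R6.lean, `R6_main`, first lines). Every coefficient is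
in `IntermediateField.adjoin K {e}`, so its image in `RF (AlgebraicClosure K) r` is in the closure
(the preimage of the closure under `algebraMap (AlgebraicClosure K) (RF (AlgebraicClosure K) r)` is a
subfield containing `algebraMap K _` - because of `rfmap_const` - and `e`). The variables `X i` are in
the range of `rfbar K r = rfmap (algebraMap K (AlgebraicClosure K)) r` (`rfmap_algebraMap`). Sums of
products: `MvPolynomial.as_sum` or `MvPolynomial.induction_on`. -/

set_option autoImplicit false
open Polynomial

namespace Pool.Agent.LibHP

private theorem A1a_gen {K : Type} [Field K] [CharZero K] (S : Set (AlgebraicClosure K)) [Finite S] :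
    ∃ e : AlgebraicClosure K, ∀ x ∈ S, x ∈ IntermediateField.adjoin K {e} := by
  set K0 := IntermediateField.adjoin K S with hK0
  have hfd : FiniteDimensional K K0 := by
    refine IntermediateField.finiteDimensional_adjoin ?_
    intro y _
    exact Algebra.IsIntegral.isIntegral y
  obtain ⟨β, hβ⟩ := Field.exists_primitive_element K K0
  have hE : K0 = IntermediateField.adjoin K {(β : AlgebraicClosure K)} := by
    have h1 := congrArg (IntermediateField.map K0.val) hβ
    rw [IntermediateField.adjoin_map, Set.image_singleton] at h1
    rw [← AlgHom.fieldRange_eq_map, IntermediateField.fieldRange_val] at h1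
    exact h1.symm
  refine ⟨(β : AlgebraicClosure K), fun x hx => ?_⟩
  rw [← hE]
  exact IntermediateField.subset_adjoin K S hx

private theorem A1a_const {K : Type} [Field K] (r : ℕ) (e c : AlgebraicClosure K)
    (hc : c ∈ IntermediateField.adjoin K {e}) :
    GenBy (rfmap (algebraMap K (AlgebraicClosure K)) r)
      (algebraMap (AlgebraicClosure K) (RF (AlgebraicClosure K) r) e)
      (algebraMap (AlgebraicClosure K) (RF (AlgebraicClosure K) r) c) := by
  set C := Subfield.closure (Set.range (rfmap (algebraMap K (AlgebraicClosure K)) r) ∪
    {algebraMap (AlgebraicClosure K) (RF (AlgebraicClosure K) r) e}) with hC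
  have h1 : ∀ c ∈ IntermediateField.adjoin K {e},
      c ∈ C.comap (algebraMap (AlgebraicClosure K) (RF (AlgebraicClosure K) r)) := by
    intro c hc
    induction hc using IntermediateField.adjoin_induction with
    | mem x hx =>
      rw [Set.mem_singleton_iff] at hx
      rw [hx]
      exact Subfield.subset_closure (Set.mem_union_right _ rfl)
    | algebraMap x =>
      refine Subfield.subset_closure (Set.mem_union_left _ ?_)
      exact ⟨algebraMap K (RF K r) x, rfmap_const _ _⟩
    | add x y _ _ hx hy => exact add_mem hx hy
    | inv x _ hx => exact inv_mem hx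
    | mul x y _ _ hx hy => exact mul_mem hx hy
  exact h1 c hc

private theorem A1a_poly {K : Type} [Field K] (r : ℕ) (e : AlgebraicClosure K)
    (p : MvPolynomial (Fin r) (AlgebraicClosure K))
    (hp : ∀ v, p.coeff v ∈ IntermediateField.adjoin K {e}) :
    GenBy (rfmap (algebraMap K (AlgebraicClosure K)) r)
      (algebraMap (AlgebraicClosure K) (RF (AlgebraicClosure K) r) e)
      (algebraMap (MvPolynomial (Fin r) (AlgebraicClosure K)) (RF (AlgebraicClosure K) r) p) := by
  unfold GenBy
  rw [p.as_sum, map_sum]
  refine sum_mem fun v _ => ?_
  have h1 : MvPolynomial.monomial v (p.coeff v) =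
      MvPolynomial.C (p.coeff v) * MvPolynomial.monomial v 1 := by
    rw [MvPolynomial.C_mul_monomial, mul_one]
  rw [h1, map_mul]
  refine mul_mem ?_ ?_
  · rw [← A1_const]
    exact A1a_const r e _ (hp v)
  · refine Subfield.subset_closure (Set.mem_union_left _ ?_)
    refine ⟨algebraMap (MvPolynomial (Fin r) K) (RF K r) (MvPolynomial.monomial v 1), ?_⟩
    rw [rfmap_algebraMap, MvPolynomial.map_monomial, map_one]

theorem W_A1a {K : Type} [Field K] [CharZero K] (r : ℕ) (θ : RF (AlgebraicClosure K) r) :
    ∃ e : AlgebraicClosure K, GenBy (rfmap (algebraMap K (AlgebraicClosure K)) r)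
      (algebraMap (AlgebraicClosure K) (RF (AlgebraicClosure K) r) e) θ := by
  classical
  obtain ⟨p, q, _, hθ⟩ :=
    IsFractionRing.div_surjective (A := MvPolynomial (Fin r) (AlgebraicClosure K)) θ
  obtain ⟨e, he⟩ := A1a_gen (K := K)
    ((p.support.image p.coeff ∪ q.support.image q.coeff : Finset (AlgebraicClosure K)) :
      Set (AlgebraicClosure K))
  have h0 : ∀ (f : MvPolynomial (Fin r) (AlgebraicClosure K)),
      (∀ v ∈ f.support, f.coeff v ∈ IntermediateField.adjoin K {e}) →
      ∀ v, f.coeff v ∈ IntermediateField.adjoin K {e} := by
    intro f hf v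
    by_cases hv : v ∈ f.support
    · exact hf v hv
    · rw [MvPolynomial.notMem_support_iff.1 hv]
      exact zero_mem _
  have hp := A1a_poly r e p (h0 p fun v hv => he _ (by
    rw [Finset.mem_coe, Finset.mem_union]
    exact Or.inl (Finset.mem_image_of_mem _ hv)))
  have hq := A1a_poly r e q (h0 q fun v hv => he _ (by
    rw [Finset.mem_coe, Finset.mem_union]
    exact Or.inr (Finset.mem_image_of_mem _ hv)))
  refine ⟨e, ?_⟩
  rw [← hθ]
  exact div_mem hp hq

end Pool.Agent.LibHP
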