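import Pool.Agent.LibW64.Defs

/-! # Row A2c: the Nullstellensatz for a finitely generated subalgebra of `\bar K` over `L`

Plan. `B' := Localization.Away b` (for `b : B`, `b ≠ 0`) is a nonzero finitely generated `L`-algebra;
take a maximal ideal `m`; `B' ⧸ m` is a field of finite type over `L`, hence finite over `L`
(`finite_of_finite_type_of_isJacobsonRing`), so algebraic; it embeds over `L` in `AlgebraicClosure K`
(`IsAlgClosed.lift`). Compose. The image of `b` is a unit, so it is nonzero; every value is algebraic
over `L`: its minimal polynomial over `L`, mapped to `K[X]`, gives `AlgOver`. -/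

set_option autoImplicit false
open Polynomial

namespace Pool.Agent.LibHP

/-- the general form over an arbitrary field -/
private theorem w_a2c_aux {F A Ω : Type} [Field F] [CommRing A] [IsDomain A] [Algebra F A]
    [Field Ω] [Algebra F Ω] [IsAlgClosed Ω] (hA : Algebra.FiniteType F A) (b : A) (hb : b ≠ 0) :
    ∃ χ : A →ₐ[F] Ω, χ b ≠ 0 ∧ ∀ x, IsIntegral F (χ x) := by
  have hle : Submonoid.powers b ≤ nonZeroDivisors A :=
    powers_le_nonZeroDivisors_of_noZeroDivisors hb
  have hnt : Nontrivial (Localization.Away b) := by
    refine nontrivial_of_ne (algebraMap A (Localization.Away b) 1)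
      (algebraMap A (Localization.Away b) 0) ?_
    exact fun h => one_ne_zero (IsLocalization.injective (Localization.Away b) hle h)
  have hft2 : Algebra.FiniteType A (Localization.Away b) :=
    IsLocalization.finiteType_of_monoid_fg (Submonoid.powers b) (Localization.Away b)
  have hft3 : Algebra.FiniteType F (Localization.Away b) := Algebra.FiniteType.trans hA hft2
  obtain ⟨m, hm⟩ := Ideal.exists_maximal (Localization.Away b)
  let := Ideal.Quotient.field m
  have hfin : Module.Finite F (Localization.Away b ⧸ m) :=
    finite_of_finite_type_of_isJacobsonRing F (Localization.Away b ⧸ m)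
  have halg : Algebra.IsAlgebraic F (Localization.Away b ⧸ m) :=
    Algebra.IsAlgebraic.of_finite F (Localization.Away b ⧸ m)
  let ψ : (Localization.Away b ⧸ m) →ₐ[F] Ω := IsAlgClosed.lift
  let θ : A →ₐ[F] (Localization.Away b ⧸ m) :=
    (Ideal.Quotient.mkₐ F m).comp (IsScalarTower.toAlgHom F A (Localization.Away b))
  refine ⟨ψ.comp θ, ?_, ?_⟩
  · have h1 : IsUnit (algebraMap A (Localization.Away b) b) :=
      IsLocalization.Away.algebraMap_isUnit b
    exact ((h1.map (Ideal.Quotient.mkₐ F m)).map ψ).ne_zero
  · intro x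
    have h1 : IsIntegral F (θ x) := Algebra.IsIntegral.isIntegral _
    exact h1.map ψ

theorem W_A2c {K : Type} [Field K] (L : Subfield K) (B : Subalgebra L (AlgebraicClosure K))
    (hB : B.FG) (b : B) (hb : b ≠ 0) :
    ∃ χ : B →ₐ[L] AlgebraicClosure K, χ b ≠ 0 ∧
      ∀ x, AlgOver L (algebraMap K (AlgebraicClosure K)) (χ x) := by
  have hft : Algebra.FiniteType L B := (Subalgebra.fg_iff_finiteType B).1 hB
  obtain ⟨χ, h1, h2⟩ := w_a2c_aux (Ω := AlgebraicClosure K) hft b hb
  refine ⟨χ, h1, fun x => ?_⟩
  have hi := h2 x
  refine ⟨(minpoly L (χ x)).map (algebraMap L K), (minpoly.monic hi).map _, ?_, ?_⟩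
  · intro i
    rw [Polynomial.coeff_map]
    exact Subtype.property _
  · rw [Polynomial.eval₂_map, ← IsScalarTower.algebraMap_eq L K (AlgebraicClosure K)]
    exact minpoly.aeval L (χ x)

end Pool.Agent.LibHP
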