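import Pool.Agent.LibW64.A2b
import Pool.Agent.LibW64.A2c
import Pool.Agent.LibCH33.R7

/-! # Row A2: specialisation of the root

`Ω := AlgebraicClosure K`, `s := sbar σ : K →+* RF Ω r`. A root `θ` of `T` (via `s`) in the field
generated by `Ω` and `s (K)` specialises to a root of `T` in the field generated by `K` and the
elements algebraic over `L`.

Plan. (All algebra structures over `L`: `a := Algebra.ofId`-like `Ω →ₐ[L] RF Ω r`, and
`b : K →ₐ[L] RF Ω r` from `s` and `hs`; choose the instance `Algebra L (RF Ω r)` that exists already,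
the tower `L → K → Ω → RF Ω r`.)
1. `exists_frac_of_closure` (LibCH33/R7.lean): `θ * μ t' = μ t`, `μ t' ≠ 0`, `t, t' : Ω ⊗[L] K`,
`μ := productMap a b`; `μ` is injective (`LinDisj.injective`).
2. `T` monic of degree `n`: multiplying `T(θ) = 0` by `μ t' ^ n`:
`∑ i ≤ n, (1 ⊗ T.coeff i) * t ^ i * t' ^ (n - i) = 0` in `Ω ⊗[L] K` (by the injectivity of `μ`).
3. Write `t = ∑ j, b j ⊗ c j`, `t' = ∑ j, b' j ⊗ c j` with `c : Fin m → K` linearly independent over
`L` (a basis of `K` over `L`, `TensorProduct.equivFinsuppOfBasisRight`), some `b' j0 ≠ 0`. Let `B` be the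
`L`-subalgebra of `Ω` generated by the `b j`, `b' j`; `χ` from `W_A2c` with `χ (b' j0) ≠ 0`.
4. `B ⊗[L] K → Ω ⊗[L] K` is injective (flatness over the field `L`:
`Module.Flat.rTensor_preserves_injective_linearMap`), so the identity of step 2 holds in `B ⊗[L] K`;
apply the homomorphism `B ⊗[L] K →ₐ[L] Ω`, `x ⊗ c ↦ χ x * algebraMap K Ω c`
(`Algebra.TensorProduct.productMap`): with `S := ∑ j, χ (b j) * c j`, `S' := ∑ j, χ (b' j) * c j`,
`∑ i ≤ n, T.coeff i * S ^ i * S' ^ (n - i) = 0`. `S' ≠ 0` by `W_A2b` (row A2b). `z := S / S'` is the root;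
it is in the closure. -/

set_option autoImplicit false
open Polynomial TensorProduct

namespace Pool.Agent.LibHP

private theorem A2_core {k K Ω G : Type} [Field k] [Field K] [Field Ω] [Field G] [Algebra k K]
    [Algebra k Ω] [Algebra k G] [Algebra K Ω] [IsScalarTower k K Ω] (a : Ω →ₐ[k] G) (b : K →ₐ[k] G)
    (hd : LinDisj k (a : Ω →+* G) (b : K →+* G)) (S : Set Ω)
    (hsp : ∀ (B : Subalgebra k Ω), B.FG → ∀ b0 : B, b0 ≠ 0 →
      ∃ χ : B →ₐ[k] Ω, χ b0 ≠ 0 ∧ ∀ x, χ x ∈ S)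
    (hind : ∀ (n : ℕ) (β : Fin n → Ω), (∀ j, β j ∈ S) → ∀ c : Fin n → K, LinearIndependent k c →
      ∑ j, β j * algebraMap K Ω (c j) = 0 → ∀ j, β j = 0)
    (T : K[X]) (θ : G) (hθ : T.eval₂ (b : K →+* G) θ = 0)
    (hmem : θ ∈ Subfield.closure (Set.range a ∪ Set.range b)) :
    ∃ z : Ω, T.eval₂ (algebraMap K Ω) z = 0 ∧
      z ∈ Subfield.closure (Set.range (algebraMap K Ω) ∪ S) := by
  classical
  obtain ⟨μ, hμ⟩ : ∃ μ : Ω ⊗[k] K →ₐ[k] G, μ = Algebra.TensorProduct.productMap a b := ⟨_, rfl⟩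
  have hinj : Function.Injective μ := by rw [hμ]; exact LinDisj.injective a b hd
  obtain ⟨t, t', ht', hee⟩ := exists_frac_of_closure a b θ hmem
  rw [← hμ] at ht' hee
  -- the polynomial identity
  have hP : ∑ i ∈ Finset.range (T.natDegree + 1),
      ((1 : Ω) ⊗ₜ[k] T.coeff i) * t ^ i * t' ^ (T.natDegree - i) = 0 := by
    apply hinj
    rw [map_zero, map_sum]
    have h1 : ∀ i ∈ Finset.range (T.natDegree + 1),
        μ (((1 : Ω) ⊗ₜ[k] T.coeff i) * t ^ i * t' ^ (T.natDegree - i)) =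
          b (T.coeff i) * θ ^ i * μ t' ^ T.natDegree := by
      intro i hi
      have h2 : i ≤ T.natDegree := Nat.lt_succ_iff.1 (Finset.mem_range.1 hi)
      have h3 : μ ((1 : Ω) ⊗ₜ[k] T.coeff i) = b (T.coeff i) := by
        rw [hμ, Algebra.TensorProduct.productMap_apply_tmul, map_one, one_mul]
      rw [map_mul, map_mul, map_pow, map_pow, h3, ← hee, mul_pow]
      have h4 : μ t' ^ i * μ t' ^ (T.natDegree - i) = μ t' ^ T.natDegree := by
        rw [← pow_add, Nat.add_sub_cancel' h2]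
      rw [← h4]
      ring
    rw [Finset.sum_congr rfl h1, ← Finset.sum_mul]
    have h5 : ∑ i ∈ Finset.range (T.natDegree + 1), b (T.coeff i) * θ ^ i = 0 := by
      rw [← hθ, Polynomial.eval₂_eq_sum_range]
      rfl
    rw [h5, zero_mul]
  -- a basis of `K`
  obtain ⟨⟨I, 𝓑⟩⟩ := Module.Free.exists_basis (R := k) (M := K)
  obtain ⟨v, hv⟩ := TensorProduct.eq_repr_basis_right 𝓑 t
  obtain ⟨v', hv'⟩ := TensorProduct.eq_repr_basis_right 𝓑 t'
  have ht'0 : t' ≠ 0 := by
    rintro rfl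
    exact ht' (map_zero μ)
  obtain ⟨j0, hj0⟩ : ∃ j, v' j ≠ 0 := by
    by_contra hcon
    push Not at hcon
    have h1 : v' = 0 := Finsupp.ext hcon
    apply ht'0
    rw [← hv', h1, Finsupp.sum_zero_index]
  obtain ⟨F, hF⟩ : ∃ F : Finset I, F = v.support ∪ v'.support := ⟨_, rfl⟩
  have et : t = ∑ i ∈ F, v i ⊗ₜ[k] 𝓑 i := by
    rw [← hv]
    exact Finsupp.sum_of_support_subset v (by rw [hF]; exact Finset.subset_union_left) _
      fun i _ => TensorProduct.zero_tmul _ _
  have et' : t' = ∑ i ∈ F, v' i ⊗ₜ[k] 𝓑 i := by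
    rw [← hv']
    exact Finsupp.sum_of_support_subset v' (by rw [hF]; exact Finset.subset_union_right) _
      fun i _ => TensorProduct.zero_tmul _ _
  obtain ⟨B, hB⟩ : ∃ B : Subalgebra k Ω,
      B = Algebra.adjoin k ((F.image v ∪ F.image v' : Finset Ω) : Set Ω) := ⟨_, rfl⟩
  have hBfg : B.FG := by
    rw [hB]
    exact ⟨_, rfl⟩
  have hvB : ∀ i, v i ∈ B := by
    intro i
    by_cases hi : i ∈ F
    · rw [hB]
      exact Algebra.subset_adjoin (Finset.mem_coe.2 (Finset.mem_union_left _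
        (Finset.mem_image_of_mem v hi)))
    · have h1 : v i = 0 := by
        by_contra h2
        exact hi (by rw [hF]; exact Finset.mem_union_left _ (Finsupp.mem_support_iff.2 h2))
      rw [h1]
      exact B.zero_mem
  have hvB' : ∀ i, v' i ∈ B := by
    intro i
    by_cases hi : i ∈ F
    · rw [hB]
      exact Algebra.subset_adjoin (Finset.mem_coe.2 (Finset.mem_union_right _
        (Finset.mem_image_of_mem v' hi)))
    · have h1 : v' i = 0 := by
        by_contra h2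
        exact hi (by rw [hF]; exact Finset.mem_union_right _ (Finsupp.mem_support_iff.2 h2))
      rw [h1]
      exact B.zero_mem
  obtain ⟨u, hu⟩ : ∃ u : B ⊗[k] K, u = ∑ i ∈ F, (⟨v i, hvB i⟩ : B) ⊗ₜ[k] 𝓑 i := ⟨_, rfl⟩
  obtain ⟨u', hu'⟩ : ∃ u' : B ⊗[k] K, u' = ∑ i ∈ F, (⟨v' i, hvB' i⟩ : B) ⊗ₜ[k] 𝓑 i := ⟨_, rfl⟩
  obtain ⟨ι, hι⟩ : ∃ ι : B ⊗[k] K →ₐ[k] Ω ⊗[k] K,
      ι = Algebra.TensorProduct.map B.val (AlgHom.id k K) := ⟨_, rfl⟩
  have hιinj : Function.Injective ι := by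
    have h1 : Function.Injective (LinearMap.rTensor K B.val.toLinearMap) :=
      Module.Flat.rTensor_preserves_injective_linearMap (M := K) B.val.toLinearMap
        Subtype.val_injective
    have h2 : ∀ x, ι x = LinearMap.rTensor K B.val.toLinearMap x := by
      intro x
      rw [hι]
      rfl
    intro x y hxy
    apply h1
    rw [← h2, ← h2, hxy]
  have hιu : ι u = t := by
    rw [hu, et, map_sum]
    refine Finset.sum_congr rfl fun i _ => ?_
    rw [hι, Algebra.TensorProduct.map_tmul]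
    rfl
  have hιu' : ι u' = t' := by
    rw [hu', et', map_sum]
    refine Finset.sum_congr rfl fun i _ => ?_
    rw [hι, Algebra.TensorProduct.map_tmul]
    rfl
  have hPB : ∑ i ∈ Finset.range (T.natDegree + 1),
      ((1 : B) ⊗ₜ[k] T.coeff i) * u ^ i * u' ^ (T.natDegree - i) = 0 := by
    apply hιinj
    rw [map_zero, ← hP, map_sum]
    refine Finset.sum_congr rfl fun i _ => ?_
    rw [map_mul, map_mul, map_pow, map_pow, hιu, hιu']
    congr 2
    rw [hι, Algebra.TensorProduct.map_tmul, map_one]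
    rfl
  obtain ⟨χ, hχ0, hχS⟩ := hsp B hBfg ⟨v' j0, hvB' j0⟩ (fun h => hj0 (congrArg Subtype.val h))
  obtain ⟨Ψ, hΨ⟩ : ∃ Ψ : B ⊗[k] K →ₐ[k] Ω,
      Ψ = Algebra.TensorProduct.productMap χ (IsScalarTower.toAlgHom k K Ω) := ⟨_, rfl⟩
  have hΨt : ∀ (x : B) (y : K), Ψ (x ⊗ₜ[k] y) = χ x * algebraMap K Ω y := by
    intro x y
    rw [hΨ, Algebra.TensorProduct.productMap_apply_tmul]
    rfl
  obtain ⟨X, hX⟩ : ∃ X : Ω, X = Ψ u := ⟨_, rfl⟩
  obtain ⟨X', hX'⟩ : ∃ X' : Ω, X' = Ψ u' := ⟨_, rfl⟩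
  have eX : X = ∑ i ∈ F, χ ⟨v i, hvB i⟩ * algebraMap K Ω (𝓑 i) := by
    rw [hX, hu, map_sum]
    exact Finset.sum_congr rfl fun i _ => hΨt _ _
  have eX' : X' = ∑ i ∈ F, χ ⟨v' i, hvB' i⟩ * algebraMap K Ω (𝓑 i) := by
    rw [hX', hu', map_sum]
    exact Finset.sum_congr rfl fun i _ => hΨt _ _
  have hX'0 : X' ≠ 0 := by
    intro h0
    let e : Fin F.card ≃ F := F.equivFin.symm
    have hlin : LinearIndependent k fun j : Fin F.card => 𝓑 (e j) :=
      𝓑.linearIndependent.comp (fun j => ((e j : F) : I))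
        (Subtype.val_injective.comp e.injective)
    have h1 : ∑ j, χ ⟨v' (e j), hvB' (e j)⟩ * algebraMap K Ω (𝓑 (e j)) = 0 := by
      rw [← h0, eX', ← Finset.sum_coe_sort F (fun i => χ ⟨v' i, hvB' i⟩ * algebraMap K Ω (𝓑 i))]
      exact Equiv.sum_comp e (fun i : F => χ ⟨v' i, hvB' i⟩ * algebraMap K Ω (𝓑 i))
    have h2 := hind F.card (fun j => χ ⟨v' (e j), hvB' (e j)⟩) (fun j => hχS _)
      (fun j => 𝓑 (e j)) hlin h1
    have hj0F : j0 ∈ F := by
      rw [hF]
      exact Finset.mem_union_right _ (Finsupp.mem_support_iff.2 hj0)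
    have h3 := h2 (e.symm ⟨j0, hj0F⟩)
    simp only [Equiv.apply_symm_apply] at h3
    exact hχ0 h3
  have hPX : ∑ i ∈ Finset.range (T.natDegree + 1),
      algebraMap K Ω (T.coeff i) * X ^ i * X' ^ (T.natDegree - i) = 0 := by
    have h1 := congrArg Ψ hPB
    rw [map_zero, map_sum] at h1
    rw [← h1]
    refine Finset.sum_congr rfl fun i _ => ?_
    rw [map_mul, map_mul, map_pow, map_pow, hΨt, map_one, one_mul, ← hX, ← hX']
  refine ⟨X / X', ?_, ?_⟩
  · rw [Polynomial.eval₂_eq_sum_range]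
    have h1 : X' ^ T.natDegree ≠ 0 := pow_ne_zero _ hX'0
    apply mul_right_cancel₀ h1
    rw [zero_mul, ← hPX, Finset.sum_mul]
    refine Finset.sum_congr rfl fun i hi => ?_
    have h2 : i ≤ T.natDegree := Nat.lt_succ_iff.1 (Finset.mem_range.1 hi)
    have h3 : X' ^ T.natDegree = X' ^ i * X' ^ (T.natDegree - i) := by
      rw [← pow_add, Nat.add_sub_cancel' h2]
    rw [h3, div_pow]
    have h4 : X' ^ i ≠ 0 := pow_ne_zero _ hX'0
    field_simp
  · have h1 : ∀ y : K, algebraMap K Ω y ∈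
        Subfield.closure (Set.range (algebraMap K Ω) ∪ S) :=
      fun y => Subfield.subset_closure (Or.inl ⟨y, rfl⟩)
    have h2 : ∀ x : B, χ x ∈ Subfield.closure (Set.range (algebraMap K Ω) ∪ S) :=
      fun x => Subfield.subset_closure (Or.inr (hχS x))
    apply div_mem
    · rw [eX]
      exact sum_mem fun i _ => mul_mem (h2 _) (h1 _)
    · rw [eX']
      exact sum_mem fun i _ => mul_mem (h2 _) (h1 _)

theorem W_A2 {K : Type} [Field K] [CharZero K] (L : Subfield K) (hL : ClosedSub L) (r : ℕ)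
    (s : K →+* RF (AlgebraicClosure K) r)
    (hs : ∀ c ∈ L, s c = algebraMap (AlgebraicClosure K) (RF (AlgebraicClosure K) r)
      (algebraMap K (AlgebraicClosure K) c))
    (hd : LinDisj L (algebraMap (AlgebraicClosure K) (RF (AlgebraicClosure K) r)) s)
    (T : K[X]) (hT : T.Monic) (θ : RF (AlgebraicClosure K) r) (hθ : T.eval₂ s θ = 0)
    (hmem : θ ∈ Subfield.closure
      (Set.range (algebraMap (AlgebraicClosure K) (RF (AlgebraicClosure K) r)) ∪ Set.range s)) :
    ∃ z : AlgebraicClosure K, T.eval₂ (algebraMap K (AlgebraicClosure K)) z = 0 ∧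
      z ∈ Subfield.closure (Set.range (algebraMap K (AlgebraicClosure K)) ∪
        {β | AlgOver L (algebraMap K (AlgebraicClosure K)) β}) := by
  let _ : Algebra L (RF (AlgebraicClosure K) r) :=
    ((algebraMap (AlgebraicClosure K) (RF (AlgebraicClosure K) r)).comp
      (algebraMap L (AlgebraicClosure K))).toAlgebra
  let a : AlgebraicClosure K →ₐ[L] RF (AlgebraicClosure K) r :=
    { (algebraMap (AlgebraicClosure K) (RF (AlgebraicClosure K) r)) with
      commutes' := fun c => rfl }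
  let b : K →ₐ[L] RF (AlgebraicClosure K) r :=
    { s with
      commutes' := fun c => hs c c.2 }
  exact A2_core a b hd {β | AlgOver L (algebraMap K (AlgebraicClosure K)) β}
    (fun B hB b0 hb0 => W_A2c L B hB b0 hb0)
    (fun n β hβ c hc h => W_A2b L hL n β hβ c hc h) T θ hθ hmem

end Pool.Agent.LibHP
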