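import Pool.Agent.LibW64.Defs
import Pool.Agent.LibHP2.A1

/-! # Row A2a: linear disjointness of `\bar K` and `σ (K)` over `L`

Plan. Two steps.
1. `\bar K` and `K(u)` are linearly disjoint over `K` inside `\bar K(u)`: if
`∑ j, algebraMap Kbar _ (e j) * rfmap _ r (f j) = 0` with `e : Fin n → Kbar` linearly independent over
`K` and `f j : RF K r`, then all `f j = 0`. Proof: common denominator `q : MvPolynomial (Fin r) K` of
the `f j` (`IsLocalization.exist_integer_multiples_of_finset` or
`IsLocalization.exist_integer_multiples`), so `∑ j, C (e j) * map (p j) = 0` in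
`MvPolynomial (Fin r) Kbar` (injectivity of `MvPolynomial → RF`, `rfmap_algebraMap`), then compare
the coefficients of every monomial.
2. Given `l : Fin n → Kbar` and `c : Fin n → K` linearly independent over `L` with
`∑ j, algebraMap _ _ (l j) * sbar σ (c j) = 0`: let `V` be the `K`-span of the `l j`, `B : Fin m → Kbar`
a basis of `V` over `K` (`Module.finBasis`, finite dimensional), `l j = ∑ i, b i j • B i` with
`b i j : K`. Then `∑ i, algebraMap _ _ (B i) * rfmap _ r (∑ j, algebraMap K (RF K r) (b i j) * σ (c j)) = 0`
(`sbar σ = (rfmap _ r).comp σ`, `rfmap_const`), so by step 1 every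
`∑ j, algebraMap K (RF K r) (b i j) * σ (c j) = 0`, and by `hd` all `b i j = 0`, so `l j = 0`. -/

set_option autoImplicit false
open Polynomial

namespace Pool.Agent.LibHP

private theorem A2a_step1 {K E : Type} [Field K] [Field E] [Algebra K E] {r m : ℕ} (e : Fin m → E)
    (he : LinearIndependent K e) (f : Fin m → RF K r)
    (h : ∑ i, algebraMap E (RF E r) (e i) * rfmap (algebraMap K E) r (f i) = 0) : ∀ i, f i = 0 := by
  obtain ⟨b, hb⟩ := IsLocalization.exist_integer_multiples_of_finite
    (nonZeroDivisors (MvPolynomial (Fin r) K)) f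
  choose p hp using hb
  have hp' : ∀ i, algebraMap (MvPolynomial (Fin r) K) (RF K r) (p i) =
      algebraMap (MvPolynomial (Fin r) K) (RF K r) (b : MvPolynomial (Fin r) K) * f i := by
    intro i
    rw [hp i, Algebra.smul_def]
  have hb0 : algebraMap (MvPolynomial (Fin r) K) (RF K r) (b : MvPolynomial (Fin r) K) ≠ 0 := by
    intro h0
    exact nonZeroDivisors.ne_zero b.2 (A1_inj (h0.trans (map_zero _).symm))
  have h1 : ∑ i, MvPolynomial.C (e i) * MvPolynomial.map (algebraMap K E) (p i) = 0 := by
    apply A1_inj
    rw [map_zero, map_sum]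
    have h2 : ∑ i, algebraMap (MvPolynomial (Fin r) E) (RF E r)
        (MvPolynomial.C (e i) * MvPolynomial.map (algebraMap K E) (p i)) =
        rfmap (algebraMap K E) r (algebraMap (MvPolynomial (Fin r) K) (RF K r) (b : MvPolynomial (Fin r) K)) *
          ∑ i, algebraMap E (RF E r) (e i) * rfmap (algebraMap K E) r (f i) := by
      rw [Finset.mul_sum]
      refine Finset.sum_congr rfl fun i _ => ?_
      rw [map_mul, ← rfmap_algebraMap, hp' i, map_mul, ← A1_const]
      ring
    rw [h2, h, mul_zero]
  intro i
  have h3 : p i = 0 := by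
    ext s
    rw [MvPolynomial.coeff_zero]
    have h4 := congrArg (MvPolynomial.coeff s) h1
    rw [MvPolynomial.coeff_sum, MvPolynomial.coeff_zero] at h4
    have h5 : ∑ i, (MvPolynomial.coeff s (p i)) • e i = 0 := by
      rw [← h4]
      refine Finset.sum_congr rfl fun i _ => ?_
      rw [MvPolynomial.coeff_C_mul, MvPolynomial.coeff_map, Algebra.smul_def, mul_comm]
    exact Fintype.linearIndependent_iff.1 he _ h5 i
  have h6 := hp' i
  rw [h3, map_zero] at h6
  exact (mul_eq_zero.1 h6.symm).resolve_left hb0

theorem W_A2a {K : Type} [Field K] (L : Subfield K) (r : ℕ) (σ : K →+* RF K r)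
    (hd : LinDisj L (algebraMap K (RF K r)) σ) :
    LinDisj L (algebraMap (AlgebraicClosure K) (RF (AlgebraicClosure K) r)) (sbar σ) := by
  intro n l c hc hsum
  have hmem : ∀ j, l j ∈ Submodule.span K (Set.range l) := fun j => Submodule.subset_span ⟨j, rfl⟩
  have hfin : Module.Finite K (Submodule.span K (Set.range l)) :=
    FiniteDimensional.span_of_finite K (Set.finite_range l)
  have B := Module.finBasis K (Submodule.span K (Set.range l))
  have he : LinearIndependent K fun i => ((B i : Submodule.span K (Set.range l)) : AlgebraicClosure K) :=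
    B.linearIndependent.map' (Submodule.span K (Set.range l)).subtype (Submodule.ker_subtype _)
  have hl : ∀ j, l j = ∑ i, (B.repr ⟨l j, hmem j⟩ i) • ((B i : Submodule.span K (Set.range l)) : AlgebraicClosure K) := by
    intro j
    have h1 := congrArg (fun v : Submodule.span K (Set.range l) => (v : AlgebraicClosure K)) (B.sum_repr ⟨l j, hmem j⟩)
    simp only [Submodule.coe_sum, Submodule.coe_smul] at h1
    exact h1.symm
  have h2 : ∑ i, algebraMap (AlgebraicClosure K) (RF (AlgebraicClosure K) r)
      ((B i : Submodule.span K (Set.range l)) : AlgebraicClosure K) *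
      rfmap (algebraMap K (AlgebraicClosure K)) r
        (∑ j, algebraMap K (RF K r) (B.repr ⟨l j, hmem j⟩ i) * σ (c j)) = 0 := by
    rw [← hsum]
    have h3 : ∀ i, algebraMap (AlgebraicClosure K) (RF (AlgebraicClosure K) r)
        ((B i : Submodule.span K (Set.range l)) : AlgebraicClosure K) *
        rfmap (algebraMap K (AlgebraicClosure K)) r
          (∑ j, algebraMap K (RF K r) (B.repr ⟨l j, hmem j⟩ i) * σ (c j)) =
        ∑ j, algebraMap (AlgebraicClosure K) (RF (AlgebraicClosure K) r)
          ((B.repr ⟨l j, hmem j⟩ i) • ((B i : Submodule.span K (Set.range l)) : AlgebraicClosure K)) * sbar σ (c j) := by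
      intro i
      rw [map_sum, Finset.mul_sum]
      refine Finset.sum_congr rfl fun j _ => ?_
      rw [map_mul, rfmap_const, Algebra.smul_def, map_mul]
      unfold sbar
      rw [RingHom.comp_apply]
      ring
    rw [Finset.sum_congr rfl fun i _ => h3 i, Finset.sum_comm]
    refine Finset.sum_congr rfl fun j _ => ?_
    rw [← Finset.sum_mul, ← map_sum, ← hl j]
  have h4 := A2a_step1 _ he _ h2
  have h5 : ∀ i j, B.repr ⟨l j, hmem j⟩ i = 0 := fun i j => hd n _ c hc (h4 i) j
  intro j
  rw [hl j]
  exact Finset.sum_eq_zero fun i _ => by rw [h5 i j, zero_smul]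

end Pool.Agent.LibHP
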