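import Pool.Agent.LibW64.Defs
import Pool.Agent.LibHPF.P7a

/-! # Row A2b: `K` and the algebraic closure of `L` are linearly disjoint over `L`

Plan. `Ω := AlgebraicClosure K`. The `β j` are algebraic over `L` (as elements of the `L`-algebra `Ω`);
let `Λ := IntermediateField.adjoin L (Set.range β)`, finite dimensional over `L`, so
`Λ = IntermediateField.adjoin L {γ}` (`Field.exists_primitive_element`, exactly as in
`isDomain_tensor_of_closed`, LibHPF/P7a.lean). `P7a_adjoin L K Ω hcl γ _` says that `L(γ)` and `K`
are linearly disjoint over `L` in `Ω`, so the `c j`, linearly independent over `L`, are linearly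
independent over `Λ` (`IntermediateField.LinearDisjoint.linearIndependent_right` and friends), and
`∑ j, β j * c j = 0` gives `β j = 0`. The hypothesis `hcl` of `P7a_adjoin`
(`∀ α : K, (∃ h : L[X], h ≠ 0 ∧ h.eval₂ (algebraMap L K) α = 0) → ∃ c, algebraMap L K c = α`) follows
from `ClosedSub L`: divide `h` by its leading coefficient and map it to `K[X]`. -/

set_option autoImplicit false
open Polynomial

namespace Pool.Agent.LibHP

theorem W_A2b {K : Type} [Field K] [CharZero K] (L : Subfield K) (hL : ClosedSub L) (n : ℕ)
    (β : Fin n → AlgebraicClosure K)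
    (hβ : ∀ j, AlgOver L (algebraMap K (AlgebraicClosure K)) (β j)) (c : Fin n → K)
    (hc : LinearIndependent L c)
    (hs : ∑ j, β j * algebraMap K (AlgebraicClosure K) (c j) = 0) : ∀ j, β j = 0 := by
  have hcl : ∀ α : K, (∃ h : L[X], h ≠ 0 ∧ h.eval₂ (algebraMap L K) α = 0) →
      ∃ c, algebraMap L K c = α := by
    rintro α ⟨h, h0, he⟩
    have hm : (h * C (h.leadingCoeff)⁻¹).Monic := Polynomial.monic_mul_leadingCoeff_inv h0
    have hα : α ∈ L := by
      refine hL α ⟨(h * C (h.leadingCoeff)⁻¹).map (algebraMap L K), hm.map _, ?_, ?_⟩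
      · intro i
        rw [Polynomial.coeff_map]
        exact Subtype.property _
      · rw [Polynomial.eval₂_map, RingHomCompTriple.comp_eq, Polynomial.eval₂_mul, he, zero_mul]
    exact ⟨⟨α, hα⟩, rfl⟩
  have hint : ∀ j, IsIntegral L (β j) := by
    intro j
    obtain ⟨h, hm, hcoef, he⟩ := hβ j
    have hl : h ∈ Polynomial.lifts (algebraMap L K) := by
      rw [Polynomial.lifts_iff_coeff_lifts]
      intro i
      exact ⟨⟨h.coeff i, hcoef i⟩, rfl⟩
    obtain ⟨q, hq, -, hqm⟩ := Polynomial.lifts_and_natDegree_eq_and_monic hl hm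
    refine ⟨q, hqm, ?_⟩
    rw [← hq, Polynomial.eval₂_map] at he
    rw [IsScalarTower.algebraMap_eq L K (AlgebraicClosure K)]
    exact he
  let E := IntermediateField.adjoin L (Set.range β)
  have hfd : FiniteDimensional L E := by
    have : Finite (Set.range β) := Set.finite_range β
    refine IntermediateField.finiteDimensional_adjoin ?_
    rintro x ⟨j, rfl⟩
    exact hint j
  obtain ⟨γ, hγ⟩ := Field.exists_primitive_element L E
  have hE : E = IntermediateField.adjoin L {(γ : AlgebraicClosure K)} := by
    have h1 := congrArg (IntermediateField.map E.val) hγ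
    rw [IntermediateField.adjoin_map, Set.image_singleton] at h1
    rw [← AlgHom.fieldRange_eq_map, IntermediateField.fieldRange_val] at h1
    exact h1.symm
  have hγi : IsIntegral L (γ : AlgebraicClosure K) :=
    (Algebra.IsIntegral.isIntegral (R := L) γ).map E.val
  have hd := P7a_adjoin L K (AlgebraicClosure K) hcl γ hγi
  rw [← hE] at hd
  have hli := hd.linearIndependent_right' hc
  have hmem : ∀ j, β j ∈ E := fun j => IntermediateField.subset_adjoin L _ ⟨j, rfl⟩
  have h2 := Fintype.linearIndependent_iff.1 hli (fun j => (⟨β j, hmem j⟩ : E)) (by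
    rw [← hs]
    refine Finset.sum_congr rfl fun j _ => ?_
    rfl)
  intro j
  exact congrArg Subtype.val (h2 j)

end Pool.Agent.LibHP
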