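import Pool.Agent.LibW64.A2b

/-! # Row B1: a generator algebraic over `L`

`Ω := AlgebraicClosure K`, `Λ := {β : Ω | AlgOver L _ β}`.

Plan. 1. `Λ` is a subfield of `Ω` (it is the set of the elements algebraic over `L`, i.e.
`IsAlgebraic L β` for the `L`-algebra `Ω`; use `algebraicClosure L Ω` or `IsAlgebraic.add`, ...), and
`K · Λ` (the `K`-span of `Λ`, i.e. `Algebra.adjoin K Λ`) is a field because it is algebraic over `K`
(`Subalgebra.isField_of_algebraic` or `IntermediateField.adjoin_toSubalgebra_of_isAlgebraic`-like lemmas:
`IntermediateField.algebra_adjoin_le_adjoin`, equality for algebraic elements). So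
`z = ∑ j, κ j * e j` with `κ j : K`, `e j ∈ Λ`, and we may take the `κ j` linearly independent over
`L` (choose a basis of the `L`-span of the `κ j`; or: `z` is in the image of
`K ⊗[L] (algebraicClosure L Ω) → Ω`, use a basis of `K` over `L`).
2. Every `e j` is in `K(z)`: `Ω / K(z)` is Galois (characteristic zero), so it is enough that every
`g : Ω ≃ₐ[K] Ω` with `g z = z` fixes `e j` (`InfiniteGalois.fixedField_fixingSubgroup`, or `genBy_of_auts`
of LibCH33/R3.lean with `F := K`). `g (e j) - e j` is algebraic over `L` and
`∑ j, (g (e j) - e j) * κ j = 0`, so `W_A2b` (row A2b) gives `g (e j) = e j`.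
3. `L (e_1, ..., e_m) = L (α)` for some `α` (primitive element, finite separable extension), so
`K(z) = K(e_1, ..., e_m) = K(α)`, and `α` is algebraic over `L`. -/

set_option autoImplicit false
open Polynomial

namespace Pool.Agent.LibHP

private theorem B1_algOver {K : Type} [Field K] (L : Subfield K) (β : AlgebraicClosure K) :
    AlgOver L (algebraMap K (AlgebraicClosure K)) β ↔ IsIntegral L β := by
  have hcomp : (algebraMap K (AlgebraicClosure K)).comp (algebraMap L K)
      = algebraMap L (AlgebraicClosure K) :=
    (IsScalarTower.algebraMap_eq L K (AlgebraicClosure K)).symm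
  constructor
  · rintro ⟨h, h1, h2, h3⟩
    have hl : h ∈ Polynomial.lifts (algebraMap L K) := by
      rw [Polynomial.lifts_iff_coeff_lifts]
      intro i
      exact ⟨⟨h.coeff i, h2 i⟩, rfl⟩
    obtain ⟨q, hq1, hq2, hq3⟩ := Polynomial.lifts_and_natDegree_eq_and_monic hl h1
    refine ⟨q, hq3, ?_⟩
    rw [← hq1, Polynomial.eval₂_map, hcomp] at h3
    exact h3
  · intro h
    refine ⟨(minpoly L β).map (algebraMap L K), (minpoly.monic h).map _, ?_, ?_⟩
    · intro i
      rw [Polynomial.coeff_map]
      exact ((minpoly L β).coeff i).2
    · rw [Polynomial.eval₂_map, hcomp]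
      exact minpoly.aeval L β

/-- the Galois step -/
private theorem B1_gal {K : Type} [Field K] [CharZero K] (z y : AlgebraicClosure K)
    (h : ∀ g : AlgebraicClosure K ≃ₐ[K] AlgebraicClosure K, g z = z → g y = y) :
    y ∈ IntermediateField.adjoin K {z} := by
  have hN : Normal K (AlgebraicClosure K) := IsAlgClosure.normal K (AlgebraicClosure K)
  have hG : IsGalois K (AlgebraicClosure K) := IsGalois.mk
  have h1 : y ∈ IntermediateField.fixedField
      (IntermediateField.fixingSubgroup (IntermediateField.adjoin K {z})) := by
    rw [IntermediateField.mem_fixedField_iff]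
    intro g hg
    refine h g ?_
    exact (IntermediateField.mem_fixingSubgroup_iff _ _).1 hg z
      (IntermediateField.subset_adjoin K {z} (Set.mem_singleton z))
  rw [InfiniteGalois.fixedField_fixingSubgroup] at h1
  exact h1

/-- the first step: `z` is a combination of elements algebraic over `L` with coefficients in `K`
linearly independent over `L` -/
private theorem B1_comb {K : Type} [Field K] (L : Subfield K) (z : AlgebraicClosure K)
    (hz : z ∈ Subfield.closure (Set.range (algebraMap K (AlgebraicClosure K)) ∪
      {β | AlgOver L (algebraMap K (AlgebraicClosure K)) β})) :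
    ∃ (n : ℕ) (e : Fin n → AlgebraicClosure K) (c : Fin n → K),
      (∀ j, IsIntegral L (e j)) ∧ LinearIndependent L c ∧
      z = ∑ j, e j * algebraMap K (AlgebraicClosure K) (c j) := by
  classical
  have hset : {β | AlgOver L (algebraMap K (AlgebraicClosure K)) β} =
      (integralClosure L (AlgebraicClosure K) : Set (AlgebraicClosure K)) := by
    ext β
    exact B1_algOver L β
  rw [hset] at hz
  have hz1 : z ∈ IntermediateField.adjoin K
      (integralClosure L (AlgebraicClosure K) : Set (AlgebraicClosure K)) := hz
  have hz2 : z ∈ Algebra.adjoin K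
      (integralClosure L (AlgebraicClosure K) : Set (AlgebraicClosure K)) := by
    rw [← IntermediateField.adjoin_toSubalgebra_of_isAlgebraic
      (fun x _ => Algebra.IsAlgebraic.isAlgebraic x)]
    exact hz1
  have hz3 : z ∈ Submodule.span K
      (integralClosure L (AlgebraicClosure K) : Set (AlgebraicClosure K)) := by
    have h1 : z ∈ Subalgebra.toSubmodule (Algebra.adjoin K
      (integralClosure L (AlgebraicClosure K) : Set (AlgebraicClosure K))) := hz2
    rw [Algebra.adjoin_eq_span] at h1
    have h2 : ((Submonoid.closure
        (integralClosure L (AlgebraicClosure K) : Set (AlgebraicClosure K)) :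
          Submonoid (AlgebraicClosure K)) : Set (AlgebraicClosure K)) =
        (integralClosure L (AlgebraicClosure K) : Set (AlgebraicClosure K)) := by
      have h3 := Submonoid.closure_eq (integralClosure L (AlgebraicClosure K)).toSubmonoid
      exact congrArg (fun S : Submonoid (AlgebraicClosure K) => (S : Set (AlgebraicClosure K))) h3
    rw [h2] at h1
    exact h1
  obtain ⟨m, κ, e, hze⟩ := Submodule.mem_span_set'.mp hz3
  let W : Submodule L K := Submodule.span L (Set.range κ)
  have hfin : Module.Finite L W := FiniteDimensional.span_of_finite L (Set.finite_range κ)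
  let b := Module.finBasis L W
  let κ' : Fin m → W := fun i => ⟨κ i, Submodule.subset_span ⟨i, rfl⟩⟩
  have hκ : ∀ i, κ i = ∑ j, ((b.repr (κ' i) j : L) : K) * ((b j : W) : K) := by
    intro i
    have h1 := b.sum_repr (κ' i)
    have h2 := congrArg (fun w : W => (w : K)) h1
    simp only [Submodule.coe_sum, Submodule.coe_smul] at h2
    exact h2.symm
  refine ⟨_, fun j => ∑ i, algebraMap L (AlgebraicClosure K) (b.repr (κ' i) j) * (e i : AlgebraicClosure K),
    fun j => ((b j : W) : K), ?_, ?_, ?_⟩
  · intro j
    refine IsIntegral.sum _ fun i _ => ?_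
    exact isIntegral_algebraMap.mul (e i).2
  · exact b.linearIndependent.map' W.subtype (Submodule.ker_subtype W)
  · rw [← hze]
    have h1 : ∀ i, κ i • (e i : AlgebraicClosure K) =
        ∑ j, algebraMap L (AlgebraicClosure K) (b.repr (κ' i) j) * (e i : AlgebraicClosure K) *
          algebraMap K (AlgebraicClosure K) ((b j : W) : K) := by
      intro i
      rw [Algebra.smul_def]
      conv_lhs => rw [hκ i]
      rw [map_sum, Finset.sum_mul]
      refine Finset.sum_congr rfl fun j _ => ?_
      rw [map_mul]
      have h2 : algebraMap K (AlgebraicClosure K) ((b.repr (κ' i) j : L) : K) =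
          algebraMap L (AlgebraicClosure K) (b.repr (κ' i) j) :=
        (IsScalarTower.algebraMap_apply L K (AlgebraicClosure K) _).symm
      rw [h2]
      ring
    simp_rw [h1, Finset.sum_mul]
    rw [Finset.sum_comm]

theorem W_B1 {K : Type} [Field K] [CharZero K] (L : Subfield K) (hL : ClosedSub L)
    (z : AlgebraicClosure K)
    (hz : z ∈ Subfield.closure (Set.range (algebraMap K (AlgebraicClosure K)) ∪
      {β | AlgOver L (algebraMap K (AlgebraicClosure K)) β})) :
    ∃ α : AlgebraicClosure K, AlgOver L (algebraMap K (AlgebraicClosure K)) α ∧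
      IntermediateField.adjoin K {α} = IntermediateField.adjoin K {z} := by
  classical
  obtain ⟨m, e, c, he, hc, hze⟩ := B1_comb L z hz
  have hchar : CharZero L := (RingHom.charZero_iff (algebraMap L K).injective).mpr inferInstance
  -- every `e j` lies in `K(z)`
  have hmem : ∀ j, e j ∈ IntermediateField.adjoin K {z} := by
    intro j
    refine B1_gal z (e j) fun g hg => ?_
    have h1 := W_A2b L hL m (fun j => g (e j) - e j) (fun j => by
      rw [B1_algOver]
      exact ((he j).map (g.toAlgHom.restrictScalars L)).sub (he j)) c hc (by
        have h2 : g z = ∑ j, g (e j) * algebraMap K (AlgebraicClosure K) (c j) := by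
          conv_lhs => rw [hze]
          rw [map_sum]
          refine Finset.sum_congr rfl fun j _ => ?_
          rw [map_mul, AlgEquiv.commutes]
        simp only [sub_mul, Finset.sum_sub_distrib]
        rw [← h2, ← hze, hg, sub_self]) j
    exact sub_eq_zero.mp h1
  -- a primitive element
  let E := IntermediateField.adjoin L (Set.range e)
  have hfd : FiniteDimensional L E :=
    IntermediateField.finiteDimensional_adjoin (by rintro _ ⟨j, rfl⟩; exact he j)
  obtain ⟨β, hβ⟩ := Field.exists_primitive_element L E
  have hE : E = IntermediateField.adjoin L {(β : AlgebraicClosure K)} := by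
    have h1 := congrArg (IntermediateField.map E.val) hβ
    rw [IntermediateField.adjoin_map, Set.image_singleton] at h1
    rw [← AlgHom.fieldRange_eq_map, IntermediateField.fieldRange_val] at h1
    exact h1.symm
  have hβi : IsIntegral L (β : AlgebraicClosure K) :=
    (Algebra.IsIntegral.isIntegral (R := L) β).map E.val
  refine ⟨(β : AlgebraicClosure K), (B1_algOver L _).mpr hβi, le_antisymm ?_ ?_⟩
  · rw [IntermediateField.adjoin_le_iff, Set.singleton_subset_iff]
    have h1 : E ≤ (IntermediateField.adjoin K {z}).restrictScalars L := by
      rw [IntermediateField.adjoin_le_iff]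
      rintro _ ⟨j, rfl⟩
      exact hmem j
    exact h1 β.2
  · rw [IntermediateField.adjoin_le_iff, Set.singleton_subset_iff]
    have h1 : E ≤ (IntermediateField.adjoin K {(β : AlgebraicClosure K)}).restrictScalars L := by
      refine le_trans (le_of_eq hE) ?_
      rw [IntermediateField.adjoin_le_iff, Set.singleton_subset_iff]
      exact IntermediateField.subset_adjoin K _ (Set.mem_singleton _)
    change z ∈ IntermediateField.adjoin K {(β : AlgebraicClosure K)}
    rw [hze]
    refine sum_mem fun j _ => mul_mem ?_ (IntermediateField.algebraMap_mem _ _)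
    exact h1 (IntermediateField.subset_adjoin L _ ⟨j, rfl⟩)

end Pool.Agent.LibHP
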