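import Pool.Agent.LibW64.Defs

/-! # Row B2: the polynomial of a generator algebraic over `L`

Plan. Let `h0` be the minimal polynomial of `α` over `L` (for the `L`-algebra `AlgebraicClosure K`; `α`
is integral over `L`: lift the polynomial of `AlgOver` to `L[X]`, `Polynomial.lifts`/`toSubring`),
`h := h0.map L.subtype`: monic, coefficients in `L`. `h` is the minimal polynomial of `α` over `K`:
`minpoly K α` divides `h`; all roots of `h` in `Ω = AlgebraicClosure K` are algebraic over `L`, so the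
coefficients of the monic factor `minpoly K α` of `h` (symmetric functions of some of the roots of `h`)
are algebraic over `L` and in `K`, hence in `L` by `hL`; so `minpoly K α` comes from a monic
polynomial over `L` killing `α`, of degree at least that of `h0`. (Or directly
`irreducible_map_of_closed`, LibHPF/P3a.lean, with `σ := L.subtype`:
`Irreducible (h0.map L.subtype)`, whose hypothesis `hcl` is `ClosedSub L` after dividing by the
leading coefficient.) Then `h.natDegree = finrank K K(α) = finrank K K(z) = T.natDegree ≥ 2`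
(`T = minpoly K z`, `minpoly.eq_of_irreducible_of_monic`; `IntermediateField.adjoin.finrank`). As
`α ∈ K(z)`, `α = aeval z q` for some `q : K[X]` (`IntermediateField.adjoin_simple_toSubalgebra_of_integral`,
`Algebra.adjoin_singleton_eq_range_aeval`), and `aeval z (h.comp q) = aeval α h = 0`, so
`T ∣ h.comp q` (`minpoly.dvd`). -/

set_option autoImplicit false
open Polynomial

namespace Pool.Agent.LibHP

private theorem B2_lift {K E : Type} [Field K] [Field E] (σ : K →+* E)
    (hcl : ∀ e : E, (∃ P : K[X], P ≠ 0 ∧ P.eval₂ σ e = 0) → ∃ a, σ a = e)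
    (Q : K[X]) (hm : Q.Monic) (g : E[X]) (hg : g.Monic) (hd : g ∣ Q.map σ) :
    ∃ g0 : K[X], g0.Monic ∧ g0.map σ = g := by
  let _ : Algebra K E := σ.toAlgebra
  have hmem := integralClosure.mem_lifts_of_monic_of_dvd_map (R := K) E hm hg hd
  rw [Polynomial.lifts_iff_coeff_lifts] at hmem
  have hl : g ∈ Polynomial.lifts σ := by
    rw [Polynomial.lifts_iff_coeff_lifts]
    intro n
    obtain ⟨y, hy⟩ := hmem n
    obtain ⟨P, hP, hP0⟩ := y.2
    obtain ⟨a, ha⟩ := hcl (g.coeff n) ⟨P, hP.ne_zero, by rw [← hy]; exact hP0⟩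
    exact ⟨a, ha⟩
  obtain ⟨g0, h1, -, h2⟩ := Polynomial.lifts_and_natDegree_eq_and_monic hl hg
  exact ⟨g0, h2, h1⟩

private theorem B2_closed {K : Type} [Field K] (L : Subfield K) (hL : ClosedSub L) :
    ∀ e : K, (∃ P : L[X], P ≠ 0 ∧ P.eval₂ L.subtype e = 0) → ∃ a, L.subtype a = e := by
  rintro e ⟨P, hP, hP0⟩
  refine ⟨⟨e, hL e ⟨(P * C P.leadingCoeff⁻¹).map L.subtype, ?_, ?_, ?_⟩⟩, rfl⟩
  · exact (Polynomial.monic_mul_leadingCoeff_inv hP).map _
  · intro i
    rw [coeff_map]
    exact (((P * C P.leadingCoeff⁻¹).coeff i) : L).2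
  · rw [eval₂_map, RingHom.id_comp, eval₂_mul, hP0, zero_mul]

theorem W_B2 {K : Type} [Field K] [CharZero K] (L : Subfield K) (hL : ClosedSub L) (T : K[X])
    (hm : T.Monic) (hT : Irreducible T) (h2 : 2 ≤ T.natDegree) (z α : AlgebraicClosure K)
    (hz : T.eval₂ (algebraMap K (AlgebraicClosure K)) z = 0)
    (hα : AlgOver L (algebraMap K (AlgebraicClosure K)) α)
    (hadj : IntermediateField.adjoin K {α} = IntermediateField.adjoin K {z}) :
    ∃ h q g : K[X], h.Monic ∧ Irreducible h ∧ 2 ≤ h.natDegree ∧ (∀ i, h.coeff i ∈ L) ∧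
      h.comp q = T * g := by
  obtain ⟨h₀, h₀m, h₀L, h₀0⟩ := hα
  have hα0 : aeval α h₀ = 0 := h₀0
  have hαi : IsIntegral K α := ⟨h₀, h₀m, h₀0⟩
  have hzi : IsIntegral K z := ⟨T, hm, hz⟩
  have hz0 : aeval z T = 0 := hz
  have hTz : T = minpoly K z := minpoly.eq_of_irreducible_of_monic hT hz0 hm
  have hlift : h₀ ∈ Polynomial.lifts L.subtype := by
    rw [Polynomial.lifts_iff_coeff_lifts]
    intro n
    exact ⟨⟨h₀.coeff n, h₀L n⟩, rfl⟩
  obtain ⟨Q, hQ1, -, hQ2⟩ := Polynomial.lifts_and_natDegree_eq_and_monic hlift h₀m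
  have hdvd : minpoly K α ∣ Q.map L.subtype := by
    rw [hQ1]
    exact minpoly.dvd K α hα0
  obtain ⟨g0, hg0m, hg0⟩ := B2_lift L.subtype (B2_closed L hL) Q hQ2 (minpoly K α)
    (minpoly.monic hαi) hdvd
  have hαz : α ∈ IntermediateField.adjoin K {z} := by
    rw [← hadj]
    exact IntermediateField.mem_adjoin_simple_self K α
  have hαz' : α ∈ (IntermediateField.adjoin K {z}).toSubalgebra := hαz
  rw [IntermediateField.adjoin_simple_toSubalgebra_of_isAlgebraic hzi.isAlgebraic,
    Algebra.adjoin_singleton_eq_range_aeval] at hαz'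
  obtain ⟨q, hq⟩ := hαz'
  have hq' : aeval z q = α := hq
  have hcomp : aeval z ((minpoly K α).comp q) = 0 := by
    rw [aeval_comp, hq', minpoly.aeval]
  have hdv : T ∣ (minpoly K α).comp q := by
    rw [hTz]
    exact minpoly.dvd K z hcomp
  obtain ⟨g, hg⟩ := hdv
  have hdeg : (minpoly K α).natDegree = T.natDegree := by
    rw [hTz, ← IntermediateField.adjoin.finrank hαi, ← IntermediateField.adjoin.finrank hzi]
    exact congrArg (fun S : IntermediateField K (AlgebraicClosure K) => Module.finrank K S) hadj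
  refine ⟨minpoly K α, q, g, minpoly.monic hαi, minpoly.irreducible hαi, by rw [hdeg]; exact h2,
    fun i => ?_, hg⟩
  rw [← hg0, coeff_map]
  exact (g0.coeff i).2

end Pool.Agent.LibHP
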