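import Pool.Agent.LibW64.Defs

/-! # Row B3: the generator inside `AdjoinRoot T`

Plan. `Ω := AlgebraicClosure K`, `N := AdjoinRoot T`. `AdjoinRoot.liftAlgHom`/`AdjoinRoot.lift` with
`root ↦ z` is a `K`-algebra map `θ : N →ₐ[K] Ω` with range `K(z)` (`IntermediateField.adjoin K {z}`;
the range is a field containing `z`, and it is contained in every intermediate field containing `z`).
`α ∈ K(α) = K(z)` gives `α' : N` with `θ α' = α`. `AlgOver L (algebraMap K N) α'`: the same polynomial
`h` (`θ` injective, `Polynomial.hom_eval₂`). `θ` maps `IntermediateField.adjoin K {α'}` onto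
`IntermediateField.adjoin K {α}` (`IntermediateField.adjoin_map`), the range of `θ`, so
`IntermediateField.adjoin K {α'} = ⊤` by injectivity. -/

set_option autoImplicit false
open Polynomial

namespace Pool.Agent.LibHP

theorem W_B3 {K : Type} [Field K] (L : Subfield K) (T : K[X]) [Fact (Irreducible T)]
    (z α : AlgebraicClosure K) (hz : T.eval₂ (algebraMap K (AlgebraicClosure K)) z = 0)
    (hα : AlgOver L (algebraMap K (AlgebraicClosure K)) α)
    (hadj : IntermediateField.adjoin K {α} = IntermediateField.adjoin K {z}) :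
    ∃ α' : AdjoinRoot T, AlgOver L (algebraMap K (AdjoinRoot T)) α' ∧
      IntermediateField.adjoin K {α'} = ⊤ := by
  classical
  let Ω := AlgebraicClosure K
  have hz' : aeval z T = 0 := hz
  let θ : AdjoinRoot T →ₐ[K] Ω := AdjoinRoot.liftAlgHom T (Algebra.ofId K Ω) z hz
  have hroot : θ (AdjoinRoot.root T) = z := AdjoinRoot.liftAlgHom_root T _ z _
  have hinj : Function.Injective θ := θ.toRingHom.injective
  have hmem : α ∈ θ.fieldRange := by
    have h1 : IntermediateField.adjoin K {z} ≤ θ.fieldRange := by
      rw [IntermediateField.adjoin_le_iff, Set.singleton_subset_iff]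
      exact ⟨AdjoinRoot.root T, hroot⟩
    apply h1
    rw [← hadj]
    exact IntermediateField.mem_adjoin_simple_self K α
  obtain ⟨α', hα'⟩ := hmem
  have hα'' : θ α' = α := hα'
  refine ⟨α', ?_, ?_⟩
  · obtain ⟨h, h1, h2, h3⟩ := hα
    refine ⟨h, h1, h2, ?_⟩
    apply hinj
    rw [map_zero]
    have h4 := Polynomial.hom_eval₂ h (algebraMap K (AdjoinRoot T)) θ.toRingHom α'
    have h5 : θ.toRingHom.comp (algebraMap K (AdjoinRoot T)) = algebraMap K Ω :=
      RingHom.ext fun c => θ.commutes c
    rw [h5] at h4
    change θ.toRingHom (eval₂ (algebraMap K (AdjoinRoot T)) α' h) = 0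
    rw [h4]
    change eval₂ (algebraMap K Ω) (θ α') h = 0
    rw [hα'']
    exact h3
  · rw [eq_top_iff]
    intro y _
    have h1 : θ y ∈ IntermediateField.adjoin K {z} := by
      obtain ⟨g, rfl⟩ := AdjoinRoot.mk_surjective y
      have h2 : θ (AdjoinRoot.mk T g) = aeval z g := by
        exact AdjoinRoot.liftAlgHom_mk T (Algebra.ofId K Ω) z hz g
      rw [h2]
      exact IntermediateField.algebra_adjoin_le_adjoin K {z} (Polynomial.aeval_mem_adjoin_singleton K z)
    rw [← hadj] at h1
    have h3 : (IntermediateField.adjoin K {α'}).map θ = IntermediateField.adjoin K {α} := by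
      rw [IntermediateField.adjoin_map, Set.image_singleton, hα'']
    rw [← h3] at h1
    obtain ⟨y', hy', hyy⟩ := h1
    have h4 : y' = y := hinj hyy
    rw [← h4]
    exact hy'

end Pool.Agent.LibHP
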