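import Pool.Agent.LibW64.Defs
import Pool.Agent.LibHPF.P3a

/-! # Row C1: constant extensions are unramified at horizontal points

Plan. Let `h0` be the minimal polynomial over `L` of `α` (`L` acts on `N` through `L → K → N`; `α` is a
root of a monic polynomial with coefficients in `L`). Put `A0 := algebraMap O K`, all elements of `L`
are in its image.
1. `α` is integral over `O`, and the integral elements of `N` over `O` are in `O[α]`: take
`B := IntermediateField.adjoin.powerBasis`-like power basis of `N = K(α)` over `K` (or
`PowerBasis` from `hgen`: `PowerBasis.ofAdjoinEqTop`/`IntermediateField.powerBasisOfAdjoinEqTop`...)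
with generator `α`, and `Algebra.discr_mul_isIntegral_mem_adjoin` :
`discr K B.basis • b ∈ Algebra.adjoin O {α}`. The discriminant is nonzero
(`Algebra.discr_not_zero_of_basis`, separable) and lies in `L`: it is up to sign the norm of
`(minpoly K α)'(α)` = a resultant of polynomials with coefficients in `L`; the minimal polynomial of `α`
over `K` has coefficients in `L` by `hL` (see row B2: `irreducible_map_of_closed`, LibHPF/P3a.lean).
So it is the image of a unit of `O` (both it and its inverse are in `L`, hence in `O`). ALTERNATIVE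
without discriminants: `h := minpoly K α` has coefficients in `L`; `O[X]/(h)` is etale over `O`... or:
the trace form: `Tr (α ^ (i + j)) ∈ L`, the matrix is invertible over `L`; for `b = ∑ x_j α ^ j`
integral over `O`, `Tr (b α ^ i) ∈ O` (`Algebra.isIntegral_trace`, `O` integrally closed), so
`x_j ∈ O`.
2. `D α ∈ O[α]`: `0 = D (h(α)) = h^D(α) + h'(α) D α`, where the coefficients of `h^D` are
`D` of the coefficients of `h`, which are in `O` (`hD`); `h` is separable over `L`, so
`u h + v h' = 1` with `u, v` over `L`, so `v(α) h'(α) = 1` and `D α = - v(α) h^D(α) ∈ O[α]`.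
3. So `D` preserves `O[α]` (Leibniz, `hD`), and `D b ∈ O[α]` is integral over `O`. -/

set_option autoImplicit false
open Polynomial

namespace Pool.Agent.LibHP

private theorem C1_deriv {K N : Type} [Field K] [Field N] [Algebra K N] (D : Derivation ℤ N N)
    (α : N) (g : K[X]) : D (aeval α g) = aeval α (derivative g) * D α +
      g.sum (fun i c => α ^ i * D (algebraMap K N c)) := by
  induction g using Polynomial.induction_on' with
  | add p q hp hq =>
    rw [map_add, map_add, hp, hq, derivative_add, map_add, Polynomial.sum_add_index]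
    · ring
    · intro i
      rw [map_zero, map_zero, mul_zero]
    · intro i a b
      rw [map_add, map_add, mul_add]
  | monomial n c =>
    rw [Polynomial.sum_monomial_index _ _ (by rw [map_zero, map_zero, mul_zero]),
      Polynomial.aeval_monomial, Polynomial.derivative_monomial, Polynomial.aeval_monomial,
      Derivation.leibniz, Derivation.leibniz_pow]
    simp only [smul_eq_mul, nsmul_eq_mul, map_mul, map_natCast]
    ring

/-- the minimal polynomial of an element algebraic over `L` has coefficients in `L` -/
private theorem C1_minpoly {K N : Type} [Field K] [Field N] [Algebra K N] (L : Subfield K)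
    (hL : ClosedSub L) (α : N) (hα : AlgOver L (algebraMap K N) α) :
    ∃ H : L[X], H.Monic ∧ H.map L.subtype = minpoly K α := by
  obtain ⟨h, h1, h2, h3⟩ := hα
  have hint : IsIntegral K α := ⟨h, h1, h3⟩
  have hl : h ∈ Polynomial.lifts L.subtype := by
    rw [Polynomial.lifts_iff_coeff_lifts]
    intro i
    exact ⟨⟨h.coeff i, h2 i⟩, rfl⟩
  obtain ⟨h0, e1, -, e2⟩ := Polynomial.lifts_and_natDegree_eq_and_monic hl h1
  refine P3a_lift L.subtype ?_ h0 e2 (minpoly K α) (minpoly.monic hint) ?_
  · intro e he
    obtain ⟨P, hP, hP0⟩ := he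
    have hlc : P.leadingCoeff ≠ 0 := Polynomial.leadingCoeff_ne_zero.2 hP
    have hP1 : (P * Polynomial.C P.leadingCoeff⁻¹).Monic :=
      Polynomial.monic_mul_leadingCoeff_inv hP
    refine ⟨⟨e, hL e ⟨(P * Polynomial.C P.leadingCoeff⁻¹).map L.subtype, hP1.map _, ?_, ?_⟩⟩, rfl⟩
    · intro i
      rw [Polynomial.coeff_map]
      exact ((P * Polynomial.C P.leadingCoeff⁻¹).coeff i).2
    · rw [Polynomial.eval₂_map, RingHom.id_comp, Polynomial.eval₂_mul, hP0, zero_mul]
  · rw [e1]
    exact minpoly.dvd K α h3

theorem W_C1 (O K N : Type) [CommRing O] [IsDomain O] [IsIntegrallyClosed O] [Field K] [CharZero K]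
    [Algebra O K] [IsFractionRing O K] [Field N] [Algebra K N] [FiniteDimensional K N]
    (L : Subfield K) (hL : ClosedSub L) (hLO : ∀ c ∈ L, ∃ a : O, algebraMap O K a = c) (α : N)
    (hα : AlgOver L (algebraMap K N) α) (hgen : IntermediateField.adjoin K {α} = ⊤)
    (D : Derivation ℤ N N)
    (hD : ∀ y : O, ∃ y' : O, D (algebraMap K N (algebraMap O K y)) =
      algebraMap K N (algebraMap O K y'))
    (b : N) (hb : ((algebraMap K N).comp (algebraMap O K)).IsIntegralElem b) :
    ((algebraMap K N).comp (algebraMap O K)).IsIntegralElem (D b) := by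
  classical
  letI : Algebra O N := ((algebraMap K N).comp (algebraMap O K)).toAlgebra
  haveI : IsScalarTower O K N := IsScalarTower.of_algebraMap_eq fun x => rfl
  change IsIntegral O b at hb
  change IsIntegral O (D b)
  obtain ⟨H, hHm, hH⟩ := C1_minpoly L hL α hα
  have hαK : IsIntegral K α := Algebra.IsIntegral.isIntegral α
  -- polynomials over `L` have values in `O[α]`
  have hval : ∀ g : L[X], aeval α (g.map L.subtype) ∈ Algebra.adjoin O {α} := by
    intro g
    rw [Polynomial.aeval_eq_sum_range]
    refine Subalgebra.sum_mem _ fun i _ => ?_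
    obtain ⟨a, ha⟩ := hLO _ (g.coeff i).2
    have h1 : (g.map L.subtype).coeff i = algebraMap O K a := by
      rw [Polynomial.coeff_map]
      exact ha.symm
    rw [h1, algebraMap_smul]
    exact Subalgebra.smul_mem _ (Subalgebra.pow_mem _
      (Algebra.subset_adjoin (Set.mem_singleton α)) i) a
  have hαO : IsIntegral O α := by
    have hl : minpoly K α ∈ Polynomial.lifts (algebraMap O K) := by
      rw [Polynomial.lifts_iff_coeff_lifts]
      intro i
      obtain ⟨a, ha⟩ := hLO _ (H.coeff i).2
      refine ⟨a, ?_⟩
      rw [ha, ← hH, Polynomial.coeff_map]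
      rfl
    obtain ⟨h0, e1, -, e2⟩ := Polynomial.lifts_and_natDegree_eq_and_monic hl (minpoly.monic hαK)
    refine ⟨h0, e2, ?_⟩
    have h1 := minpoly.aeval K α
    rw [← e1, Polynomial.aeval_map_algebraMap] at h1
    exact h1
  have hint : ∀ y ∈ Algebra.adjoin O {α}, IsIntegral O y := by
    intro y hy
    have h1 : Algebra.adjoin O {α} ≤ integralClosure O N := by
      rw [Algebra.adjoin_le_iff, Set.singleton_subset_iff]
      exact hαO
    exact h1 hy
  -- separability over `L`
  have hirr : Irreducible H := by
    refine hHm.irreducible_of_irreducible_map L.subtype H ?_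
    rw [hH]
    exact minpoly.irreducible hαK
  haveI : CharZero L := charZero_of_injective_algebraMap (R := ℚ) (algebraMap ℚ L).injective
  obtain ⟨u, v, huv⟩ := hirr.separable
  have hv : aeval α (v.map L.subtype) * aeval α (derivative (minpoly K α)) = 1 := by
    have h1 := congrArg (fun g : L[X] => aeval α (g.map L.subtype)) huv
    simp only [Polynomial.map_add, Polynomial.map_mul, Polynomial.map_one, map_add, map_mul,
      map_one, hH, minpoly.aeval, mul_zero, zero_add] at h1
    rw [← Polynomial.derivative_map, hH] at h1
    exact h1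
  have hd : aeval α (derivative (minpoly K α)) ∈ Algebra.adjoin O {α} := by
    rw [← hH, Polynomial.derivative_map]
    exact hval _
  -- the discriminant is a unit of `O`
  have hadj : Algebra.adjoin K {α} = ⊤ := by
    rw [← IntermediateField.adjoin_simple_toSubalgebra_of_isAlgebraic hαK.isAlgebraic, hgen]
    rfl
  let B : PowerBasis K N := PowerBasis.ofAdjoinEqTop hαK hadj
  have hBg : B.gen = α := PowerBasis.ofAdjoinEqTop_gen hαK hadj
  have hdisc := Algebra.discr_powerBasis_eq_norm K B
  have hmemb : b ∈ Algebra.adjoin O {α} := by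
    have h1 := Algebra.discr_mul_isIntegral_mem_adjoin K (R := O) (B := B) (by rw [hBg]; exact hαO) hb
    rw [hBg] at h1 hdisc
    obtain ⟨n1, hn1⟩ := IsIntegrallyClosed.isIntegral_iff.1
      (Algebra.isIntegral_norm K (hint _ (hval v)))
    have h2 : algebraMap O K n1 * Algebra.norm K (aeval α (derivative (minpoly K α))) = 1 := by
      rw [hn1, ← map_mul, hv, map_one]
    have h3 : (-1 : O) ^ (Module.finrank K N * (Module.finrank K N - 1) / 2) *
        (-1 : O) ^ (Module.finrank K N * (Module.finrank K N - 1) / 2) = 1 := by
      rw [← mul_pow]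
      norm_num
    have h4 : b = ((-1 : O) ^ (Module.finrank K N * (Module.finrank K N - 1) / 2) * n1) •
        (Algebra.discr K B.basis • b) := by
      rw [← algebraMap_smul K ((-1 : O) ^ _ * n1), smul_smul, hdisc, map_mul, map_pow, map_neg,
        map_one]
      have h5 : (-1 : K) ^ (Module.finrank K N * (Module.finrank K N - 1) / 2) *
          (-1 : K) ^ (Module.finrank K N * (Module.finrank K N - 1) / 2) = 1 := by
        rw [← mul_pow]
        norm_num
      have h6 : (-1 : K) ^ (Module.finrank K N * (Module.finrank K N - 1) / 2) *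
          algebraMap O K n1 * ((-1) ^ (Module.finrank K N * (Module.finrank K N - 1) / 2) *
          Algebra.norm K (aeval α (derivative (minpoly K α)))) = 1 := by
        calc _ = ((-1 : K) ^ (Module.finrank K N * (Module.finrank K N - 1) / 2) *
            (-1 : K) ^ (Module.finrank K N * (Module.finrank K N - 1) / 2)) *
            (algebraMap O K n1 * Algebra.norm K (aeval α (derivative (minpoly K α)))) := by ring
          _ = 1 := by rw [h5, h2, mul_one]
      rw [h6, one_smul]
    rw [h4]
    exact Subalgebra.smul_mem _ h1 _
  -- the derivative of `α`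
  have hDα : D α ∈ Algebra.adjoin O {α} := by
    have h1 := C1_deriv D α (minpoly K α)
    rw [minpoly.aeval, map_zero] at h1
    have h2 : D α = aeval α (v.map L.subtype) * (aeval α (derivative (minpoly K α)) * D α) := by
      rw [← mul_assoc, hv, one_mul]
    have h3 : aeval α (derivative (minpoly K α)) * D α =
        -(minpoly K α).sum (fun i c => α ^ i * D (algebraMap K N c)) := by
      exact eq_neg_of_add_eq_zero_left h1.symm
    rw [h2, h3]
    refine Subalgebra.mul_mem _ (hval v) (Subalgebra.neg_mem _ ?_)
    rw [Polynomial.sum_def]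
    refine Subalgebra.sum_mem _ fun i _ => Subalgebra.mul_mem _ (Subalgebra.pow_mem _
      (Algebra.subset_adjoin (Set.mem_singleton α)) i) ?_
    obtain ⟨a, ha⟩ := hLO _ (H.coeff i).2
    have h4 : (minpoly K α).coeff i = algebraMap O K a := by
      rw [ha, ← hH, Polynomial.coeff_map]
      rfl
    obtain ⟨a', ha'⟩ := hD a
    rw [h4, ha']
    exact Subalgebra.algebraMap_mem (Algebra.adjoin O {α}) a'
  have hDmem : ∀ y ∈ Algebra.adjoin O {α}, D y ∈ Algebra.adjoin O {α} := by
    intro y hy
    induction hy using Algebra.adjoin_induction with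
    | mem y hy =>
      rw [Set.mem_singleton_iff] at hy
      rw [hy]
      exact hDα
    | algebraMap a =>
      obtain ⟨a', ha'⟩ := hD a
      change D (algebraMap K N (algebraMap O K a)) ∈ _
      rw [ha']
      exact Subalgebra.algebraMap_mem (Algebra.adjoin O {α}) a'
    | add y z _ _ h1 h2 =>
      rw [map_add]
      exact Subalgebra.add_mem _ h1 h2
    | mul y z hy hz h1 h2 =>
      rw [Derivation.leibniz, smul_eq_mul, smul_eq_mul]
      exact Subalgebra.add_mem _ (Subalgebra.mul_mem _ hy h2) (Subalgebra.mul_mem _ hz h1)
  exact hint _ (hDmem b hmemb)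

end Pool.Agent.LibHP
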