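import Pool.Agent.LibHPF.P5
import Pool.Agent.LibHP2.A1

/-! # Row D1b: spreading out an anchored family

See the plan of row D1, part (ii): the same as `W_D1`, but all `F a` are regular at `u = 0`
(`HasVal (F a) _`), and `G` is anchored at the point `φ`.

Plan. 1. A copy of `exists_spread` (LibHPF/P5b.lean): for `s` in a finite generating set `S` of `A`
take `p s, q s` from `hreg s` (`constantCoeff (q s) = 1`); `g := ∏ s ∈ S, q s` has constant coefficient
`1` and `algebraMap g * F s = algebraMap (p' s)`. With this `g` the proof of `exists_spread` is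
unchanged (it only uses these two properties and `g ≠ 0`); in addition the lift `h` of `g` to
`MvPolynomial (Fin r) R` has constant coefficient `1`.
2. A copy of `exists_hom_of_dense` (LibHPF/P5.lean) with `φ.comp (Subalgebra.inclusion hR')` in the place
of `φ`, `ρ := (∏ ρ i) * h.coeff m`.
3. `HasVal (F a) c` implies `HasVal (G a) (φ c)`: `G0 a = p / h ^ n`, so `F a * map h ^ n = map p`,
`c = constantCoeff p` (`HasVal.unique`; `constantCoeff (h ^ n) = 1`), and
`G a * (map φ h) ^ n = map φ p`. -/

set_option autoImplicit false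
open Polynomial

namespace Pool.Agent.LibHP

/-- `exists_spread` (row P5b) with an anchored denominator. -/
private theorem D1b_spread (k M A : Type) [Field k] [Field M] [CommRing A] [Algebra k M] [Algebra k A]
    [Algebra.FiniteType k A] (r : ℕ) (F : A →ₐ[k] RF M r) (hreg : ∀ a, ∃ c, HasVal (F a) c) :
    ∃ R : Subalgebra k M, R.FG ∧ ∃ h : MvPolynomial (Fin r) R,
      MvPolynomial.constantCoeff h = 1 ∧
      ∃ (G : A →ₐ[k] Localization.Away h) (j : Localization.Away h →+* RF M r),
        (∀ p : MvPolynomial (Fin r) R, j (algebraMap _ _ p) = subRF R r p) ∧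
        ∀ a, j (G a) = F a := by
  classical
  obtain ⟨S, hS⟩ := Algebra.FiniteType.out (R := k) (A := A)
  have hinj : Function.Injective (algebraMap (MvPolynomial (Fin r) M) (RF M r)) :=
    IsFractionRing.injective _ _
  have hreg' : ∀ s : A, ∃ p q : MvPolynomial (Fin r) M, MvPolynomial.constantCoeff q = 1 ∧
      F s * algebraMap (MvPolynomial (Fin r) M) (RF M r) q = algebraMap _ _ p := by
    intro s
    obtain ⟨c, p, q, hq, -, e⟩ := hreg s
    exact ⟨p, q, hq, e⟩
  choose p0 q0 hq0 hpq0 using hreg'
  set g : MvPolynomial (Fin r) M := ∏ s ∈ S, q0 s with hg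
  have hg1 : MvPolynomial.constantCoeff g = 1 := by
    rw [hg, map_prod]
    exact Finset.prod_eq_one fun s _ => hq0 s
  have hg0 : g ≠ 0 := by
    intro h0
    rw [h0, map_zero] at hg1
    exact zero_ne_one hg1
  have hb2 : ∀ s : A, s ∈ S → ∃ p : MvPolynomial (Fin r) M,
      algebraMap (MvPolynomial (Fin r) M) (RF M r) p = algebraMap _ _ g * F s := by
    intro s hs
    refine ⟨p0 s * ∏ t ∈ S.erase s, q0 t, ?_⟩
    have h1 : g = q0 s * ∏ t ∈ S.erase s, q0 t := by
      rw [hg, Finset.mul_prod_erase _ _ hs]
    rw [h1, map_mul, map_mul, ← hpq0 s]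
    ring
  choose! p hp using hb2
  set T : Finset M := g.coeffs ∪ S.biUnion (fun s => (p s).coeffs) with hT
  set R : Subalgebra k M := Algebra.adjoin k (T : Set M) with hR
  have hcoe : ∀ q : MvPolynomial (Fin r) M, q.coeffs ⊆ T →
      ∃ q' : MvPolynomial (Fin r) R, MvPolynomial.map (R.val : R →+* M) q' = q := by
    intro q hq
    have h1 : q ∈ Set.range (MvPolynomial.map (σ := Fin r) (R.val : R →+* M)) := by
      rw [MvPolynomial.mem_range_map_iff_coeffs_subset]
      intro c hc
      have : c ∈ R := Algebra.subset_adjoin (hq hc)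
      exact ⟨⟨c, this⟩, rfl⟩
    exact h1
  have hRv : Function.Injective (R.val : R →+* M) := Subtype.val_injective
  obtain ⟨h, hh⟩ := hcoe g Finset.subset_union_left
  have hp' : ∀ s : A, s ∈ S → ∃ q : MvPolynomial (Fin r) R,
      MvPolynomial.map (R.val : R →+* M) q = p s := by
    intro s hs
    refine hcoe (p s) (Finset.Subset.trans ?_ Finset.subset_union_right)
    exact Finset.subset_biUnion_of_mem (fun s => (p s).coeffs) hs
  choose! p' hp' using hp'
  have hh1 : MvPolynomial.constantCoeff h = 1 := by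
    apply hRv
    rw [map_one, ← MvPolynomial.constantCoeff_map, hh, hg1]
  have hh0 : h ≠ 0 := by
    rintro rfl
    rw [map_zero] at hh
    exact hg0 hh.symm
  set f : MvPolynomial (Fin r) R →ₐ[k] RF M r :=
    (IsScalarTower.toAlgHom k (MvPolynomial (Fin r) M) (RF M r)).comp
      (MvPolynomial.mapAlgHom (R.val : R →ₐ[k] M)) with hf
  have hfs : ∀ q, f q = subRF R r q := fun q => rfl
  have hfinj : Function.Injective f := by
    intro x y hxy
    rw [hfs, hfs] at hxy
    exact MvPolynomial.map_injective _ hRv (hinj hxy)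
  have hfh : f h ≠ 0 := fun h0 => hh0 (hfinj (by rw [h0, map_zero]))
  have hunit : ∀ y : Submonoid.powers h, IsUnit (f y) := by
    rintro ⟨y, m, rfl⟩
    simp only [map_pow]
    exact (isUnit_iff_ne_zero.2 hfh).pow m
  have hle : Submonoid.powers h ≤ nonZeroDivisors (MvPolynomial (Fin r) R) :=
    powers_le_nonZeroDivisors_of_noZeroDivisors hh0
  set j : Localization.Away h →ₐ[k] RF M r :=
    IsLocalization.liftAlgHom (M := Submonoid.powers h) hunit with hj
  have hjalg : ∀ q : MvPolynomial (Fin r) R, j (algebraMap _ _ q) = subRF R r q := by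
    intro q
    rw [hj, IsLocalization.liftAlgHom_apply, IsLocalization.lift_eq]
    rfl
  have hjinj : Function.Injective j := by
    rw [hj, IsLocalization.coe_liftAlgHom, IsLocalization.lift_injective_iff]
    intro x y
    constructor
    · intro h
      rw [IsLocalization.injective (Localization.Away _) hle h]
    · intro h
      rw [hfinj h]
  have hrange : ∀ a : A, F a ∈ j.range := by
    have h1 : Algebra.adjoin k (S : Set A) ≤ (j.range).comap F := by
      apply Algebra.adjoin_le
      intro s hs
      have hs' : s ∈ S := hs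
      show F s ∈ j.range
      refine ⟨IsLocalization.mk' (Localization.Away h) (p' s) ⟨h, Submonoid.mem_powers h⟩, ?_⟩
      have h2 := IsLocalization.mk'_spec (Localization.Away h) (p' s)
        (⟨h, Submonoid.mem_powers h⟩ : Submonoid.powers h)
      have h3 := congrArg j h2
      rw [map_mul, hjalg, hjalg] at h3
      have e1 : subRF R r h = algebraMap _ _ g := by
        show algebraMap _ _ (MvPolynomial.map (R.val : R →+* M) h) = _
        rw [hh]
      have e2 : subRF R r (p' s) = algebraMap _ _ g * F s := by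
        show algebraMap _ _ (MvPolynomial.map (R.val : R →+* M) (p' s)) = _
        rw [hp' s hs', hp s hs']
      have hg1 : algebraMap (MvPolynomial (Fin r) M) (RF M r) g ≠ 0 := by
        intro h0
        exact hg0 (hinj (by rw [h0, map_zero]))
      have h4 : j (IsLocalization.mk' (Localization.Away h) (p' s)
          ⟨h, Submonoid.mem_powers h⟩) * algebraMap _ _ g = F s * algebraMap _ _ g := by
        rw [← e1, h3, e2, e1, mul_comm]
      exact mul_right_cancel₀ hg1 h4
    intro a
    have : a ∈ Algebra.adjoin k (S : Set A) := by rw [hS]; trivial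
    exact h1 this
  refine ⟨R, Subalgebra.fg_adjoin_finset T, h, hh1,
    ((AlgEquiv.ofInjective j hjinj).symm : j.range →ₐ[k] Localization.Away h).comp
    (F.codRestrict j.range hrange), (j : Localization.Away h →+* RF M r), hjalg, ?_⟩
  intro a
  have h1 : AlgEquiv.ofInjective j hjinj ((AlgEquiv.ofInjective j hjinj).symm
      (F.codRestrict j.range hrange a)) = F.codRestrict j.range hrange a :=
    AlgEquiv.apply_symm_apply _ _
  have h2 := congrArg Subtype.val h1
  exact h2

theorem W_D1b (k M A : Type) [Field k] [Field M] [CommRing A] [Algebra k M]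
    [Algebra k A] [Algebra.FiniteType k A] (r : ℕ) (F : A →ₐ[k] RF M r)
    (hreg : ∀ a, ∃ c, HasVal (F a) c)
    {ι : Type} [Finite ι] (P : ι → A[X]) (hP : ∀ i, (P i).Monic)
    (hroot : ∀ i, ∀ z : RF (AlgebraicClosure M) r,
      (P i).eval₂ ((rfmap (algebraMap M (AlgebraicClosure M)) r).comp (F : A →+* RF M r)) z ≠ 0) :
    ∃ (R : Subalgebra k M) (ρ : M), R.FG ∧ ρ ∈ R ∧ ρ ≠ 0 ∧
      ∀ (R' : Subalgebra k M) (_ : R ≤ R') (hρ : ρ ∈ R') (φ : R' →ₐ[k] k), φ ⟨ρ, hρ⟩ ≠ 0 →
        ∃ G : A →ₐ[k] RF k r, (∀ i, ∀ z, ¬ ((P i).map (G : A →+* RF k r)).IsRoot z) ∧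
          ∀ (a : A) (c : R'), HasVal (F a) (c : M) → HasVal (G a) (φ c) := by
  classical
  have := Fintype.ofFinite ι
  obtain ⟨R, hRfg, h, hh1, G, j, hj, hjG⟩ := D1b_spread k M A r F hreg
  have hh0 : h ≠ 0 := by
    rintro rfl
    rw [map_zero] at hh1
    exact zero_ne_one hh1
  have hinjM : Function.Injective (algebraMap (MvPolynomial (Fin r) M) (RF M r)) :=
    IsFractionRing.injective _ _
  have hRv : Function.Injective (R.val : R →+* M) := Subtype.val_injective
  -- the embedding of the coefficients in the algebraic closure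
  set Ω := AlgebraicClosure M with hΩ
  set jΩ : R →+* Ω := (algebraMap M Ω).comp (R.val : R →+* M) with hjΩ
  have hjΩi : Function.Injective jΩ := (algebraMap M Ω).injective.comp hRv
  have hinjΩ : Function.Injective (algebraMap (MvPolynomial (Fin r) Ω) (RF Ω r)) :=
    IsFractionRing.injective _ _
  -- the composite `Localization.Away h → RF M r → RF Ω r`
  set J : Localization.Away h →+* RF Ω r := (rfmap (algebraMap M Ω) r).comp j with hJ
  have hJalg : ∀ p : MvPolynomial (Fin r) R, J (algebraMap _ _ p) =
      algebraMap (MvPolynomial (Fin r) Ω) (RF Ω r) (MvPolynomial.map jΩ p) := by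
    intro p
    rw [hJ, RingHom.comp_apply, hj]
    show rfmap (algebraMap M Ω) r (algebraMap _ _ (MvPolynomial.map (R.val : R →+* M) p)) = _
    rw [rfmap, IsFractionRing.lift_algebraMap, RingHom.comp_apply, MvPolynomial.map_map]
  have hJh : J (algebraMap _ _ h) ≠ 0 := by
    rw [hJalg]
    intro h0
    exact hh0 (MvPolynomial.map_injective _ hjΩi (hinjΩ (by rw [h0, map_zero, map_zero])))
  -- clear denominators
  have h1 : ∀ i, ∃ (b : MvPolynomial (Fin r) R) (Q : (MvPolynomial (Fin r) R)[X]),
      b ∈ Submonoid.powers h ∧ Q.Monic ∧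
      Q.map (algebraMap (MvPolynomial (Fin r) R) (Localization.Away h)) =
        ((P i).map (G : A →+* Localization.Away h)).scaleRoots (algebraMap _ _ b) := by
    intro i
    have hm : ((P i).map (G : A →+* Localization.Away h)).Monic := (hP i).map _
    have h := IsLocalization.scaleRoots_commonDenom_mem_lifts (Submonoid.powers h)
      ((P i).map (G : A →+* Localization.Away h)) (by rw [hm.leadingCoeff]; exact one_mem _)
    obtain ⟨Q, hQ, _, hQm⟩ := Polynomial.lifts_and_natDegree_eq_and_monic h
      ((monic_scaleRoots_iff _).2 hm)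
    exact ⟨_, Q, (IsLocalization.commonDenom (Submonoid.powers _) _ _).2, hQm, hQ⟩
  choose b Q hb hQm hQ using h1
  -- the Nullstellensatz
  have h2 : ∀ i, ∃ ρ : R, ρ ≠ 0 ∧ ∀ (k' : Type) [Field k'] (φ : R →+* k'), φ ρ ≠ 0 →
      ∀ q : MvPolynomial (Fin r) k', ¬ ((Q i).map (MvPolynomial.map φ)).IsRoot q := by
    intro i
    refine exists_avoid R Ω jΩ hjΩi r (Q i) (hQm i) ?_
    intro q hq
    have hJb : J (algebraMap _ _ (b i)) ≠ 0 := by
      obtain ⟨m, hm⟩ := hb i
      rw [← hm, map_pow, map_pow]
      exact pow_ne_zero m hJh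
    apply hroot i (algebraMap _ _ q / J (algebraMap _ _ (b i)))
    have h3 := scaleRoots_eval₂_mul (p := (P i).map (G : A →+* Localization.Away h)) J
      (algebraMap _ _ q / J (algebraMap _ _ (b i))) (algebraMap _ _ (b i))
    have h5 : J.comp (algebraMap (MvPolynomial (Fin r) R) (Localization.Away h)) =
        (algebraMap (MvPolynomial (Fin r) Ω) (RF Ω r)).comp (MvPolynomial.map jΩ) :=
      RingHom.ext hJalg
    rw [mul_div_cancel₀ _ hJb, ← hQ, eval₂_map, h5, ← Polynomial.hom_eval₂,
      ← eval_map, show eval q ((Q i).map (MvPolynomial.map jΩ)) = 0 from hq, map_zero, eq_comm,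
      mul_eq_zero] at h3
    have h6 := h3.resolve_left (pow_ne_zero _ hJb)
    rw [eval₂_map] at h6
    have h7 : J.comp (G : A →+* Localization.Away h) =
        (rfmap (algebraMap M Ω) r).comp (F : A →+* RF M r) := by
      ext a
      show rfmap (algebraMap M Ω) r (j (G a)) = rfmap (algebraMap M Ω) r (F a)
      rw [hjG]
    rw [h7] at h6
    exact h6
  choose ρ hρ0 hρ using h2
  have ha0 : (∏ i, ρ i) ≠ 0 := Finset.prod_ne_zero_iff.mpr fun i _ => hρ0 i
  refine ⟨R, ((∏ i, ρ i : R) : M), hRfg, (∏ i, ρ i : R).2, ?_, ?_⟩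
  · intro h0
    exact ha0 (Subtype.ext h0)
  intro R' hR' hρR' φ' hφ'
  set φ : R →ₐ[k] k := φ'.comp (Subalgebra.inclusion hR') with hφdef
  have hφ : φ (∏ i, ρ i) ≠ 0 := hφ'
  rw [map_prod] at hφ
  have hφρ : ∀ i, φ (ρ i) ≠ 0 := fun i =>
    Finset.prod_ne_zero_iff.mp hφ i (Finset.mem_univ i)
  have hinjk : Function.Injective (algebraMap (MvPolynomial (Fin r) k) (RF k r)) :=
    IsFractionRing.injective _ _
  set f : MvPolynomial (Fin r) R →ₐ[k] RF k r :=
    (IsScalarTower.toAlgHom k (MvPolynomial (Fin r) k) (RF k r)).comp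
      (MvPolynomial.mapAlgHom φ) with hf
  have hfs : ∀ q, f q = algebraMap _ _ (MvPolynomial.map (φ : R →+* k) q) := fun q => rfl
  have hφh : MvPolynomial.constantCoeff (MvPolynomial.map (φ : R →+* k) h) = 1 := by
    rw [MvPolynomial.constantCoeff_map, hh1, map_one]
  have hfh : f h ≠ 0 := by
    rw [hfs]
    exact A1_ne hφh
  have hunit : ∀ y : Submonoid.powers h, IsUnit (f y) := by
    rintro ⟨y, m, rfl⟩
    simp only [map_pow]
    exact (isUnit_iff_ne_zero.2 hfh).pow m
  set ψ : Localization.Away h →ₐ[k] RF k r :=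
    IsLocalization.liftAlgHom (M := Submonoid.powers h) hunit with hψ
  have hψalg : ∀ q : MvPolynomial (Fin r) R, ψ (algebraMap _ _ q) =
      algebraMap _ _ (MvPolynomial.map (φ : R →+* k) q) := by
    intro q
    rw [hψ, IsLocalization.liftAlgHom_apply, IsLocalization.lift_eq]
    rfl
  refine ⟨ψ.comp G, fun i z hz => ?_, ?_⟩
  · -- the root of the cleared polynomial
    have h3 := scaleRoots_eval₂_mul (p := (P i).map (G : A →+* Localization.Away h))
      (ψ : Localization.Away h →+* RF k r) z (algebraMap _ _ (b i))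
    have h5 : (ψ : Localization.Away h →+* RF k r).comp
        (algebraMap (MvPolynomial (Fin r) R) (Localization.Away h)) =
        (algebraMap (MvPolynomial (Fin r) k) (RF k r)).comp
          (MvPolynomial.map (φ : R →+* k)) :=
      RingHom.ext hψalg
    have h6 : eval₂ (ψ : Localization.Away h →+* RF k r) z
        ((P i).map (G : A →+* Localization.Away h)) = 0 := by
      rw [IsRoot, eval_map] at hz
      rw [eval₂_map]
      exact hz
    rw [h6, mul_zero, ← hQ, eval₂_map, h5] at h3
    set w : RF k r := (ψ : Localization.Away h →+* RF k r) (algebraMap _ _ (b i)) * z with hw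
    have hmon : ((Q i).map (MvPolynomial.map (φ : R →+* k))).Monic := (hQm i).map _
    have hint : IsIntegral (MvPolynomial (Fin r) k) w := by
      refine ⟨_, hmon, ?_⟩
      rw [eval₂_map]
      exact h3
    obtain ⟨q, hq⟩ := IsIntegrallyClosed.isIntegral_iff.mp hint
    apply hρ i k (φ : R →+* k) (hφρ i) q
    rw [← hq, ← Polynomial.hom_eval₂] at h3
    have h8 := hinjk (h3.trans (map_zero _).symm)
    rw [IsRoot, eval_map]
    exact h8
  · intro a c hac
    obtain ⟨p, s, hps⟩ := IsLocalization.exists_mk'_eq (Submonoid.powers h) (G a)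
    obtain ⟨s, n, rfl⟩ := s
    have h3 : G a * algebraMap (MvPolynomial (Fin r) R) (Localization.Away h) (h ^ n) =
        algebraMap _ _ p := by
      rw [← hps]
      exact IsLocalization.mk'_spec (Localization.Away h) p _
    have h4 : F a * algebraMap (MvPolynomial (Fin r) M) (RF M r)
        (MvPolynomial.map (R.val : R →+* M) (h ^ n)) =
        algebraMap _ _ (MvPolynomial.map (R.val : R →+* M) p) := by
      have h5 := congrArg j h3
      rw [map_mul, hj, hj, hjG] at h5
      exact h5
    have h5 : HasVal (F a) (MvPolynomial.constantCoeff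
        (MvPolynomial.map (R.val : R →+* M) p)) := by
      refine ⟨_, _, ?_, rfl, h4⟩
      rw [MvPolynomial.constantCoeff_map, map_pow, hh1, one_pow, map_one]
    have h6 : (c : M) = ((MvPolynomial.constantCoeff p : R) : M) := by
      rw [hac.unique h5, MvPolynomial.constantCoeff_map]
      rfl
    have h7 : φ' c = φ (MvPolynomial.constantCoeff p) := by
      rw [hφdef, AlgHom.comp_apply]
      congr 1
      exact Subtype.ext h6
    refine ⟨MvPolynomial.map (φ : R →+* k) p, MvPolynomial.map (φ : R →+* k) (h ^ n), ?_, ?_, ?_⟩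
    · rw [MvPolynomial.constantCoeff_map, map_pow, hh1, one_pow, map_one]
    · rw [MvPolynomial.constantCoeff_map, h7]
      rfl
    · have h8 := congrArg ψ h3
      rw [map_mul, hψalg, hψalg] at h8
      exact h8

end Pool.Agent.LibHP
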