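import Pool.Agent.LibHP.H9
import Pool.Agent.LibHP2.Defs

/-! # Row D2: Hilbert irreducibility, constants are preserved

Plan. `I := RingHom.ker G`, `A' := A ⧸ I`, `G' : A' →ₐ[k] RF k r` (`Ideal.Quotient.liftₐ` or
`AlgHom.kerLift`), `P' i := (P i).map (Ideal.Quotient.mk I)`; `exists_point_of_hom k r A' G' P'`
(LibHP/H9.lean) gives `φ' : A' →ₐ[k] k`; `φ := φ'.comp (Ideal.Quotient.mkₐ k I)`. If
`G a = algebraMap k _ c` then `a - algebraMap k A c ∈ I`, so `φ a = c`. -/

set_option autoImplicit false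
open Polynomial

namespace Pool.Agent.LibHP

theorem W_D2 (k : Type) [Field k] [NumberField k] (r : ℕ) (A : Type) [CommRing A] [Algebra k A]
    [Algebra.FiniteType k A] (G : A →ₐ[k] RF k r) {ι : Type} [Finite ι] (P : ι → A[X])
    (hP : ∀ i, (P i).Monic) (hroot : ∀ i, ∀ z, ¬ ((P i).map (G : A →+* RF k r)).IsRoot z) :
    ∃ φ : A →ₐ[k] k, (∀ i, ∀ x : k, ¬ ((P i).map (φ : A →+* k)).IsRoot x) ∧
      ∀ (a : A) (c : k), G a = algebraMap k (RF k r) c → φ a = c := by
  let I : Ideal A := RingHom.ker (G : A →+* RF k r)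
  let π : A →ₐ[k] A ⧸ I := Ideal.Quotient.mkₐ k I
  let G' : (A ⧸ I) →ₐ[k] RF k r := Ideal.Quotient.liftₐ I G (fun a ha => ha)
  have hGr : (G' : (A ⧸ I) →+* RF k r).comp (π : A →+* A ⧸ I) = (G : A →+* RF k r) :=
    RingHom.ext fun a => rfl
  haveI : Algebra.FiniteType k (A ⧸ I) :=
    Algebra.FiniteType.of_surjective π (Ideal.Quotient.mkₐ_surjective k I)
  obtain ⟨φ', hφ'⟩ := exists_point_of_hom k r (A ⧸ I) G' (fun i => (P i).map (π : A →+* A ⧸ I))
    (fun i => (hP i).map _) (fun i z => by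
      rw [Polynomial.map_map, hGr]
      exact hroot i z)
  refine ⟨φ'.comp π, fun i x => ?_, fun a c hac => ?_⟩
  · have h := hφ' i x
    rw [Polynomial.map_map] at h
    exact h
  · have h1 : a - algebraMap k A c ∈ I := by
      show (G : A →+* RF k r) (a - algebraMap k A c) = 0
      rw [map_sub, sub_eq_zero]
      show G a = G (algebraMap k A c)
      rw [hac, AlgHom.commutes]
    have h2 : π a = π (algebraMap k A c) := Ideal.Quotient.eq.2 h1
    show φ' (π a) = c
    rw [h2, AlgHom.commutes, AlgHom.commutes]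
    rfl

end Pool.Agent.LibHP
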