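import Pool.Agent.LibCH33.Defs

/-! # Webs of fibrations: definitions -/

set_option autoImplicit false
open Polynomial

namespace Pool.Agent.LibHP

/-- The rational map `X ⇢ T` is given by the subfield `L = L(T)` of the function field `K` of `X`; its
generic fibre `Y` is a variety over `L` with function field `K`. `FibreDominated L`: over its own
function field `K`, the variety `Y` is dominated by an affine space with geometrically irreducible
generic fibre. The dominant rational map is the embedding `σ` of `K` over `L` in
`K(u_1, ..., u_r)`, for which `K` and `σ (K)` are linearly disjoint over `L` and generate a field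
which is algebraically closed in `K(u_1, ..., u_r)`. -/
def FibreDominated {K : Type} [Field K] (L : Subfield K) : Prop :=
  ∃ (r : ℕ) (σ : K →+* RF K r),
    (∀ c ∈ L, σ c = algebraMap K (RF K r) c) ∧
    LinDisj L (algebraMap K (RF K r)) σ ∧
    ∀ z : RF K r,
      IsAlgebraic (Subfield.closure (Set.range (algebraMap K (RF K r)) ∪ Set.range σ)) z →
        z ∈ Subfield.closure (Set.range (algebraMap K (RF K r)) ∪ Set.range σ)

/-- `K` is the function field over `L` of a smooth quadric of positive dimension: `y` is a generic
point of the quadric `∑ a_i y_i ^ 2 = 0`, in at least three variables. -/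
def IsQuadricField {K : Type} [Field K] (L : Subfield K) : Prop :=
  ∃ (m : ℕ) (a : Fin (m + 3) → L) (y : Fin (m + 3) → K),
    (∀ i, a i ≠ 0) ∧ y 0 = 1 ∧ ∑ i, (a i : K) * y i ^ 2 = 0 ∧
    (∀ (d : ℕ) (G : MvPolynomial (Fin (m + 3)) L), G.IsHomogeneous d →
      MvPolynomial.aeval y G = 0 →
        (∑ i, MvPolynomial.C (a i) * MvPolynomial.X i ^ 2) ∣ G) ∧
    Subfield.closure ((L : Set K) ∪ Set.range y) = ⊤

/-- `α` is algebraic over the subfield `L` of `K` (for an extension `j : K → N`). -/
def AlgOver {K N : Type} [Field K] [Field N] (L : Subfield K) (j : K →+* N) (α : N) : Prop :=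
  ∃ h : K[X], h.Monic ∧ (∀ i, h.coeff i ∈ L) ∧ h.eval₂ j α = 0

/-- `L` is algebraically closed in `K`. -/
def ClosedSub {K : Type} [Field K] (L : Subfield K) : Prop :=
  ∀ α : K, AlgOver L (RingHom.id K) α → α ∈ L

/-- There are points (homomorphisms to `k`) of large finitely generated subalgebras of `K` at which
the polynomials `T i` have no root in `k`. -/
def Avoid (k : Type) {K : Type} [Field k] [Field K] [Algebra k K] {ι : Type} (T : ι → K[X]) :
    Prop :=
  ∀ R : Subalgebra k K, R.FG → ∃ (R' : Subalgebra k K) (P : ι → R'[X]) (φ : R' →ₐ[k] k),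
    R ≤ R' ∧ (∀ i, (P i).map (R'.val : R' →+* K) = T i) ∧
    ∀ i, ∀ x : k, ¬ ((P i).map (φ : R' →+* k)).IsRoot x

end Pool.Agent.LibHP
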