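import Pool.Agent.LibW64.FDefs

/-! # Row F1: existence of a presentation

Plan. 1. `AL := Algebra.adjoin L (A : Set K)` is a finitely generated `L`-algebra (generated by the
generators of `A` over `k`; `k ⊆ L`-part: `algebraMap k K c` is in `A0`, so in `L`), a domain with fraction
field `K`. Noether normalization (Mathlib: `exists_integral_inj_algHom_of_fg L AL` or
`exists_integral_inj_algHom_of_quot`): `x' : Fin m → AL` algebraically independent over `L` with `AL`
integral over `L[x']`. Every element of `AL` is `c⁻¹ a` with `c ∈ A0` nonzero and `a ∈ A` (clear the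
denominators of the coefficients in `L = Frac A0`), so after multiplication by elements of `A0` we may
take `x i ∈ A`. `0 < m`: otherwise `AL` is integral over `L`, so `K` is algebraic over `L` and (as `K` is a
field) ... then `hcl` (`ClosedSub L`) gives `K = L`, against `hne`.
2. `K` is finite separable over `L(x)`; primitive element `ξ'` (`Field.exists_primitive_element`), which
may be multiplied by a nonzero element of `L[x]` to be integral over `L[x]` and in `AL` (write
`ξ' = u / w` with `u, w ∈ A`; `w` is integral over `L[x]`, so it divides a nonzero element of `L[x]`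
in `L[x][w]`), then by a nonzero element of `A0` to be in `A`, and to have a minimal polynomial with
coefficients in `A0[x]` (the minimal polynomial over `L(x)` has coefficients in `L[x]`, integrally closed;
replace `ξ` by `c ξ`, `c ∈ A0`, to multiply the coefficient of `Y ^ (e - l)` by `c ^ l`). `hmin`: it is
the minimal polynomial over `L(x)`.
3. The generators `a_l` of `A` over `k` are integral over `L[x]`: take `ρ ∈ A0` a common denominator of
the coefficients of the equations: `ρ ^ N a` is integral over `A0[x]` for all `a ∈ A` (sums and products of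
integral elements; `N` large). `hgen`: `a_l = Q_l(ξ) / g_l` with `Q_l, g_l` over `L[x]`, clear
denominators, `g` := product of all the `g_l` over `A0[x]`. The elements `a` of `A` for which
`hgen` holds form a subalgebra (powers of `g`). -/

set_option autoImplicit false
open Polynomial

namespace Pool.Agent.LibHP

/-- integrality in terms of ring homomorphisms -/
private theorem f1_ie_mul {R K : Type} [CommRing R] [CommRing K] (ev : R →+* K) {a b : K}
    (ha : ev.IsIntegralElem a) (hb : ev.IsIntegralElem b) : ev.IsIntegralElem (a * b) := by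
  let _ := ev.toAlgebra
  exact IsIntegral.mul (R := R) (A := K) ha hb

private theorem f1_ie_add {R K : Type} [CommRing R] [CommRing K] (ev : R →+* K) {a b : K}
    (ha : ev.IsIntegralElem a) (hb : ev.IsIntegralElem b) : ev.IsIntegralElem (a + b) := by
  let _ := ev.toAlgebra
  exact IsIntegral.add (R := R) (A := K) ha hb

/-- the minimal polynomial -/
private theorem f1_min {R K : Type} [CommRing R] [IsDomain R] [IsIntegrallyClosed R] [Field K]
    (ev : R →+* K) (hev : Function.Injective ev) (ξ : K) (hξ : ev.IsIntegralElem ξ) :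
    ∃ M : R[X], M.Monic ∧ M.eval₂ ev ξ = 0 ∧
      ∀ P : R[X], P.natDegree < M.natDegree → P.eval₂ ev ξ = 0 → P = 0 := by
  let _ := ev.toAlgebra
  have : FaithfulSMul R K := (faithfulSMul_iff_algebraMap_injective R K).2 hev
  refine ⟨minpoly R ξ, minpoly.monic hξ, minpoly.aeval R ξ, ?_⟩
  intro P hd hP
  by_contra hP0
  have h1 := minpoly.IsIntegrallyClosed.degree_le_of_ne_zero (R := R) (s := ξ) hP0 hP
  have h2 := Polynomial.natDegree_le_natDegree h1
  omega

/-- a primitive element over the fraction field of `R` -/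
private theorem f1_prim {R K : Type} [CommRing R] [IsDomain R] [Field K] [CharZero K]
    (ev : R →+* K) (hev : Function.Injective ev) (S : Finset K)
    (hS : ∀ s ∈ S, ev.IsIntegralElem s)
    (hgen : ∀ T : Subfield K, (∀ r, ev r ∈ T) → (∀ s ∈ S, s ∈ T) → T = ⊤) :
    ∃ ξ : K, ∀ z : K, ∃ h : R, h ≠ 0 ∧ ∃ Q : R[X], ev h * z = Q.eval₂ ev ξ := by
  let _ := ev.toAlgebra
  have : FaithfulSMul R K := (faithfulSMul_iff_algebraMap_injective R K).2 hev
  let _ := FractionRing.liftAlgebra R K
  have := FractionRing.isScalarTower_liftAlgebra R K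
  have : CharZero (FractionRing R) := by
    constructor
    intro a b hab
    have h1 := congrArg (algebraMap (FractionRing R) K) hab
    simpa using h1
  have hmap : ∀ r : R, algebraMap (FractionRing R) K (algebraMap R (FractionRing R) r) = ev r :=
    fun r => (IsScalarTower.algebraMap_apply R (FractionRing R) K r).symm
  have htop : IntermediateField.adjoin (FractionRing R) (S : Set K) = ⊤ := by
    have h1 : (IntermediateField.adjoin (FractionRing R) (S : Set K)).toSubfield = ⊤ := by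
      apply hgen
      · intro r
        rw [← hmap r]
        exact (IntermediateField.adjoin (FractionRing R) (S : Set K)).algebraMap_mem _
      · intro s hs
        exact IntermediateField.subset_adjoin _ _ (Finset.mem_coe.2 hs)
    rw [eq_top_iff]
    intro z _
    have h2 : z ∈ (IntermediateField.adjoin (FractionRing R) (S : Set K)).toSubfield := by
      rw [h1]
      exact Subfield.mem_top z
    exact h2
  have hfin : FiniteDimensional (FractionRing R) K := by
    have h1 : FiniteDimensional (FractionRing R)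
        (IntermediateField.adjoin (FractionRing R) (S : Set K)) := by
      apply IntermediateField.finiteDimensional_adjoin
      intro x hx
      have h2 : IsIntegral R x := hS x (Finset.mem_coe.1 hx)
      exact h2.tower_top
    rw [htop] at h1
    exact (IntermediateField.topEquiv (F := FractionRing R) (E := K)).toLinearEquiv.finiteDimensional
  obtain ⟨α, hα⟩ := Field.exists_primitive_element (FractionRing R) K
  refine ⟨α, fun z => ?_⟩
  have hz : z ∈ (IntermediateField.adjoin (FractionRing R) {α}).toSubalgebra := by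
    rw [hα]
    trivial
  rw [IntermediateField.adjoin_simple_toSubalgebra_of_isAlgebraic
    (Algebra.IsAlgebraic.isAlgebraic α), Algebra.adjoin_singleton_eq_range_aeval] at hz
  obtain ⟨q, hq⟩ := hz
  obtain ⟨b, hb0, hb⟩ := IsLocalization.integerNormalization_spec (nonZeroDivisors R) q
  refine ⟨b, nonZeroDivisors.ne_zero hb0,
    IsLocalization.integerNormalization (nonZeroDivisors R) q, ?_⟩
  have h3 := congrArg (Polynomial.aeval (R := FractionRing R) α) hb
  rw [Polynomial.aeval_map_algebraMap] at h3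
  have h4 : (IsLocalization.integerNormalization (nonZeroDivisors R) q).eval₂ ev α =
      Polynomial.aeval (R := R) α (IsLocalization.integerNormalization (nonZeroDivisors R) q) := rfl
  rw [h4, h3]
  have h5 : ((b : R) • q : (FractionRing R)[X]) =
      Polynomial.C (algebraMap R (FractionRing R) b) * q := by
    rw [Polynomial.C_mul', algebraMap_smul]
  have h6 : Polynomial.aeval α q = z := hq
  rw [h5, map_mul, Polynomial.aeval_C, hmap, h6]

/-- rescaling the primitive element -/
private theorem f1_rescale {R K : Type} [CommRing R] [IsDomain R] [Field K]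
    (ev : R →+* K) (ξ : K)
    (hgen : ∀ z : K, ∃ h : R, h ≠ 0 ∧ ∃ Q : R[X], ev h * z = Q.eval₂ ev ξ) (c : R) (hc : c ≠ 0) :
    ∀ z : K, ∃ h : R, h ≠ 0 ∧ ∃ Q : R[X], ev h * z = Q.eval₂ ev (ev c * ξ) := by
  intro z
  obtain ⟨h, hh, Q, hQ⟩ := hgen z
  refine ⟨c ^ Q.natDegree * h, mul_ne_zero (pow_ne_zero _ hc) hh, Q.scaleRoots c, ?_⟩
  rw [Polynomial.scaleRoots_eval₂_mul, map_mul, map_pow, mul_assoc, hQ]

/-- rescaling the minimal polynomial -/
private theorem f1_min_rescale {R K : Type} [CommRing R] [IsDomain R] [Field K]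
    (ev : R →+* K) (ξ : K) (d : ℕ)
    (hmin : ∀ P : R[X], P.natDegree < d → P.eval₂ ev ξ = 0 → P = 0) (c : R) (hc : c ≠ 0) :
    ∀ P : R[X], P.natDegree < d → P.eval₂ ev (ev c * ξ) = 0 → P = 0 := by
  intro P hd hP
  have h1 : (P.comp (C c * X)).eval₂ ev ξ = 0 := by
    rw [Polynomial.eval₂_comp, Polynomial.eval₂_mul, Polynomial.eval₂_C, Polynomial.eval₂_X]
    exact hP
  have h2 : (P.comp (C c * X)).natDegree < d := by
    refine lt_of_le_of_lt ?_ hd
    rw [Polynomial.natDegree_le_iff_coeff_eq_zero]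
    intro N hN
    rw [Polynomial.comp_C_mul_X_coeff, Polynomial.coeff_eq_zero_of_natDegree_lt hN, zero_mul]
  have h3 := hmin _ h2 h1
  ext n
  have h4 := congrArg (fun q : R[X] => q.coeff n) h3
  simp only [Polynomial.comp_C_mul_X_coeff, Polynomial.coeff_zero] at h4
  rw [Polynomial.coeff_zero]
  exact (mul_eq_zero.1 h4).resolve_right (pow_ne_zero _ hc)

/-- lifting a rescaled monic polynomial -/
private theorem f1_lift {R0 R : Type} [CommRing R0] [CommRing R] [Nontrivial R] (f : R0 →+* R)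
    (p : R[X]) (hp : p.Monic) (c : R0) (hc : ∀ i, f c * p.coeff i ∈ Set.range f) :
    ∃ q : R0[X], q.map f = p.scaleRoots (f c) ∧ q.natDegree = p.natDegree ∧ q.Monic := by
  have h1 : p.scaleRoots (f c) ∈ Polynomial.lifts f := by
    rw [Polynomial.lifts_iff_coeff_lifts]
    intro n
    rw [Polynomial.coeff_scaleRoots]
    rcases lt_trichotomy n p.natDegree with h | h | h
    · obtain ⟨e, he⟩ : ∃ e, p.natDegree - n = e + 1 := ⟨p.natDegree - n - 1, by omega⟩
      obtain ⟨y, hy⟩ := hc n
      refine ⟨y * c ^ e, ?_⟩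
      rw [map_mul, map_pow, hy, he]
      ring
    · refine ⟨1, ?_⟩
      rw [h, Polynomial.Monic.coeff_natDegree hp, Nat.sub_self, pow_zero, mul_one, map_one]
    · refine ⟨0, ?_⟩
      rw [Polynomial.coeff_eq_zero_of_natDegree_lt h, zero_mul, map_zero]
  obtain ⟨q, h2, h3, h4⟩ := Polynomial.lifts_and_natDegree_eq_and_monic h1
    ((Polynomial.monic_scaleRoots_iff _).2 hp)
  exact ⟨q, h2, by rw [h3, Polynomial.natDegree_scaleRoots], h4⟩

/-- the inclusion of the constants -/
private noncomputable def f1inc {k K : Type} [Field k] [Field K] [Algebra k K] (L : Subfield K)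
    (A0 : Subalgebra k K) (h : ∀ c ∈ A0, c ∈ L) : A0 →+* L :=
  (A0.val : A0 →+* K).codRestrict L (fun c => h _ c.2)

private theorem f1inc_val {k K : Type} [Field k] [Field K] [Algebra k K] (L : Subfield K)
    (A0 : Subalgebra k K) (h : ∀ c ∈ A0, c ∈ L) (c : A0) : ((f1inc L A0 h c : L) : K) = (c : K) :=
  rfl

private theorem f1inc_inj {k K : Type} [Field k] [Field K] [Algebra k K] (L : Subfield K)
    (A0 : Subalgebra k K) (h : ∀ c ∈ A0, c ∈ L) : Function.Injective (f1inc L A0 h) := by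
  intro a b hab
  have h1 := congrArg (fun c : L => (c : K)) hab
  exact Subtype.ext h1

section clear

variable {k K : Type} [Field k] [Field K] [Algebra k K] (L : Subfield K)
    (A0 : Subalgebra k K) (h : ∀ c ∈ A0, c ∈ L)
    (hL : ∀ c : K, c ∈ L → ∃ u w : K, u ∈ A0 ∧ w ∈ A0 ∧ w ≠ 0 ∧ c * w = u)

include hL in
private theorem f1_clear (m : ℕ) (P : MvPolynomial (Fin m) L) :
    ∃ c : A0, c ≠ 0 ∧ ∃ P0 : MvPolynomial (Fin m) A0,
      MvPolynomial.map (f1inc L A0 h) P0 = MvPolynomial.C (f1inc L A0 h c) * P := by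
  induction P using MvPolynomial.induction_on with
  | C a =>
    obtain ⟨u, w, hu, hw, hw0, huw⟩ := hL a a.2
    refine ⟨⟨w, hw⟩, fun h0 => hw0 (congrArg Subtype.val h0), MvPolynomial.C ⟨u, hu⟩, ?_⟩
    rw [MvPolynomial.map_C, ← MvPolynomial.C_mul]
    congr 1
    apply Subtype.ext
    rw [Subfield.coe_mul, f1inc_val, f1inc_val]
    rw [mul_comm]
    exact huw.symm
  | add p q hp hq =>
    obtain ⟨c, hc, p0, hp0⟩ := hp
    obtain ⟨d, hd, q0, hq0⟩ := hq
    refine ⟨c * d, mul_ne_zero hc hd, MvPolynomial.C d * p0 + MvPolynomial.C c * q0, ?_⟩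
    rw [map_add, map_mul, map_mul, hp0, hq0, MvPolynomial.map_C, MvPolynomial.map_C, map_mul,
      MvPolynomial.C_mul]
    ring
  | mul_X p i hp =>
    obtain ⟨c, hc, p0, hp0⟩ := hp
    refine ⟨c, hc, p0 * MvPolynomial.X i, ?_⟩
    rw [map_mul, hp0, MvPolynomial.map_X]
    ring

include hL in
private theorem f1_clearY (m : ℕ) (P : (MvPolynomial (Fin m) L)[X]) :
    ∃ c : A0, c ≠ 0 ∧ ∃ P0 : (MvPolynomial (Fin m) A0)[X],
      P0.map (MvPolynomial.map (f1inc L A0 h)) = C (MvPolynomial.C (f1inc L A0 h c)) * P := by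
  induction P using Polynomial.induction_on' with
  | add p q hp hq =>
    obtain ⟨c, hc, p0, hp0⟩ := hp
    obtain ⟨d, hd, q0, hq0⟩ := hq
    refine ⟨c * d, mul_ne_zero hc hd,
      C (MvPolynomial.C d) * p0 + C (MvPolynomial.C c) * q0, ?_⟩
    rw [Polynomial.map_add, Polynomial.map_mul, Polynomial.map_mul, hp0, hq0, Polynomial.map_C,
      Polynomial.map_C, MvPolynomial.map_C, MvPolynomial.map_C, map_mul, MvPolynomial.C_mul,
      Polynomial.C_mul]
    ring
  | monomial n a =>
    obtain ⟨c, hc, p0, hp0⟩ := f1_clear L A0 h hL m a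
    refine ⟨c, hc, Polynomial.monomial n p0, ?_⟩
    rw [Polynomial.map_monomial, hp0, Polynomial.C_mul_monomial]

include hL in
private theorem f1_liftY (m : ℕ) (p : (MvPolynomial (Fin m) L)[X]) (hp : p.Monic) :
    ∃ c : A0, c ≠ 0 ∧ ∃ q : (MvPolynomial (Fin m) A0)[X],
      q.map (MvPolynomial.map (f1inc L A0 h)) =
        p.scaleRoots (MvPolynomial.C (f1inc L A0 h c)) ∧
      q.natDegree = p.natDegree ∧ q.Monic := by
  obtain ⟨c, hc, p0, hp0⟩ := f1_clearY L A0 h hL m p
  refine ⟨c, hc, ?_⟩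
  have h1 : MvPolynomial.map (f1inc L A0 h) (MvPolynomial.C c) =
      (MvPolynomial.C (f1inc L A0 h c) : MvPolynomial (Fin m) L) := MvPolynomial.map_C _ _
  have h2 := f1_lift (MvPolynomial.map (f1inc L A0 h)) p hp (MvPolynomial.C c) (fun i => by
    refine ⟨p0.coeff i, ?_⟩
    rw [h1]
    have h3 := congrArg (fun q : (MvPolynomial (Fin m) L)[X] => q.coeff i) hp0
    simp only [Polynomial.coeff_map, Polynomial.coeff_C_mul] at h3
    exact h3)
  rw [h1] at h2
  exact h2

private theorem f1_ev (m : ℕ) (x : Fin m → K) (P : MvPolynomial (Fin m) A0) :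
    evX L.subtype x (MvPolynomial.map (f1inc L A0 h) P) = evX (A0.val : A0 →+* K) x P := by
  rw [evX, evX, MvPolynomial.coe_eval₂Hom, MvPolynomial.coe_eval₂Hom, MvPolynomial.eval₂_map]
  rfl

private theorem f1_evY (m : ℕ) (x : Fin m → K) (P : (MvPolynomial (Fin m) A0)[X]) (z : K) :
    (P.map (MvPolynomial.map (f1inc L A0 h))).eval₂ (evX L.subtype x) z =
      P.eval₂ (evX (A0.val : A0 →+* K) x) z := by
  rw [Polynomial.eval₂_map]
  congr 1
  exact RingHom.ext fun P => f1_ev L A0 h m x P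

private theorem f1_evC (m : ℕ) (x : Fin m → K) (c : A0) :
    evX L.subtype x (MvPolynomial.C (f1inc L A0 h c)) = (c : K) := by
  rw [evX, MvPolynomial.coe_eval₂Hom, MvPolynomial.eval₂_C]
  rfl

private theorem f1_evC0 (m : ℕ) (x : Fin m → K) (c : A0) :
    evX (A0.val : A0 →+* K) x (MvPolynomial.C c) = (c : K) := by
  rw [evX, MvPolynomial.coe_eval₂Hom, MvPolynomial.eval₂_C]
  rfl

include h hL in
/-- integral over `L[x]` implies a multiple integral over `A0[x]` -/
private theorem f1_int (m : ℕ) (x : Fin m → K) (z : K)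
    (hz : (evX L.subtype x).IsIntegralElem z) :
    ∃ c : A0, c ≠ 0 ∧ (evX (A0.val : A0 →+* K) x).IsIntegralElem ((c : K) * z) := by
  obtain ⟨p, hp, hpz⟩ := hz
  obtain ⟨c, hc, q, hq, -, hqm⟩ := f1_liftY L A0 h hL m p hp
  refine ⟨c, hc, q, hqm, ?_⟩
  rw [← f1_evY L A0 h, hq, ← f1_evC L A0 h m x c]
  exact Polynomial.scaleRoots_eval₂_eq_zero _ hpz

include h hL in
private theorem f1_gen (m : ℕ) (x : Fin m → K) (ξ z : K)
    (hz : ∃ g : MvPolynomial (Fin m) L, g ≠ 0 ∧ ∃ Q : (MvPolynomial (Fin m) L)[X],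
      evX L.subtype x g * z = Q.eval₂ (evX L.subtype x) ξ) :
    ∃ g : MvPolynomial (Fin m) A0, g ≠ 0 ∧ ∃ Q : (MvPolynomial (Fin m) A0)[X],
      evX (A0.val : A0 →+* K) x g * z = Q.eval₂ (evX (A0.val : A0 →+* K) x) ξ := by
  obtain ⟨g, hg, Q, hQ⟩ := hz
  obtain ⟨c, hc, g0, hg0⟩ := f1_clear L A0 h hL m g
  obtain ⟨d, hd, Q0, hQ0⟩ := f1_clearY L A0 h hL m Q
  have hg00 : g0 ≠ 0 := by
    intro h0
    rw [h0, map_zero] at hg0
    rcases mul_eq_zero.1 hg0.symm with h1 | h1
    · rw [MvPolynomial.C_eq_zero] at h1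
      exact hc (f1inc_inj L A0 h (by rw [h1, map_zero]))
    · exact hg h1
  refine ⟨MvPolynomial.C d * g0, mul_ne_zero (by
    rw [Ne, MvPolynomial.C_eq_zero]
    exact hd) hg00, C (MvPolynomial.C c) * Q0, ?_⟩
  rw [Polynomial.eval₂_mul, Polynomial.eval₂_C, ← f1_evY L A0 h, hQ0, Polynomial.eval₂_mul,
    Polynomial.eval₂_C, ← hQ, map_mul, f1_evC0, f1_evC0, f1_evC, ← f1_ev L A0 h, hg0, map_mul,
    f1_evC]
  ring

end clear

/-- rescaling the variables -/
private theorem f1_scale {L : Type} [Field L] (m : ℕ) (u : Fin m → L) (hu : ∀ i, u i ≠ 0) :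
    Function.Bijective (MvPolynomial.aeval (fun i => MvPolynomial.C (u i) * MvPolynomial.X i) :
      MvPolynomial (Fin m) L →ₐ[L] MvPolynomial (Fin m) L) := by
  have key : ∀ u v : Fin m → L, (∀ i, u i * v i = 1) →
      ∀ P : MvPolynomial (Fin m) L,
      (MvPolynomial.aeval (fun i => MvPolynomial.C (u i) * MvPolynomial.X i) :
        MvPolynomial (Fin m) L →ₐ[L] MvPolynomial (Fin m) L)
      ((MvPolynomial.aeval (fun i => MvPolynomial.C (v i) * MvPolynomial.X i) :
        MvPolynomial (Fin m) L →ₐ[L] MvPolynomial (Fin m) L) P) = P := by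
    intro u v huv P
    have h1 : ((MvPolynomial.aeval (fun i => MvPolynomial.C (u i) * MvPolynomial.X i) :
        MvPolynomial (Fin m) L →ₐ[L] MvPolynomial (Fin m) L).comp
      (MvPolynomial.aeval (fun i => MvPolynomial.C (v i) * MvPolynomial.X i))) =
        AlgHom.id L (MvPolynomial (Fin m) L) := by
      apply MvPolynomial.algHom_ext
      intro i
      rw [AlgHom.comp_apply, MvPolynomial.aeval_X, map_mul, MvPolynomial.aeval_X, AlgHom.id_apply,
        MvPolynomial.aeval_C, MvPolynomial.algebraMap_eq, ← mul_assoc, ← MvPolynomial.C_mul,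
        mul_comm (v i), huv i, MvPolynomial.C_1, one_mul]
    exact DFunLike.congr_fun h1 P
  have h1 := key u (fun i => (u i)⁻¹) (fun i => mul_inv_cancel₀ (hu i))
  have h2 := key (fun i => (u i)⁻¹) u (fun i => inv_mul_cancel₀ (hu i))
  exact ⟨Function.LeftInverse.injective h2, Function.RightInverse.surjective h1⟩

private theorem f1_dvd {R B : Type} [CommRing R] [IsDomain R] [CommRing B] [IsDomain B]
    (f : R →+* B) (w : B) (hw : w ≠ 0) (hint : f.IsIntegralElem w) :
    ∃ r : R, r ≠ 0 ∧ ∃ b : B, w * b = f r := by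
  let _ := f.toAlgebra
  have h1 : IsIntegral R w := hint
  obtain ⟨r, hr, b, hb⟩ := h1.isAlgebraic.exists_nonzero_dvd (mem_nonZeroDivisors_of_ne_zero hw)
  exact ⟨r, hr, b, hb.symm⟩

theorem W_F1 {k K : Type} [Field k] [CharZero k] [Field K] [Algebra k K] (L : Subfield K)
    (hcl : ClosedSub L) (hne : ∃ c : K, c ∉ L) (A A0 : Subalgebra k K) (hA : A.FG) (hA0 : A0.FG)
    (hle : A0 ≤ A)
    (hL : ∀ c : K, c ∈ L ↔ ∃ u w : K, u ∈ A0 ∧ w ∈ A0 ∧ w ≠ 0 ∧ c * w = u)
    (hK : ∀ c : K, ∃ u w : K, u ∈ A ∧ w ∈ A ∧ w ≠ 0 ∧ c * w = u) :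
    Nonempty (Pres L A A0) := by
  classical
  have : CharZero K := charZero_of_injective_algebraMap (algebraMap k K).injective
  have hA0L : ∀ c ∈ A0, c ∈ L := by
    intro c hc
    exact (hL c).2 ⟨c, 1, hc, A0.one_mem, one_ne_zero, mul_one c⟩
  have hL' : ∀ c : K, c ∈ L → ∃ u w : K, u ∈ A0 ∧ w ∈ A0 ∧ w ≠ 0 ∧ c * w = u :=
    fun c hc => (hL c).1 hc
  obtain ⟨S, hS⟩ := hA
  have hSA : ∀ s ∈ S, s ∈ A := by
    intro s hs
    rw [← hS]
    exact Algebra.subset_adjoin hs
  -- induction over the elements of `A`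
  have hind : ∀ H : K → Prop, (∀ s ∈ S, H s) → (∀ c : K, c ∈ A0 → H c) →
      (∀ a b : K, H a → H b → H (a + b)) → (∀ a b : K, H a → H b → H (a * b)) →
      ∀ a ∈ A, H a := by
    intro H h1 h2 h3 h4 a ha
    rw [← hS] at ha
    induction ha using Algebra.adjoin_induction with
    | mem s hs => exact h1 s hs
    | algebraMap c => exact h2 _ (A0.algebraMap_mem c)
    | add a b _ _ ha hb => exact h3 a b ha hb
    | mul a b _ _ ha hb => exact h4 a b ha hb
  have hAAL : ∀ a ∈ A, a ∈ Algebra.adjoin L (A : Set K) := fun a ha => Algebra.subset_adjoin ha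
  have hF1 : ∀ z ∈ Algebra.adjoin L (A : Set K), ∃ c : A0, c ≠ 0 ∧ (c : K) * z ∈ A := by
    intro z hz
    induction hz using Algebra.adjoin_induction with
    | mem a ha => exact ⟨1, one_ne_zero, by simpa using ha⟩
    | algebraMap l =>
      obtain ⟨u, w, hu, hw, hw0, huw⟩ := hL' l l.2
      refine ⟨⟨w, hw⟩, fun h0 => hw0 (congrArg Subtype.val h0), ?_⟩
      have h1 : (w : K) * algebraMap L K l = u := by
        rw [mul_comm]
        exact huw
      rw [h1]
      exact hle hu
    | add a b _ _ ha hb =>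
      obtain ⟨c, hc, hca⟩ := ha
      obtain ⟨d, hd, hdb⟩ := hb
      refine ⟨c * d, mul_ne_zero hc hd, ?_⟩
      have h1 : ((c * d : A0) : K) * (a + b) =
          (d : K) * ((c : K) * a) + (c : K) * ((d : K) * b) := by
        push_cast
        ring
      rw [h1]
      exact A.add_mem (A.mul_mem (hle d.2) hca) (A.mul_mem (hle c.2) hdb)
    | mul a b _ _ ha hb =>
      obtain ⟨c, hc, hca⟩ := ha
      obtain ⟨d, hd, hdb⟩ := hb
      refine ⟨c * d, mul_ne_zero hc hd, ?_⟩
      have h1 : ((c * d : A0) : K) * (a * b) = ((c : K) * a) * ((d : K) * b) := by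
        push_cast
        ring
      rw [h1]
      exact A.mul_mem hca hdb
  have hALfg : (Algebra.adjoin L (A : Set K)).FG := by
    refine ⟨S, le_antisymm (Algebra.adjoin_mono fun s hs => hSA s hs) (Algebra.adjoin_le ?_)⟩
    intro a ha
    refine hind (fun z => z ∈ Algebra.adjoin L (S : Set K)) (fun s hs => Algebra.subset_adjoin hs)
      (fun c hc => ?_) (fun a b ha hb => add_mem ha hb) (fun a b ha hb => mul_mem ha hb) a ha
    exact (Algebra.adjoin L (S : Set K)).algebraMap_mem ⟨c, hA0L c hc⟩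
  have hALft : Algebra.FiniteType L (Algebra.adjoin L (A : Set K)) :=
    (Subalgebra.fg_iff_finiteType _).1 hALfg
  obtain ⟨m, g0, hg0inj, hg0int⟩ :=
    exists_integral_inj_algHom_of_fg L (Algebra.adjoin L (A : Set K))
  choose c hc hcx using fun i => hF1 (g0 (MvPolynomial.X i)) (g0 (MvPolynomial.X i)).2
  obtain ⟨x, hx⟩ : ∃ x : Fin m → A, ∀ i, (x i : K) = (c i : K) * (g0 (MvPolynomial.X i) : K) :=
    ⟨fun i => ⟨_, hcx i⟩, fun i => rfl⟩
  have hci : ∀ i, f1inc L A0 hA0L (c i) ≠ 0 := by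
    intro i h0
    exact hc i (f1inc_inj L A0 hA0L (by rw [h0, map_zero]))
  obtain ⟨σ, hσb, hσX⟩ : ∃ σ : MvPolynomial (Fin m) L →ₐ[L] MvPolynomial (Fin m) L,
      Function.Bijective σ ∧ ∀ i, σ (MvPolynomial.X i) =
        MvPolynomial.C (f1inc L A0 hA0L (c i)) * MvPolynomial.X i :=
    ⟨_, f1_scale m _ hci, fun i => MvPolynomial.aeval_X _ _⟩
  have hg1 : ∀ P, ((g0 (σ P) : Algebra.adjoin L (A : Set K)) : K) =
      evX L.subtype (fun i => (x i : K)) P := by
    intro P
    have h1 : ((Algebra.adjoin L (A : Set K)).val.comp (g0.comp σ)) =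
        MvPolynomial.aeval (fun i => (x i : K)) := by
      apply MvPolynomial.algHom_ext
      intro i
      rw [AlgHom.comp_apply, AlgHom.comp_apply, hσX, MvPolynomial.aeval_X, map_mul, map_mul,
        hx i]
      congr 1
      have h2 : g0 (MvPolynomial.C (f1inc L A0 hA0L (c i))) =
          algebraMap L _ (f1inc L A0 hA0L (c i)) := g0.commutes _
      rw [h2]
      rfl
    exact DFunLike.congr_fun h1 P
  have hinj : Function.Injective (evX L.subtype fun i => (x i : K)) := by
    intro P Q hPQ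
    rw [← hg1, ← hg1] at hPQ
    exact hσb.1 (hg0inj (Subtype.ext hPQ))
  have hint : ∀ z ∈ Algebra.adjoin L (A : Set K),
      (evX L.subtype fun i => (x i : K)).IsIntegralElem z := by
    intro z hz
    have h1 : ((g0 : MvPolynomial (Fin m) L →+* Algebra.adjoin L (A : Set K)).comp
        (σ : MvPolynomial (Fin m) L →+* MvPolynomial (Fin m) L)).IsIntegral :=
      RingHom.IsIntegral.trans _ _ (RingHom.isIntegral_of_surjective _ hσb.2) hg0int
    have h2 := (h1 ⟨z, hz⟩).map
      ((Algebra.adjoin L (A : Set K)).val : Algebra.adjoin L (A : Set K) →+* K)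
    have h3 : ((Algebra.adjoin L (A : Set K)).val : Algebra.adjoin L (A : Set K) →+* K).comp
        ((g0 : MvPolynomial (Fin m) L →+* Algebra.adjoin L (A : Set K)).comp
        (σ : MvPolynomial (Fin m) L →+* MvPolynomial (Fin m) L)) =
        (evX L.subtype fun i => (x i : K)) := RingHom.ext fun P => hg1 P
    rw [h3] at h2
    exact h2
  have hm : 0 < m := by
    rcases Nat.eq_zero_or_pos m with h0 | h0
    · exfalso
      subst h0
      have hAL : ∀ a ∈ A, a ∈ L := by
        intro a ha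
        apply hcl
        obtain ⟨p, hp, hpa⟩ := hint a (hAAL a ha)
        refine ⟨p.map (evX L.subtype fun i => (x i : K)), hp.map _, ?_, ?_⟩
        · intro i
          rw [Polynomial.coeff_map, MvPolynomial.eq_C_of_isEmpty (p.coeff i), evX,
            MvPolynomial.coe_eval₂Hom, MvPolynomial.eval₂_C]
          exact (MvPolynomial.coeff 0 (p.coeff i)).2
        · rw [Polynomial.eval₂_map]
          exact hpa
      obtain ⟨c, hc⟩ := hne
      obtain ⟨u, w, hu, hw, hw0, huw⟩ := hK c
      apply hc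
      rw [eq_div_of_mul_eq hw0 huw]
      exact L.div_mem (hAL u hu) (hAL w hw)
    · exact h0
  -- the primitive element
  obtain ⟨ξ', hξ'⟩ := f1_prim (evX L.subtype fun i => (x i : K)) hinj S
    (fun s hs => hint s (hAAL s (hSA s hs))) (by
      intro T hT1 hT2
      have hTA : ∀ a ∈ A, a ∈ T := by
        refine hind (fun z => z ∈ T) hT2 (fun c hc => ?_) (fun a b ha hb => T.add_mem ha hb)
          (fun a b ha hb => T.mul_mem ha hb)
        have h1 := hT1 (MvPolynomial.C (f1inc L A0 hA0L ⟨c, hc⟩))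
        rw [f1_evC] at h1
        exact h1
      rw [eq_top_iff]
      intro z _
      obtain ⟨u, w, hu, hw, hw0, huw⟩ := hK z
      rw [eq_div_of_mul_eq hw0 huw]
      exact T.div_mem (hTA u hu) (hTA w hw))
  obtain ⟨u, w, hu, hw, hw0, huw⟩ := hK ξ'
  obtain ⟨r, hr, b, hb⟩ := f1_dvd
    ((g0 : MvPolynomial (Fin m) L →+* Algebra.adjoin L (A : Set K)).comp
        (σ : MvPolynomial (Fin m) L →+* MvPolynomial (Fin m) L)) ⟨w, hAAL w hw⟩
    (fun h0 => hw0 (congrArg Subtype.val h0))
    ((RingHom.IsIntegral.trans _ _ (RingHom.isIntegral_of_surjective _ hσb.2) hg0int) _)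
  have hb' : w * (b : K) = evX L.subtype (fun i => (x i : K)) r := by
    rw [← hg1]
    exact congrArg Subtype.val hb
  obtain ⟨d, hd, hdA⟩ := hF1 (u * (b : K)) (mul_mem (hAAL u hu) b.2)
  have hd' : (MvPolynomial.C (f1inc L A0 hA0L d) : MvPolynomial (Fin m) L) ≠ 0 := by
    rw [Ne, MvPolynomial.C_eq_zero]
    intro h0
    exact hd (f1inc_inj L A0 hA0L (by rw [h0, map_zero]))
  have hξ1 : evX L.subtype (fun i => (x i : K)) (MvPolynomial.C (f1inc L A0 hA0L d) * r) * ξ' =
      (d : K) * (u * (b : K)) := by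
    rw [map_mul, f1_evC, ← hb', ← huw]
    ring
  have hgen1 := f1_rescale _ ξ' hξ' (MvPolynomial.C (f1inc L A0 hA0L d) * r) (mul_ne_zero hd' hr)
  rw [hξ1] at hgen1
  obtain ⟨M1, hM1, hM1ξ, hmin1⟩ := f1_min (evX L.subtype fun i => (x i : K)) hinj
    ((d : K) * (u * (b : K))) (hint _ (hAAL _ hdA))
  obtain ⟨e, he, M0, hM0, hM0d, hM0m⟩ := f1_liftY L A0 hA0L hL' m M1 hM1
  have he' : (MvPolynomial.C (f1inc L A0 hA0L e) : MvPolynomial (Fin m) L) ≠ 0 := by
    rw [Ne, MvPolynomial.C_eq_zero]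
    intro h0
    exact he (f1inc_inj L A0 hA0L (by rw [h0, map_zero]))
  have hξ2 : (e : K) * ((d : K) * (u * (b : K))) ∈ A := A.mul_mem (hle e.2) hdA
  have hgen2 := f1_rescale _ _ hgen1 _ he'
  rw [f1_evC] at hgen2
  have hmin2 := f1_min_rescale (evX L.subtype fun i => (x i : K)) _ M1.natDegree hmin1 _ he'
  rw [f1_evC] at hmin2
  -- denominators for `hgen`
  have hgen3 : ∀ z : K, ∃ g : MvPolynomial (Fin m) A0, g ≠ 0 ∧
      ∃ Q : (MvPolynomial (Fin m) A0)[X],
      evX (A0.val : A0 →+* K) (fun i => (x i : K)) g * z =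
        Q.eval₂ (evX (A0.val : A0 →+* K) fun i => (x i : K))
          ((e : K) * ((d : K) * (u * (b : K)))) :=
    fun z => f1_gen L A0 hA0L hL' m _ _ z (hgen2 z)
  choose gz hgz Qz hQz using hgen3
  -- denominators for `hint`
  have hint3 : ∀ z : K, ∃ c : A0, c ≠ 0 ∧ (z ∈ Algebra.adjoin L (A : Set K) →
      (evX (A0.val : A0 →+* K) fun i => (x i : K)).IsIntegralElem ((c : K) * z)) := by
    intro z
    by_cases hz : z ∈ Algebra.adjoin L (A : Set K)
    · obtain ⟨c, hc, hcz⟩ := f1_int L A0 hA0L hL' m _ z (hint z hz)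
      exact ⟨c, hc, fun _ => hcz⟩
    · exact ⟨1, one_ne_zero, fun h => absurd h hz⟩
  choose rz hrz hrz' using hint3
  have hA0int : ∀ c : A0, (evX (A0.val : A0 →+* K) fun i => (x i : K)).IsIntegralElem (c : K) := by
    intro c
    have h1 := RingHom.isIntegralElem_map (f := evX (A0.val : A0 →+* K) fun i => (x i : K))
      (x := MvPolynomial.C c)
    rw [f1_evC0] at h1
    exact h1
  refine ⟨{ m := m, x := x, ξ := ⟨_, hξ2⟩, M := M0, g := ∏ s ∈ S, gz s, ρ := ∏ s ∈ S, rz s,
            hm := hm, hM := hM0m, hMξ := ?_, hmin := ?_, hg := ?_, hρ := ?_, hgen := ?_,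
            hint := ?_ }⟩
  · rw [← f1_evY L A0 hA0L, hM0]
    have h1 := Polynomial.scaleRoots_eval₂_eq_zero (evX L.subtype fun i => (x i : K))
      (s := MvPolynomial.C (f1inc L A0 hA0L e)) hM1ξ
    rw [f1_evC] at h1
    exact h1
  · intro P hP
    rw [hM0d] at hP
    exact hmin2 P hP
  · exact Finset.prod_ne_zero_iff.2 fun s _ => hgz s
  · exact Finset.prod_ne_zero_iff.2 fun s _ => hrz s
  · have key := hind (fun z => ∃ (N : ℕ) (Q : (MvPolynomial (Fin m) A0)[X]),
      evX (A0.val : A0 →+* K) (fun i => (x i : K)) (∏ s ∈ S, gz s) ^ N * z =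
        Q.eval₂ (evX (A0.val : A0 →+* K) fun i => (x i : K))
          ((e : K) * ((d : K) * (u * (b : K))))) ?_ ?_ ?_ ?_
    · intro a
      exact key a a.2
    · intro s hs
      refine ⟨1, C (∏ t ∈ S.erase s, gz t) * Qz s, ?_⟩
      rw [Polynomial.eval₂_mul, Polynomial.eval₂_C, ← hQz s, pow_one,
        ← Finset.prod_erase_mul S gz hs, map_mul]
      ring
    · intro c hc
      refine ⟨0, C (MvPolynomial.C ⟨c, hc⟩), ?_⟩
      rw [Polynomial.eval₂_C, f1_evC0, pow_zero, one_mul]
    · rintro a b ⟨N1, Q1, h1⟩ ⟨N2, Q2, h2⟩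
      refine ⟨N1 + N2, C ((∏ s ∈ S, gz s) ^ N2) * Q1 + C ((∏ s ∈ S, gz s) ^ N1) * Q2, ?_⟩
      rw [Polynomial.eval₂_add, Polynomial.eval₂_mul, Polynomial.eval₂_mul, Polynomial.eval₂_C,
        Polynomial.eval₂_C, ← h1, ← h2, map_pow, map_pow, pow_add]
      ring
    · rintro a b ⟨N1, Q1, h1⟩ ⟨N2, Q2, h2⟩
      refine ⟨N1 + N2, Q1 * Q2, ?_⟩
      rw [Polynomial.eval₂_mul, ← h1, ← h2, pow_add]
      ring
  · have key := hind (fun z => ∃ (N : ℕ),
      (evX (A0.val : A0 →+* K) fun i => (x i : K)).IsIntegralElem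
        ((((∏ s ∈ S, rz s : A0) : K)) ^ N * z)) ?_ ?_ ?_ ?_
    · intro a
      obtain ⟨N, τ, hτ, hτa⟩ := key a a.2
      exact ⟨N, τ, hτ, hτa⟩
    · intro s hs
      refine ⟨1, ?_⟩
      have h1 : ((∏ t ∈ S, rz t : A0) : K) ^ 1 * s =
          ((∏ t ∈ S.erase s, rz t : A0) : K) * ((rz s : K) * s) := by
        rw [pow_one, ← Finset.prod_erase_mul S rz hs]
        push_cast
        ring
      rw [h1]
      exact f1_ie_mul _ (hA0int _) (hrz' s (hAAL s (hSA s hs)))
    · intro c hc
      refine ⟨0, ?_⟩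
      rw [pow_zero, one_mul]
      exact hA0int ⟨c, hc⟩
    · rintro a b ⟨N1, h1⟩ ⟨N2, h2⟩
      refine ⟨N1 + N2, ?_⟩
      have h3 : ((∏ s ∈ S, rz s : A0) : K) ^ (N1 + N2) * (a + b) =
          (((∏ s ∈ S, rz s) ^ N2 : A0) : K) * (((∏ s ∈ S, rz s : A0) : K) ^ N1 * a) +
          (((∏ s ∈ S, rz s) ^ N1 : A0) : K) * (((∏ s ∈ S, rz s : A0) : K) ^ N2 * b) := by
        rw [pow_add]
        simp only [SubmonoidClass.coe_pow]
        ring
      rw [h3]
      exact f1_ie_add _ (f1_ie_mul _ (hA0int _) h1) (f1_ie_mul _ (hA0int _) h2)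
    · rintro a b ⟨N1, h1⟩ ⟨N2, h2⟩
      refine ⟨N1 + N2, ?_⟩
      have h3 : ((∏ s ∈ S, rz s : A0) : K) ^ (N1 + N2) * (a * b) =
          (((∏ s ∈ S, rz s : A0) : K) ^ N1 * a) * (((∏ s ∈ S, rz s : A0) : K) ^ N2 * b) := by
        rw [pow_add]
        ring
      rw [h3]
      exact f1_ie_mul _ h1 h2

end Pool.Agent.LibHP
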