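import Mathlib

/-! # Row F2: Nullstellensatz for polynomial unknowns of bounded degree

The unknowns are `s_0, ..., s_N`, polynomials in `m` variables of total degree `≤ D`, `s_0 ≠ 0`; the
equations are `Φ_l (s) = 0`, with coefficients in `R[x_1, ..., x_m]`.

Plan. As LibHPF/P5a.lean (the case of one equation in one unknown: read its header and copy). For
every exponent `μ` (`Fin m → Fin (D + 1)`) treat the condition `coeff_μ (s_0) ≠ 0` separately, with
an additional unknown `u` and the equation `u * coeff_μ (s_0) = 1`; `ρ` := the product of the finitely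
many `ρ_μ`. For fixed `μ`: `I := Fin (N + 1) × (Fin m → Fin (D + 1)) ⊕ Unit` (only exponents of total
degree `≤ D`: use the subtype, or set the other coefficients zero), `A0 := MvPolynomial I R`, universal
`g_i := ∑ monomial`, `J` := the ideal of `A0` spanned by the coefficients of the
`Φ_l (g)` (evaluated by `eval₂ (MvPolynomial.map C) g`) and by `u * X (0, μ) - 1`. A solution over a field
`k` over `φ : R → k` is a homomorphism `A0 ⧸ J →+* k` over `φ`. If `C ρ ∈ J` for some `ρ ≠ 0`: done.
Otherwise `J` generates a proper ideal over `Frac R`, there is a maximal ideal above it, the quotient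
is finite over `Frac R` (Zariski's lemma) and embeds into `Ω`: a solution over `Ω`, contradiction. -/

set_option autoImplicit false

namespace Pool.Agent.LibHP

/-- exponents of total degree at most `D` -/
private abbrev F2_E (m D : ℕ) : Type := {s : Fin m → Fin (D + 1) // ∑ i, (s i : ℕ) ≤ D}

private noncomputable def F2_M {m D : ℕ} (s : F2_E m D) : Fin m →₀ ℕ :=
  Finsupp.equivFunOnFinite.symm (fun i => (s.1 i : ℕ))

private theorem F2_M_inj {m D : ℕ} : Function.Injective (F2_M (m := m) (D := D)) := by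
  intro s t h
  have h1 : (fun i => ((s.1 i : Fin (D + 1)) : ℕ)) = fun i => (t.1 i : ℕ) :=
    Finsupp.equivFunOnFinite.symm.injective h
  refine Subtype.ext ?_
  funext i
  exact Fin.ext (congrFun h1 i)

private theorem F2_M_deg {m D : ℕ} (s : F2_E m D) : (F2_M s).sum (fun _ e => e) ≤ D := by
  rw [Finsupp.sum_fintype _ _ (fun _ => rfl)]
  exact s.2

/-- generic polynomial -/
private noncomputable def F2_G {T : Type} [CommRing T] {m D : ℕ} (c : F2_E m D → T) :
    MvPolynomial (Fin m) T :=
  ∑ s, MvPolynomial.monomial (F2_M s) (c s)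

private theorem F2_G_map {T T' : Type} [CommRing T] [CommRing T'] (f : T →+* T') {m D : ℕ}
    (c : F2_E m D → T) : MvPolynomial.map f (F2_G c) = F2_G (fun s => f (c s)) := by
  simp [F2_G, map_sum, MvPolynomial.map_monomial]

private theorem F2_G_deg {T : Type} [CommRing T] {m D : ℕ} (c : F2_E m D → T) :
    (F2_G c).totalDegree ≤ D := by
  refine MvPolynomial.totalDegree_finsetSum_le ?_
  intro s _
  refine (MvPolynomial.totalDegree_monomial_le _ _).trans ?_
  exact F2_M_deg s

private theorem F2_G_coeff {T : Type} [CommRing T] {m D : ℕ} (c : F2_E m D → T) (s : F2_E m D) :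
    (F2_G c).coeff (F2_M s) = c s := by
  classical
  rw [F2_G, MvPolynomial.coeff_sum]
  simp only [MvPolynomial.coeff_monomial]
  rw [Finset.sum_eq_single s]
  · simp
  · intro b _ hb
    rw [if_neg]
    intro h
    exact hb (F2_M_inj h)
  · intro h
    exact absurd (Finset.mem_univ _) h

private theorem F2_G_eq {T : Type} [CommRing T] {m D : ℕ} (q : MvPolynomial (Fin m) T)
    (hq : q.totalDegree ≤ D) : F2_G (D := D) (fun s => q.coeff (F2_M s)) = q := by
  classical
  ext n
  rw [F2_G, MvPolynomial.coeff_sum]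
  simp only [MvPolynomial.coeff_monomial]
  by_cases hm : ∃ s : F2_E m D, F2_M s = n
  · obtain ⟨s, rfl⟩ := hm
    rw [Finset.sum_eq_single s]
    · simp
    · intro b _ hb
      rw [if_neg]
      intro h
      exact hb (F2_M_inj h)
    · intro h
      exact absurd (Finset.mem_univ _) h
  · rw [Finset.sum_eq_zero]
    · symm
      by_contra hne
      apply hm
      have h1 : (n.sum fun _ e => e) ≤ D :=
        (MvPolynomial.le_totalDegree (MvPolynomial.mem_support_iff.mpr hne)).trans hq
      rw [Finsupp.sum_fintype _ _ (fun _ => rfl)] at h1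
      have hle : ∀ i, n i < D + 1 := by
        intro i
        have h2 : n i ≤ ∑ i, n i :=
          Finset.single_le_sum (f := fun i => n i) (fun _ _ => Nat.zero_le _) (Finset.mem_univ i)
        omega
      refine ⟨⟨fun i => ⟨n i, hle i⟩, h1⟩, ?_⟩
      ext i
      simp [F2_M]
    · intro s _
      rw [if_neg]
      intro h
      exact hm ⟨s, h⟩

/-- One exponent. -/
private theorem F2_one (R Ω : Type) [CommRing R] [IsDomain R] [Field Ω] [IsAlgClosed Ω]
    (j : R →+* Ω) (hj : Function.Injective j) (m N D : ℕ) {ι : Type}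
    (Φ : ι → MvPolynomial (Fin (N + 1)) (MvPolynomial (Fin m) R))
    (h : ∀ s : Fin (N + 1) → MvPolynomial (Fin m) Ω, (∀ i, (s i).totalDegree ≤ D) → s 0 ≠ 0 →
      ∃ l, MvPolynomial.eval₂ (MvPolynomial.map j) s (Φ l) ≠ 0) (μ : F2_E m D) :
    ∃ ρ : R, ρ ≠ 0 ∧ ∀ (k : Type) [Field k] (φ : R →+* k), φ ρ ≠ 0 →
      ∀ s : Fin (N + 1) → MvPolynomial (Fin m) k, (∀ i, (s i).totalDegree ≤ D) →
        (s 0).coeff (F2_M μ) ≠ 0 →
        ∃ l, MvPolynomial.eval₂ (MvPolynomial.map φ) s (Φ l) ≠ 0 := by
  classical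
  let I : Type := Option (Fin (N + 1) × F2_E m D)
  let g0 : Fin (N + 1) → MvPolynomial (Fin m) (MvPolynomial I R) :=
    fun i => F2_G (fun e => MvPolynomial.X (some (i, e)))
  let E : ι → MvPolynomial (Fin m) (MvPolynomial I R) := fun l =>
    MvPolynomial.eval₂ (MvPolynomial.map (MvPolynomial.C : R →+* MvPolynomial I R)) g0 (Φ l)
  let w : MvPolynomial I R :=
    MvPolynomial.X none * MvPolynomial.X (some ((0 : Fin (N + 1)), μ)) - 1
  let J : Ideal (MvPolynomial I R) :=
    Ideal.span ((Set.range fun p : ι × (Fin m →₀ ℕ) => MvPolynomial.coeff p.2 (E p.1)) ∪ {w})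
  have hE : ∀ (l : ι) (T : Type) [CommRing T] (h : MvPolynomial I R →+* T),
      MvPolynomial.map h (E l) = MvPolynomial.eval₂ (MvPolynomial.map (h.comp MvPolynomial.C))
        (fun i => F2_G (fun e => h (MvPolynomial.X (some (i, e))))) (Φ l) := by
    intro l T _ h
    change MvPolynomial.map h (MvPolynomial.eval₂ _ g0 (Φ l)) = _
    rw [MvPolynomial.eval₂_comp_left]
    congr 1
    · refine RingHom.ext fun x => ?_
      rw [RingHom.comp_apply, MvPolynomial.map_map]
    · funext i
      exact F2_G_map h _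
  have hJker : ∀ (T : Type) [CommRing T] (h : MvPolynomial I R →+* T),
      (∀ l, MvPolynomial.map h (E l) = 0) → h w = 0 → J ≤ RingHom.ker h := by
    intro T _ h h1 h2
    rw [Ideal.span_le]
    rintro _ (⟨p, rfl⟩ | h3)
    · have h4 := congrArg (MvPolynomial.coeff p.2) (h1 p.1)
      rw [MvPolynomial.coeff_map] at h4
      simpa using h4
    · rw [Set.mem_singleton_iff.1 h3]
      exact h2
  by_cases hA : ∃ ρ : R, ρ ≠ 0 ∧ (MvPolynomial.C ρ : MvPolynomial I R) ∈ J
  · obtain ⟨ρ, hρ, hρJ⟩ := hA
    refine ⟨ρ, hρ, ?_⟩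
    intro k _ φ hφ s hs hμ
    by_contra hall
    push Not at hall
    apply hφ
    let v : I → k := fun o => Option.elim o ((s 0).coeff (F2_M μ))⁻¹
      (fun p => (s p.1).coeff (F2_M p.2))
    let h : MvPolynomial I R →+* k := MvPolynomial.eval₂Hom φ v
    have hC : h.comp MvPolynomial.C = φ := by
      ext x
      simp [h]
    have hX : ∀ o, h (MvPolynomial.X o) = v o := by
      intro o
      simp [h]
    have hX2 : (fun i => F2_G (fun e => h (MvPolynomial.X (some (i, e))))) = s := by
      funext i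
      have h1 : (fun e : F2_E m D => h (MvPolynomial.X (some (i, e)))) =
          fun e => (s i).coeff (F2_M e) := by
        funext e
        rw [hX]
        rfl
      rw [h1]
      exact F2_G_eq (s i) (hs i)
    have hJ : J ≤ RingHom.ker h := by
      refine hJker k h (fun l => ?_) ?_
      · rw [hE, hC, hX2]
        exact hall l
      · change h (MvPolynomial.X none * MvPolynomial.X (some ((0 : Fin (N + 1)), μ)) - 1) = 0
        rw [map_sub, map_mul, map_one, hX, hX]
        change ((s 0).coeff (F2_M μ))⁻¹ * (s 0).coeff (F2_M μ) - 1 = 0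
        rw [inv_mul_cancel₀ hμ, sub_self]
    have h3 : h (MvPolynomial.C ρ) = 0 := hJ hρJ
    have h4 : h (MvPolynomial.C ρ) = φ ρ := RingHom.congr_fun hC ρ
    rw [← h4, h3]
  · exfalso
    push Not at hA
    let K := FractionRing R
    let : Algebra (MvPolynomial I R) (MvPolynomial I K) := MvPolynomial.algebraMvPolynomial
    have : IsLocalization ((nonZeroDivisors R).map (MvPolynomial.C (σ := I)))
        (MvPolynomial I K) := MvPolynomial.isLocalization (nonZeroDivisors R) K
    have hne : J.map (algebraMap (MvPolynomial I R) (MvPolynomial I K)) ≠ ⊤ := by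
      rw [IsLocalization.map_algebraMap_ne_top_iff_disjoint
        ((nonZeroDivisors R).map (MvPolynomial.C (σ := I)))]
      rw [Set.disjoint_left]
      rintro _ ⟨ρ, hρ, rfl⟩ hmem
      exact hA ρ (nonZeroDivisors.ne_zero hρ) hmem
    obtain ⟨mm, hmm, hle⟩ := Ideal.exists_le_maximal _ hne
    let : Field (MvPolynomial I K ⧸ mm) := Ideal.Quotient.field mm
    have : Finite I := inferInstanceAs (Finite (Option (Fin (N + 1) × F2_E m D)))
    have : Algebra.FiniteType K (MvPolynomial I K ⧸ mm) := inferInstance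
    have hfin : Module.Finite K (MvPolynomial I K ⧸ mm) :=
      finite_of_finite_type_of_isJacobsonRing K (MvPolynomial I K ⧸ mm)
    have : Algebra.IsAlgebraic K (MvPolynomial I K ⧸ mm) := inferInstance
    let : Algebra K Ω := (IsFractionRing.lift (A := R) (K := K) hj).toAlgebra
    let ψ : (MvPolynomial I K ⧸ mm) →ₐ[K] Ω := IsAlgClosed.lift
    let h' : MvPolynomial I R →+* Ω :=
      (ψ : (MvPolynomial I K ⧸ mm) →+* Ω).comp ((Ideal.Quotient.mk mm).comp
        (algebraMap (MvPolynomial I R) (MvPolynomial I K)))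
    have hC : h'.comp MvPolynomial.C = j := by
      ext x
      have h1 : algebraMap (MvPolynomial I R) (MvPolynomial I K) (MvPolynomial.C x) =
          algebraMap K (MvPolynomial I K) (algebraMap R K x) := by
        rw [MvPolynomial.algebraMap_def, MvPolynomial.map_C]
        rfl
      have h2 : h' (MvPolynomial.C x) = ψ (algebraMap K _ (algebraMap R K x)) := by
        change ψ (Ideal.Quotient.mk mm (algebraMap (MvPolynomial I R) (MvPolynomial I K)
          (MvPolynomial.C x))) = _
        rw [h1]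
        rfl
      rw [RingHom.comp_apply, h2, AlgHom.commutes]
      exact IsFractionRing.lift_algebraMap hj x
    have hJ : J ≤ RingHom.ker h' := by
      intro x hx
      have h1 : algebraMap (MvPolynomial I R) (MvPolynomial I K) x ∈ mm :=
        hle (Ideal.mem_map_of_mem _ hx)
      change ψ (Ideal.Quotient.mk mm (algebraMap (MvPolynomial I R) (MvPolynomial I K) x)) = 0
      rw [Ideal.Quotient.eq_zero_iff_mem.mpr h1, map_zero]
    have hz : ∀ l, MvPolynomial.map h' (E l) = 0 := by
      intro l
      ext n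
      rw [MvPolynomial.coeff_map, MvPolynomial.coeff_zero]
      exact hJ (Ideal.subset_span (Or.inl ⟨(l, n), rfl⟩))
    have hw : h' w = 0 := hJ (Ideal.subset_span (Or.inr rfl))
    have hw' : h' (MvPolynomial.X none) * h' (MvPolynomial.X (some ((0 : Fin (N + 1)), μ))) - 1 = 0 := by
      rw [← map_mul, ← map_one h', ← map_sub]
      exact hw
    obtain ⟨l, hl⟩ := h (fun i => F2_G (fun e => h' (MvPolynomial.X (some (i, e)))))
      (fun i => F2_G_deg _) (by
        intro h0
        have h1 := congrArg (MvPolynomial.coeff (F2_M μ)) h0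
        rw [F2_G_coeff, MvPolynomial.coeff_zero] at h1
        rw [h1, mul_zero, zero_sub] at hw'
        exact one_ne_zero (neg_eq_zero.1 hw'))
    apply hl
    have h1 := hz l
    rw [hE, hC] at h1
    exact h1

theorem W_F2 (R Ω : Type) [CommRing R] [IsDomain R] [Field Ω] [IsAlgClosed Ω] (j : R →+* Ω)
    (hj : Function.Injective j) (m N D : ℕ) {ι : Type} [Finite ι]
    (Φ : ι → MvPolynomial (Fin (N + 1)) (MvPolynomial (Fin m) R))
    (h : ∀ s : Fin (N + 1) → MvPolynomial (Fin m) Ω, (∀ i, (s i).totalDegree ≤ D) → s 0 ≠ 0 →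
      ∃ l, MvPolynomial.eval₂ (MvPolynomial.map j) s (Φ l) ≠ 0) :
    ∃ ρ : R, ρ ≠ 0 ∧ ∀ (k : Type) [Field k] (φ : R →+* k), φ ρ ≠ 0 →
      ∀ s : Fin (N + 1) → MvPolynomial (Fin m) k, (∀ i, (s i).totalDegree ≤ D) → s 0 ≠ 0 →
        ∃ l, MvPolynomial.eval₂ (MvPolynomial.map φ) s (Φ l) ≠ 0 := by
  classical
  choose ρ hρ0 hρ using F2_one R Ω j hj m N D Φ h
  refine ⟨∏ μ, ρ μ, Finset.prod_ne_zero_iff.2 fun μ _ => hρ0 μ, ?_⟩
  intro k _ φ hφ s hs hs0
  obtain ⟨μ, hμ⟩ : ∃ μ : F2_E m D, (s 0).coeff (F2_M μ) ≠ 0 := by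
    by_contra hall
    push Not at hall
    apply hs0
    rw [← F2_G_eq (s 0) (hs 0)]
    simp [F2_G, hall]
  refine hρ μ k φ ?_ s hs hμ
  intro h0
  apply hφ
  rw [map_prod]
  exact Finset.prod_eq_zero (Finset.mem_univ μ) h0

end Pool.Agent.LibHP
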