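import Mathlib

/-! # Row F3: degree bound for integral elements

Plan. `E := FractionRing (MvPolynomial (Fin m) k)`, embedded in `F` by `γ`; `F` is finite over `E`,
generated by `ξ` (`hgen`), `e := M.natDegree`, and `M` is the minimal polynomial of `ξ` over `E`
(`hmin`), so `1, ξ, ..., ξ ^ (e-1)` is a basis (`PowerBasis`). `w := Algebra.discr E (basis)`.
(a) Over `R := MvPolynomial (Fin m) k` (integrally closed with fraction field `E`): `ξ` is integral, `r`
is integral (root of the monic `T` with integral coefficients), so `w` comes from `R`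
(`Algebra.discr_isIntegral`), `w ≠ 0` (`Algebra.discr_not_zero_of_basis`, characteristic zero) and
`w r ∈ R[ξ]` (`Algebra.discr_mul_isIntegral_mem_adjoin`), `w r = ∑ s_j ξ ^ j` (reduce modulo `M`).
(b) Let `V` be the ring of the `f = p / q ∈ E` with `deg p ≤ deg q` (`MvPolynomial.totalDegree`; it is a
valuation ring because `totalDegree` is additive on products, `totalDegree_mul_of_isDomain`: e.g. a
`ValuationSubring`, integrally closed with fraction field `E`), `X := X 0` the first variable (`0 < m`).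
`ξ' := ξ / X ^ D` and `r' := r / X ^ D` are integral over `V`: for `ξ'` because the coefficient of
`Y ^ (e - l)` of the equation of `ξ'` is `M.coeff (e - l) / X ^ (l D)`, of degree `≤ D - l D ≤ 0` for
`l ≥ 1`; the coefficients `T.coeff i / X ^ (D)` (`i < T.natDegree`) are integral over `V` by `hTD` for the
same reason, so `r'` is a root of a monic polynomial whose coefficients `T.coeff (n - l) / X ^ (l D)` are
integral over `V`. Same theorem with `R := V` and the power basis of `ξ'`:
`w' := discr (1, ξ', ..., ξ' ^ (e-1)) = w / X ^ (D e (e-1)) ∈ V` (`Algebra.discr_of_matrix_vecMul` or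
`discr` of a rescaled basis) and `w' r' = ∑ s'_j ξ' ^ j`, `s'_j ∈ V`.
(c) So `deg w ≤ D e (e-1)`, and by uniqueness of the coordinates
`s_j = X ^ (D e (e-1) + D - j D) s'_j`, so `deg s_j ≤ D e (e-1) + D ≤ D (e ^ 2 + 1)`. -/

set_option autoImplicit false
open Polynomial

namespace Pool.Agent.LibHP

private theorem coordsA {V E F : Type} [CommRing V] [IsDomain V] [IsIntegrallyClosed V]
    [Field E] [Field F] [Algebra V E] [IsFractionRing V E] [Algebra E F] [Algebra V F]
    [IsScalarTower V E F] [FiniteDimensional E F] [Algebra.IsSeparable E F]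
    (x : F) (hx : IsIntegral V x) (htop : Algebra.adjoin E {x} = ⊤) (z : F)
    (hz : IsIntegral V z) (n : ℕ) (hn : (minpoly E x).natDegree = n) :
    ∃ (d : V) (s : Fin n → V),
      algebraMap V E d = Algebra.discr E (fun i : Fin n => x ^ (i : ℕ)) ∧
      Algebra.discr E (fun i : Fin n => x ^ (i : ℕ)) ≠ 0 ∧
      Algebra.discr E (fun i : Fin n => x ^ (i : ℕ)) • z
        = ∑ j, algebraMap V F (s j) * x ^ (j : ℕ) := by
  have hxE : IsIntegral E x := hx.tower_top
  let B : PowerBasis E F := PowerBasis.ofAdjoinEqTop hxE htop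
  have hgen : B.gen = x := rfl
  have hdim : B.dim = n := by
    rw [← hn]; rfl
  subst hn
  have hB : (B.basis : Fin (minpoly E x).natDegree → F)
      = fun i : Fin (minpoly E x).natDegree => x ^ (i : ℕ) := B.coe_basis
  have hint : IsIntegral V (Algebra.discr E (fun i : Fin (minpoly E x).natDegree => x ^ (i : ℕ))) :=
    Algebra.discr_isIntegral E (fun i => hx.pow _)
  obtain ⟨d, hd⟩ := IsIntegrallyClosed.isIntegral_iff.1 hint
  have hmem := Algebra.discr_mul_isIntegral_mem_adjoin (R := V) E (B := B) (hgen ▸ hx) hz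
  have hne := Algebra.discr_not_zero_of_basis E B.basis
  have hmem2 : Algebra.discr E (fun i : Fin (minpoly E x).natDegree => x ^ (i : ℕ)) • z
      ∈ Algebra.adjoin V {x} := by
    rw [← hB]; exact hmem
  have hne2 : Algebra.discr E (fun i : Fin (minpoly E x).natDegree => x ^ (i : ℕ)) ≠ 0 := by
    rw [← hB]; exact hne
  rw [Algebra.adjoin_singleton_eq_range_aeval] at hmem2
  obtain ⟨p, hp⟩ := hmem2
  have hmp := minpoly.isIntegrallyClosed_eq_field_fractions' E hx
  have hmonic : (minpoly V x).Monic := minpoly.monic hx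
  have hdeg : (minpoly V x).natDegree = (minpoly E x).natDegree := by
    rw [hmp, hmonic.natDegree_map]
  have hq : aeval x (p %ₘ minpoly V x) = aeval x p := by
    have h1 := congrArg (aeval x) (modByMonic_add_div p (minpoly V x))
    rw [map_add, map_mul, minpoly.aeval, zero_mul, add_zero] at h1
    exact h1
  have hlt : (p %ₘ minpoly V x).natDegree < (minpoly E x).natDegree := by
    rw [← hdeg]
    exact natDegree_modByMonic_lt _ hmonic (minpoly.ne_one V x)
  refine ⟨d, fun j => (p %ₘ minpoly V x).coeff j, hd, hne2, ?_⟩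
  have hp' : aeval x p = Algebra.discr E (fun i : Fin (minpoly E x).natDegree => x ^ (i : ℕ)) • z :=
    hp
  rw [← hp', ← hq, aeval_eq_sum_range' hlt, Finset.sum_range]
  refine Finset.sum_congr rfl fun j _ => ?_
  rw [Algebra.smul_def]


/-- Elements of a field with integral coefficients of a monic polynomial. -/
private theorem integral_of_coeffs {V F : Type} [CommRing V] [Field F] [Algebra V F]
    (P : F[X]) (hP : P.Monic) (hc : ∀ i, IsIntegral V (P.coeff i)) (x : F)
    (hx : P.eval x = 0) : IsIntegral V x := by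
  have hsub : (↑P.coeffs : Set F) ⊆ (integralClosure V F).toSubring := by
    intro c hcm
    obtain ⟨i, _, rfl⟩ := Polynomial.mem_coeffs_iff.1 hcm
    exact hc i
  have h1 : IsIntegral (integralClosure V F) x := by
    refine ⟨P.toSubring (integralClosure V F).toSubring hsub, (Polynomial.monic_toSubring _ _ _).2 hP, ?_⟩
    have h2 : (P.toSubring (integralClosure V F).toSubring hsub).map
        (Subring.subtype (integralClosure V F).toSubring) = P := by
      ext i
      rw [coeff_map]
      exact Polynomial.coeff_toSubring' _ _ _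
    have h3 := Polynomial.eval₂_eq_eval_map (Subring.subtype (integralClosure V F).toSubring)
      (x := x) (p := P.toSubring (integralClosure V F).toSubring hsub)
    rw [h2, hx] at h3
    exact h3
  exact isIntegral_trans x h1

/-- The degree valuation ring. -/
private def degV (k : Type) [Field k] (m : ℕ) :
    ValuationSubring (FractionRing (MvPolynomial (Fin m) k)) where
  carrier := {f | ∃ p q : MvPolynomial (Fin m) k, q ≠ 0 ∧
    f * algebraMap _ (FractionRing (MvPolynomial (Fin m) k)) q = algebraMap _ _ p ∧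
    p.totalDegree ≤ q.totalDegree}
  mul_mem' := by
    rintro f g ⟨p, q, hq, h, hd⟩ ⟨p', q', hq', h', hd'⟩
    refine ⟨p * p', q * q', mul_ne_zero hq hq', ?_, ?_⟩
    · rw [map_mul, map_mul, ← h, ← h']; ring
    · rw [MvPolynomial.totalDegree_mul_of_isDomain hq hq']
      exact (MvPolynomial.totalDegree_mul _ _).trans (add_le_add hd hd')
  one_mem' := ⟨1, 1, one_ne_zero, by simp, le_rfl⟩
  add_mem' := by
    rintro f g ⟨p, q, hq, h, hd⟩ ⟨p', q', hq', h', hd'⟩
    refine ⟨p * q' + p' * q, q * q', mul_ne_zero hq hq', ?_, ?_⟩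
    · rw [map_mul, map_add, map_mul, map_mul, ← h, ← h']; ring
    · rw [MvPolynomial.totalDegree_mul_of_isDomain hq hq']
      refine (MvPolynomial.totalDegree_add _ _).trans (max_le ?_ ?_)
      · exact (MvPolynomial.totalDegree_mul _ _).trans (add_le_add hd le_rfl)
      · refine (MvPolynomial.totalDegree_mul _ _).trans ?_
        rw [add_comm]
        exact add_le_add le_rfl hd'
  zero_mem' := ⟨0, 1, one_ne_zero, by simp, by simp⟩
  neg_mem' := by
    rintro f ⟨p, q, hq, h, hd⟩
    refine ⟨-p, q, hq, ?_, ?_⟩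
    · rw [map_neg, ← h]; ring
    · rwa [MvPolynomial.totalDegree_neg]
  mem_or_inv_mem' := by
    intro f
    obtain ⟨p, q, hq, rfl⟩ := IsFractionRing.div_surjective (A := MvPolynomial (Fin m) k) f
    have hq0 : q ≠ 0 := nonZeroDivisors.ne_zero hq
    have hinj := IsFractionRing.injective (MvPolynomial (Fin m) k)
      (FractionRing (MvPolynomial (Fin m) k))
    have hqa : algebraMap (MvPolynomial (Fin m) k) (FractionRing (MvPolynomial (Fin m) k)) q ≠ 0 :=
      (map_ne_zero_iff _ hinj).2 hq0
    rcases le_total p.totalDegree q.totalDegree with h | h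
    · left
      exact ⟨p, q, hq0, div_mul_cancel₀ _ hqa, h⟩
    · by_cases hp0 : p = 0
      · left
        subst hp0
        exact ⟨0, 1, one_ne_zero, by simp, by simp⟩
      · right
        have hpa : algebraMap (MvPolynomial (Fin m) k)
            (FractionRing (MvPolynomial (Fin m) k)) p ≠ 0 :=
          (map_ne_zero_iff _ hinj).2 hp0
        refine ⟨q, p, hp0, ?_, h⟩
        rw [inv_div, div_mul_cancel₀ _ hpa]

private theorem degV_mem {k : Type} [Field k] {m : ℕ}
    {f : FractionRing (MvPolynomial (Fin m) k)} {p q : MvPolynomial (Fin m) k} (hq : q ≠ 0)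
    (h : f * algebraMap _ (FractionRing (MvPolynomial (Fin m) k)) q = algebraMap _ _ p) :
    f ∈ degV k m ↔ p.totalDegree ≤ q.totalDegree := by
  constructor
  · rintro ⟨p', q', hq', h', hd'⟩
    have hinj := IsFractionRing.injective (MvPolynomial (Fin m) k)
      (FractionRing (MvPolynomial (Fin m) k))
    have e : p * q' = p' * q := by
      apply hinj
      rw [map_mul, map_mul, ← h, ← h']; ring
    by_cases hp : p = 0
    · subst hp; simp
    · have hp' : p' ≠ 0 := by
        rintro rfl
        rw [zero_mul] at e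
        exact mul_ne_zero hp hq' e
      have e2 := congrArg MvPolynomial.totalDegree e
      rw [MvPolynomial.totalDegree_mul_of_isDomain hp hq',
        MvPolynomial.totalDegree_mul_of_isDomain hp' hq] at e2
      omega
  · intro hd
    exact ⟨p, q, hq, h, hd⟩

/-- Scaled roots: integrality over the degree valuation ring. -/
private theorem int_scaled {k F : Type} [Field k] [Field F] {m : ℕ} (hm : 0 < m)
    [Algebra (FractionRing (MvPolynomial (Fin m) k)) F]
    [Algebra (degV k m) F] [IsScalarTower (degV k m) (FractionRing (MvPolynomial (Fin m) k)) F]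
    (γ : MvPolynomial (Fin m) k →+* F)
    (hγ : ∀ p, γ p = algebraMap (FractionRing (MvPolynomial (Fin m) k)) F (algebraMap _ _ p))
    (D N : ℕ) (hDN : D ≤ N) (τ : (MvPolynomial (Fin m) k)[X]) (hτ : τ.Monic)
    (hd : ∀ l, (τ.coeff l).totalDegree ≤ D) (x : F) (hx : τ.eval₂ γ x = 0) :
    IsIntegral (degV k m) ((γ (MvPolynomial.X (⟨0, hm⟩ : Fin m)))⁻¹ ^ N * x) := by
  set X0 : MvPolynomial (Fin m) k := MvPolynomial.X (⟨0, hm⟩ : Fin m) with hX0
  have hX0ne : X0 ≠ 0 := MvPolynomial.X_ne_zero _
  have hinj := IsFractionRing.injective (MvPolynomial (Fin m) k)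
    (FractionRing (MvPolynomial (Fin m) k))
  have hXa : algebraMap (MvPolynomial (Fin m) k) (FractionRing (MvPolynomial (Fin m) k)) X0 ≠ 0 :=
    (map_ne_zero_iff _ hinj).2 hX0ne
  set t : F := (γ X0)⁻¹ ^ N with ht
  have hroot : ((τ.map γ).scaleRoots t).eval (t * x) = 0 := by
    rw [scaleRoots_eval_mul, eval_map, hx, mul_zero]
  refine integral_of_coeffs ((τ.map γ).scaleRoots t)
    ((monic_scaleRoots_iff t).2 (hτ.map γ)) ?_ _ hroot
  intro i
  rw [coeff_scaleRoots, coeff_map, hτ.natDegree_map]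
  -- the coefficient comes from the valuation ring
  have key : ∀ (p : MvPolynomial (Fin m) k) (j : ℕ), p.totalDegree ≤ N * j →
      IsIntegral (degV k m) (γ p * t ^ j) := by
    intro p j hpj
    set f : FractionRing (MvPolynomial (Fin m) k) :=
      algebraMap _ _ p * ((algebraMap (MvPolynomial (Fin m) k)
        (FractionRing (MvPolynomial (Fin m) k)) X0)⁻¹ ^ N) ^ j with hf
    have hfV : f ∈ degV k m := by
      refine (degV_mem (q := X0 ^ (N * j)) (p := p) (pow_ne_zero _ hX0ne) ?_).2 ?_
      · rw [hf, map_pow, mul_assoc, ← pow_mul, ← mul_pow, inv_mul_cancel₀ hXa, one_pow, mul_one]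
      · rw [hX0, MvPolynomial.totalDegree_X_pow]; exact hpj
    have h1 : algebraMap (degV k m) F (⟨f, hfV⟩ : degV k m)
        = algebraMap (FractionRing (MvPolynomial (Fin m) k)) F f :=
      IsScalarTower.algebraMap_apply (degV k m) (FractionRing (MvPolynomial (Fin m) k)) F
        (⟨f, hfV⟩ : degV k m)
    have hfe : γ p * t ^ j = algebraMap (degV k m) F (⟨f, hfV⟩ : degV k m) := by
      rw [h1, hf, map_mul, map_pow, map_pow, map_inv₀, ← hγ, ← hγ, ht]
    rw [hfe]
    exact isIntegral_algebraMap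
  by_cases hi : i < τ.natDegree
  · refine key _ _ ((hd i).trans (hDN.trans ?_))
    exact Nat.le_mul_of_pos_right _ (by omega)
  · rcases Nat.lt_or_ge τ.natDegree i with h | h
    · rw [coeff_eq_zero_of_natDegree_lt h, map_zero, zero_mul]
      exact isIntegral_zero
    · have : i = τ.natDegree := by omega
      subst this
      rw [hτ.coeff_natDegree, Nat.sub_self, pow_zero, mul_one, map_one]
      exact isIntegral_one

private theorem W_F3_aux (k F : Type) [Field k] [CharZero k] [Field F] (m : ℕ) (hm : 0 < m)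
    (γ : MvPolynomial (Fin m) k →+* F) (hγ : Function.Injective γ) (ξ : F)
    (M : (MvPolynomial (Fin m) k)[X]) (hM : M.Monic) (hMξ : M.eval₂ γ ξ = 0)
    (hmin : ∀ P : (MvPolynomial (Fin m) k)[X], P.natDegree < M.natDegree → P.eval₂ γ ξ = 0 → P = 0)
    (hgen : ∀ z : F, ∃ (g : MvPolynomial (Fin m) k) (Q : (MvPolynomial (Fin m) k)[X]), g ≠ 0 ∧
      γ g * z = Q.eval₂ γ ξ)
    (D : ℕ) (hMD : ∀ i, (M.coeff i).totalDegree ≤ D)
    (T : F[X]) (hT : T.Monic)
    (hTD : ∀ i, ∃ τ : (MvPolynomial (Fin m) k)[X], τ.Monic ∧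
      (∀ l, (τ.coeff l).totalDegree ≤ D) ∧ τ.eval₂ γ (T.coeff i) = 0)
    (r : F) (hr : T.IsRoot r) (n : ℕ) (hn : M.natDegree = n) :
    ∃ (w : MvPolynomial (Fin m) k) (s : Fin n → MvPolynomial (Fin m) k), w ≠ 0 ∧
      γ w * r = ∑ j, γ (s j) * ξ ^ (j : ℕ) ∧
      w.totalDegree ≤ D * (n ^ 2 + 1) ∧
      ∀ j, (s j).totalDegree ≤ D * (n ^ 2 + 1) := by
  classical
  have hX0ne : (MvPolynomial.X (⟨0, hm⟩ : Fin m) : MvPolynomial (Fin m) k) ≠ 0 :=
    MvPolynomial.X_ne_zero _
  have hinj := IsFractionRing.injective (MvPolynomial (Fin m) k)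
    (FractionRing (MvPolynomial (Fin m) k))
  let algEF : Algebra (FractionRing (MvPolynomial (Fin m) k)) F :=
    (IsFractionRing.lift (A := MvPolynomial (Fin m) k)
      (K := FractionRing (MvPolynomial (Fin m) k)) hγ).toAlgebra
  let algRF : Algebra (MvPolynomial (Fin m) k) F := γ.toAlgebra
  have hγE : ∀ p : MvPolynomial (Fin m) k, γ p =
      algebraMap (FractionRing (MvPolynomial (Fin m) k)) F (algebraMap _ _ p) := by
    intro p
    exact (IsFractionRing.lift_algebraMap hγ p).symm
  have tower : IsScalarTower (MvPolynomial (Fin m) k) (FractionRing (MvPolynomial (Fin m) k)) F :=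
    IsScalarTower.of_algebraMap_eq hγE
  have : CharZero (FractionRing (MvPolynomial (Fin m) k)) :=
    IsFractionRing.charZero (MvPolynomial (Fin m) k)
  let algVF : Algebra (degV k m) F :=
    ((algebraMap (FractionRing (MvPolynomial (Fin m) k)) F).comp
      (degV k m).subtype).toAlgebra
  have towerV : IsScalarTower (degV k m) (FractionRing (MvPolynomial (Fin m) k)) F :=
    IsScalarTower.of_algebraMap_eq (fun _ => rfl)
  have hξR : IsIntegral (MvPolynomial (Fin m) k) ξ := ⟨M, hM, hMξ⟩
  have hξE : IsIntegral (FractionRing (MvPolynomial (Fin m) k)) ξ := hξR.tower_top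
  have htop : Algebra.adjoin (FractionRing (MvPolynomial (Fin m) k)) {ξ} = ⊤ := by
    rw [eq_top_iff]
    intro z _
    obtain ⟨g, Q, hg, hQ⟩ := hgen z
    have hgγ : γ g ≠ 0 := (map_ne_zero_iff γ hγ).2 hg
    have h1 : Q.eval₂ γ ξ ∈ Algebra.adjoin (FractionRing (MvPolynomial (Fin m) k)) {ξ} := by
      rw [eval₂_eq_sum_range]
      refine Subalgebra.sum_mem _ fun i _ => ?_
      rw [hγE]
      exact Subalgebra.mul_mem _ (Subalgebra.algebraMap_mem _ _)
        (Subalgebra.pow_mem _ (Algebra.subset_adjoin (Set.mem_singleton _)) _)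
    have h2 : z = algebraMap (FractionRing (MvPolynomial (Fin m) k)) F
        (algebraMap _ (FractionRing (MvPolynomial (Fin m) k)) g)⁻¹ * Q.eval₂ γ ξ := by
      rw [← hQ, map_inv₀, ← hγE, inv_mul_cancel_left₀ hgγ]
    rw [h2]
    exact Subalgebra.mul_mem _ (Subalgebra.algebraMap_mem _ _) h1
  have fd : FiniteDimensional (FractionRing (MvPolynomial (Fin m) k)) F :=
    (PowerBasis.ofAdjoinEqTop hξE htop).finite
  have hdegmin : (minpoly (FractionRing (MvPolynomial (Fin m) k)) ξ).natDegree = n := by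
    rw [← hn]
    have hmp := minpoly.isIntegrallyClosed_eq_field_fractions'
      (FractionRing (MvPolynomial (Fin m) k)) hξR
    rw [hmp, (minpoly.monic hξR).natDegree_map]
    refine le_antisymm ?_ ?_
    · exact natDegree_le_natDegree (minpoly.min (MvPolynomial (Fin m) k) ξ hM hMξ)
    · by_contra hlt
      push Not at hlt
      exact (minpoly.monic hξR).ne_zero (hmin _ hlt (minpoly.aeval _ _))
  have hfin : Module.finrank (FractionRing (MvPolynomial (Fin m) k)) F = n := by
    rw [(PowerBasis.ofAdjoinEqTop hξE htop).finrank, PowerBasis.ofAdjoinEqTop_dim, hdegmin]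
  set X0 : MvPolynomial (Fin m) k := MvPolynomial.X (⟨0, hm⟩ : Fin m) with hX0
  have hXγ : γ X0 ≠ 0 := (map_ne_zero_iff γ hγ).2 hX0ne
  have hXE : algebraMap _ (FractionRing (MvPolynomial (Fin m) k)) X0 ≠ 0 :=
    (map_ne_zero_iff _ hinj).2 hX0ne
  set te : FractionRing (MvPolynomial (Fin m) k) :=
    (algebraMap _ (FractionRing (MvPolynomial (Fin m) k)) X0)⁻¹ ^ D with hte
  have hte0 : te ≠ 0 := pow_ne_zero _ (inv_ne_zero hXE)
  have hteF : algebraMap (FractionRing (MvPolynomial (Fin m) k)) F te = (γ X0)⁻¹ ^ D := by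
    rw [hte, map_pow, map_inv₀, ← hγE]
  -- the scaled generator
  set ξ' : F := (γ X0)⁻¹ ^ D * ξ with hξ'
  have hξ'V : IsIntegral (degV k m) ξ' :=
    int_scaled hm γ hγE D D le_rfl M hM hMD ξ hMξ
  have htop' : Algebra.adjoin (FractionRing (MvPolynomial (Fin m) k)) {ξ'} = ⊤ := by
    rw [eq_top_iff, ← htop]
    refine Algebra.adjoin_le ?_
    intro y hy
    have hyξ : y = ξ := hy
    have : y = algebraMap (FractionRing (MvPolynomial (Fin m) k)) F te⁻¹ * ξ' := by
      rw [map_inv₀, hteF, hξ', inv_mul_cancel_left₀ (pow_ne_zero _ (inv_ne_zero hXγ)), hyξ]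
    rw [SetLike.mem_coe, this]
    exact Subalgebra.mul_mem _ (Subalgebra.algebraMap_mem _ _)
      (Algebra.subset_adjoin (Set.mem_singleton _))
  have hdegmin' : (minpoly (FractionRing (MvPolynomial (Fin m) k)) ξ').natDegree
      = n := by
    rw [← PowerBasis.ofAdjoinEqTop_dim (hξ'V.tower_top) htop',
      ← (PowerBasis.ofAdjoinEqTop _ htop').finrank, hfin]
  -- integrality of r over R and of the scaled r over V
  have hrR : IsIntegral (MvPolynomial (Fin m) k) r := by
    refine integral_of_coeffs T hT ?_ r hr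
    intro i
    obtain ⟨τ, hτ, _, hτ0⟩ := hTD i
    exact ⟨τ, hτ, hτ0⟩
  have hrV : IsIntegral (degV k m) ((γ X0)⁻¹ ^ D * r) := by
    refine integral_of_coeffs (T.scaleRoots ((γ X0)⁻¹ ^ D)) ((monic_scaleRoots_iff _).2 hT) ?_ _ ?_
    · intro i
      rw [coeff_scaleRoots]
      by_cases hi : i < T.natDegree
      · obtain ⟨τ, hτ, hτd, hτ0⟩ := hTD i
        rw [← pow_mul, mul_comm]
        exact int_scaled hm γ hγE D _ (Nat.le_mul_of_pos_right _ (by omega)) τ hτ hτd _ hτ0
      · rcases Nat.lt_or_ge T.natDegree i with h | h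
        · rw [coeff_eq_zero_of_natDegree_lt h, zero_mul]
          exact isIntegral_zero
        · have : i = T.natDegree := by omega
          subst this
          rw [hT.coeff_natDegree, Nat.sub_self, pow_zero, mul_one]
          exact isIntegral_one
    · rw [scaleRoots_eval_mul, hr.eq_zero, mul_zero]
  obtain ⟨w, s, hw, hwne, hws⟩ := coordsA (V := MvPolynomial (Fin m) k) ξ hξR htop r hrR
    n hdegmin
  obtain ⟨w', s', hw', -, hws'⟩ := coordsA (V := degV k m) ξ' hξ'V htop' ((γ X0)⁻¹ ^ D * r) hrV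
    n hdegmin'
  -- comparison of the discriminants
  have hn0 : 0 < n := by
    rw [Nat.pos_iff_ne_zero]
    intro h0
    have h1 : M = 1 := hM.natDegree_eq_zero.1 (hn.trans h0)
    rw [h1, eval₂_one] at hMξ
    exact one_ne_zero hMξ
  have hdisc : Algebra.discr (FractionRing (MvPolynomial (Fin m) k))
      (fun i : Fin n => ξ' ^ (i : ℕ)) = te ^ (n * (n - 1)) *
        Algebra.discr (FractionRing (MvPolynomial (Fin m) k)) (fun i : Fin n => ξ ^ (i : ℕ)) := by
    have h1 := Algebra.discr_of_matrix_vecMul (A := FractionRing (MvPolynomial (Fin m) k))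
      (fun i : Fin n => ξ ^ (i : ℕ)) (Matrix.diagonal fun i : Fin n => te ^ (i : ℕ))
    have h2 : Matrix.vecMul (fun i : Fin n => ξ ^ (i : ℕ)) ((Matrix.diagonal fun i : Fin n =>
        te ^ (i : ℕ)).map (algebraMap (FractionRing (MvPolynomial (Fin m) k)) F))
        = (fun i : Fin n => ξ' ^ (i : ℕ)) := by
      rw [Matrix.diagonal_map (map_zero _)]
      ext i
      rw [Matrix.vecMul_diagonal]
      change ξ ^ (i : ℕ) * algebraMap _ F (te ^ (i : ℕ)) = ξ' ^ (i : ℕ)
      rw [map_pow, hteF, hξ', ← mul_pow, mul_comm]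
    rw [h2, Matrix.det_diagonal] at h1
    rw [h1]
    congr 1
    rw [Finset.prod_pow_eq_pow_sum, ← pow_mul, Fin.sum_univ_eq_sum_range (fun i => i) n,
      Finset.sum_range_id_mul_two]
  have hwd : w.totalDegree ≤ D * (n * (n - 1)) := by
    have h1 : (algebraMap (degV k m) (FractionRing (MvPolynomial (Fin m) k)) w') ∈ degV k m :=
      w'.2
    have h2 : algebraMap (degV k m) (FractionRing (MvPolynomial (Fin m) k)) w' *
        algebraMap _ _ (X0 ^ (D * (n * (n - 1)))) = algebraMap _ _ w := by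
      rw [hw', hdisc, ← hw, map_pow, hte, ← pow_mul, mul_assoc, mul_comm, mul_assoc, ← mul_pow,
        mul_inv_cancel₀ hXE, one_pow, mul_one]
    have h3 := (degV_mem (pow_ne_zero _ hX0ne) h2).1 h1
    rwa [hX0, MvPolynomial.totalDegree_X_pow] at h3
  refine ⟨w, s, ?_, ?_, ?_, ?_⟩
  · rintro rfl
    rw [map_zero] at hw
    exact hwne hw.symm
  · have h1 : Algebra.discr (FractionRing (MvPolynomial (Fin m) k))
        (fun i : Fin n => ξ ^ (i : ℕ)) • r = γ w * r := by
      rw [Algebra.smul_def, ← hw, ← hγE]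
    rw [← h1, hws]
    rfl
  · refine hwd.trans (Nat.mul_le_mul_left _ ?_)
    have : n * (n - 1) ≤ n ^ 2 := by
      rw [pow_two]; exact Nat.mul_le_mul_left _ (Nat.sub_le _ _)
    omega
  · -- uniqueness of the coordinates
    have hlin : LinearIndependent (FractionRing (MvPolynomial (Fin m) k))
        (fun i : Fin n => ξ ^ (i : ℕ)) := by
      have h1 := (PowerBasis.ofAdjoinEqTop hξE htop).basis.linearIndependent
      rw [PowerBasis.coe_basis] at h1
      have h2 : (PowerBasis.ofAdjoinEqTop hξE htop).dim = n := hdegmin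
      have h3 : (PowerBasis.ofAdjoinEqTop hξE htop).gen = ξ := rfl
      rw [h3] at h1
      rw [← h2]
      exact h1
    intro j
    have hjn : (j : ℕ) ≤ n * (n - 1) + 1 := by
      have h1 : n - 1 ≤ n * (n - 1) := Nat.le_mul_of_pos_left _ hn0
      have := j.2
      omega
    have e1 : ∑ j : Fin n, (te ^ (n * (n - 1) + 1) * algebraMap _ _ (s j)) • ξ ^ (j : ℕ)
        = ∑ j : Fin n, (algebraMap (degV k m) (FractionRing (MvPolynomial (Fin m) k)) (s' j)
          * te ^ (j : ℕ)) • ξ ^ (j : ℕ) := by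
      have h1 : ∑ j : Fin n, (te ^ (n * (n - 1) + 1) * algebraMap _ _ (s j)) • ξ ^ (j : ℕ)
          = algebraMap _ F (te ^ (n * (n - 1) + 1)) * (Algebra.discr
            (FractionRing (MvPolynomial (Fin m) k)) (fun i : Fin n => ξ ^ (i : ℕ)) • r) := by
        rw [hws, Finset.mul_sum]
        refine Finset.sum_congr rfl fun j _ => ?_
        rw [Algebra.smul_def, map_mul, mul_assoc, ← hγE]
        rfl
      have h2 : ∑ j : Fin n, (algebraMap (degV k m) (FractionRing (MvPolynomial (Fin m) k)) (s' j)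
          * te ^ (j : ℕ)) • ξ ^ (j : ℕ) = Algebra.discr (FractionRing (MvPolynomial (Fin m) k))
            (fun i : Fin n => ξ' ^ (i : ℕ)) • ((γ X0)⁻¹ ^ D * r) := by
        rw [hws']
        refine Finset.sum_congr rfl fun j _ => ?_
        rw [Algebra.smul_def, map_mul, map_pow, hteF, mul_assoc, ← mul_pow, ← hξ']
        rfl
      rw [h1, h2, hdisc, Algebra.smul_def, Algebra.smul_def, map_mul, ← hteF, pow_succ, map_mul]
      ring
    have e2 := hlin.eq_coords_of_eq e1 j
    have hmem : algebraMap (degV k m) (FractionRing (MvPolynomial (Fin m) k)) (s' j) ∈ degV k m :=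
      (s' j).2
    have e3 : algebraMap (degV k m) (FractionRing (MvPolynomial (Fin m) k)) (s' j) *
        algebraMap _ _ (X0 ^ (D * (n * (n - 1) + 1 - (j : ℕ)))) = algebraMap _ _ (s j) := by
      have h5 : te * (algebraMap _ _ X0) ^ D = 1 := by
        rw [hte, ← mul_pow, inv_mul_cancel₀ hXE, one_pow]
      have h6 : algebraMap (degV k m) (FractionRing (MvPolynomial (Fin m) k)) (s' j)
          = te ^ (n * (n - 1) + 1 - (j : ℕ)) * algebraMap _ _ (s j) := by
        have h7 : te ^ (n * (n - 1) + 1) = te ^ (n * (n - 1) + 1 - (j : ℕ)) * te ^ (j : ℕ) := by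
          rw [← pow_add, Nat.sub_add_cancel hjn]
        rw [h7] at e2
        apply mul_right_cancel₀ (pow_ne_zero (j : ℕ) hte0)
        rw [← e2]; ring
      rw [h6, map_pow, pow_mul]
      calc te ^ (n * (n - 1) + 1 - (j : ℕ)) * algebraMap _ _ (s j) *
            ((algebraMap _ _ X0) ^ D) ^ (n * (n - 1) + 1 - (j : ℕ))
          = (te * (algebraMap _ _ X0) ^ D) ^ (n * (n - 1) + 1 - (j : ℕ)) *
            algebraMap _ _ (s j) := by rw [mul_pow]; ring
        _ = algebraMap _ _ (s j) := by rw [h5, one_pow, one_mul]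
    have h8 := (degV_mem (pow_ne_zero _ hX0ne) e3).1 hmem
    rw [hX0, MvPolynomial.totalDegree_X_pow] at h8
    refine h8.trans (Nat.mul_le_mul_left _ ?_)
    have : n * (n - 1) ≤ n ^ 2 := by
      rw [pow_two]; exact Nat.mul_le_mul_left _ (Nat.sub_le _ _)
    omega

theorem W_F3 (k F : Type) [Field k] [CharZero k] [Field F] (m : ℕ) (hm : 0 < m)
    (γ : MvPolynomial (Fin m) k →+* F) (hγ : Function.Injective γ) (ξ : F)
    (M : (MvPolynomial (Fin m) k)[X]) (hM : M.Monic) (hMξ : M.eval₂ γ ξ = 0)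
    (hmin : ∀ P : (MvPolynomial (Fin m) k)[X], P.natDegree < M.natDegree → P.eval₂ γ ξ = 0 → P = 0)
    (hgen : ∀ z : F, ∃ (g : MvPolynomial (Fin m) k) (Q : (MvPolynomial (Fin m) k)[X]), g ≠ 0 ∧
      γ g * z = Q.eval₂ γ ξ)
    (D : ℕ) (hMD : ∀ i, (M.coeff i).totalDegree ≤ D)
    (T : F[X]) (hT : T.Monic)
    (hTD : ∀ i, ∃ τ : (MvPolynomial (Fin m) k)[X], τ.Monic ∧
      (∀ l, (τ.coeff l).totalDegree ≤ D) ∧ τ.eval₂ γ (T.coeff i) = 0)
    (r : F) (hr : T.IsRoot r) :
    ∃ (w : MvPolynomial (Fin m) k) (s : Fin M.natDegree → MvPolynomial (Fin m) k), w ≠ 0 ∧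
      γ w * r = ∑ j, γ (s j) * ξ ^ (j : ℕ) ∧
      w.totalDegree ≤ D * (M.natDegree ^ 2 + 1) ∧
      ∀ j, (s j).totalDegree ≤ D * (M.natDegree ^ 2 + 1) :=
  W_F3_aux k F m hm γ hγ ξ M hM hMξ hmin hgen D hMD T hT hTD r hr _ rfl

end Pool.Agent.LibHP
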