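import Pool.Agent.LibW64.FDefs

/-! # Row F4: the fibre in terms of the presentation

`B := A ⧸ fibreIdeal A A0 φ` (a domain), `ξbar := algebraMap B _ (mk S.ξ)`, `γ := redX A A0 φ S.x`.

Plan. KEY (for `hmin` and injectivity): let `P : (MvPolynomial (Fin m) k)[X]` with
`P.natDegree < S.M.natDegree` and `P.eval₂ γ ξbar = 0`. Then `a := P(x, ξ) ∈ A` (coefficients in `k`) is in
`fibreIdeal` (`B → FractionRing B` is injective), so `a = ∑ κ_l a_l`, `κ_l ∈ A0`, `φ κ_l = 0`,
`a_l ∈ A` (`Submodule.mem_span_set'`/`mem_ideal_span...`). By `S.hgen` and reduction modulo the monic `S.M`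
(`Polynomial.modByMonic`) there are `N` and `Q_l` of degree `< S.M.natDegree` over `A0[x]` with
`g ^ N a_l = Q_l (ξ)`. Then `g ^ N P - ∑ κ_l Q_l`, of degree `< S.M.natDegree`, over `A0[x]`, vanishes at
`ξ`, so it is zero by `S.hmin` (map the coefficients to `L` by `hA0L`; `A0[x] → L[x]` is injective). Apply
`red0 hle φ` to the coefficients: `(g_φ) ^ N P = ∑ φ(κ_l) Q_l,φ = 0`, and `g_φ ≠ 0` because its
coefficient `φ (g.coeff μ)` is not zero, so `P = 0`. (1) Injectivity of `γ`: the case of constant `P` (in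
`Y`); `S.M.natDegree > 0` because `S.M` is monic and not `1` (it has a root).
(2) `M_φ(ξbar) = 0`: apply `A → B → FractionRing B` to `S.hMξ`; an element `κ ∈ A0` is congruent to the
constant `φ κ` modulo `fibreIdeal` (`κ - φ κ` is in `A0` and is killed by `φ`).
(4) For `a ∈ A`: `(g_φ) ^ N * abar = Q_φ (ξbar)` from `S.hgen`, in the same way. A general element of
`FractionRing B` is `abar / bbar`: `bbar` is algebraic over `FractionRing (MvPolynomial (Fin m) k)`, in the
field `E(ξbar) = E[ξbar]`, so `FractionRing B = E[ξbar]`; clear denominators. -/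

set_option autoImplicit false
open Polynomial

namespace Pool.Agent.LibHP

private theorem F4_gen {R F : Type} [CommRing R] [IsDomain R] [Field F] (γ : R →+* F)
    (hγ : Function.Injective γ) (ξ : F) (M : R[X]) (hM : M.Monic) (hMξ : M.eval₂ γ ξ = 0)
    {a b : F} (ha : ∃ (g : R) (Q : R[X]), g ≠ 0 ∧ γ g * a = Q.eval₂ γ ξ)
    (hb : ∃ (g : R) (Q : R[X]), g ≠ 0 ∧ γ g * b = Q.eval₂ γ ξ) :
    ∃ (g : R) (Q : R[X]), g ≠ 0 ∧ γ g * (a / b) = Q.eval₂ γ ξ := by
  let E := FractionRing R
  let i : E →+* F := IsFractionRing.lift (A := R) (K := E) hγ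
  let : Algebra E F := i.toAlgebra
  have hi : ∀ r, algebraMap E F (algebraMap R E r) = γ r :=
    fun r => IsFractionRing.lift_algebraMap hγ r
  have hi' : (algebraMap E F).comp (algebraMap R E) = γ := RingHom.ext hi
  have hint : IsIntegral E ξ :=
    ⟨M.map (algebraMap R E), hM.map _, by rw [eval₂_map, hi']; exact hMξ⟩
  have key : ∀ z : F, (∃ (g : R) (Q : R[X]), g ≠ 0 ∧ γ g * z = Q.eval₂ γ ξ) ↔
      z ∈ Algebra.adjoin E {ξ} := by
    intro z
    constructor
    · rintro ⟨g, Q, hg, h⟩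
      have hg' : γ g ≠ 0 := by
        rw [map_ne_zero_iff γ hγ]
        exact hg
      have h1 : z = algebraMap E F (algebraMap R E g)⁻¹ * aeval ξ (Q.map (algebraMap R E)) := by
        rw [map_inv₀, hi, aeval_def, eval₂_map, hi', ← h]
        field_simp
      rw [h1]
      exact mul_mem (Subalgebra.algebraMap_mem _ _) (by
        rw [Algebra.adjoin_singleton_eq_range_aeval]
        exact ⟨_, rfl⟩)
    · intro hz
      rw [Algebra.adjoin_singleton_eq_range_aeval] at hz
      obtain ⟨q, rfl⟩ := hz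
      obtain ⟨b, hb, hb2⟩ := IsLocalization.integerNormalization_spec (nonZeroDivisors R) q
      refine ⟨b, IsLocalization.integerNormalization (nonZeroDivisors R) q,
        nonZeroDivisors.ne_zero hb, ?_⟩
      have h1 : eval₂ γ ξ (IsLocalization.integerNormalization (nonZeroDivisors R) q) =
          eval₂ (algebraMap E F) ξ
            ((IsLocalization.integerNormalization (nonZeroDivisors R) q).map (algebraMap R E)) := by
        rw [eval₂_map, hi']
      rw [h1, hb2, ← IsScalarTower.algebraMap_smul E b q, eval₂_smul, hi]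
      rfl
  rw [key] at ha hb ⊢
  rw [div_eq_mul_inv]
  refine mul_mem ha ?_
  exact (Algebra.IsIntegral.adjoin (S := {ξ}) (by
    intro x hx
    rw [Set.mem_singleton_iff.1 hx]
    exact hint)).inv_mem hb

theorem W_F4 {k K : Type} [Field k] [CharZero k] [Field K] [Algebra k K] (L : Subfield K)
    (A A0 : Subalgebra k K) (hle : A0 ≤ A) (hA0L : ∀ c ∈ A0, c ∈ L) (S : Pres L A A0)
    (μ : Fin S.m →₀ ℕ) (φ : A →ₐ[k] k) (hφ : red0 hle φ (S.g.coeff μ) ≠ 0)
    [IsDomain (A ⧸ fibreIdeal A A0 φ)] :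
    Function.Injective (redX A A0 φ S.x) ∧
    (S.M.map (MvPolynomial.map (red0 hle φ))).eval₂ (redX A A0 φ S.x)
      (algebraMap _ (FractionRing (A ⧸ fibreIdeal A A0 φ))
        (Ideal.Quotient.mk (fibreIdeal A A0 φ) S.ξ)) = 0 ∧
    (∀ P : (MvPolynomial (Fin S.m) k)[X], P.natDegree < S.M.natDegree →
      P.eval₂ (redX A A0 φ S.x) (algebraMap _ (FractionRing (A ⧸ fibreIdeal A A0 φ))
        (Ideal.Quotient.mk (fibreIdeal A A0 φ) S.ξ)) = 0 → P = 0) ∧
    (∀ z : FractionRing (A ⧸ fibreIdeal A A0 φ),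
      ∃ (g : MvPolynomial (Fin S.m) k) (Q : (MvPolynomial (Fin S.m) k)[X]), g ≠ 0 ∧
        redX A A0 φ S.x g * z = Q.eval₂ (redX A A0 φ S.x)
          (algebraMap _ (FractionRing (A ⧸ fibreIdeal A A0 φ))
            (Ideal.Quotient.mk (fibreIdeal A A0 φ) S.ξ))) := by
  classical
  let mkB : A →+* (A ⧸ fibreIdeal A A0 φ) := Ideal.Quotient.mk (fibreIdeal A A0 φ)
  let F := FractionRing (A ⧸ fibreIdeal A A0 φ)
  let π : A →+* F := (algebraMap (A ⧸ fibreIdeal A A0 φ) F).comp mkB
  let inc : A0 →+* A := (Subalgebra.inclusion hle : A0 →ₐ[k] A)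
  let evA : MvPolynomial (Fin S.m) A0 →+* A := MvPolynomial.eval₂Hom inc S.x
  let evK : MvPolynomial (Fin S.m) A0 →+* K := evX (A0.val : A0 →+* K) (fun i => (S.x i : K))
  let γ : MvPolynomial (Fin S.m) k →+* F := redX A A0 φ S.x
  let r0 : A0 →+* k := red0 hle φ
  let rm : MvPolynomial (Fin S.m) A0 →+* MvPolynomial (Fin S.m) k := MvPolynomial.map r0
  have hr : ∀ c : k, r0 (algebraMap k A0 c) = c := by
    intro c
    exact (φ.comp (Subalgebra.inclusion hle)).commutes c
  have K0 : ∀ c : A0, π (inc c) = algebraMap (A ⧸ fibreIdeal A A0 φ) F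
      (algebraMap k (A ⧸ fibreIdeal A A0 φ) (r0 c)) := by
    intro c
    have h1 : inc c - algebraMap k A (r0 c) ∈ fibreIdeal A A0 φ := by
      refine Ideal.subset_span ⟨?_, ?_⟩
      · exact sub_mem c.2 (A0.algebraMap_mem _)
      · rw [map_sub, AlgHom.commutes]
        exact sub_self _
    have h2 : mkB (inc c) = mkB (algebraMap k A (r0 c)) := Ideal.Quotient.eq.2 h1
    change algebraMap _ F (mkB (inc c)) = _
    rw [h2]
    rfl
  have K1a : (A.val : A →+* K).comp evA = evK := by
    refine MvPolynomial.ringHom_ext (fun c => ?_) (fun i => ?_)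
    · simp [evA, evK, evX, inc]
    · simp [evA, evK, evX]
  have K1b : π.comp evA = γ.comp rm := by
    refine MvPolynomial.ringHom_ext (fun c => ?_) (fun i => ?_)
    · change π (evA (MvPolynomial.C c)) = γ (rm (MvPolynomial.C c))
      have e1 : evA (MvPolynomial.C c) = inc c := by simp [evA]
      have e2 : γ (rm (MvPolynomial.C c)) = algebraMap (A ⧸ fibreIdeal A A0 φ) F
        (algebraMap k (A ⧸ fibreIdeal A A0 φ) (r0 c)) := by
        simp [γ, rm, redX]
        rfl
      rw [e1, e2, K0]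
    · change π (evA (MvPolynomial.X i)) = γ (rm (MvPolynomial.X i))
      have e1 : evA (MvPolynomial.X i) = S.x i := by simp [evA]
      have e2 : γ (rm (MvPolynomial.X i)) = π (S.x i) := by
        simp [γ, rm, redX]
        rfl
      rw [e1, e2]
  have K2a : ∀ P : (MvPolynomial (Fin S.m) A0)[X],
      ((P.eval₂ evA S.ξ : A) : K) = P.eval₂ evK (S.ξ : K) := by
    intro P
    have h1 := Polynomial.hom_eval₂ P evA (A.val : A →+* K) S.ξ
    rw [K1a] at h1
    exact h1
  have K2b : ∀ P : (MvPolynomial (Fin S.m) A0)[X],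
      π (P.eval₂ evA S.ξ) = (P.map rm).eval₂ γ (π S.ξ) := by
    intro P
    rw [Polynomial.hom_eval₂, K1b, Polynomial.eval₂_map]
  have hMK : S.M.eval₂ evK (S.ξ : K) = 0 := S.hMξ
  have hM1 : S.M ≠ 1 := by
    intro h1
    rw [h1, Polynomial.eval₂_one] at hMK
    exact one_ne_zero hMK
  have he : 0 < S.M.natDegree := by
    rcases Nat.eq_zero_or_pos S.M.natDegree with h1 | h1
    · exact absurd (Polynomial.eq_one_of_monic_natDegree_zero S.hM h1) hM1
    · exact h1
  -- minimality over `A0`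
  have hmin0 : ∀ P : (MvPolynomial (Fin S.m) A0)[X], P.natDegree < S.M.natDegree →
      P.eval₂ evK (S.ξ : K) = 0 → P = 0 := by
    intro P hP h0
    let ι : A0 →+* L := (A0.val : A0 →+* K).codRestrict L (fun c => hA0L _ c.2)
    have hι : Function.Injective ι := by
      intro a b hab
      exact Subtype.ext (congrArg (Subtype.val : L → K) hab)
    have h1 : (evX L.subtype fun i => (S.x i : K)).comp (MvPolynomial.map ι) = evK := by
      refine MvPolynomial.ringHom_ext (fun c => ?_) (fun i => ?_)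
      · simp [evK, evX, ι]
      · simp [evK, evX]
    have h2 := S.hmin (P.map (MvPolynomial.map ι)) (lt_of_le_of_lt Polynomial.natDegree_map_le hP)
      (by rw [Polynomial.eval₂_map, h1]; exact h0)
    have h3 : Function.Injective (Polynomial.map (MvPolynomial.map (σ := Fin S.m) ι)) :=
      Polynomial.map_injective _ (MvPolynomial.map_injective ι hι)
    refine h3 ?_
    rw [h2, Polynomial.map_zero]
  -- the ideal
  have hideal : ∀ a ∈ fibreIdeal A A0 φ, ∃ (N : ℕ) (Q : (MvPolynomial (Fin S.m) A0)[X]),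
      Q.natDegree < S.M.natDegree ∧ evK S.g ^ N * (a : K) = Q.eval₂ evK (S.ξ : K) ∧
      Q.map rm = 0 := by
    intro a ha
    refine Submodule.span_induction (p := fun (a : A) _ =>
      ∃ (N : ℕ) (Q : (MvPolynomial (Fin S.m) A0)[X]),
      Q.natDegree < S.M.natDegree ∧ evK S.g ^ N * (a : K) = Q.eval₂ evK (S.ξ : K) ∧
      Q.map rm = 0) ?_ ?_ ?_ ?_ ha
    · rintro a ⟨h1, h2⟩
      refine ⟨0, Polynomial.C (MvPolynomial.C ⟨(a : K), h1⟩), ?_, ?_, ?_⟩
      · rw [Polynomial.natDegree_C]
        exact he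
      · rw [Polynomial.eval₂_C, pow_zero, one_mul]
        simp [evK, evX]
      · rw [Polynomial.map_C]
        have e1 : rm (MvPolynomial.C ⟨(a : K), h1⟩) = MvPolynomial.C (r0 ⟨(a : K), h1⟩) := by
          simp [rm]
        have e2 : r0 ⟨(a : K), h1⟩ = 0 := h2
        rw [e1, e2, map_zero, map_zero]
    · exact ⟨0, 0, by rw [Polynomial.natDegree_zero]; exact he, by simp, by simp⟩
    · rintro a b _ _ ⟨N1, Q1, h1, h2, h3⟩ ⟨N2, Q2, h4, h5, h6⟩
      refine ⟨N1 + N2, Polynomial.C (S.g ^ N2) * Q1 + Polynomial.C (S.g ^ N1) * Q2, ?_, ?_, ?_⟩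
      · refine lt_of_le_of_lt (Polynomial.natDegree_add_le _ _) (max_lt ?_ ?_)
        · exact lt_of_le_of_lt (Polynomial.natDegree_C_mul_le _ _) h1
        · exact lt_of_le_of_lt (Polynomial.natDegree_C_mul_le _ _) h4
      · rw [Polynomial.eval₂_add, Polynomial.eval₂_mul, Polynomial.eval₂_mul, Polynomial.eval₂_C,
          Polynomial.eval₂_C, ← h2, ← h5, map_pow, map_pow]
        push_cast
        ring
      · rw [Polynomial.map_add, Polynomial.map_mul, Polynomial.map_mul, h3, h6]
        simp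
    · rintro c a _ ⟨N1, Q1, h1, h2, h3⟩
      obtain ⟨N2, Q2, h4⟩ := S.hgen c
      have h4' : evK S.g ^ N2 * (c : K) = Q2.eval₂ evK (S.ξ : K) := h4
      refine ⟨N1 + N2, (Q2 * Q1) %ₘ S.M, ?_, ?_, ?_⟩
      · exact Polynomial.natDegree_modByMonic_lt _ S.hM hM1
      · rw [Polynomial.eval₂_modByMonic_eq_self_of_root hMK, Polynomial.eval₂_mul, ← h2, ← h4']
        change evK S.g ^ (N1 + N2) * ((c : K) * (a : K)) = _
        ring
      · rw [Polynomial.map_modByMonic _ S.hM, Polynomial.map_mul, h3, mul_zero,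
          Polynomial.zero_modByMonic]
  have hgφ : rm S.g ≠ 0 := by
    intro h1
    have h2 := congrArg (MvPolynomial.coeff μ) h1
    rw [MvPolynomial.coeff_map, MvPolynomial.coeff_zero] at h2
    exact hφ h2
  have hinjB : Function.Injective (algebraMap (A ⧸ fibreIdeal A A0 φ) F) :=
    IsFractionRing.injective _ _
  have KEY : ∀ P : (MvPolynomial (Fin S.m) k)[X], P.natDegree < S.M.natDegree →
      P.eval₂ γ (π S.ξ) = 0 → P = 0 := by
    intro P hP h0
    let P' : (MvPolynomial (Fin S.m) A0)[X] := P.map (MvPolynomial.map (algebraMap k A0))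
    have hP'1 : P'.map rm = P := by
      rw [Polynomial.map_map]
      have e1 : rm.comp (MvPolynomial.map (algebraMap k A0)) =
          RingHom.id (MvPolynomial (Fin S.m) k) := by
        refine MvPolynomial.ringHom_ext (fun c => ?_) (fun i => ?_)
        · simp [rm, hr]
        · simp [rm]
      rw [e1, Polynomial.map_id]
    have hP'2 : P'.natDegree < S.M.natDegree := lt_of_le_of_lt Polynomial.natDegree_map_le hP
    have h1 : π (P'.eval₂ evA S.ξ) = 0 := by
      rw [K2b, hP'1]
      exact h0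
    have h2 : mkB (P'.eval₂ evA S.ξ) = 0 := by
      refine hinjB ?_
      rw [map_zero]
      exact h1
    obtain ⟨N, Q, h3, h4, h5⟩ := hideal _ (Ideal.Quotient.eq_zero_iff_mem.1 h2)
    have h6 : Polynomial.C (S.g ^ N) * P' - Q = 0 := by
      refine hmin0 _ ?_ ?_
      · refine lt_of_le_of_lt (Polynomial.natDegree_sub_le _ _) (max_lt ?_ h3)
        exact lt_of_le_of_lt (Polynomial.natDegree_C_mul_le _ _) hP'2
      · rw [Polynomial.eval₂_sub, Polynomial.eval₂_mul, Polynomial.eval₂_C, ← h4, K2a, map_pow,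
          sub_self]
    have h7 := congrArg (Polynomial.map rm) h6
    rw [Polynomial.map_sub, h5, sub_zero, Polynomial.map_mul, hP'1, Polynomial.map_C,
      Polynomial.map_zero, map_pow] at h7
    rcases mul_eq_zero.1 h7 with h8 | h8
    · exact absurd (Polynomial.C_eq_zero.1 h8) (pow_ne_zero _ hgφ)
    · exact h8
  have hγ : Function.Injective γ := by
    refine (injective_iff_map_eq_zero γ).2 fun p hp => ?_
    have h1 := KEY (Polynomial.C p) (by rw [Polynomial.natDegree_C]; exact he)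
      (by rw [Polynomial.eval₂_C]; exact hp)
    exact Polynomial.C_eq_zero.1 h1
  have hMφ : (S.M.map rm).eval₂ γ (π S.ξ) = 0 := by
    rw [← K2b]
    have h1 : S.M.eval₂ evA S.ξ = 0 := by
      refine Subtype.ext ?_
      rw [K2a]
      exact hMK
    rw [h1, map_zero]
  refine ⟨hγ, hMφ, KEY, ?_⟩
  have hA : ∀ a : A, ∃ (g : MvPolynomial (Fin S.m) k) (Q : (MvPolynomial (Fin S.m) k)[X]), g ≠ 0 ∧
      γ g * π a = Q.eval₂ γ (π S.ξ) := by
    intro a
    obtain ⟨N, Q, h1⟩ := S.hgen a
    refine ⟨rm S.g ^ N, Q.map rm, pow_ne_zero _ hgφ, ?_⟩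
    have h2 : evA S.g ^ N * a = Q.eval₂ evA S.ξ := by
      refine Subtype.ext ?_
      rw [K2a]
      have h3 : ((evA S.g : A) : K) = evK S.g := RingHom.congr_fun K1a S.g
      change ((evA S.g : A) : K) ^ N * (a : K) = _
      rw [h3]
      exact h1
    have h3 := congrArg π h2
    rw [K2b, map_mul, map_pow] at h3
    have h4 : π (evA S.g) = γ (rm S.g) := RingHom.congr_fun K1b S.g
    rw [h4] at h3
    rw [map_pow]
    exact h3
  intro z
  obtain ⟨u, v, hv, rfl⟩ := IsFractionRing.div_surjective (A ⧸ fibreIdeal A A0 φ) z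
  obtain ⟨a, rfl⟩ := Ideal.Quotient.mk_surjective u
  obtain ⟨b, rfl⟩ := Ideal.Quotient.mk_surjective v
  exact F4_gen γ hγ (π S.ξ) (S.M.map rm) (S.hM.map rm) hMφ (hA a) (hA b)

end Pool.Agent.LibHP
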