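import Pool.Agent.LibW64.F2
import Pool.Agent.LibW64.F3
import Pool.Agent.LibW64.F4

/-! # Row F5: a polynomial without constant roots has no root on the general fibre

Plan. `n := T.natDegree`, `e := S.M.natDegree`, `m := S.m`, `K' := AlgebraicClosure K`.
1. Choose `N` and `Q_i : (A0[x])[X]`, `i ≤ n`, with `g ^ N * T.coeff i = Q_i (ξ)` (`S.hgen`, common
`N`, `Q_n = g ^ N`), and `N'`, `τ_i` monic with `τ_i (ρ ^ N' T.coeff i) = 0` (`S.hint`). `D` := a bound
for the total degrees of the coefficients of `S.M` and of all `τ_i`; `D' := D * (e ^ 2 + 1)`.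
2. `Ψ : (MvPolynomial (Fin (e + 1)) (MvPolynomial (Fin m) A0))[X]`,
`Ψ := ∑ i ≤ n, Q_i * C (X 0) ^ (n - i) * (∑ j : Fin e, C (X j.succ) * X ^ j) ^ i` (the `Q_i` mapped by
`Polynomial.map MvPolynomial.C`), `Φ l := (Ψ %ₘ S.M').coeff l`, `l : Fin e` (`S.M' := S.M.map C`).
3. No solution over `Ω := AlgebraicClosure L`: let `ι : Ω →ₐ[L] K'` (`IsAlgClosed.lift`), all `ι β` are
`AlgOver L`. Let `s` be a solution, `w := s 0 ≠ 0`. With `ev : MvPolynomial (Fin m) Ω → K'` (evaluation
at `x`, constants by `ι`): `ev w ≠ 0` because `x` is algebraically independent over `L` (`S.hmin` for constant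
polynomials), hence over `Ω` (algebraic over `L`; e.g. the product of the conjugates of `w`, or
`AlgebraicIndependent` over algebraic extensions, or linear disjointness). All coefficients of
`Ψ(s) %ₘ M` vanish, `M(ξ) = 0`, so `Ψ(s)(ξ) = 0`:
`g ^ N ∑ T.coeff i (ev w) ^ (n - i) (∑ ev (s_j) ξ ^ j) ^ i = 0`, `ev g ≠ 0`, so
`z := (∑ ev (s_j) ξ ^ j) / ev w` is a root of `T` in the field generated by `K` and the elements algebraic
over `L`: contradiction to `hT`.
4. `W_F2` with `R := A0`, `j := A0 → L → Ω`, `N := e`: `ρ2 ∈ A0`. Choose `μ` with `S.g.coeff μ ≠ 0`.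
`ρ' := ρ2 * S.ρ * S.g.coeff μ`.
5. Let `φ (ρ') ≠ 0`, `r` a root of `T` in `F := FractionRing B`. `W_F4` and `W_F3` (`M := S.M` mapped by
`red0`; `hTD`: `τ_i` mapped by `red0` kills `φ(ρ) ^ N' * Tbar.coeff i`, and `φ(ρ) ^ N'` is a nonzero
constant of `k`: rescale the variable to get a monic polynomial with the same degree bound, killing
`Tbar.coeff i`; for the coefficient `i ≥ n`, `1` or `0`: trivial) give `w ≠ 0`, `s_j` of degree `≤ D'`
with `w r = ∑ s_j ξbar ^ j`. Then `Ψ(w, s)_φ (ξbar) = 0`, and `(Ψ %ₘ M)_φ` has degree `< e`, so it is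
zero (third part of `W_F4`): a solution over `k`, contradiction to the choice of `ρ2`. (`%ₘ` commutes
with ring homomorphisms: `Polynomial.map_modByMonic`.) -/

set_option autoImplicit false
open Polynomial

namespace Pool.Agent.LibHP

section F5aux

/-- The equation, cleared of denominators. -/
private noncomputable def f5Psi {R : Type} [CommRing R] {m : ℕ} (n e : ℕ)
    (Q : ℕ → (MvPolynomial (Fin m) R)[X]) :
    (MvPolynomial (Fin (e + 1)) (MvPolynomial (Fin m) R))[X] :=
  ∑ i ∈ Finset.range (n + 1), (Q i).map MvPolynomial.C *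
    Polynomial.C (MvPolynomial.X 0) ^ (n - i) *
    (∑ j : Fin e, Polynomial.C (MvPolynomial.X j.succ) * Polynomial.X ^ (j : ℕ)) ^ i

/-- Evaluation of the unknowns. -/
private noncomputable def f5EV {R k : Type} [CommRing R] [Field k] {m e : ℕ} (φ : R →+* k)
    (s : Fin (e + 1) → MvPolynomial (Fin m) k) :
    MvPolynomial (Fin (e + 1)) (MvPolynomial (Fin m) R) →+* MvPolynomial (Fin m) k :=
  MvPolynomial.eval₂Hom (MvPolynomial.map φ) s

private theorem f5_evC {R k : Type} [CommRing R] [Field k] {m e : ℕ} (φ : R →+* k)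
    (s : Fin (e + 1) → MvPolynomial (Fin m) k) :
    (f5EV φ s).comp MvPolynomial.C = MvPolynomial.map φ := by
  refine RingHom.ext fun p => ?_
  rw [RingHom.comp_apply]
  exact MvPolynomial.eval₂_C _ _ _

private theorem f5_psi_eval {R k F : Type} [CommRing R] [Field k] [Field F] {m : ℕ} (n e : ℕ)
    (Q : ℕ → (MvPolynomial (Fin m) R)[X]) (φ : R →+* k)
    (s : Fin (e + 1) → MvPolynomial (Fin m) k) (θ : MvPolynomial (Fin m) k →+* F) (ξ : F) :
    ((f5Psi n e Q).map (f5EV φ s)).eval₂ θ ξ =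
      ∑ i ∈ Finset.range (n + 1), ((Q i).map (MvPolynomial.map φ)).eval₂ θ ξ * θ (s 0) ^ (n - i) *
        (∑ j : Fin e, θ (s j.succ) * ξ ^ (j : ℕ)) ^ i := by
  rw [f5Psi, Polynomial.map_sum, eval₂_finsetSum]
  refine Finset.sum_congr rfl fun i _ => ?_
  rw [Polynomial.map_mul, Polynomial.map_mul, Polynomial.map_pow, Polynomial.map_pow, map_map,
    f5_evC, eval₂_mul, eval₂_mul, eval₂_pow, eval₂_pow, map_C, eval₂_C, Polynomial.map_sum,
    eval₂_finsetSum]
  congr 2
  · simp [f5EV]
  · refine Finset.sum_congr rfl fun j _ => ?_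
    simp [f5EV]

private theorem f5_phi {R k : Type} [CommRing R] [Field k] {m : ℕ} (n e : ℕ)
    (Q : ℕ → (MvPolynomial (Fin m) R)[X]) (M : (MvPolynomial (Fin m) R)[X]) (hM : M.Monic)
    (φ : R →+* k) (s : Fin (e + 1) → MvPolynomial (Fin m) k) (l : ℕ) :
    MvPolynomial.eval₂ (MvPolynomial.map φ) s
      ((f5Psi n e Q %ₘ M.map MvPolynomial.C).coeff l) =
      ((f5Psi n e Q).map (f5EV φ s) %ₘ M.map (MvPolynomial.map φ)).coeff l := by
  have h1 : (f5Psi n e Q %ₘ M.map MvPolynomial.C).map (f5EV φ s)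
      = (f5Psi n e Q).map (f5EV φ s) %ₘ M.map (MvPolynomial.map φ) := by
    rw [Polynomial.map_modByMonic _ (hM.map _), map_map, f5_evC]
  rw [← h1, coeff_map]
  rfl

/-- If all the equations hold then the polynomial vanishes at `ξ`. -/
private theorem f5_all {R k F : Type} [CommRing R] [Field k] [Field F] {m : ℕ} (n e : ℕ)
    (Q : ℕ → (MvPolynomial (Fin m) R)[X]) (M : (MvPolynomial (Fin m) R)[X]) (hM : M.Monic)
    (he : M.natDegree = e) (he0 : 0 < e)
    (φ : R →+* k) (s : Fin (e + 1) → MvPolynomial (Fin m) k)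
    (θ : MvPolynomial (Fin m) k →+* F) (ξ : F)
    (hξ : (M.map (MvPolynomial.map φ)).eval₂ θ ξ = 0)
    (hall : ∀ l : Fin e, MvPolynomial.eval₂ (MvPolynomial.map φ) s
      ((f5Psi n e Q %ₘ M.map MvPolynomial.C).coeff l) = 0) :
    ∑ i ∈ Finset.range (n + 1), ((Q i).map (MvPolynomial.map φ)).eval₂ θ ξ * θ (s 0) ^ (n - i) *
        (∑ j : Fin e, θ (s j.succ) * ξ ^ (j : ℕ)) ^ i = 0 := by
  have hM' : (M.map (MvPolynomial.map φ) : (MvPolynomial (Fin m) k)[X]).Monic := hM.map _
  have hd' : (M.map (MvPolynomial.map φ) : (MvPolynomial (Fin m) k)[X]).natDegree = e := by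
    rw [hM.natDegree_map, he]
  have hM1 : (M.map (MvPolynomial.map φ) : (MvPolynomial (Fin m) k)[X]) ≠ 1 := by
    intro h
    rw [h, natDegree_one] at hd'
    omega
  have h0 : (f5Psi n e Q).map (f5EV φ s) %ₘ M.map (MvPolynomial.map φ) = 0 := by
    ext1 l
    rw [coeff_zero]
    by_cases hl : l < e
    · rw [← f5_phi n e Q M hM φ s l]
      exact hall ⟨l, hl⟩
    · apply coeff_eq_zero_of_natDegree_lt
      have := natDegree_modByMonic_lt ((f5Psi n e Q).map (f5EV φ s)) hM' hM1
      omega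
  rw [← f5_psi_eval n e Q φ s θ ξ]
  obtain ⟨c, hc⟩ := (modByMonic_eq_zero_iff_dvd hM').1 h0
  rw [hc, eval₂_mul, hξ, zero_mul]

/-- Conversely, if the polynomial vanishes at `ξ` then all the equations hold. -/
private theorem f5_conv {R k F : Type} [CommRing R] [Field k] [Field F] {m : ℕ} (n e : ℕ)
    (Q : ℕ → (MvPolynomial (Fin m) R)[X]) (M : (MvPolynomial (Fin m) R)[X]) (hM : M.Monic)
    (he : M.natDegree = e) (he0 : 0 < e)
    (φ : R →+* k) (s : Fin (e + 1) → MvPolynomial (Fin m) k)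
    (θ : MvPolynomial (Fin m) k →+* F) (ξ : F)
    (hξ : (M.map (MvPolynomial.map φ)).eval₂ θ ξ = 0)
    (hmin : ∀ P : (MvPolynomial (Fin m) k)[X], P.natDegree < e → P.eval₂ θ ξ = 0 → P = 0)
    (hsum : ∑ i ∈ Finset.range (n + 1), ((Q i).map (MvPolynomial.map φ)).eval₂ θ ξ *
      θ (s 0) ^ (n - i) * (∑ j : Fin e, θ (s j.succ) * ξ ^ (j : ℕ)) ^ i = 0) (l : Fin e) :
    MvPolynomial.eval₂ (MvPolynomial.map φ) s
      ((f5Psi n e Q %ₘ M.map MvPolynomial.C).coeff l) = 0 := by
  have hM' : (M.map (MvPolynomial.map φ) : (MvPolynomial (Fin m) k)[X]).Monic := hM.map _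
  have hd' : (M.map (MvPolynomial.map φ) : (MvPolynomial (Fin m) k)[X]).natDegree = e := by
    rw [hM.natDegree_map, he]
  have hM1 : (M.map (MvPolynomial.map φ) : (MvPolynomial (Fin m) k)[X]) ≠ 1 := by
    intro h
    rw [h, natDegree_one] at hd'
    omega
  rw [f5_phi n e Q M hM φ s l]
  have h0 : (f5Psi n e Q).map (f5EV φ s) %ₘ M.map (MvPolynomial.map φ) = 0 := by
    apply hmin
    · have := natDegree_modByMonic_lt ((f5Psi n e Q).map (f5EV φ s)) hM' hM1
      omega
    · have h1 := congrArg (eval₂ θ ξ)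
        (modByMonic_add_div ((f5Psi n e Q).map (f5EV φ s)) (M.map (MvPolynomial.map φ)))
      rw [eval₂_add, eval₂_mul, hξ, zero_mul, add_zero, f5_psi_eval, hsum] at h1
      exact h1
  rw [h0, coeff_zero]

/-- A degree bound for the coefficients. -/
private theorem f5_deg {R : Type} [CommRing R] {m : ℕ} (P : (MvPolynomial (Fin m) R)[X]) :
    ∃ D : ℕ, ∀ i, (P.coeff i).totalDegree ≤ D := by
  refine ⟨P.support.sup fun i => (P.coeff i).totalDegree, fun i => ?_⟩
  by_cases h : i ∈ P.support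
  · exact Finset.le_sup (f := fun i => (P.coeff i).totalDegree) h
  · rw [notMem_support_iff.1 h, MvPolynomial.totalDegree_zero]
    exact Nat.zero_le _

/-- The inclusion of `A0` in `L`. -/
private def f5iL {k K : Type} [Field k] [Field K] [Algebra k K] (L : Subfield K)
    (A0 : Subalgebra k K) (hA0L : ∀ c ∈ A0, c ∈ L) : A0 →+* L where
  toFun c := ⟨c, hA0L c c.2⟩
  map_one' := rfl
  map_mul' _ _ := rfl
  map_zero' := rfl
  map_add' _ _ := rfl

private noncomputable def f5j {k K : Type} [Field k] [Field K] [Algebra k K] (L : Subfield K)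
    (A0 : Subalgebra k K) (hA0L : ∀ c ∈ A0, c ∈ L) : A0 →+* AlgebraicClosure L :=
  (algebraMap L (AlgebraicClosure L)).comp (f5iL L A0 hA0L)

private theorem f5j_inj {k K : Type} [Field k] [Field K] [Algebra k K] (L : Subfield K)
    (A0 : Subalgebra k K) (hA0L : ∀ c ∈ A0, c ∈ L) : Function.Injective (f5j L A0 hA0L) := by
  rw [f5j, RingHom.coe_comp]
  refine (algebraMap L (AlgebraicClosure L)).injective.comp ?_
  intro a b h
  have := congrArg (fun c : L => (c : K)) h
  exact Subtype.ext this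

private theorem f5_degpos {k K : Type} [Field k] [Field K] [Algebra k K] {L : Subfield K}
    {A A0 : Subalgebra k K} (S : Pres L A A0) : 0 < S.M.natDegree := by
  rw [Nat.pos_iff_ne_zero]
  intro h
  have h1 : S.M = 1 := S.hM.natDegree_eq_zero.1 h
  have h2 := S.hMξ
  rw [h1, eval₂_one] at h2
  exact one_ne_zero h2

private theorem f5_algind {L0 N1 K1 : Type} [Field L0] [Field N1] [Field K1] [Algebra L0 N1]
    [Algebra L0 K1] [Algebra.IsAlgebraic L0 N1] (ι : N1 →ₐ[L0] K1) {m : ℕ} (x : Fin m → K1)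
    (hx : AlgebraicIndependent L0 x) :
    Function.Injective (MvPolynomial.eval₂Hom (ι : N1 →+* K1) x) := by
  let _ : Algebra N1 K1 := (ι : N1 →+* K1).toAlgebra
  have : IsScalarTower L0 N1 K1 := IsScalarTower.of_algebraMap_eq fun c => (ι.commutes c).symm
  have h4 : AlgebraicIndependent N1 x := hx.extendScalars N1
  exact h4

private theorem f5_omega {k K : Type} [Field k] [Field K] [Algebra k K] (L : Subfield K)
    (A A0 : Subalgebra k K) (hA0L : ∀ c ∈ A0, c ∈ L) (S : Pres L A A0)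
    (T : A[X]) (hT : NoConstRoot L (T.map (A.val : A →+* K)))
    (N : ℕ) (Q : ℕ → (MvPolynomial (Fin S.m) A0)[X])
    (hQ : ∀ i ≤ T.natDegree, evX (A0.val : A0 →+* K) (fun i => (S.x i : K)) S.g ^ N *
      ((T.coeff i : A) : K) =
      (Q i).eval₂ (evX (A0.val : A0 →+* K) fun i => (S.x i : K)) (S.ξ : K))
    (s : Fin (S.M.natDegree + 1) → MvPolynomial (Fin S.m) (AlgebraicClosure L)) (hs0 : s 0 ≠ 0) :
    ∃ l : Fin S.M.natDegree, MvPolynomial.eval₂ (MvPolynomial.map (f5j L A0 hA0L)) s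
      ((f5Psi T.natDegree S.M.natDegree Q %ₘ S.M.map MvPolynomial.C).coeff l) ≠ 0 := by
  classical
  by_contra hcon
  push Not at hcon
  let ι : AlgebraicClosure L →ₐ[L] AlgebraicClosure K := IsAlgClosed.lift
  set θ : MvPolynomial (Fin S.m) (AlgebraicClosure L) →+* AlgebraicClosure K :=
    MvPolynomial.eval₂Hom (ι : AlgebraicClosure L →+* AlgebraicClosure K)
      (fun i => algebraMap K (AlgebraicClosure K) (S.x i : K)) with hθ
  have htow : ∀ c : L, algebraMap L (AlgebraicClosure K) c =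
      algebraMap K (AlgebraicClosure K) (c : K) := fun c =>
    IsScalarTower.algebraMap_apply L K (AlgebraicClosure K) c
  -- the elements of `Ω` are algebraic over `L`
  have halg : ∀ β : AlgebraicClosure L, AlgOver L (algebraMap K (AlgebraicClosure K)) (ι β) := by
    intro β
    have hβ : IsIntegral L β := Algebra.IsIntegral.isIntegral β
    refine ⟨(minpoly L β).map L.subtype, (minpoly.monic hβ).map _, ?_, ?_⟩
    · intro i
      rw [coeff_map]
      exact ((minpoly L β).coeff i).2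
    · rw [eval₂_map]
      have h1 : (algebraMap K (AlgebraicClosure K)).comp L.subtype
          = algebraMap L (AlgebraicClosure K) := RingHom.ext fun c => (htow c).symm
      rw [h1]
      have h2 : aeval (ι β) (minpoly L β) = 0 := by
        rw [aeval_algHom_apply, minpoly.aeval, map_zero]
      exact h2
  have hcomp : θ.comp (MvPolynomial.map (f5j L A0 hA0L)) =
      (algebraMap K (AlgebraicClosure K)).comp
        (evX (A0.val : A0 →+* K) fun i => (S.x i : K)) := by
    apply MvPolynomial.ringHom_ext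
    · intro c
      simp only [RingHom.comp_apply, MvPolynomial.map_C, hθ, MvPolynomial.eval₂Hom_C, evX]
      change ι (algebraMap L (AlgebraicClosure L) (f5iL L A0 hA0L c)) = _
      rw [ι.commutes, htow]
      rfl
    · intro i
      simp only [RingHom.comp_apply, MvPolynomial.map_X, hθ, MvPolynomial.eval₂Hom_X', evX]
  have hev : ∀ (P : (MvPolynomial (Fin S.m) A0)[X]) (a : K),
      (P.map (MvPolynomial.map (f5j L A0 hA0L))).eval₂ θ (algebraMap K (AlgebraicClosure K) a) =
      algebraMap K (AlgebraicClosure K)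
        (P.eval₂ (evX (A0.val : A0 →+* K) fun i => (S.x i : K)) a) := by
    intro P a
    rw [eval₂_map, hcomp, hom_eval₂]
  -- algebraic independence
  have hθinj : Function.Injective θ := by
    have hLind : AlgebraicIndependent L
        (fun i => algebraMap K (AlgebraicClosure K) (S.x i : K)) := by
      rw [algebraicIndependent_iff]
      intro p hp
      have h1 : MvPolynomial.aeval (fun i => algebraMap K (AlgebraicClosure K) (S.x i : K)) p =
          algebraMap K (AlgebraicClosure K) (MvPolynomial.aeval (fun i => (S.x i : K)) p) := by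
        have := MvPolynomial.aeval_algebraMap_apply (R := L) (A := K) (AlgebraicClosure K)
          (fun i => (S.x i : K)) p
        exact this
      rw [h1] at hp
      have h2 : MvPolynomial.aeval (fun i => (S.x i : K)) p = 0 :=
        (map_eq_zero_iff _ (algebraMap K (AlgebraicClosure K)).injective).1 hp
      have h3 := S.hmin (Polynomial.C p) (by rw [natDegree_C]; exact f5_degpos S)
        (by rw [eval₂_C]; exact h2)
      exact Polynomial.C_eq_zero.1 h3
    exact f5_algind ι _ hLind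
  have hw : θ (s 0) ≠ 0 := (map_ne_zero_iff θ hθinj).2 hs0
  have hg : algebraMap K (AlgebraicClosure K)
      (evX (A0.val : A0 →+* K) (fun i => (S.x i : K)) S.g) ≠ 0 := by
    have h1 := RingHom.congr_fun hcomp S.g
    rw [RingHom.comp_apply, RingHom.comp_apply] at h1
    rw [← h1]
    exact (map_ne_zero_iff θ hθinj).2 ((map_ne_zero_iff _
      (MvPolynomial.map_injective _ (f5j_inj L A0 hA0L))).2 S.hg)
  have hsum := f5_all T.natDegree S.M.natDegree Q S.M S.hM rfl (f5_degpos S) (f5j L A0 hA0L) s θ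
    (algebraMap K (AlgebraicClosure K) (S.ξ : K)) (by rw [hev, S.hMξ, map_zero]) hcon
  set ss : AlgebraicClosure K := ∑ j : Fin S.M.natDegree, θ (s j.succ) *
    (algebraMap K (AlgebraicClosure K) (S.ξ : K)) ^ (j : ℕ) with hss
  have hz : (T.map (A.val : A →+* K)).eval₂ (algebraMap K (AlgebraicClosure K))
      (ss / θ (s 0)) = 0 := by
    have h1 : algebraMap K (AlgebraicClosure K)
        (evX (A0.val : A0 →+* K) (fun i => (S.x i : K)) S.g) ^ N * θ (s 0) ^ T.natDegree *
        (T.map (A.val : A →+* K)).eval₂ (algebraMap K (AlgebraicClosure K)) (ss / θ (s 0)) = 0 := by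
      rw [← hsum, eval₂_map, eval₂_eq_sum_range, Finset.mul_sum]
      refine Finset.sum_congr rfl fun i hi => ?_
      have hi' : i ≤ T.natDegree := Nat.lt_succ_iff.1 (Finset.mem_range.1 hi)
      rw [hev, ← hQ i hi', map_mul, map_pow, RingHom.comp_apply]
      have h2 : θ (s 0) ^ T.natDegree = θ (s 0) ^ (T.natDegree - i) * θ (s 0) ^ i := by
        rw [← pow_add, Nat.sub_add_cancel hi']
      have h3 : θ (s 0) ^ i * (ss / θ (s 0)) ^ i = ss ^ i := by
        rw [← mul_pow, mul_div_cancel₀ _ hw]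
      rw [h2]
      calc _ = algebraMap K (AlgebraicClosure K)
            (evX (A0.val : A0 →+* K) (fun i => (S.x i : K)) S.g) ^ N *
            algebraMap K (AlgebraicClosure K) ((T.coeff i : A) : K) *
            θ (s 0) ^ (T.natDegree - i) * (θ (s 0) ^ i * (ss / θ (s 0)) ^ i) := by
              simp only [Subalgebra.coe_val, AlgHom.coe_toRingHom]
              ring
        _ = _ := by rw [h3]
    rcases mul_eq_zero.1 h1 with h2 | h2
    · exact absurd h2 (mul_ne_zero (pow_ne_zero _ hg) (pow_ne_zero _ hw))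
    · exact h2
  refine hT _ hz ?_
  have hθmem : ∀ p : MvPolynomial (Fin S.m) (AlgebraicClosure L), θ p ∈
      Subfield.closure (Set.range (algebraMap K (AlgebraicClosure K)) ∪
        {β | AlgOver L (algebraMap K (AlgebraicClosure K)) β}) := by
    intro p
    induction p using MvPolynomial.induction_on with
    | C a =>
      rw [hθ, MvPolynomial.eval₂Hom_C]
      exact Subfield.subset_closure (Or.inr (halg a))
    | add p q hp hq =>
      rw [map_add]; exact add_mem hp hq
    | mul_X p i hp =>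
      rw [map_mul]
      refine mul_mem hp ?_
      rw [hθ, MvPolynomial.eval₂Hom_X']
      exact Subfield.subset_closure (Or.inl ⟨_, rfl⟩)
  refine div_mem ?_ (hθmem _)
  rw [hss]
  refine sum_mem fun j _ => mul_mem (hθmem _) (pow_mem ?_ _)
  exact Subfield.subset_closure (Or.inl ⟨_, rfl⟩)

end F5aux

theorem W_F5 {k K : Type} [Field k] [CharZero k] [Field K] [Algebra k K] (L : Subfield K)
    (A A0 : Subalgebra k K) (hle : A0 ≤ A) (hA0L : ∀ c ∈ A0, c ∈ L) (S : Pres L A A0)
    (T : A[X]) (hTm : T.Monic) (hT : NoConstRoot L (T.map (A.val : A →+* K))) :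
    ∃ ρ : A0, ρ ≠ 0 ∧ ∀ φ : A →ₐ[k] k, red0 hle φ ρ ≠ 0 →
      ∀ _ : IsDomain (A ⧸ fibreIdeal A A0 φ), ∀ z : FractionRing (A ⧸ fibreIdeal A A0 φ),
        (T.map (Ideal.Quotient.mk (fibreIdeal A A0 φ))).eval₂
          (algebraMap (A ⧸ fibreIdeal A A0 φ) (FractionRing (A ⧸ fibreIdeal A A0 φ))) z ≠ 0 := by
  classical
  -- data
  choose Ng Qg hQg using fun i : ℕ => S.hgen (T.coeff i)
  choose Nt τ hτm hτ using fun i : ℕ => S.hint (T.coeff i)
  obtain ⟨N, hN⟩ : ∃ N : ℕ, ∀ i ≤ T.natDegree, Ng i ≤ N :=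
    ⟨∑ i ∈ Finset.range (T.natDegree + 1), Ng i, fun i hi =>
      Finset.single_le_sum (f := Ng) (fun _ _ => Nat.zero_le _)
        (Finset.mem_range.2 (Nat.lt_succ_of_le hi))⟩
  let Q : ℕ → (MvPolynomial (Fin S.m) A0)[X] := fun i => Polynomial.C (S.g ^ (N - Ng i)) * Qg i
  have hQ : ∀ i ≤ T.natDegree, evX (A0.val : A0 →+* K) (fun i => (S.x i : K)) S.g ^ N *
      ((T.coeff i : A) : K) =
      (Q i).eval₂ (evX (A0.val : A0 →+* K) fun i => (S.x i : K)) (S.ξ : K) := by
    intro i hi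
    rw [eval₂_mul, eval₂_C, ← hQg i, map_pow, ← mul_assoc, ← pow_add, Nat.sub_add_cancel (hN i hi)]
  obtain ⟨D0, hD0⟩ := f5_deg S.M
  choose Dt hDt using fun i : ℕ => f5_deg (τ i)
  obtain ⟨D, hDM, hDτ⟩ : ∃ D : ℕ, D0 ≤ D ∧ ∀ i ≤ T.natDegree, Dt i ≤ D :=
    ⟨D0 + ∑ i ∈ Finset.range (T.natDegree + 1), Dt i, Nat.le_add_right _ _, fun i hi =>
      (Finset.single_le_sum (f := Dt) (fun _ _ => Nat.zero_le _)
        (Finset.mem_range.2 (Nat.lt_succ_of_le hi))).trans (Nat.le_add_left _ _)⟩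
  obtain ⟨ρ2, hρ2, hF2⟩ := W_F2 A0 (AlgebraicClosure L) (f5j L A0 hA0L) (f5j_inj L A0 hA0L) S.m
    S.M.natDegree (D * (S.M.natDegree ^ 2 + 1))
    (fun l : Fin S.M.natDegree =>
      (f5Psi T.natDegree S.M.natDegree Q %ₘ S.M.map MvPolynomial.C).coeff l)
    (fun s _ hs0 => f5_omega L A A0 hA0L S T hT N Q hQ s hs0)
  obtain ⟨μ, hμ⟩ := MvPolynomial.ne_zero_iff.1 S.hg
  refine ⟨ρ2 * S.ρ * S.g.coeff μ, mul_ne_zero (mul_ne_zero hρ2 S.hρ) hμ, ?_⟩
  intro φ hφ hdom z hz
  rw [map_mul, map_mul] at hφ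
  have hφ2 : red0 hle φ ρ2 ≠ 0 := fun h => hφ (by rw [h, zero_mul, zero_mul])
  have hφρ : red0 hle φ S.ρ ≠ 0 := fun h => hφ (by rw [h, mul_zero, zero_mul])
  have hφμ : red0 hle φ (S.g.coeff μ) ≠ 0 := fun h => hφ (by rw [h, mul_zero])
  obtain ⟨hinj, hMroot, hmin4, hgen4⟩ := W_F4 L A A0 hle hA0L S μ φ hφμ
  set θ' : A →+* FractionRing (A ⧸ fibreIdeal A A0 φ) :=
    (algebraMap (A ⧸ fibreIdeal A A0 φ) (FractionRing (A ⧸ fibreIdeal A A0 φ))).comp
      (Ideal.Quotient.mk (fibreIdeal A A0 φ)) with hθ'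
  set evA : MvPolynomial (Fin S.m) A0 →+* A :=
    MvPolynomial.eval₂Hom (Subalgebra.inclusion hle : A0 →+* A) S.x with hevA
  have hevK : (A.val : A →+* K).comp evA = evX (A0.val : A0 →+* K) fun i => (S.x i : K) := by
    apply MvPolynomial.ringHom_ext
    · intro c
      simp only [RingHom.comp_apply, hevA, MvPolynomial.eval₂Hom_C, evX]
      rfl
    · intro i
      simp only [RingHom.comp_apply, hevA, MvPolynomial.eval₂Hom_X', evX]
      rfl
  set κ : k →+* FractionRing (A ⧸ fibreIdeal A A0 φ) :=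
    (algebraMap (A ⧸ fibreIdeal A A0 φ) (FractionRing (A ⧸ fibreIdeal A A0 φ))).comp
      (algebraMap k (A ⧸ fibreIdeal A A0 φ)) with hκ
  have hconst : ∀ c : A0, θ' (Subalgebra.inclusion hle c) = κ (red0 hle φ c) := by
    intro c
    rw [hθ', hκ, RingHom.comp_apply, RingHom.comp_apply]
    congr 1
    have h1 : algebraMap k (A ⧸ fibreIdeal A A0 φ) (red0 hle φ c) =
        Ideal.Quotient.mk (fibreIdeal A A0 φ) (algebraMap k A (red0 hle φ c)) := rfl
    rw [h1, Ideal.Quotient.eq]
    refine Ideal.subset_span ⟨?_, ?_⟩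
    · exact sub_mem c.2 (A0.algebraMap_mem (red0 hle φ c))
    · rw [map_sub, AlgHom.commutes]
      exact sub_self _
  have hred : θ'.comp evA = (redX A A0 φ S.x).comp (MvPolynomial.map (red0 hle φ)) := by
    apply MvPolynomial.ringHom_ext
    · intro c
      change θ' (evA (MvPolynomial.C c)) =
        redX A A0 φ S.x (MvPolynomial.map (red0 hle φ) (MvPolynomial.C c))
      rw [MvPolynomial.map_C, hevA, MvPolynomial.eval₂Hom_C, redX, MvPolynomial.eval₂Hom_C]
      exact hconst c
    · intro i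
      change θ' (evA (MvPolynomial.X i)) =
        redX A A0 φ S.x (MvPolynomial.map (red0 hle φ) (MvPolynomial.X i))
      rw [MvPolynomial.map_X, hevA, MvPolynomial.eval₂Hom_X', redX, MvPolynomial.eval₂Hom_X']
      rfl
  have hev : ∀ (P : (MvPolynomial (Fin S.m) A0)[X]) (a : A),
      (P.map (MvPolynomial.map (red0 hle φ))).eval₂ (redX A A0 φ S.x) (θ' a) =
        θ' (P.eval₂ evA a) := by
    intro P a
    rw [eval₂_map, ← hred, hom_eval₂]
  have hevK2 : ∀ (P : (MvPolynomial (Fin S.m) A0)[X]) (a : A),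
      P.eval₂ (evX (A0.val : A0 →+* K) fun i => (S.x i : K)) (a : K) =
        ((P.eval₂ evA a : A) : K) := by
    intro P a
    rw [← hevK]
    exact (hom_eval₂ P evA (A.val : A →+* K) a).symm
  have hMdeg : (S.M.map (MvPolynomial.map (red0 hle φ))).natDegree = S.M.natDegree :=
    S.hM.natDegree_map _
  have hmapdeg : ∀ p : MvPolynomial (Fin S.m) A0,
      (MvPolynomial.map (red0 hle φ) p).totalDegree ≤ p.totalDegree := fun p =>
    Finset.sup_mono (MvPolynomial.support_map_subset _ _)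
  -- the coefficients of `T`
  have hTD : ∀ i, ∃ τ' : (MvPolynomial (Fin S.m) k)[X], τ'.Monic ∧
      (∀ l, (τ'.coeff l).totalDegree ≤ D) ∧ τ'.eval₂ (redX A A0 φ S.x)
        ((T.map θ').coeff i) = 0 := by
    intro i
    rw [coeff_map]
    by_cases hi : i ≤ T.natDegree
    · set c : k := red0 hle φ S.ρ with hc
      have hcN : c ^ Nt i ≠ 0 := pow_ne_zero _ hφρ
      refine ⟨((τ i).map (MvPolynomial.map (red0 hle φ))).scaleRoots
        (MvPolynomial.C (c ^ Nt i)⁻¹), (monic_scaleRoots_iff _).2 ((hτm i).map _), ?_, ?_⟩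
      · intro l
        rw [coeff_scaleRoots, coeff_map, ← map_pow]
        refine (MvPolynomial.totalDegree_mul _ _).trans ?_
        rw [MvPolynomial.totalDegree_C, add_zero]
        exact (hmapdeg _).trans ((hDt i l).trans (hDτ i hi))
      · have h1 : ((τ i).map (MvPolynomial.map (red0 hle φ))).eval₂ (redX A A0 φ S.x)
            (θ' (Subalgebra.inclusion hle S.ρ ^ Nt i * T.coeff i)) = 0 := by
          rw [hev]
          have h2 := hτ i
          have h3 : (S.ρ : K) ^ Nt i * ((T.coeff i : A) : K) =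
              ((Subalgebra.inclusion hle S.ρ ^ Nt i * T.coeff i : A) : K) := by
            push_cast
            rfl
          rw [h3, hevK2] at h2
          have h4 : (τ i).eval₂ evA (Subalgebra.inclusion hle S.ρ ^ Nt i * T.coeff i) = 0 :=
            Subtype.ext h2
          rw [h4, map_zero]
        have h5 := scaleRoots_eval₂_eq_zero (redX A A0 φ S.x)
          (s := MvPolynomial.C (c ^ Nt i)⁻¹) h1
        have h6 : redX A A0 φ S.x (MvPolynomial.C (c ^ Nt i)⁻¹) *
            θ' (Subalgebra.inclusion hle S.ρ ^ Nt i * T.coeff i) = θ' (T.coeff i) := by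
          have h7 : redX A A0 φ S.x (MvPolynomial.C (c ^ Nt i)⁻¹) = κ (c ^ Nt i)⁻¹ :=
            MvPolynomial.eval₂Hom_C _ _ _
          rw [h7, map_mul θ', map_pow θ', hconst, ← hc, ← map_pow κ, ← mul_assoc, ← map_mul κ,
            inv_mul_cancel₀ hcN, map_one, one_mul]
        rw [h6] at h5
        exact h5
    · refine ⟨Polynomial.X, monic_X, ?_, ?_⟩
      · intro l
        rw [coeff_X]
        split_ifs
        · rw [MvPolynomial.totalDegree_one]; exact Nat.zero_le _
        · rw [MvPolynomial.totalDegree_zero]; exact Nat.zero_le _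
      · rw [coeff_eq_zero_of_natDegree_lt (by omega), map_zero, eval₂_X]
  have hzT : (T.map θ').IsRoot z := by
    rw [IsRoot.def, eval_map, hθ', ← eval₂_map]
    exact hz
  have hF3 := W_F3 k (FractionRing (A ⧸ fibreIdeal A A0 φ)) S.m S.hm (redX A A0 φ S.x) hinj
    (θ' S.ξ) (S.M.map (MvPolynomial.map (red0 hle φ))) (S.hM.map _) hMroot
    (by rw [hMdeg]; exact hmin4) hgen4 D
    (fun i => by
      rw [coeff_map]
      exact (hmapdeg _).trans ((hD0 i).trans hDM))
    (T.map θ') (hTm.map θ') hTD z hzT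
  rw [hMdeg] at hF3
  obtain ⟨w, s', hw0, hws, hwd, hsd⟩ := hF3
  obtain ⟨l, hl⟩ := hF2 k (red0 hle φ) hφ2 (Fin.cons w s')
    (fun i => by
      refine Fin.cases ?_ (fun j => ?_) i
      · rw [Fin.cons_zero]; exact hwd
      · rw [Fin.cons_succ]; exact hsd j)
    (by rw [Fin.cons_zero]; exact hw0)
  apply hl
  refine f5_conv T.natDegree S.M.natDegree Q S.M S.hM rfl (f5_degpos S) (red0 hle φ)
    (Fin.cons w s') (redX A A0 φ S.x) (θ' S.ξ) hMroot hmin4 ?_ l
  have hsum0 : ∑ j : Fin S.M.natDegree, redX A A0 φ S.x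
      ((Fin.cons w s' : Fin (S.M.natDegree + 1) → MvPolynomial (Fin S.m) k) j.succ) *
      θ' S.ξ ^ (j : ℕ) = redX A A0 φ S.x w * z := by
    rw [hws]
    refine Finset.sum_congr rfl fun j _ => ?_
    rw [Fin.cons_succ]
  rw [hsum0, Fin.cons_zero]
  have hfinal : θ' (evA S.g) ^ N * redX A A0 φ S.x w ^ T.natDegree * (T.map θ').eval z = 0 := by
    rw [hzT.eq_zero, mul_zero]
  rw [← hfinal, eval_map, eval₂_eq_sum_range, Finset.mul_sum]
  refine Finset.sum_congr rfl fun i hi => ?_
  have hi' : i ≤ T.natDegree := Nat.lt_succ_iff.1 (Finset.mem_range.1 hi)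
  have h1 : (Q i).eval₂ evA S.ξ = evA S.g ^ N * T.coeff i := by
    have h2 := hQ i hi'
    rw [hevK2, ← hevK] at h2
    exact Subtype.ext h2.symm
  rw [hev, h1, map_mul, map_pow]
  have h2 : redX A A0 φ S.x w ^ T.natDegree =
      redX A A0 φ S.x w ^ (T.natDegree - i) * redX A A0 φ S.x w ^ i := by
    rw [← pow_add, Nat.sub_add_cancel hi']
  rw [h2, mul_pow]
  ring

end Pool.Agent.LibHP
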