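import Pool.Agent.LibW64.FDefs

/-! # Row F6a: extension of a point to a localization

`W_F6a`: `R ⊆ A[1/a]`, `φ a ≠ 0`: `φ` extends to `R`. Plan: `a ≠ 0`; `A[1/a] := {c | ∃ n, c * a ^ n ∈ A}`
is a subalgebra (`Localization.Away a` embedded in `K`); for `c` in it put
`φ' c := φ (c * a ^ n) / φ a ^ n`, independent of `n` (compare `n` and `n'` by
`φ (c * a ^ n) * φ a ^ n' = φ (c * a ^ (n + n')) `), a ring homomorphism; restrict to `R`. Or:
`IsLocalization.Away.lift` for `Localization.Away a → k` and `Localization.Away a → K`, injective, with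
range containing `R`.

`W_F6b`: a finitely generated `R` is contained in some `A[1/a]` if `K` is the fraction field of `A`.
Plan: common denominator of the generators (`Finset` product); the set of the `c` with
`∃ n, c * a ^ n ∈ A` is a subalgebra. -/

set_option autoImplicit false
open Polynomial

namespace Pool.Agent.LibHP

private theorem F6a_indep {k K : Type} [Field k] [Field K] [Algebra k K] (A : Subalgebra k K)
    (a : A) (φ : A →ₐ[k] k) (c : K) (n m : ℕ) (hn : c * (a : K) ^ n ∈ A)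
    (hm : c * (a : K) ^ m ∈ A) :
    φ ⟨c * (a : K) ^ n, hn⟩ * φ a ^ m = φ ⟨c * (a : K) ^ m, hm⟩ * φ a ^ n := by
  rw [← map_pow, ← map_pow, ← map_mul, ← map_mul]
  congr 1
  apply Subtype.ext
  push_cast
  ring

theorem W_F6a {k K : Type} [Field k] [Field K] [Algebra k K] (A R : Subalgebra k K) (hle : A ≤ R)
    (a : A) (ha : ∀ c ∈ R, ∃ n : ℕ, c * (a : K) ^ n ∈ A) (φ : A →ₐ[k] k) (hφ : φ a ≠ 0) :
    ∃ φ' : R →ₐ[k] k, ∀ c : A, φ' (Subalgebra.inclusion hle c) = φ c := by
  classical
  obtain ⟨f, hf⟩ : ∃ f : R → k, ∀ (c : R) (n : ℕ) (h : (c : K) * (a : K) ^ n ∈ A),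
      f c = φ ⟨(c : K) * (a : K) ^ n, h⟩ / φ a ^ n := by
    refine ⟨fun c => φ ⟨_, (ha c c.2).choose_spec⟩ / φ a ^ (ha c c.2).choose, ?_⟩
    intro c n h
    rw [div_eq_div_iff (pow_ne_zero _ hφ) (pow_ne_zero _ hφ)]
    exact F6a_indep A a φ c _ n _ h
  have h0 : ∀ (c : R) (h : (c : K) ∈ A), f c = φ ⟨(c : K), h⟩ := by
    intro c h
    have h' : (c : K) * (a : K) ^ 0 ∈ A := by rw [pow_zero, mul_one]; exact h
    rw [hf c 0 h', pow_zero (φ a), div_one]
    congr 1
    apply Subtype.ext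
    change (c : K) * (a : K) ^ 0 = (c : K)
    rw [pow_zero, mul_one]
  have hadd : ∀ c d : R, f (c + d) = f c + f d := by
    intro c d
    obtain ⟨n, hn⟩ := ha c c.2
    obtain ⟨m, hm⟩ := ha d d.2
    have e : ((c + d : R) : K) * (a : K) ^ (n + m) =
        (c : K) * (a : K) ^ n * (a : K) ^ m + (d : K) * (a : K) ^ m * (a : K) ^ n := by
      push_cast; ring
    have h : ((c + d : R) : K) * (a : K) ^ (n + m) ∈ A := by
      rw [e]
      exact A.add_mem (A.mul_mem hn (A.pow_mem a.2 m)) (A.mul_mem hm (A.pow_mem a.2 n))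
    rw [hf (c + d) (n + m) h, hf c n hn, hf d m hm,
      div_add_div _ _ (pow_ne_zero _ hφ) (pow_ne_zero _ hφ), ← pow_add]
    congr 1
    rw [← map_pow, ← map_pow, ← map_mul, ← map_mul, ← map_add]
    congr 1
    apply Subtype.ext
    push_cast
    ring
  have hmul : ∀ c d : R, f (c * d) = f c * f d := by
    intro c d
    obtain ⟨n, hn⟩ := ha c c.2
    obtain ⟨m, hm⟩ := ha d d.2
    have e : ((c * d : R) : K) * (a : K) ^ (n + m) =
        ((c : K) * (a : K) ^ n) * ((d : K) * (a : K) ^ m) := by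
      push_cast; ring
    have h : ((c * d : R) : K) * (a : K) ^ (n + m) ∈ A := by
      rw [e]
      exact A.mul_mem hn hm
    rw [hf (c * d) (n + m) h, hf c n hn, hf d m hm, div_mul_div_comm, ← pow_add, ← map_mul]
    congr 2
    apply Subtype.ext
    push_cast
    ring
  let φ' : R →ₐ[k] k :=
    { toFun := f
      map_one' := by
        rw [h0 1 (by simpa using A.one_mem)]
        exact map_one φ
      map_mul' := hmul
      map_zero' := by
        rw [h0 0 (by simpa using A.zero_mem)]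
        exact map_zero φ
      map_add' := hadd
      commutes' := by
        intro r
        rw [h0 (algebraMap k R r) (A.algebraMap_mem r)]
        exact φ.commutes r }
  refine ⟨φ', ?_⟩
  intro c
  change f (Subalgebra.inclusion hle c) = φ c
  rw [h0 (Subalgebra.inclusion hle c) c.2]
  rfl

theorem W_F6b {k K : Type} [Field k] [Field K] [Algebra k K] (A R : Subalgebra k K) (hR : R.FG)
    (hK : ∀ c : K, ∃ u w : K, u ∈ A ∧ w ∈ A ∧ w ≠ 0 ∧ c * w = u) :
    ∃ a : A, a ≠ 0 ∧ ∀ c ∈ R, ∃ n : ℕ, c * (a : K) ^ n ∈ A := by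
  classical
  obtain ⟨s, rfl⟩ := hR
  choose u w hu hw hw0 huw using hK
  have hmem : (∏ c ∈ s, w c) ∈ A := A.prod_mem fun c _ => hw c
  have hne : (∏ c ∈ s, w c) ≠ 0 := Finset.prod_ne_zero_iff.mpr fun c _ => hw0 c
  refine ⟨⟨∏ c ∈ s, w c, hmem⟩, fun h => hne (congrArg Subtype.val h), ?_⟩
  set a : K := ∏ c ∈ s, w c with hadef
  let S : Subalgebra k K :=
    { carrier := {c | ∃ n : ℕ, c * a ^ n ∈ A}
      mul_mem' := by
        rintro c d ⟨n, hn⟩ ⟨m, hm⟩
        refine ⟨n + m, ?_⟩
        have e : c * d * a ^ (n + m) = (c * a ^ n) * (d * a ^ m) := by ring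
        rw [e]
        exact A.mul_mem hn hm
      add_mem' := by
        rintro c d ⟨n, hn⟩ ⟨m, hm⟩
        refine ⟨n + m, ?_⟩
        have e : (c + d) * a ^ (n + m) = c * a ^ n * a ^ m + d * a ^ m * a ^ n := by ring
        rw [e]
        exact A.add_mem (A.mul_mem hn (A.pow_mem hmem m)) (A.mul_mem hm (A.pow_mem hmem n))
      algebraMap_mem' := by
        intro r
        refine ⟨0, ?_⟩
        rw [pow_zero, mul_one]
        exact A.algebraMap_mem r }
  have hS : Algebra.adjoin k (s : Set K) ≤ S := by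
    apply Algebra.adjoin_le
    intro c hc
    refine ⟨1, ?_⟩
    have e : c * a ^ 1 = u c * ∏ d ∈ s.erase c, w d := by
      rw [pow_one, hadef, ← Finset.mul_prod_erase s w hc, ← mul_assoc, huw]
    rw [e]
    exact A.mul_mem (hu c) (A.prod_mem fun d _ => hw d)
  intro c hc
  exact hS hc

end Pool.Agent.LibHP
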