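import Pool.Agent.LibW64.F1
import Pool.Agent.LibW64.F5
import Pool.Agent.LibW64.F6a

/-! # Row F6: one step along a fibration whose fibres have the Hilbert property

Plan. From `FibresHP`: `A, A0` and the presentation `S` (`W_F1`). Given `R`, `R.FG`.
1. `R1 := R ⊔ A ⊔ Algebra.adjoin k (coefficients of all T i and S j)`, finitely generated; `a : A` from
`W_F6b` for `R1`. `P i, Q j : R1[X]` lifting `T i, S j`.
2. For `n` large all `(T i).coeff l * a ^ (n * ((T i).natDegree - l))` are in `A` (finitely many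
coefficients, each with its own exponent; for `l = natDegree` it is `1`), so
`(T i).scaleRoots (a ^ n)` lifts to a monic `Tt i : A[X]`. `NoConstRoot L` for it: a root `z` of
`(T i).scaleRoots c` (`c := a ^ n ≠ 0` in `K`) gives the root `z / c` of `T i`
(`Polynomial.scaleRoots_eval₂_eq_zero`-type lemmas). `W_F5`: `ρ i : A0`.
3. For the finitely many coefficients `c` of the `S j` (in `L`): `u c, w c ∈ A0`, `w c ≠ 0`,
`c * w c = u c`. `R3 := R1 ⊔ Algebra.adjoin k {inverses of a, of the ρ i and of the w c}`. `hav R3`: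
`R4, Q' j, φ0`. So `φ0` does not vanish at `a`, `ρ i`, `w c`.
4. `φA := φ0` restricted to `A`, `B := A ⧸ fibreIdeal A A0 φA`, a domain with `HPRing k B`. `φA` factors
through `B` (`fibreIdeal ≤ ker`), so `b := mk a ≠ 0`. `HPRing` for `b` and `(Tt i).map mk` (no root in
`FractionRing B` by `W_F5`): `ψ : B →ₐ[k] k`, `ψ b ≠ 0`. `φ1 := ψ.comp mk : A →ₐ[k] k`, `φ1 a ≠ 0`; extend it
to `φ : R1 →ₐ[k] k` by `W_F6a`.
5. `(P i).map φ` has no root `x`: else `φ1 a ^ n * x` is a root of `(Tt i).map φ1`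
(`Polynomial.scaleRoots` and `map`). For a coefficient `c` of `S j`:
`φ c * φ (w c) = φ (u c)`, and `φ κ = φ0 κ` for `κ ∈ A0` (as `κ - φA κ ∈ fibreIdeal`), so
`φ c = φ0 c`; hence `(Q j).map φ = (Q' j).map φ0` has no root. -/

set_option autoImplicit false
open Polynomial

namespace Pool.Agent.LibHP

private theorem F6_lift {k K : Type} [Field k] [Field K] [Algebra k K] (R : Subalgebra k K) (T : K[X])
    (h : ∀ n, T.coeff n ∈ R) : ∃ P : R[X], P.map (R.val : R →+* K) = T := by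
  have h1 : T ∈ Polynomial.lifts (R.val : R →+* K) :=
    (Polynomial.lifts_iff_coeff_lifts _).2 fun n => ⟨⟨T.coeff n, h n⟩, rfl⟩
  exact (Polynomial.mem_lifts _).1 h1

/-- the scaled polynomial is over `A` -/
private theorem F6_scale {k K : Type} [Field k] [Field K] [Algebra k K] (A R : Subalgebra k K)
    (a : A) (ha : ∀ c ∈ R, ∃ n : ℕ, c * (a : K) ^ n ∈ A) (T : K[X]) (hTm : T.Monic)
    (hT : ∀ n, T.coeff n ∈ R) :
    ∃ (n : ℕ) (Tt : A[X]), Tt.Monic ∧ Tt.map (A.val : A →+* K) = T.scaleRoots ((a : K) ^ n) := by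
  choose N hN using fun l => ha (T.coeff l) (hT l)
  set n := (Finset.range (T.natDegree + 1)).sup N with hn
  have hcoef : ∀ l, (T.scaleRoots ((a : K) ^ n)).coeff l ∈ A := by
    intro l
    rw [Polynomial.coeff_scaleRoots]
    rcases lt_trichotomy l T.natDegree with hl | hl | hl
    · have h1 : N l ≤ n := Finset.le_sup (f := N) (Finset.mem_range.2 (by omega))
      obtain ⟨d, hd⟩ : ∃ d, T.natDegree - l = d + 1 := ⟨T.natDegree - l - 1, by omega⟩
      obtain ⟨e, he⟩ : ∃ e, n * (d + 1) = N l + e := by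
        refine ⟨n * (d + 1) - N l, ?_⟩
        have : N l ≤ n * (d + 1) := h1.trans (Nat.le_mul_of_pos_right n (by omega))
        omega
      rw [hd, ← pow_mul, he, pow_add, ← mul_assoc]
      exact A.mul_mem (hN l) (A.pow_mem a.2 e)
    · subst hl
      rw [Nat.sub_self, pow_zero, mul_one, hTm.coeff_natDegree]
      exact A.one_mem
    · rw [Polynomial.coeff_eq_zero_of_natDegree_lt hl, zero_mul]
      exact A.zero_mem
  obtain ⟨Tt, hTt⟩ := F6_lift A _ hcoef
  refine ⟨n, Tt, ?_, hTt⟩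
  refine Polynomial.monic_of_injective (f := (A.val : A →+* K)) Subtype.val_injective ?_
  rw [hTt]
  exact (Polynomial.monic_scaleRoots_iff _).2 hTm

/-- scaling keeps the absence of constant roots -/
private theorem F6_noroot {K : Type} [Field K] (L : Subfield K) (T : K[X]) (hT : NoConstRoot L T)
    (c : K) (hc : c ≠ 0) : NoConstRoot L (T.scaleRoots c) := by
  intro z hz hmem
  have hc' : algebraMap K (AlgebraicClosure K) c ≠ 0 := by
    rw [Ne, FaithfulSMul.algebraMap_eq_zero_iff]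
    exact hc
  have h1 := Polynomial.scaleRoots_eval₂_mul (p := T) (algebraMap K (AlgebraicClosure K))
    (z / algebraMap K (AlgebraicClosure K) c) c
  rw [mul_div_cancel₀ _ hc', hz] at h1
  have h2 : T.eval₂ (algebraMap K (AlgebraicClosure K))
      (z / algebraMap K (AlgebraicClosure K) c) = 0 := by
    rcases mul_eq_zero.1 h1.symm with h3 | h3
    · exact absurd h3 (pow_ne_zero _ hc')
    · exact h3
  exact hT _ h2 (Subfield.div_mem _ hmem
    (Subfield.subset_closure (Or.inl ⟨c, rfl⟩)))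

/-- a common denominator of the coefficients -/
private theorem F6_den {k K : Type} [Field k] [Field K] [Algebra k K] (L : Subfield K)
    (A0 : Subalgebra k K)
    (hL : ∀ c : K, c ∈ L ↔ ∃ u w : K, u ∈ A0 ∧ w ∈ A0 ∧ w ≠ 0 ∧ c * w = u) (S : K[X])
    (hS : ∀ n, S.coeff n ∈ L) : ∃ w : K, w ∈ A0 ∧ w ≠ 0 ∧ ∀ n, S.coeff n * w ∈ A0 := by
  classical
  choose u w hu hw hw0 huw using fun n => (hL (S.coeff n)).1 (hS n)
  refine ⟨∏ n ∈ Finset.range (S.natDegree + 1), w n, ?_, ?_, ?_⟩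
  · exact A0.prod_mem fun n _ => hw n
  · exact Finset.prod_ne_zero_iff.2 fun n _ => hw0 n
  · intro n
    by_cases hn : n ≤ S.natDegree
    · rw [← Finset.mul_prod_erase (Finset.range (S.natDegree + 1)) w
        (Finset.mem_range.2 (by omega) : n ∈ Finset.range (S.natDegree + 1)), ← mul_assoc, huw]
      exact A0.mul_mem (hu n) (A0.prod_mem fun m _ => hw m)
    · rw [Polynomial.coeff_eq_zero_of_natDegree_lt (by omega), zero_mul]
      exact A0.zero_mem

private theorem F6_unit {k K : Type} [Field k] [Field K] [Algebra k K] (R : Subalgebra k K)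
    (φ : R →ₐ[k] k) (c : K) (hc : c ∈ R) (h0 : c ≠ 0) (hi : c⁻¹ ∈ R) : φ ⟨c, hc⟩ ≠ 0 := by
  intro h
  have h1 : (⟨c, hc⟩ : R) * ⟨c⁻¹, hi⟩ = 1 := Subtype.ext (mul_inv_cancel₀ h0)
  have h2 := congrArg φ h1
  rw [map_mul, h, zero_mul, map_one] at h2
  exact zero_ne_one h2

theorem W_F6 (k K : Type) [Field k] [CharZero k] [Field K] [Algebra k K] (L : Subfield K)
    (hF : FibresHP k L) (ι κ : Type) [Finite ι] [Finite κ] (T : ι → K[X]) (S : κ → K[X])
    (hTm : ∀ i, (T i).Monic) (hT : ∀ i, NoConstRoot L (T i)) (hS : ∀ j n, (S j).coeff n ∈ L)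
    (hav : Avoid k S) : Avoid k (Sum.elim T S) := by
  classical
  obtain ⟨hcl, hne, A, A0, hA, hA0, hle, hL, hK, hfib⟩ := hF
  obtain ⟨pres⟩ := W_F1 L hcl hne A A0 hA hA0 hle hL hK
  have hA0L : ∀ c ∈ A0, c ∈ L := fun c hc =>
    (hL c).2 ⟨c, 1, hc, A0.one_mem, one_ne_zero, mul_one c⟩
  intro R hR
  -- the coefficients
  set C : Set K := (⋃ i, ((T i).coeffs : Set K)) ∪ (⋃ j, ((S j).coeffs : Set K)) with hC
  have hCf : C.Finite :=
    (Set.finite_iUnion fun i => Finset.finite_toSet _).union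
      (Set.finite_iUnion fun j => Finset.finite_toSet _)
  have hCfg : (Algebra.adjoin k C).FG := by
    have := Subalgebra.fg_adjoin_finset (R := k) hCf.toFinset
    rwa [Set.Finite.coe_toFinset] at this
  obtain ⟨R1, hR1⟩ : ∃ R1 : Subalgebra k K, R1 = R ⊔ A ⊔ Algebra.adjoin k C := ⟨_, rfl⟩
  have hR1fg : R1.FG := by
    rw [hR1]
    exact (hR.sup hA).sup hCfg
  have hRR1 : R ≤ R1 := by
    rw [hR1]
    exact le_sup_left.trans le_sup_left
  have hAR1 : A ≤ R1 := by
    rw [hR1]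
    exact le_sup_right.trans le_sup_left
  have hCR : C ⊆ R1 := by
    rw [hR1]
    exact fun x hx => (le_sup_right : Algebra.adjoin k C ≤ R ⊔ A ⊔ Algebra.adjoin k C)
      (Algebra.subset_adjoin hx)
  have hTc : ∀ i n, (T i).coeff n ∈ R1 := by
    intro i n
    by_cases h0 : (T i).coeff n = 0
    · rw [h0]
      exact R1.zero_mem
    · exact hCR (Or.inl (Set.mem_iUnion.2 ⟨i, Polynomial.coeff_mem_coeffs h0⟩))
  have hSc : ∀ j n, (S j).coeff n ∈ R1 := by
    intro j n
    by_cases h0 : (S j).coeff n = 0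
    · rw [h0]
      exact R1.zero_mem
    · exact hCR (Or.inr (Set.mem_iUnion.2 ⟨j, Polynomial.coeff_mem_coeffs h0⟩))
  choose P hP using fun i => F6_lift R1 (T i) (hTc i)
  choose Q hQ using fun j => F6_lift R1 (S j) (hSc j)
  obtain ⟨a, ha0, ha⟩ := W_F6b A R1 hR1fg hK
  have haK : (a : K) ≠ 0 := fun h => ha0 (Subtype.ext h)
  choose n Tt hTtm hTt using fun i => F6_scale A R1 a ha (T i) (hTm i) (hTc i)
  have hnc : ∀ i, NoConstRoot L ((Tt i).map (A.val : A →+* K)) := by
    intro i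
    rw [hTt i]
    exact F6_noroot L (T i) (hT i) _ (pow_ne_zero _ haK)
  choose ρ hρ0 hρ using fun i => W_F5 L A A0 hle hA0L pres (Tt i) (hTtm i) (hnc i)
  choose ω hω hω0 hωS using fun j => F6_den L A0 hL (S j) (hS j)
  -- the inverses
  set D : Set K := {(a : K)⁻¹} ∪ (Set.range fun i => ((ρ i : K))⁻¹) ∪
    (Set.range fun j => (ω j)⁻¹) with hD
  have hDf : D.Finite :=
    ((Set.finite_singleton _).union (Set.finite_range _)).union (Set.finite_range _)
  have hDfg : (Algebra.adjoin k D).FG := by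
    have := Subalgebra.fg_adjoin_finset (R := k) hDf.toFinset
    rwa [Set.Finite.coe_toFinset] at this
  obtain ⟨R4, Q', φ0, hR34, hQ', hroot⟩ := hav (R1 ⊔ Algebra.adjoin k D) (hR1fg.sup hDfg)
  have h14 : R1 ≤ R4 := le_sup_left.trans hR34
  have hDR : D ⊆ R4 := fun x hx =>
    (le_sup_right.trans hR34 : Algebra.adjoin k D ≤ R4) (Algebra.subset_adjoin hx)
  have hA4 : A ≤ R4 := hAR1.trans h14
  have hφa : φ0 ⟨(a : K), hA4 a.2⟩ ≠ 0 :=
    F6_unit R4 φ0 _ _ haK (hDR (Or.inl (Or.inl rfl)))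
  have hφρ : ∀ i, φ0 ⟨(ρ i : K), hA4 (hle (ρ i).2)⟩ ≠ 0 := fun i =>
    F6_unit R4 φ0 _ _ (fun h => hρ0 i (Subtype.ext h)) (hDR (Or.inl (Or.inr ⟨i, rfl⟩)))
  have hφω : ∀ j, φ0 ⟨ω j, hA4 (hle (hω j))⟩ ≠ 0 := fun j =>
    F6_unit R4 φ0 _ _ (hω0 j) (hDR (Or.inr ⟨j, rfl⟩))
  obtain ⟨φA, hφA⟩ : ∃ φA : A →ₐ[k] k, φA = φ0.comp (Subalgebra.inclusion hA4) := ⟨_, rfl⟩
  have hφAe : ∀ c : A, φA c = φ0 ⟨(c : K), hA4 c.2⟩ := by
    intro c
    rw [hφA]
    rfl
  obtain ⟨hdom, hHP⟩ := hfib φA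
  have hker : ∀ c ∈ fibreIdeal A A0 φA, φA c = 0 := by
    intro c hc
    have h1 : fibreIdeal A A0 φA ≤ RingHom.ker (φA : A →+* k) := by
      refine Ideal.span_le.2 ?_
      intro x hx
      exact hx.2
    exact h1 hc
  have hb : Ideal.Quotient.mk (fibreIdeal A A0 φA) a ≠ 0 := by
    intro h
    have h1 := hker a (Ideal.Quotient.eq_zero_iff_mem.1 h)
    rw [hφAe] at h1
    exact hφa h1
  obtain ⟨ψ, hψb, hψ⟩ := hHP (Ideal.Quotient.mk (fibreIdeal A A0 φA) a) hb ι
    (fun i => (Tt i).map (Ideal.Quotient.mk (fibreIdeal A A0 φA)))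
    (fun i => (hTtm i).map _) (fun i z => hρ i φA (by
      show φA (Subalgebra.inclusion hle (ρ i)) ≠ 0
      rw [hφAe]
      exact hφρ i) hdom z)
  obtain ⟨φ1, hφ1⟩ : ∃ φ1 : A →ₐ[k] k, φ1 = ψ.comp (Ideal.Quotient.mkₐ k (fibreIdeal A A0 φA)) :=
    ⟨_, rfl⟩
  have hφ1e : ∀ c : A, φ1 c = ψ (Ideal.Quotient.mk (fibreIdeal A A0 φA) c) := by
    intro c
    rw [hφ1]
    rfl
  have hφ1a : φ1 a ≠ 0 := by
    rw [hφ1e]
    exact hψb
  obtain ⟨φ', hφ'⟩ := W_F6a A R1 hAR1 a ha φ1 hφ1a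
  -- the values on `A0`
  have hA0v : ∀ (c : K) (hc : c ∈ A0), φ' ⟨c, hAR1 (hle hc)⟩ = φ0 ⟨c, hA4 (hle hc)⟩ := by
    intro c hc
    have h1 : φ' ⟨c, hAR1 (hle hc)⟩ = φ1 ⟨c, hle hc⟩ := hφ' ⟨c, hle hc⟩
    rw [h1, hφ1e]
    have h2 : (⟨c, hle hc⟩ : A) - algebraMap k A (φA ⟨c, hle hc⟩) ∈ fibreIdeal A A0 φA := by
      refine Ideal.subset_span ⟨?_, ?_⟩
      · exact A0.sub_mem hc (A0.algebraMap_mem _)
      · rw [map_sub, AlgHom.commutes]
        exact sub_self _
    have h3 : Ideal.Quotient.mk (fibreIdeal A A0 φA) (⟨c, hle hc⟩ : A) =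
        Ideal.Quotient.mk (fibreIdeal A A0 φA) (algebraMap k A (φA ⟨c, hle hc⟩)) := by
      rw [← sub_eq_zero, ← map_sub]
      exact Ideal.Quotient.eq_zero_iff_mem.2 h2
    have h4 : Ideal.Quotient.mk (fibreIdeal A A0 φA) (algebraMap k A (φA ⟨c, hle hc⟩)) =
        algebraMap k (A ⧸ fibreIdeal A A0 φA) (φA ⟨c, hle hc⟩) := rfl
    rw [h3, h4, AlgHom.commutes, hφAe]
    rfl
  refine ⟨R1, Sum.elim P Q, φ', hRR1, ?_, ?_⟩
  · rintro (i | j)
    · exact hP i
    · exact hQ j
  · rintro (i | j) x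
    · show ¬ ((P i).map (φ' : R1 →+* k)).IsRoot x
      intro hx
      rw [Polynomial.IsRoot.def, Polynomial.eval_map] at hx
      have hsc : (Tt i).map (Subalgebra.inclusion hAR1 : A →+* R1) =
          (P i).scaleRoots ((Subalgebra.inclusion hAR1 a) ^ n i) := by
        apply Polynomial.map_injective (R1.val : R1 →+* K) Subtype.val_injective
        have h1 : ((P i).scaleRoots ((Subalgebra.inclusion hAR1 a) ^ n i)).map
            (R1.val : R1 →+* K) = (T i).scaleRoots ((a : K) ^ n i) := by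
          rw [Polynomial.map_scaleRoots, hP i]
          · rfl
          · have hlc : (P i).leadingCoeff = 1 :=
              Polynomial.monic_of_injective (f := (R1.val : R1 →+* K)) Subtype.val_injective
                (by rw [hP i]; exact hTm i)
            rw [hlc, map_one]
            exact one_ne_zero
        rw [h1, ← hTt i, Polynomial.map_map]
        rfl
      have h2 := Polynomial.scaleRoots_eval₂_mul (p := P i) (φ' : R1 →+* k) x
        ((Subalgebra.inclusion hAR1 a) ^ n i)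
      rw [hx, mul_zero, ← hsc, Polynomial.eval₂_map] at h2
      refine hψ i ((φ' : R1 →+* k) ((Subalgebra.inclusion hAR1 a) ^ n i) * x) ?_
      rw [Polynomial.IsRoot.def, Polynomial.map_map, Polynomial.eval_map]
      have h3 : (ψ : (A ⧸ fibreIdeal A A0 φA) →+* k).comp
          (Ideal.Quotient.mk (fibreIdeal A A0 φA)) =
          (φ' : R1 →+* k).comp (Subalgebra.inclusion hAR1 : A →+* R1) := by
        ext c
        show ψ (Ideal.Quotient.mk (fibreIdeal A A0 φA) c) = φ' (Subalgebra.inclusion hAR1 c)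
        rw [hφ' c, hφ1e]
      rw [h3]
      exact h2
    · have hmap : (Q j).map (φ' : R1 →+* k) = (Q' j).map (φ0 : R4 →+* k) := by
        ext m
        rw [Polynomial.coeff_map, Polynomial.coeff_map]
        have e1 : (((Q j).coeff m : R1) : K) = (S j).coeff m := by
          rw [← hQ j, Polynomial.coeff_map]
          rfl
        have e2 : (((Q' j).coeff m : R4) : K) = (S j).coeff m := by
          rw [← hQ' j, Polynomial.coeff_map]
          rfl
        have hω' : ω j ∈ A := hle (hω j)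
        have p1 : (Q j).coeff m * ⟨ω j, hAR1 hω'⟩ =
            (⟨(S j).coeff m * ω j, hAR1 (hle (hωS j m))⟩ : R1) := by
          apply Subtype.ext
          show (((Q j).coeff m : R1) : K) * ω j = _
          rw [e1]
        have p2 : (Q' j).coeff m * ⟨ω j, hA4 hω'⟩ =
            (⟨(S j).coeff m * ω j, hA4 (hle (hωS j m))⟩ : R4) := by
          apply Subtype.ext
          show (((Q' j).coeff m : R4) : K) * ω j = _
          rw [e2]
        have q1 := congrArg φ' p1
        have q2 := congrArg φ0 p2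
        rw [map_mul, hA0v _ (hωS j m), ← q2, map_mul, hA0v _ (hω j)] at q1
        exact mul_right_cancel₀ (hφω j) q1
      show ¬ ((Q j).map (φ' : R1 →+* k)).IsRoot x
      rw [hmap]
      exact hroot j x

end Pool.Agent.LibHP
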