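import Pool.Agent.LibHPF.P9

/-! # Row G1: constants or ramification

Plan. `N := AdjoinRoot T`, finite over `K := X.functionField`, of degree `T.natDegree ≥ 2`
(`AdjoinRoot.powerBasis`). If `PresAt` holds at all codimension one points then
`exists_const_of_presAt f hsc N` (LibHPF/P9.lean) gives `α : N` algebraic over `k`, not in `k`. Let `h` be
its minimal polynomial over `k` (`k → K → N`; `minpoly k α` for the composed algebra structure, or the
minimal one among the polynomials killing `α`): irreducible; it has no root in `k`: a root `c` in `k`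
would make `h = X - C c` (up to a unit, irreducibility), so `α = c`. `α = q (root)`, for some `q : K[X]`
(`AdjoinRoot.mk_surjective`), and `(h.map (algebraMap k K)).comp q` is killed by `root`, so it is divisible
by `T` (`AdjoinRoot.mk_eq_zero`: `AdjoinRoot.mk T ((h.map _).comp q) = h(α) = 0`). -/

set_option autoImplicit false
open AlgebraicGeometry CategoryTheory

namespace Pool.Agent.LibHP

private theorem g1_minpoly {k N : Type} [Field k] [Field N] (ψ : k →+* N) (α : N)
    (h0 : Polynomial k) (hne : h0 ≠ 0) (h0α : h0.eval₂ ψ α = 0) (hα : ∀ c : k, ψ c ≠ α) :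
    ∃ h : Polynomial k, (∀ x, ¬ h.IsRoot x) ∧ h.eval₂ ψ α = 0 := by
  letI : Algebra k N := ψ.toAlgebra
  have halg : IsAlgebraic k α := ⟨h0, hne, h0α⟩
  have hint : IsIntegral k α := halg.isIntegral
  refine ⟨minpoly k α, fun c hc => ?_, minpoly.aeval k α⟩
  have hirr : Irreducible (minpoly k α) := minpoly.irreducible hint
  have hd := Polynomial.degree_eq_one_of_irreducible_of_root hirr hc
  have hm := minpoly.monic hint
  obtain ⟨g, hg⟩ := Polynomial.dvd_iff_isRoot.mpr hc
  have hu : IsUnit g := by
    rcases hirr.isUnit_or_isUnit hg with h | h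
    · exact absurd h (Polynomial.not_isUnit_X_sub_C c)
    · exact h
  have hv := minpoly.aeval k α
  rw [hg, map_mul] at hv
  rcases mul_eq_zero.mp hv with h | h
  · rw [map_sub, Polynomial.aeval_X, Polynomial.aeval_C] at h
    exact hα c (sub_eq_zero.mp h).symm
  · exact (hu.map (Polynomial.aeval α)).ne_zero h

theorem W_G1 {k : Type} [Field k] [CharZero k] {X : Scheme}
    (f : X ⟶ Spec (CommRingCat.of k)) [IsIntegral X] [Smooth f] [IsSeparated f] [QuasiCompact f]
    (hsc : GeomSimplyConnected f) (T : Polynomial X.functionField) (hm : T.Monic)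
    [Fact (Irreducible T)] (h2 : 2 ≤ T.natDegree) :
    (∃ (h : Polynomial k) (q g : Polynomial X.functionField), (∀ x, ¬ h.IsRoot x) ∧
      (h.map (toStalk f (genericPoint X))).comp q = T * g) ∨
    ∃ x : X, ringKrullDim (X.presheaf.stalk x) = 1 ∧
      ¬ PresAt (algebraMap X.functionField (AdjoinRoot T)) x := by
  by_cases hcase : ∀ x : X, ringKrullDim (X.presheaf.stalk x) = 1 →
      PresAt (algebraMap X.functionField (AdjoinRoot T)) x
  · left
    haveI : FiniteDimensional X.functionField (AdjoinRoot T) :=
      (AdjoinRoot.powerBasis hm.ne_zero).finite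
    have hfr : 2 ≤ Module.finrank X.functionField (AdjoinRoot T) := by
      rw [(AdjoinRoot.powerBasis hm.ne_zero).finrank, AdjoinRoot.powerBasis_dim]
      exact h2
    obtain ⟨α, ⟨h0, hne, h0α⟩, hα⟩ := exists_const_of_presAt f hsc (AdjoinRoot T) hfr hcase
    obtain ⟨h, hroot, hh⟩ := g1_minpoly
      ((algebraMap X.functionField (AdjoinRoot T)).comp (toStalk f (genericPoint X))) α h0 hne h0α hα
    obtain ⟨q, hq⟩ := AdjoinRoot.mk_surjective (g := T) α
    have hz : AdjoinRoot.mk T ((h.map (toStalk f (genericPoint X))).comp q) = 0 := by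
      rw [Polynomial.comp, Polynomial.hom_eval₂, Polynomial.eval₂_map, hq]
      exact hh
    rw [AdjoinRoot.mk_eq_zero] at hz
    obtain ⟨g, hg⟩ := hz
    exact ⟨h, q, g, hroot, hg⟩
  · right
    push_neg at hcase
    exact hcase

end Pool.Agent.LibHP
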