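import Pool.Agent.LibW64.A0
import Pool.Agent.LibW64.A1
import Pool.Agent.LibW64.A2a
import Pool.Agent.LibW64.A2
import Pool.Agent.LibW64.B1
import Pool.Agent.LibW64.B2
import Pool.Agent.LibW64.B3

/-! # Row G2: summary for a dominated generic fibre

Plan. Assembly: `r, σ` from the definition of `FibreDominated`; `W_A0` gives `ClosedSub L`. Given `T'` and a
root: `W_A1` and `W_A2a`, then `W_A2` with `s := sbar σ` (`hs`: `hσ` and `rfmap_const`, LibHP2/A1.lean),
`W_B1`, `W_B2`, `W_B3`. -/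

set_option autoImplicit false
open Polynomial

namespace Pool.Agent.LibHP

theorem W_G2 {K : Type} [Field K] [CharZero K] (L : Subfield K) (hF : FibreDominated L) :
    ∃ (r : ℕ) (σ : K →+* RF K r), (∀ c ∈ L, σ c = algebraMap K (RF K r) c) ∧ ClosedSub L ∧
      ∀ T' : K[X], T'.Monic → ∀ _ : Fact (Irreducible T'), 2 ≤ T'.natDegree →
        (∃ z : RF (AlgebraicClosure K) r, T'.eval₂ (sbar σ) z = 0) →
        (∃ h q g : K[X], h.Monic ∧ Irreducible h ∧ 2 ≤ h.natDegree ∧ (∀ i, h.coeff i ∈ L) ∧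
          h.comp q = T' * g) ∧
        ∃ α : AdjoinRoot T', AlgOver L (algebraMap K (AdjoinRoot T')) α ∧
          IntermediateField.adjoin K {α} = ⊤ := by
  obtain ⟨r, σ, hσ, hd, hcl⟩ := hF
  have hL : ClosedSub L := W_A0 L r σ hσ hd
  refine ⟨r, σ, hσ, hL, ?_⟩
  rintro T' hm hfact h2 ⟨z, hz⟩
  have hmem := W_A1 r σ hcl T' hm z hz
  have hd' := W_A2a L r σ hd
  have hs : ∀ c ∈ L, sbar σ c =
      algebraMap (AlgebraicClosure K) (RF (AlgebraicClosure K) r)
        (algebraMap K (AlgebraicClosure K) c) := by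
    intro c hc
    have h1 : sbar σ c = rfmap (algebraMap K (AlgebraicClosure K)) r (σ c) := rfl
    rw [h1, hσ c hc, rfmap_const]
  obtain ⟨y, hy, hy'⟩ := W_A2 L hL r (sbar σ) hs hd' T' hm z hz hmem
  obtain ⟨α, hα, hadj⟩ := W_B1 L hL y hy'
  exact ⟨W_B2 L hL T' hm hfact.out h2 y α hy hα hadj, W_B3 L T' y α hy hα hadj⟩

end Pool.Agent.LibHP
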