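import Pool.Agent.LibW64.C1
import Pool.Agent.LibHP.S2

/-! # Row G3: constant extensions are unramified at horizontal points, for schemes

Plan. `O := X.presheaf.stalk x` is a discrete valuation ring (`isDiscreteValuationRing_stalk f x hx`, see
`presAt_of_div`, LibHPF/P12.lean), in particular integrally closed, with fraction field
`K := X.functionField`. `PresAt (algebraMap K N) x` unfolds to: for `D` with
`∀ y, ∃ y', D (stalkTo _ x y) = stalkTo _ x y'` ..., and `stalkTo j x = j.comp (algebraMap _ _)`, so this is
`W_C1` (row C1, cite it). -/

set_option autoImplicit false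
open AlgebraicGeometry CategoryTheory

namespace Pool.Agent.LibHP

theorem W_G3 {k : Type} [Field k] [CharZero k] {X : Scheme}
    (f : X ⟶ Spec (CommRingCat.of k)) [IsIntegral X] [Smooth f] (x : X)
    (hx : ringKrullDim (X.presheaf.stalk x) = 1) (L : Subfield X.functionField)
    (hL : ClosedSub L)
    (hLO : ∀ c ∈ L, ∃ a : X.presheaf.stalk x, algebraMap (X.presheaf.stalk x) X.functionField a = c)
    (N : Type) [Field N] [Algebra X.functionField N] [FiniteDimensional X.functionField N] (α : N)
    (hα : AlgOver L (algebraMap X.functionField N) α)
    (hgen : IntermediateField.adjoin X.functionField {α} = ⊤) :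
    PresAt (algebraMap X.functionField N) x := by
  have hdvr := isDiscreteValuationRing_stalk f x hx
  have cz : CharZero X.functionField :=
    charZero_of_injective_ringHom (toStalk f (genericPoint X)).injective
  intro D hD b hb
  exact W_C1 (X.presheaf.stalk x) X.functionField N L hL hLO α hα hgen D hD b hb

end Pool.Agent.LibHP
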