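import Pool.Agent.LibHPF.V5
import Pool.Agent.LibHPF.V7

/-! # Row G4: a rational curve through the generic point as an anchored family in `K(u_1)`

Plan. The proof of `comp_step` (LibHPF/V5.lean) with `M := K`, `r := 0`, `σ := algebraMap K (RF K 0)`
constructs such a `σ'` (`k`-linear, `MeetsDiv`). Here we need in addition `HasVal (σ' a) a`. Simplest:
let `ε : RatFunc K ≃+* RF K 1` be the isomorphism induced by `Polynomial K ≃ MvPolynomial (Fin 1) K`
(`X ↦ X 0`; `MvPolynomial.finSuccEquiv`/`MvPolynomial.pUnitAlgEquiv`/`IsFractionRing.ringEquivOfRingEquiv`),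
`σ := ε ∘ τ`. `HasVal (σ a) a` from `hτ` (constant coefficients of the images of `p`, `q`). `MeetsDiv`:
copy the part of the proof of `comp_step` that proves `MeetsDiv` (with `M = K`, `rmap σ` replaced by
the identity): an irreducible factor over `\bar K` of the image of `g` has multiplicity one in `g`
because `g` is irreducible over the field `K` of characteristic zero, hence separable. -/

set_option autoImplicit false
open Polynomial

namespace Pool.Agent.LibHP

/-- `K[X] ≃ K[X_0]`. -/
private noncomputable def g4e (M : Type) [Field M] : M[X] ≃+* MvPolynomial (Fin 1) M :=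
  (MvPolynomial.uniqueAlgEquiv M (Fin 1)).symm.toRingEquiv

private theorem g4e_C (M : Type) [Field M] (c : M) : g4e M (C c) = MvPolynomial.C c := by
  have h := (MvPolynomial.uniqueAlgEquiv M (Fin 1)).symm.commutes c
  exact h

private theorem g4e_X (M : Type) [Field M] : g4e M X = MvPolynomial.X 0 := by
  change (MvPolynomial.uniqueAlgEquiv M (Fin 1)).symm X = _
  rw [AlgEquiv.symm_apply_eq]
  simp

private theorem g4e_coeff (M : Type) [Field M] (p : M[X]) :
    MvPolynomial.constantCoeff (g4e M p) = p.coeff 0 := by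
  have h : (MvPolynomial.constantCoeff : MvPolynomial (Fin 1) M →+* M).comp (g4e M).toRingHom =
      Polynomial.constantCoeff := by
    apply Polynomial.ringHom_ext
    · intro a
      change MvPolynomial.constantCoeff (g4e M (C a)) = Polynomial.constantCoeff (C a)
      rw [g4e_C]
      simp
    · change MvPolynomial.constantCoeff (g4e M X) = Polynomial.constantCoeff X
      rw [g4e_X]
      simp
  exact congrArg (fun f : M[X] →+* M => f p) h

private theorem g4e_map (M Ω : Type) [Field M] [Field Ω] (j : M →+* Ω) (p : M[X]) :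
    MvPolynomial.map j (g4e M p) = g4e Ω (p.map j) := by
  have h : (MvPolynomial.map j : MvPolynomial (Fin 1) M →+* MvPolynomial (Fin 1) Ω).comp
      (g4e M).toRingHom = (g4e Ω).toRingHom.comp (Polynomial.mapRingHom j) := by
    apply Polynomial.ringHom_ext
    · intro a
      change MvPolynomial.map j (g4e M (C a)) = g4e Ω ((C a).map j)
      rw [g4e_C, Polynomial.map_C, g4e_C, MvPolynomial.map_C]
    · change MvPolynomial.map j (g4e M X) = g4e Ω (X.map j)
      rw [g4e_X, Polynomial.map_X, g4e_X, MvPolynomial.map_X]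
  exact congrArg (fun f : M[X] →+* MvPolynomial (Fin 1) Ω => f p) h

private noncomputable def g4n (M : Type) [Field M] : RatFunc M ≃+* RF M 1 :=
  IsFractionRing.ringEquivOfRingEquiv (A := M[X]) (B := MvPolynomial (Fin 1) M) (g4e M)

private theorem g4n_alg (M : Type) [Field M] (p : M[X]) :
    g4n M (algebraMap M[X] (RatFunc M) p) =
      algebraMap (MvPolynomial (Fin 1) M) (RF M 1) (g4e M p) :=
  IsFractionRing.ringEquivOfRingEquiv_algebraMap _ p

private theorem g4_rfmap (M Ω : Type) [Field M] [Field Ω] (j : M →+* Ω)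
    (p : MvPolynomial (Fin 1) M) :
    rfmap j 1 (algebraMap _ _ p) =
      algebraMap (MvPolynomial (Fin 1) Ω) (RF Ω 1) (MvPolynomial.map j p) := by
  rw [rfmap, IsFractionRing.lift_algebraMap]
  rfl

private theorem g4n_nat (M Ω : Type) [Field M] [Field Ω] (j : M →+* Ω) (x : RatFunc M) :
    rfmap j 1 (g4n M x) = g4n Ω (rmap j x) := by
  have h : (rfmap j 1).comp (g4n M).toRingHom = (g4n Ω).toRingHom.comp (rmap j) := by
    apply IsLocalization.ringHom_ext (nonZeroDivisors M[X])
    refine RingHom.ext fun p => ?_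
    · change rfmap j 1 (g4n M (algebraMap M[X] (RatFunc M) p)) =
        g4n Ω (rmap j (algebraMap M[X] (RatFunc M) p))
      rw [g4n_alg, g4_rfmap, u_rmap_algebraMap, g4n_alg, g4e_map]
  exact congrArg (fun f : RatFunc M →+* RF Ω 1 => f x) h

theorem W_G4 (k K : Type) [Field k] [Field K] [CharZero K] [Algebra k K]
    (τ : K →+* RatFunc K) (hτk : ∀ c : k, τ (algebraMap k K c) = RatFunc.C (algebraMap k K c))
    (hτ : ∀ a : K, ∃ p q : K[X], q.coeff 0 = 1 ∧ p.coeff 0 = a ∧
      τ a * algebraMap K[X] (RatFunc K) q = algebraMap K[X] (RatFunc K) p) :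
    ∃ σ : K →+* RF K 1, (∀ c : k, σ (algebraMap k K c) = algebraMap k (RF K 1) c) ∧
      (∀ a, HasVal (σ a) a) ∧
      ∀ (O : Type) [CommRing O] [Algebra O K] (g : K[X]) (m : ℕ), Irreducible g →
        LocMult O K τ g m → MeetsDiv O σ m := by
  have hs : ∀ a, sbar ((g4n K).toRingHom.comp τ) a =
      g4n (AlgebraicClosure K) (rmap (algebraMap K (AlgebraicClosure K)) (τ a)) := by
    intro a
    change rfmap (algebraMap K (AlgebraicClosure K)) 1 (g4n K (τ a)) = _
    rw [g4n_nat]
  refine ⟨(g4n K).toRingHom.comp τ, ?_, ?_, ?_⟩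
  · intro c
    change g4n K (τ (algebraMap k K c)) = _
    rw [hτk, ← RatFunc.algebraMap_C, g4n_alg, g4e_C]
    rfl
  · intro a
    obtain ⟨p, q, hq, hp, h⟩ := hτ a
    refine ⟨g4e K p, g4e K q, ?_, ?_, ?_⟩
    · rw [g4e_coeff, hq]
    · rw [g4e_coeff, hp]
    · change g4n K (τ a) * _ = _
      rw [← g4n_alg, ← g4n_alg, ← map_mul, h]
  · intro O _ _ g m hg hm
    obtain ⟨C, ϖ, hu, hm1, hO, π, hπ, u, hu1, hu2, hu3⟩ :=
      meets_comp O τ g hg m hm (algebraMap K (AlgebraicClosure K))
    have hmem : ∀ x, x ∈ C.comap (g4n (AlgebraicClosure K)).symm.toRingHom ↔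
        (g4n (AlgebraicClosure K)).symm x ∈ C := fun x => Iff.rfl
    refine ⟨C.comap (g4n (AlgebraicClosure K)).symm.toRingHom, g4n (AlgebraicClosure K) ϖ, ?_, hm1,
      ?_, π, hπ, g4n (AlgebraicClosure K) u, ?_, ?_, ?_⟩
    · obtain ⟨g1, g2, g3, g4⟩ := hu
      refine ⟨?_, ?_, ?_, ?_⟩
      · rw [hmem, RingEquiv.symm_apply_apply]
        exact g1
      · exact (map_ne_zero (g4n (AlgebraicClosure K))).mpr g2
      · rw [hmem, map_inv₀, RingEquiv.symm_apply_apply]
        exact g3
      · intro a ha ha0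
        rw [hmem] at ha
        obtain ⟨n, v, hv1, hv2, hv3⟩ := g4 ((g4n (AlgebraicClosure K)).symm a) ha
          ((map_ne_zero (g4n (AlgebraicClosure K)).symm).mpr ha0)
        refine ⟨n, g4n (AlgebraicClosure K) v, ?_, ?_, ?_⟩
        · rw [hmem, RingEquiv.symm_apply_apply]
          exact hv1
        · rw [hmem, map_inv₀, RingEquiv.symm_apply_apply]
          exact hv2
        · rw [← map_pow, ← map_mul, ← hv3, RingEquiv.apply_symm_apply]
    · intro a
      rw [hmem, hs, RingEquiv.symm_apply_apply]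
      exact hO a
    · rw [hmem, RingEquiv.symm_apply_apply]
      exact hu1
    · rw [hmem, map_inv₀, RingEquiv.symm_apply_apply]
      exact hu2
    · rw [hs, hu3, map_mul, map_pow]

end Pool.Agent.LibHP
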