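import Pool.Agent.LibHP2.A1
import Pool.Agent.LibHPF.P13
import Pool.Agent.LibCH33.R1

/-! # Row G6: an anchored family is closed

A root of a polynomial over `K` (via `σ`) is integral over the ring of the rational functions regular
at `0`, so it has a value; the value is a root of the minimal polynomial. -/

set_option autoImplicit false
open Polynomial

namespace Pool.Agent.LibHP

private theorem W_G6_eval {K : Type} [Field K] {r : ℕ} (σ : K →+* RF K r)
    (hanc : ∀ a, HasVal (σ a) a) {e : RF K r} {v : K} (he : HasVal e v) (Q : K[X]) :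
    HasVal (Q.eval₂ σ e) (Q.eval v) := by
  induction Q using Polynomial.induction_on' with
  | add p q hp hq =>
    rw [eval₂_add, eval_add]
    exact hp.add hq
  | monomial n a =>
    rw [eval₂_monomial, eval_monomial]
    refine (hanc a).mul ?_
    induction n with
    | zero =>
      rw [pow_zero, pow_zero]
      have h := HasVal.const (r := r) (1 : K)
      rwa [map_one] at h
    | succ n ih =>
      rw [pow_succ, pow_succ]
      exact ih.mul he

theorem W_G6 {K : Type} [Field K] {r : ℕ} (σ : K →+* RF K r) (hanc : ∀ a, HasVal (σ a) a) :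
    ClosedIn σ := by
  rintro e ⟨P, hP, hPe⟩
  letI := σ.toAlgebra
  have hint : IsIntegral K e := by
    rw [← isAlgebraic_iff_isIntegral]
    refine ⟨P, hP, ?_⟩
    rw [aeval_def]
    exact hPe
  set Q := minpoly K e with hQ
  have hQm : Q.Monic := minpoly.monic hint
  have hQi : Irreducible Q := minpoly.irreducible hint
  have hQe : Q.eval₂ σ e = 0 := by
    have h1 := minpoly.aeval K e
    rwa [aeval_def] at h1
  have hmem : ∀ a, σ a ∈ valRing K r := fun a => ⟨a, hanc a⟩
  set τ : K →+* valRing K r := σ.codRestrict (valRing K r) hmem with hτ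
  have h1 : IsIntegral (valRing K r) e := by
    refine ⟨Q.map τ, hQm.map τ, ?_⟩
    rw [eval₂_map]
    exact hQe
  obtain ⟨v, hv⟩ := exists_hasVal_of_isIntegral e h1
  have h2 := W_G6_eval σ hanc hv Q
  rw [hQe] at h2
  have h3 : HasVal (0 : RF K r) (0 : K) := by
    have h := HasVal.const (r := r) (0 : K)
    rwa [map_zero] at h
  have h5 : Q.IsRoot v := h2.unique h3
  have h6 : Q = X - C v := by
    have h7 := (dvd_iff_isRoot.2 h5)
    have h8 : Associated (X - C v) Q := (Polynomial.irreducible_X_sub_C v).associated_of_dvd hQi h7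
    exact (eq_of_monic_of_associated (monic_X_sub_C v) hQm h8).symm
  refine ⟨v, ?_⟩
  rw [h6] at hQe
  simp only [eval₂_sub, eval₂_X, eval₂_C] at hQe
  exact (sub_eq_zero.1 hQe).symm

end Pool.Agent.LibHP
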