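import Pool.Agent.LibW64.Defs
import Pool.Agent.LibW64.D1b
import Pool.Agent.LibW64.D2
import Pool.Agent.LibCH33.R1

/-! # Row I2: one step along an anchored family

Plan. As row I1 (see its header), with `W_D1b` instead of `W_D1` (`hreg` from `hanc`), and the `S j`
monic and treated as follows: `G` is anchored at `φ0` (`HasVal (G a) (φ0 a)` for `a : R1`, from
`HasVal (F a) a`). CLAIM: `(Q j).map G` has no root `z` in `RF k r`. Otherwise `z` is integral over the
ring of the rational functions regular at `0` (`valRing`, see LibCH33/R1.lean, `exists_vals`, where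
this argument is carried out: `valRing` is integrally closed), so `HasVal z v` for some `v : k`, and the
value of `0 = (Q j).eval₂ G z` is `((Q j).map φ0).eval v` (see `R10_val`, LibCH33/R10.lean, or
`HasVal.add`, `HasVal.mul`, LibHP2/A1.lean, `HasVal.unique`), so `v` is a root of
`(Q j).map φ0 = (Q' j).map φ0`: contradiction. So `W_D2` applies to the family
`Sum.elim P Q` of polynomials over `R1` and gives `φ`. -/

set_option autoImplicit false
open Polynomial

namespace Pool.Agent.LibHP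

private theorem I2_pow {E : Type} [Field E] {r : ℕ} {f : RF E r} {a : E} (h : HasVal f a) (n : ℕ) :
    HasVal (f ^ n) (a ^ n) := by
  induction n with
  | zero =>
    rw [pow_zero, pow_zero]
    simpa using HasVal.const (r := r) (1 : E)
  | succ n ih =>
    rw [pow_succ, pow_succ]
    exact ih.mul h

private theorem I2_eval {A E : Type} [CommRing A] [Field E] {r : ℕ} (s : A →+* RF E r) (t : A →+* E)
    (hst : ∀ a, HasVal (s a) (t a)) (p : A[X]) {x : RF E r} {y : E} (hxy : HasVal x y) :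
    HasVal (p.eval₂ s x) (p.eval₂ t y) := by
  induction p using Polynomial.induction_on' with
  | add p q hp hq =>
    rw [Polynomial.eval₂_add, Polynomial.eval₂_add]
    exact hp.add hq
  | monomial n a =>
    rw [Polynomial.eval₂_monomial, Polynomial.eval₂_monomial]
    exact (hst a).mul (I2_pow hxy n)

private theorem I2_root {A E : Type} [CommRing A] [Field E] {r : ℕ} (s : A →+* RF E r)
    (t : A →+* E) (hst : ∀ a, HasVal (s a) (t a)) (p : A[X]) (hp : p.Monic) (z : RF E r)
    (hz : p.eval₂ s z = 0) : ∃ v : E, p.eval₂ t v = 0 := by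
  let sV : A →+* valRing E r := s.codRestrict _ fun a => ⟨t a, hst a⟩
  have hcomp : (algebraMap (valRing E r) (RF E r)).comp sV = s := by
    ext a
    rfl
  have hint : IsIntegral (valRing E r) z := by
    refine ⟨p.map sV, hp.map sV, ?_⟩
    rw [Polynomial.eval₂_map, hcomp]
    exact hz
  obtain ⟨v, hv⟩ := exists_hasVal_of_isIntegral z hint
  refine ⟨v, ?_⟩
  have h1 := I2_eval s t hst p hv
  rw [hz] at h1
  have h2 : HasVal (0 : RF E r) (0 : E) := by
    simpa using HasVal.const (r := r) (0 : E)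
  exact h1.unique h2

private theorem I2_lift {k K : Type} [Field k] [Field K] [Algebra k K] (R : Subalgebra k K)
    (p : K[X]) (hp : ∀ n, p.coeff n ∈ R) : ∃ P : R[X], P.map (R.val : R →+* K) = p := by
  have h1 : p ∈ Polynomial.lifts (R.val : R →+* K) := by
    rw [Polynomial.lifts_iff_coeff_lifts]
    intro n
    exact ⟨⟨p.coeff n, hp n⟩, rfl⟩
  exact (Polynomial.mem_lifts p).1 h1

private theorem I2_coeffs {k K ι : Type} [Field k] [Field K] [Algebra k K] [Finite ι]
    (T : ι → K[X]) : ∃ R : Subalgebra k K, R.FG ∧ ∀ i n, (T i).coeff n ∈ R := by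
  classical
  have := Fintype.ofFinite ι
  refine ⟨Algebra.adjoin k ((Finset.univ.biUnion fun i => (T i).coeffs : Finset K) : Set K),
    ⟨_, rfl⟩, ?_⟩
  intro i n
  by_cases h : (T i).coeff n = 0
  · rw [h]
    exact Subalgebra.zero_mem _
  · apply Algebra.subset_adjoin
    rw [Finset.mem_coe, Finset.mem_biUnion]
    exact ⟨i, Finset.mem_univ i, Polynomial.coeff_mem_coeffs h⟩

theorem W_I2 (k K : Type) [Field k] [NumberField k] [Field K] [Algebra k K] (r : ℕ)
    (σ : K →+* RF K r) (hσ : ∀ c : k, σ (algebraMap k K c) = algebraMap k (RF K r) c)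
    (hanc : ∀ a, HasVal (σ a) a)
    (ι κ : Type) [Finite ι] [Finite κ] (T : ι → K[X]) (S : κ → K[X]) (hTm : ∀ i, (T i).Monic)
    (hT : ∀ i, ∀ z : RF (AlgebraicClosure K) r, (T i).eval₂ (sbar σ) z ≠ 0)
    (hSm : ∀ j, (S j).Monic) (hav : Avoid k S) : Avoid k (Sum.elim T S) := by
  classical
  intro R hR
  obtain ⟨RT, hRT, hT1⟩ := I2_coeffs (k := k) T
  obtain ⟨RS, hRS, hS1⟩ := I2_coeffs (k := k) S
  obtain ⟨R1, hR1⟩ : ∃ R1 : Subalgebra k K, R1 = R ⊔ (RT ⊔ RS) := ⟨_, rfl⟩
  have hR1fg : R1.FG := by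
    rw [hR1]
    exact hR.sup (hRT.sup hRS)
  have hle : R ≤ R1 := by
    rw [hR1]
    exact le_sup_left
  have hleT : RT ≤ R1 := by
    rw [hR1]
    exact le_sup_left.trans le_sup_right
  have hleS : RS ≤ R1 := by
    rw [hR1]
    exact le_sup_right.trans le_sup_right
  choose P hP using fun i => I2_lift R1 (T i) fun n => hleT (hT1 i n)
  choose Q hQ using fun j => I2_lift R1 (S j) fun n => hleS (hS1 j n)
  have hinj : Function.Injective (R1.val : R1 →+* K) := Subtype.val_injective
  have hPm : ∀ i, (P i).Monic := fun i =>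
    Polynomial.monic_of_injective hinj (by rw [hP i]; exact hTm i)
  have hQm : ∀ j, (Q j).Monic := fun j =>
    Polynomial.monic_of_injective hinj (by rw [hQ j]; exact hSm j)
  have hft : Algebra.FiniteType k R1 := (Subalgebra.fg_iff_finiteType R1).1 hR1fg
  obtain ⟨F, hF⟩ : ∃ F : R1 →ₐ[k] RF K r, ∀ a : R1, F a = σ (a : K) := by
    refine ⟨{ (σ.comp (R1.val : R1 →+* K) : R1 →+* RF K r) with commutes' := ?_ }, ?_⟩
    · intro c
      exact hσ c
    · intro a
      rfl
  have hroot : ∀ i, ∀ z : RF (AlgebraicClosure K) r,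
      (P i).eval₂ ((rfmap (algebraMap K (AlgebraicClosure K)) r).comp (F : R1 →+* RF K r)) z ≠ 0 := by
    intro i z h0
    apply hT i z
    rw [← hP i, Polynomial.eval₂_map, ← h0]
    congr 1
    ext a
    change rfmap (algebraMap K (AlgebraicClosure K)) r (σ (a : K)) =
      rfmap (algebraMap K (AlgebraicClosure K)) r (F a)
    rw [hF]
  obtain ⟨R2, ρ, hR2, hρ2, hρ0, hspread⟩ := W_D1b k K R1 r F
    (fun a => ⟨(a : K), by rw [hF]; exact hanc a⟩) P hPm hroot
  obtain ⟨R4, Q', φ0, h34, hQ', hno⟩ := hav (R1 ⊔ (R2 ⊔ Algebra.adjoin k ({ρ⁻¹} : Set K)))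
    (hR1fg.sup (hR2.sup ⟨{ρ⁻¹}, by simp⟩))
  have h14 : R1 ≤ R4 := le_sup_left.trans h34
  have h24 : R2 ≤ R4 := (le_sup_left.trans le_sup_right).trans h34
  have hinv : ρ⁻¹ ∈ R4 := h34 ((le_sup_right.trans le_sup_right : Algebra.adjoin k ({ρ⁻¹} : Set K) ≤
    R1 ⊔ (R2 ⊔ Algebra.adjoin k ({ρ⁻¹} : Set K))) (Algebra.subset_adjoin rfl))
  have hφρ : φ0 ⟨ρ, h24 hρ2⟩ ≠ 0 := by
    intro h0
    have h1 : (⟨ρ, h24 hρ2⟩ : R4) * ⟨ρ⁻¹, hinv⟩ = 1 := by
      apply Subtype.ext
      exact mul_inv_cancel₀ hρ0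
    have h2 := congrArg φ0 h1
    rw [map_mul, h0, zero_mul, map_one] at h2
    exact zero_ne_one h2
  obtain ⟨G, hG1, hG2⟩ := hspread R4 h24 (h24 hρ2) φ0 hφρ
  have hval : ∀ a : R1, HasVal (G a) ((φ0.comp (Subalgebra.inclusion h14)) a) := by
    intro a
    have h1 := hG2 a (Subalgebra.inclusion h14 a) (by rw [hF]; exact hanc a)
    exact h1
  have hQr : ∀ j, ∀ z, ¬ ((Q j).map (G : R1 →+* RF k r)).IsRoot z := by
    intro j z hz
    rw [Polynomial.IsRoot.def, Polynomial.eval_map] at hz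
    obtain ⟨v, hv⟩ := I2_root (G : R1 →+* RF k r)
      ((φ0.comp (Subalgebra.inclusion h14) : R1 →ₐ[k] k) : R1 →+* k) hval (Q j) (hQm j) z hz
    apply hno j v
    have h1 : Q' j = (Q j).map (Subalgebra.inclusion h14 : R1 →+* R4) := by
      have hinj4 : Function.Injective (R4.val : R4 →+* K) := Subtype.val_injective
      apply Polynomial.map_injective _ hinj4
      rw [hQ', ← hQ j, Polynomial.map_map]
      rfl
    rw [Polynomial.IsRoot.def, h1, Polynomial.map_map, Polynomial.eval_map]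
    exact hv
  obtain ⟨φ, hφ, _⟩ := W_D2 k r R1 G (Sum.elim P Q) (fun i => by
    rcases i with i | j
    · exact hPm i
    · exact hQm j) (fun i => by
    rcases i with i | j
    · exact hG1 i
    · exact hQr j)
  refine ⟨R1, Sum.elim P Q, φ, hle, ?_, hφ⟩
  intro i
  rcases i with i | j
  · exact hP i
  · exact hQ j

end Pool.Agent.LibHP
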