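import Pool.Agent.LibW64.Defs
import Pool.Agent.LibHPF.P2

/-! # Row I5: from `Avoid` to points of `A`

Plan. `exists_factors A K (P i)` (LibHPF/P2.lean) for every `i`: `P i = ∏ j, Q i j`, `Q i j : A[X]` monic,
irreducible over `K`, of degree `≥ 2` (see the first lines of the proof of `exists_point_of_moves`,
LibHPF/P6.lean). Apply `hav` to the finite type `Σ i, Fin (m i)` and the polynomials
`(Q i j).map (algebraMap A K)`, with `R := (IsScalarTower.toAlgHom k A K).range` (finitely generated: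
`Subalgebra.FG` of the range, `Algebra.FiniteType`): `R'`, `P'`, `φ'`.
`φ := φ'.comp (Subalgebra.inclusion hle) .comp (A →ₐ R)` (`AlgHom.rangeRestrict`). `(Q i j).map` of
`A → R'` equals `P' ⟨i, j⟩` (same image in `K[X]`, injectivity), so `(Q i j).map φ` has no root; a root of
`(P i).map φ` would be a root of some `(Q i j).map φ`. -/

set_option autoImplicit false
open Polynomial

namespace Pool.Agent.LibHP

theorem W_I5 (k K : Type) [Field k] [Field K] [Algebra k K]
    (hav : ∀ (ι : Type) [Finite ι] (T : ι → K[X]),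
      (∀ i, (T i).Monic ∧ Irreducible (T i) ∧ 2 ≤ (T i).natDegree) → Avoid k T)
    (A : Type) [CommRing A] [IsDomain A] [IsIntegrallyClosed A] [Algebra k A]
    [Algebra.FiniteType k A] [Algebra A K] [IsFractionRing A K] [IsScalarTower k A K]
    (ι : Type) [Finite ι] (P : ι → A[X]) (hP : ∀ i, (P i).Monic)
    (hroot : ∀ i, ∀ z : K, (P i).eval₂ (algebraMap A K) z ≠ 0) :
    ∃ φ : A →ₐ[k] k, ∀ i, ∀ x : k, ¬ ((P i).map (φ : A →+* k)).IsRoot x := by
  classical
  have hAK : Function.Injective (algebraMap A K) := IsFractionRing.injective A K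
  have hfac : ∀ i, ∃ (m : ℕ) (Q : Fin m → A[X]), (∀ j, (Q j).Monic) ∧
      (∀ j, Irreducible ((Q j).map (algebraMap A K))) ∧ (∀ j, 2 ≤ (Q j).natDegree) ∧
      P i = ∏ j, Q j := fun i => exists_factors A K (P i) (hP i) (hroot i)
  choose m Q hQm hQirr hQdeg hQprod using hfac
  set j0 : A →ₐ[k] K := IsScalarTower.toAlgHom k A K with hj0
  have hj0a : ∀ a, j0 a = algebraMap A K a := fun a => rfl
  have hRfg : (j0.range).FG := by
    have h1 : (⊤ : Subalgebra k A).FG := Algebra.FiniteType.out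
    have h2 := h1.map j0
    rwa [Algebra.map_top] at h2
  obtain ⟨R', P', φ', hle, hP', hφ'⟩ := hav (Σ i, Fin (m i))
    (fun x => (Q x.1 x.2).map (algebraMap A K))
    (fun x => ⟨(hQm x.1 x.2).map _, hQirr x.1 x.2, by
      rw [natDegree_map_eq_of_injective hAK]
      exact hQdeg x.1 x.2⟩) j0.range hRfg
  let ι1 : A →ₐ[k] R' := (Subalgebra.inclusion hle).comp j0.rangeRestrict
  have hι1 : ∀ a, (R'.val : R' →+* K) ((ι1 : A →+* R') a) = algebraMap A K a := fun a => rfl
  have hPP : ∀ x : (Σ i, Fin (m i)), (Q x.1 x.2).map (ι1 : A →+* R') = P' x := by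
    intro x
    have hinj : Function.Injective (R'.val : R' →+* K) := Subtype.val_injective
    apply Polynomial.map_injective _ hinj
    rw [Polynomial.map_map, hP' x]
    congr 1
  refine ⟨φ'.comp ι1, fun i x hx => ?_⟩
  rw [hQprod i, Polynomial.map_prod, IsRoot, eval_prod, Finset.prod_eq_zero_iff] at hx
  obtain ⟨j, _, hj⟩ := hx
  apply hφ' ⟨i, j⟩ x
  rw [← hPP ⟨i, j⟩, Polynomial.map_map]
  exact hj

end Pool.Agent.LibHP
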