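import Pool.Agent.LibW64.I3

/-! # Row I6: the abstract induction

`Z` = the polynomials killed by one step, `C` = the polynomials which are preserved by this step.

Plan. As row I4 (its header): prove by induction on `n`: for all finite `ι` with `Nat.card ι ≤ n` and
all `T` as in the conclusion, `Avoid k T`. `n = 0`: `ι` is empty, `W_empty`. Step: if `ι` is empty as
before; otherwise choose `i0 : ι` and apply `H (T i0)`. First alternative: as in row I4 (`W_const`,
`W_comp`, `W_reindex`). Second alternative: `ι1 := {i // Z (T i)}` contains `i0`,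
`κ := {i // ¬ Z (T i)}` has smaller cardinality; for `j : κ` choose `h j, q j, g j`; the induction
hypothesis gives `Avoid k h`, the step gives `Avoid k (Sum.elim T|ι1 h)`, then `W_comp` (on `ι1` with
`q := X`, `g := 1`) and `W_reindex`. -/

set_option autoImplicit false
open Polynomial

namespace Pool.Agent.LibHP

private theorem I6_card {ι : Type} [Finite ι] (p : ι → Prop) (i0 : ι) (h0 : ¬ p i0) {n : ℕ}
    (hc : Nat.card ι ≤ n + 1) : Nat.card {i // p i} ≤ n := by
  have h : Nat.card {i // p i} < Nat.card ι := by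
    classical
    have := Fintype.ofFinite ι
    rw [Nat.card_eq_fintype_card, Nat.card_eq_fintype_card]
    exact Fintype.card_subtype_lt h0
  omega

theorem W_I6 (k K : Type) [Field k] [Field K] [Algebra k K] (hK : DensePts k K)
    (H : ∀ T : K[X], T.Monic → Irreducible T → 2 ≤ T.natDegree →
      (∃ (h : k[X]) (q g : K[X]), (∀ x, ¬ h.IsRoot x) ∧
        (h.map (algebraMap k K)).comp q = T * g) ∨
      ∃ Z C : K[X] → Prop, Z T ∧
        (∀ (ι κ : Type) [Finite ι] [Finite κ] (T' : ι → K[X]) (S : κ → K[X]),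
          (∀ i, (T' i).Monic ∧ Z (T' i)) → (∀ j, (S j).Monic ∧ C (S j)) → Avoid k S →
            Avoid k (Sum.elim T' S)) ∧
        ∀ T' : K[X], T'.Monic → Irreducible T' → 2 ≤ T'.natDegree → ¬ Z T' →
          ∃ h q g : K[X], h.Monic ∧ Irreducible h ∧ 2 ≤ h.natDegree ∧ C h ∧ h.comp q = T' * g) :
    ∀ (ι : Type) [Finite ι] (T : ι → K[X]),
      (∀ i, (T i).Monic ∧ Irreducible (T i) ∧ 2 ≤ (T i).natDegree) → Avoid k T := by
  suffices hmain : ∀ n : ℕ, ∀ (ι : Type) [Finite ι] (T : ι → K[X]), Nat.card ι ≤ n →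
      (∀ i, (T i).Monic ∧ Irreducible (T i) ∧ 2 ≤ (T i).natDegree) → Avoid k T by
    intro ι _ T hT
    exact hmain (Nat.card ι) ι T le_rfl hT
  intro n
  induction n with
  | zero =>
    intro ι _ T hc hT
    have hE : IsEmpty ι := by
      rcases isEmpty_or_nonempty ι with hE | hN
      · exact hE
      · have := Nat.card_pos (α := ι)
        omega
    exact W_empty hK T
  | succ n ih =>
    intro ι _ T hc hT
    classical
    rcases isEmpty_or_nonempty ι with hE | ⟨⟨i0⟩⟩
    · exact W_empty hK T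
    rcases H (T i0) (hT i0).1 (hT i0).2.1 (hT i0).2.2 with
      ⟨h, q, g, hh, hqg⟩ | ⟨Z, C, hZ0, hstep, hC⟩
    · have hcard : Nat.card {i // i ≠ i0} ≤ n := I6_card (fun i => i ≠ i0) i0 (by simp) hc
      have h1 : Avoid k (fun i : {i // i ≠ i0} => T i) :=
        ih {i // i ≠ i0} (fun i => T i) hcard (fun i => hT i)
      have h2 := W_const (fun _ : Unit => h) (fun _ => hh) _ h1
      have h3 : Avoid k (Sum.elim (fun _ : Unit => T i0) (fun i : {i // i ≠ i0} => T i)) := by
        refine W_comp _ _ ?_ h2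
        rintro (u | i)
        · exact ⟨q, g, hqg⟩
        · exact ⟨X, 1, by simp⟩
      have h4 := W_reindex
        (fun i : ι => if hi : i = i0 then (Sum.inl () : Unit ⊕ {i // i ≠ i0})
          else Sum.inr ⟨i, hi⟩) _ h3
      have h5 : (fun j => (Sum.elim (fun _ : Unit => T i0) (fun i : {i // i ≠ i0} => T i))
          (if hi : j = i0 then (Sum.inl () : Unit ⊕ {i // i ≠ i0}) else Sum.inr ⟨j, hi⟩)) = T := by
        funext j
        by_cases hj : j = i0
        · simp [hj]
        · simp [hj]
      rwa [h5] at h4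
    · have hcard : Nat.card {i // ¬ Z (T i)} ≤ n :=
        I6_card (fun i => ¬ Z (T i)) i0 (by simpa using hZ0) hc
      have hch : ∀ j : {i // ¬ Z (T i)}, ∃ h q g : K[X],
          h.Monic ∧ Irreducible h ∧ 2 ≤ h.natDegree ∧ C h ∧ h.comp q = T j * g := fun j =>
        hC (T j) (hT j).1 (hT j).2.1 (hT j).2.2 j.2
      choose h q g hm hirr hdeg hCh hqg using hch
      have h1 : Avoid k h := ih {i // ¬ Z (T i)} h hcard (fun j => ⟨hm j, hirr j, hdeg j⟩)
      have h2 := hstep {i // Z (T i)} {i // ¬ Z (T i)} (fun i => T i) h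
        (fun i => ⟨(hT i).1, i.2⟩) (fun j => ⟨hm j, hCh j⟩) h1
      have hsum : Avoid k (Sum.elim (fun i : {i // Z (T i)} => T i)
          (fun i : {i // ¬ Z (T i)} => T i)) := by
        refine W_comp _ _ ?_ h2
        rintro (i | j)
        · exact ⟨X, 1, by simp⟩
        · exact ⟨q j, g j, hqg j⟩
      have h4 := W_reindex
        (fun i : ι => if hi : Z (T i) then (Sum.inl ⟨i, hi⟩ : {i // Z (T i)} ⊕ {i // ¬ Z (T i)})
          else Sum.inr ⟨i, hi⟩) _ hsum
      have h5 : (fun j => (Sum.elim (fun i : {i // Z (T i)} => T i)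
          (fun i : {i // ¬ Z (T i)} => T i))
          (if hi : Z (T j) then (Sum.inl ⟨j, hi⟩ : {i // Z (T i)} ⊕ {i // ¬ Z (T i)})
            else Sum.inr ⟨j, hi⟩)) = T := by
        funext j
        by_cases hj : Z (T j)
        · rw [dif_pos hj]; rfl
        · rw [dif_neg hj]; rfl
      rwa [h5] at h4

end Pool.Agent.LibHP
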