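import Pool.Agent.LibW64.I1
import Pool.Agent.LibW64.I2
import Pool.Agent.LibW64.I5
import Pool.Agent.LibW64.I6
import Pool.Agent.LibW64.F6
import Pool.Agent.LibW64.G1
import Pool.Agent.LibW64.G2
import Pool.Agent.LibW64.G3
import Pool.Agent.LibW64.G4
import Pool.Agent.LibW64.G6
import Pool.Agent.LibHPF.G12
import Pool.Agent.LibHPF.P1
import Pool.Agent.LibHPF.P3

/-! # Row F7: the Hilbert property for webs of fibrations (all types)

Plan. As row G5 (read its header), with `W_I6` instead of `W_I4`. For `T` with a bad point `x`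
(`W_G1`), the hypothesis `H x` has three alternatives.
(a) `FibreDominated L`: `Z T' := ∀ z, T'.eval₂ (sbar σ) z ≠ 0`, `C h := ∀ i, h.coeff i ∈ L`, step = `W_I1`
(`σ (h.coeff i) = algebraMap _ _ (h.coeff i)` for `h.coeff i ∈ L`), `Z T` and the last condition from `W_G2`
and `W_G3`.
(c) `FibresHP k L`: `Z := NoConstRoot L`, `C h := ∀ i, h.coeff i ∈ L`, step = `W_F6`. If `T'` has a root `z`
in the closure, then `W_B1`, `W_B2` give `h, q, g` (`ClosedSub L` is part of `FibresHP`), and for `T' = T`
`W_B3` and `W_G3` give `PresAt`, so `NoConstRoot L T` holds.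
(b) rational curves: `Z T' := ∀ z, T'.eval₂ (sbar (σ l)) z ≠ 0`, `C h := True` (take `h := T'`,
`q := X`, `g := 1`), step = `W_I2`. The choice of `l` as in row G5. -/

set_option autoImplicit false
open AlgebraicGeometry CategoryTheory

namespace Pool.Agent.LibHP

theorem main_web_all (k : Type) [Field k] [NumberField k] {X : Scheme}
    (f : X ⟶ Spec (CommRingCat.of k)) [IsIntegral X] [Smooth f] [IsSeparated f] [QuasiCompact f]
    (hsc : GeomSimplyConnected f)
    (hdense : Dense {x : X | ∃ s : Spec (CommRingCat.of k) ⟶ X, s ≫ f = 𝟙 _ ∧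
      x ∈ Set.range s.base})
    (H : ∀ x : X, ringKrullDim (X.presheaf.stalk x) = 1 →
      (∃ L : Subfield X.functionField, (∀ c : k, toStalk f (genericPoint X) c ∈ L) ∧
        (∀ c ∈ L, ∃ a : X.presheaf.stalk x,
          algebraMap (X.presheaf.stalk x) X.functionField a = c) ∧
        (FibreDominated L ∨
          letI : Algebra k X.functionField := (toStalk f (genericPoint X)).toAlgebra
          FibresHP k L)) ∨
      ∀ l : ℕ, l.Prime → ∃ m : ℕ, ¬ l ∣ m ∧ CurveMeets f x m) :
    HilbertProp f := by
  classical
  let algK : Algebra k X.functionField := (toStalk f (genericPoint X)).toAlgebra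
  have halg : ∀ c : k, algebraMap k X.functionField c = toStalk f (genericPoint X) c := fun _ => rfl
  have cz : CharZero X.functionField :=
    charZero_of_injective_ringHom (toStalk f (genericPoint X)).injective
  have hK : DensePts k X.functionField := densePts_functionField f halg hdense
  have key : ∀ (ι : Type) [Finite ι] (T : ι → Polynomial X.functionField),
      (∀ i, (T i).Monic ∧ Irreducible (T i) ∧ 2 ≤ (T i).natDegree) → Avoid k T := by
    refine W_I6 k X.functionField hK ?_
    intro T hTm hTi hT2
    have hfact : Fact (Irreducible T) := ⟨hTi⟩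
    rcases W_G1 f hsc T hTm hT2 with ⟨h, q, g, h1, h2⟩ | ⟨x, hx, hnp⟩
    · exact Or.inl ⟨h, q, g, h1, h2⟩
    · right
      have hfd : FiniteDimensional X.functionField (AdjoinRoot T) :=
        (AdjoinRoot.powerBasis hTi.ne_zero).finite
      rcases H x hx with ⟨L, hkL, hLO, hF | hF⟩ | hcur
      · obtain ⟨r, σ, hσL, hLc, hG2⟩ := W_G2 L hF
        have hσk : ∀ c : k, σ (algebraMap k X.functionField c) =
            algebraMap k (RF X.functionField r) c := by
          intro c
          rw [halg, hσL _ (hkL c),
            IsScalarTower.algebraMap_apply k X.functionField (RF X.functionField r)]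
          rfl
        refine ⟨fun T' => ∀ z : RF (AlgebraicClosure X.functionField) r, T'.eval₂ (sbar σ) z ≠ 0,
          fun h => ∀ i, h.coeff i ∈ L, ?_, ?_, ?_⟩
        · intro z hz
          obtain ⟨-, α, hα, hgen⟩ := hG2 T hTm ⟨hTi⟩ hT2 ⟨z, hz⟩
          exact hnp (W_G3 f x hx L hLc hLO (AdjoinRoot T) α hα hgen)
        · intro ι κ _ _ T' S hT' hS hav
          exact W_I1 k X.functionField r σ hσk ι κ T' S (fun i => (hT' i).1) (fun i => (hT' i).2)
            (fun j n => hσL _ ((hS j).2 n)) hav
        · intro T' hm' hi' h2' hz'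
          have hz'' : ∃ z : RF (AlgebraicClosure X.functionField) r,
              T'.eval₂ (sbar σ) z = 0 := by
            push Not at hz'
            exact hz'
          obtain ⟨⟨h, q, g, h1, h2, h3, h4, h5⟩, -⟩ := hG2 T' hm' ⟨hi'⟩ h2' hz''
          exact ⟨h, q, g, h1, h2, h3, h4, h5⟩
      · have hLc : ClosedSub L := hF.1
        refine ⟨NoConstRoot L, fun h => ∀ i, h.coeff i ∈ L, ?_, ?_, ?_⟩
        · intro z hz hmem
          obtain ⟨α, hα, hadj⟩ := W_B1 L hLc z hmem
          obtain ⟨α', hα', hgen⟩ := W_B3 L T z α hz hα hadj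
          exact hnp (W_G3 f x hx L hLc hLO (AdjoinRoot T) α' hα' hgen)
        · intro ι κ _ _ T' S hT' hS hav
          exact W_F6 k X.functionField L hF ι κ T' S (fun i => (hT' i).1) (fun i => (hT' i).2)
            (fun j n => (hS j).2 n) hav
        · intro T' hm' hi' h2' hz'
          unfold NoConstRoot at hz'
          push Not at hz'
          obtain ⟨z, hz, hmem⟩ := hz'
          obtain ⟨α, hα, hadj⟩ := W_B1 L hLc z hmem
          exact W_B2 L hLc T' hm' hi' h2' z α hz hα hadj
      · by_contra hno
        apply hnp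
        apply presAt_of_div' f (AdjoinRoot T) x hx
        intro l hl
        obtain ⟨m, hlm, τ, g, hτk, hτ, hgi, hloc⟩ := hcur l hl
        obtain ⟨σ, hσk, hσv, hσd⟩ := W_G4 k X.functionField τ hτk hτ
        refine ⟨m, hlm, X.functionField, inferInstance, 1, σ, ?_, hσd _ g m hgi hloc⟩
        have hz : ∃ z : RF (AlgebraicClosure X.functionField) 1, T.eval₂ (sbar σ) z = 0 := by
          by_contra hz
          push Not at hz
          refine hno ⟨fun T' => ∀ z : RF (AlgebraicClosure X.functionField) 1,
            T'.eval₂ (sbar σ) z ≠ 0, fun _ => True, hz, ?_, ?_⟩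
          · intro ι κ _ _ T' S hT' hS hav
            exact W_I2 k X.functionField 1 σ hσk hσv ι κ T' S (fun i => (hT' i).1)
              (fun i => (hT' i).2) (fun j => (hS j).1) hav
          · intro T' hm' hi' h2' _
            exact ⟨T', Polynomial.X, 1, hm', hi', h2', trivial, by simp⟩
        obtain ⟨z, hz⟩ := hz
        exact allEmb_of_root σ (W_G6 σ hσv) T hTm z hz
  refine hilbertProp_of_points k f fun A _ _ _ _ _ _ _ htow ι _ P hP hroot => ?_
  have htw : IsScalarTower k A X.functionField :=
    IsScalarTower.of_algebraMap_eq (fun c => (htow c).symm)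
  exact W_I5 k X.functionField key A ι P hP hroot

end Pool.Agent.LibHP
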