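import Pool.Agent.LibW64.Defs

/-! # Fibrations whose fibres have the Hilbert property: definitions -/

set_option autoImplicit false
open Polynomial

namespace Pool.Agent.LibHP

/-- The Hilbert property of the integral affine variety with coordinate ring `B`: for every nonzero
function `b` and finitely many monic polynomials over `B` without root in the fraction field of `B`
(covers of degree greater than one) there is a point `ψ` with `ψ b ≠ 0` at which none of the
polynomials has a root in `k`. -/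
def HPRing (k B : Type) [Field k] [CommRing B] [IsDomain B] [Algebra k B] : Prop :=
  ∀ b : B, b ≠ 0 → ∀ (ι : Type) [Finite ι] (P : ι → B[X]), (∀ i, (P i).Monic) →
    (∀ i, ∀ z : FractionRing B, (P i).eval₂ (algebraMap B (FractionRing B)) z ≠ 0) →
    ∃ ψ : B →ₐ[k] k, ψ b ≠ 0 ∧ ∀ i, ∀ x : k, ¬ ((P i).map (ψ : B →+* k)).IsRoot x

/-- For subalgebras `A0`, `A` of `K` (coordinate rings of `T` and `U`, with `U → T`) and a point `φ` of
`U`: the ideal of the fibre of `U → T` through `φ`, generated by the functions on `T` vanishing at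
`φ`. -/
def fibreIdeal {k K : Type} [Field k] [Field K] [Algebra k K] (A A0 : Subalgebra k K)
    (φ : A →ₐ[k] k) : Ideal A :=
  Ideal.span {a : A | (a : K) ∈ A0 ∧ φ a = 0}

/-- The rational map `X ⇢ T` given by the subfield `L` of `K = K(X)` has a geometrically irreducible
generic fibre of positive dimension, and there is a model `U → T` of it, `U` and `T` affine of finite
type over `k`, such that the fibre through every point of `U (k)` is integral and has the Hilbert
property. -/
def FibresHP (k : Type) {K : Type} [Field k] [Field K] [Algebra k K] (L : Subfield K) : Prop :=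
  ClosedSub L ∧ (∃ c : K, c ∉ L) ∧ ∃ A A0 : Subalgebra k K, A.FG ∧ A0.FG ∧ A0 ≤ A ∧
    (∀ c : K, c ∈ L ↔ ∃ u w : K, u ∈ A0 ∧ w ∈ A0 ∧ w ≠ 0 ∧ c * w = u) ∧
    (∀ c : K, ∃ u w : K, u ∈ A ∧ w ∈ A ∧ w ≠ 0 ∧ c * w = u) ∧
    ∀ φ : A →ₐ[k] k, ∃ _ : IsDomain (A ⧸ fibreIdeal A A0 φ), HPRing k (A ⧸ fibreIdeal A A0 φ)

/-- `T` has no root in the field generated by `K` and the algebraic closure of `L`. -/
def NoConstRoot {K : Type} [Field K] (L : Subfield K) (T : K[X]) : Prop :=
  ∀ z : AlgebraicClosure K, T.eval₂ (algebraMap K (AlgebraicClosure K)) z = 0 →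
    z ∉ Subfield.closure (Set.range (algebraMap K (AlgebraicClosure K)) ∪
      {β | AlgOver L (algebraMap K (AlgebraicClosure K)) β})

/-- Evaluation of polynomials over a subring at elements of `K`. -/
noncomputable def evX {R K : Type} [CommRing R] [Field K] (i : R →+* K) {m : ℕ} (x : Fin m → K) :
    MvPolynomial (Fin m) R →+* K :=
  MvPolynomial.eval₂Hom i x

/-- A presentation of `K` over `L`: `x_1, ..., x_m` is a transcendence basis, `ξ` a primitive
element with minimal polynomial `M`; all in `A`, coefficients in `A0`; `g` a denominator. -/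
structure Pres {k K : Type} [Field k] [Field K] [Algebra k K] (L : Subfield K)
    (A A0 : Subalgebra k K) where
  m : ℕ
  x : Fin m → A
  ξ : A
  M : (MvPolynomial (Fin m) A0)[X]
  g : MvPolynomial (Fin m) A0
  ρ : A0
  hm : 0 < m
  hM : M.Monic
  hMξ : M.eval₂ (evX (A0.val : A0 →+* K) fun i => (x i : K)) (ξ : K) = 0
  hmin : ∀ P : (MvPolynomial (Fin m) L)[X], P.natDegree < M.natDegree →
    P.eval₂ (evX L.subtype fun i => (x i : K)) (ξ : K) = 0 → P = 0
  hg : g ≠ 0
  hρ : ρ ≠ 0
  hgen : ∀ a : A, ∃ (N : ℕ) (Q : (MvPolynomial (Fin m) A0)[X]),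
    evX (A0.val : A0 →+* K) (fun i => (x i : K)) g ^ N * (a : K) =
      Q.eval₂ (evX (A0.val : A0 →+* K) fun i => (x i : K)) (ξ : K)
  hint : ∀ a : A, ∃ (N : ℕ) (τ : (MvPolynomial (Fin m) A0)[X]), τ.Monic ∧
    τ.eval₂ (evX (A0.val : A0 →+* K) fun i => (x i : K)) ((ρ : K) ^ N * (a : K)) = 0

/-- Reduction of the constants at the point `φ`. -/
def red0 {k K : Type} [Field k] [Field K] [Algebra k K] {A A0 : Subalgebra k K} (hle : A0 ≤ A)
    (φ : A →ₐ[k] k) : A0 →+* k :=
  ((φ.comp (Subalgebra.inclusion hle) : A0 →ₐ[k] k) : A0 →+* k)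

/-- The map from the polynomial ring over `k` to the fraction field of the coordinate ring of the
fibre. -/
noncomputable def redX {k K : Type} [Field k] [Field K] [Algebra k K] (A A0 : Subalgebra k K)
    (φ : A →ₐ[k] k) [IsDomain (A ⧸ fibreIdeal A A0 φ)] {m : ℕ} (x : Fin m → A) :
    MvPolynomial (Fin m) k →+* FractionRing (A ⧸ fibreIdeal A A0 φ) :=
  MvPolynomial.eval₂Hom
    ((algebraMap (A ⧸ fibreIdeal A A0 φ) (FractionRing (A ⧸ fibreIdeal A A0 φ))).comp
      (algebraMap k (A ⧸ fibreIdeal A A0 φ)))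
    (fun i => algebraMap (A ⧸ fibreIdeal A A0 φ) (FractionRing (A ⧸ fibreIdeal A A0 φ))
      (Ideal.Quotient.mk (fibreIdeal A A0 φ) (x i)))

end Pool.Agent.LibHP
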