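import Pool.Agent.LibW64.I4
import Pool.Agent.LibW64.I5
import Pool.Agent.LibW64.G1
import Pool.Agent.LibW64.G2
import Pool.Agent.LibW64.G3
import Pool.Agent.LibW64.G4
import Pool.Agent.LibW64.G6
import Pool.Agent.LibHPF.G12
import Pool.Agent.LibHPF.P1
import Pool.Agent.LibHPF.P3

/-! # Row G5: the Hilbert property for webs of fibrations and rational curves

Plan. `letI : Algebra k K := (toStalk f (genericPoint X)).toAlgebra`, `K := X.functionField`, characteristic
zero. `hilbertProp_of_points k f` (LibHPF/P1.lean), then `W_I5` with `hav` from `W_I4`, whose `hK` is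
`densePts_functionField f (fun _ => rfl) hdense` (LibHPF/G12.lean). It remains to prove the hypothesis
`H` of `W_I4` for a monic irreducible `T` of degree `≥ 2`. `W_G1` (with `Fact (Irreducible T)`): either the
first alternative, or a codimension one point `x` with `¬ PresAt (algebraMap K (AdjoinRoot T)) x`. Use
the hypothesis `H x`:
(a) `L` with `FibreDominated L`: `r, σ` from `W_G2`; `T` has no root via `sbar σ`, since otherwise `W_G2`
gives `α : AdjoinRoot T` and `W_G3` gives `PresAt`. The second kind of `σ`: from `W_G2`
(`σ (h.coeff i) = algebraMap _ _ (h.coeff i)` because `h.coeff i ∈ L`). `k`-linearity: `L` contains `k`.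
(b) rational curves: for every prime `l` let `m`, `τ`, `g` be given by `CurveMeets f x m`
(LibHP/SDefs.lean), and `σ l : K → RF K 1` by `W_G4`, with `MeetsDiv (stalk) (σ l) m`. If for every `l` the
polynomial `T` has a root via `sbar (σ l)`, then `allEmb_of_root` (LibHPF/P3*.lean; `ClosedIn (σ l)` from
the anchor: `W_G6`, cite it; its proof:
`e` algebraic over `σ (K)` is integral over the
integrally closed ring `valRing` of the functions regular at `0`, has a value `v : K`, which is a root of
the minimal polynomial, so this has degree one) gives `AllEmb (σ l) (AdjoinRoot T)`, and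
`presAt_of_div'` (LibHPF/V7.lean) gives `PresAt`. So for some `l` there is no root: `σ l` is of the first
(anchored) kind. -/

set_option autoImplicit false
open AlgebraicGeometry CategoryTheory

namespace Pool.Agent.LibHP

theorem main_web (k : Type) [Field k] [NumberField k] {X : Scheme}
    (f : X ⟶ Spec (CommRingCat.of k)) [IsIntegral X] [Smooth f] [IsSeparated f] [QuasiCompact f]
    (hsc : GeomSimplyConnected f)
    (hdense : Dense {x : X | ∃ s : Spec (CommRingCat.of k) ⟶ X, s ≫ f = 𝟙 _ ∧
      x ∈ Set.range s.base})
    (H : ∀ x : X, ringKrullDim (X.presheaf.stalk x) = 1 →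
      (∃ L : Subfield X.functionField, (∀ c : k, toStalk f (genericPoint X) c ∈ L) ∧
        (∀ c ∈ L, ∃ a : X.presheaf.stalk x,
          algebraMap (X.presheaf.stalk x) X.functionField a = c) ∧
        FibreDominated L) ∨
      ∀ l : ℕ, l.Prime → ∃ m : ℕ, ¬ l ∣ m ∧ CurveMeets f x m) :
    HilbertProp f := by
  classical
  let algK : Algebra k X.functionField := (toStalk f (genericPoint X)).toAlgebra
  have halg : ∀ c : k, algebraMap k X.functionField c = toStalk f (genericPoint X) c := fun _ => rfl
  have cz : CharZero X.functionField :=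
    charZero_of_injective_ringHom (toStalk f (genericPoint X)).injective
  have hK : DensePts k X.functionField := densePts_functionField f halg hdense
  have key : ∀ (ι : Type) [Finite ι] (T : ι → Polynomial X.functionField),
      (∀ i, (T i).Monic ∧ Irreducible (T i) ∧ 2 ≤ (T i).natDegree) → Avoid k T := by
    refine W_I4 k X.functionField hK ?_
    intro T hTm hTi hT2
    have hfact : Fact (Irreducible T) := ⟨hTi⟩
    rcases W_G1 f hsc T hTm hT2 with ⟨h, q, g, h1, h2⟩ | ⟨x, hx, hnp⟩
    · exact Or.inl ⟨h, q, g, h1, h2⟩
    · right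
      have hfd : FiniteDimensional X.functionField (AdjoinRoot T) :=
        (AdjoinRoot.powerBasis hTi.ne_zero).finite
      rcases H x hx with ⟨L, hkL, hLO, hF⟩ | hcur
      · obtain ⟨r, σ, hσL, hLc, hG2⟩ := W_G2 L hF
        refine ⟨r, σ, fun c => ?_, fun z hz => ?_, Or.inr fun T' hm' hi' h2' hz' => ?_⟩
        · rw [halg, hσL _ (hkL c),
            IsScalarTower.algebraMap_apply k X.functionField (RF X.functionField r)]
          rfl
        · obtain ⟨-, α, hα, hgen⟩ := hG2 T hTm ⟨hTi⟩ hT2 ⟨z, hz⟩
          exact hnp (W_G3 f x hx L hLc hLO (AdjoinRoot T) α hα hgen)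
        · obtain ⟨⟨h, q, g, h1, h2, h3, h4, h5⟩, -⟩ := hG2 T' hm' ⟨hi'⟩ h2' hz'
          exact ⟨h, q, g, h1, h2, h3, fun i => hσL _ (h4 i), h5⟩
      · by_contra hno
        apply hnp
        apply presAt_of_div' f (AdjoinRoot T) x hx
        intro l hl
        obtain ⟨m, hlm, τ, g, hτk, hτ, hgi, hloc⟩ := hcur l hl
        obtain ⟨σ, hσk, hσv, hσd⟩ := W_G4 k X.functionField τ hτk hτ
        refine ⟨m, hlm, X.functionField, inferInstance, 1, σ, ?_, hσd _ g m hgi hloc⟩
        have hz : ∃ z : RF (AlgebraicClosure X.functionField) 1, T.eval₂ (sbar σ) z = 0 := by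
          by_contra hz
          push Not at hz
          exact hno ⟨1, σ, hσk, hz, Or.inl hσv⟩
        obtain ⟨z, hz⟩ := hz
        exact allEmb_of_root σ (W_G6 σ hσv) T hTm z hz
  refine hilbertProp_of_points k f fun A _ _ _ _ _ _ _ htow ι _ P hP hroot => ?_
  have htw : IsScalarTower k A X.functionField :=
    IsScalarTower.of_algebraMap_eq (fun c => (htow c).symm)
  exact W_I5 k X.functionField key A ι P hP hroot

end Pool.Agent.LibHP
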