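import Pool.Agent.LibW64.Defs
import Pool.Agent.LibW64.D1
import Pool.Agent.LibW64.D2

/-! # Row I1: one step along a fibration

Plan. Given `R : Subalgebra k K`, `R.FG`.
1. `R1 := R ⊔ Algebra.adjoin k (all coefficients of all T i and S j)` (finitely many): a finitely
generated subalgebra; `P i, Q j : R1[X]` with `(P i).map R1.val = T i`, `(Q j).map R1.val = S j`
(`Polynomial.lifts`/`Polynomial.toSubring`-like: `Polynomial.mem_lifts`/`Polynomial.lifts_iff_coeff_lifts`),
`P i` monic.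
2. `W_D1 k K R1 r F P` with `F : R1 →ₐ[k] RF K r` the restriction of `σ` (`hσ`), `hroot` from `hT`
(`eval₂_map`; `sbar σ = (rfmap _ r).comp σ`): `R2`, `ρ`.
3. `R3 := R1 ⊔ R2 ⊔ Algebra.adjoin k {ρ⁻¹}`, finitely generated. `hav R3`: `R4 ≥ R3`, `Q' : κ → R4[X]`,
`φ0 : R4 →ₐ[k] k`. `φ0 ρ ≠ 0` because `ρ` is a unit of `R4`.
4. `G : R1 →ₐ[k] RF k r` from step 2 with `R' := R4`, `φ := φ0`. `W_D2 k r R1 G P` gives
`φ : R1 →ₐ[k] k` with no roots for the `P i`, and `φ a = φ0 a` for every coefficient `a` of `Q j`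
(`F a = algebraMap _ _ a` by `hS`, so `G a = algebraMap _ _ (φ0 a)`). So
`(Q j).map φ = (Q' j).map φ0` (coefficients: `(Q j).coeff n` and `(Q' j).coeff n` are the same element
`(S j).coeff n` of `K`). Output `R' := R1`, `Sum.elim P Q`, `φ`. -/

set_option autoImplicit false
open Polynomial

namespace Pool.Agent.LibHP

private theorem I1_lift {k K : Type} [Field k] [Field K] [Algebra k K] (R : Subalgebra k K) (T : K[X])
    (h : ∀ n, T.coeff n ∈ R) : ∃ P : R[X], P.map (R.val : R →+* K) = T := by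
  have h1 : T ∈ Polynomial.lifts (R.val : R →+* K) :=
    (Polynomial.lifts_iff_coeff_lifts _).2 fun n => ⟨⟨T.coeff n, h n⟩, rfl⟩
  exact (Polynomial.mem_lifts _).1 h1

theorem W_I1 (k K : Type) [Field k] [NumberField k] [Field K] [Algebra k K] (r : ℕ)
    (σ : K →+* RF K r) (hσ : ∀ c : k, σ (algebraMap k K c) = algebraMap k (RF K r) c)
    (ι κ : Type) [Finite ι] [Finite κ] (T : ι → K[X]) (S : κ → K[X]) (hTm : ∀ i, (T i).Monic)
    (hT : ∀ i, ∀ z : RF (AlgebraicClosure K) r, (T i).eval₂ (sbar σ) z ≠ 0)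
    (hS : ∀ j n, σ ((S j).coeff n) = algebraMap K (RF K r) ((S j).coeff n))
    (hav : Avoid k S) : Avoid k (Sum.elim T S) := by
  classical
  intro R hR
  -- the coefficients
  set C : Set K := (⋃ i, ((T i).coeffs : Set K)) ∪ (⋃ j, ((S j).coeffs : Set K)) with hC
  have hCf : C.Finite :=
    (Set.finite_iUnion fun i => Finset.finite_toSet _).union
      (Set.finite_iUnion fun j => Finset.finite_toSet _)
  have hCfg : (Algebra.adjoin k C).FG := by
    have := Subalgebra.fg_adjoin_finset (R := k) hCf.toFinset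
    rwa [Set.Finite.coe_toFinset] at this
  set R1 : Subalgebra k K := R ⊔ Algebra.adjoin k C with hR1
  have hR1fg : R1.FG := hR.sup hCfg
  have hCR : C ⊆ R1 := fun x hx => (le_sup_right : Algebra.adjoin k C ≤ R1) (Algebra.subset_adjoin hx)
  have hTc : ∀ i n, (T i).coeff n ∈ R1 := by
    intro i n
    by_cases h0 : (T i).coeff n = 0
    · rw [h0]
      exact R1.zero_mem
    · exact hCR (Or.inl (Set.mem_iUnion.2 ⟨i, Polynomial.coeff_mem_coeffs h0⟩))
  have hSc : ∀ j n, (S j).coeff n ∈ R1 := by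
    intro j n
    by_cases h0 : (S j).coeff n = 0
    · rw [h0]
      exact R1.zero_mem
    · exact hCR (Or.inr (Set.mem_iUnion.2 ⟨j, Polynomial.coeff_mem_coeffs h0⟩))
  choose P hP using fun i => I1_lift R1 (T i) (hTc i)
  choose Q hQ using fun j => I1_lift R1 (S j) (hSc j)
  have hPm : ∀ i, (P i).Monic := fun i =>
    Polynomial.monic_of_injective (f := (R1.val : R1 →+* K)) Subtype.val_injective
      (by rw [hP i]; exact hTm i)
  let F : R1 →ₐ[k] RF K r :=
    { toRingHom := σ.comp (R1.val : R1 →+* K)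
      commutes' := fun c => hσ c }
  haveI : Algebra.FiniteType k R1 := (Subalgebra.fg_iff_finiteType R1).1 hR1fg
  obtain ⟨R2, ρ, hR2fg, hρ, hρ0, hG⟩ := W_D1 k K R1 r F P hPm (fun i z => by
    have h := hT i z
    rw [← hP i, Polynomial.eval₂_map] at h
    exact h)
  set R3 : Subalgebra k K := R1 ⊔ R2 ⊔ Algebra.adjoin k {ρ⁻¹} with hR3
  have hR3fg : R3.FG := by
    refine (hR1fg.sup hR2fg).sup ?_
    have := Subalgebra.fg_adjoin_finset (R := k) ({ρ⁻¹} : Finset K)
    rwa [Finset.coe_singleton] at this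
  obtain ⟨R4, Q', φ0, hR34, hQ', hroot⟩ := hav R3 hR3fg
  have h14 : R1 ≤ R4 := (le_sup_left.trans le_sup_left).trans hR34
  have h24 : R2 ≤ R4 := (le_sup_right.trans le_sup_left).trans hR34
  have hinv : ρ⁻¹ ∈ R4 :=
    (le_sup_right.trans hR34 : Algebra.adjoin k {ρ⁻¹} ≤ R4) (Algebra.subset_adjoin rfl)
  have hρ4 : ρ ∈ R4 := h24 hρ
  have hφρ : φ0 ⟨ρ, hρ4⟩ ≠ 0 := by
    intro h0
    have h1 : (⟨ρ, hρ4⟩ : R4) * ⟨ρ⁻¹, hinv⟩ = 1 := Subtype.ext (mul_inv_cancel₀ hρ0)
    have h2 := congrArg φ0 h1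
    rw [map_mul, h0, zero_mul, map_one] at h2
    exact zero_ne_one h2
  obtain ⟨G, hGroot, hGc⟩ := hG R4 h24 hρ4 φ0 hφρ
  obtain ⟨φ, hφroot, hφc⟩ := W_D2 k r R1 G P hPm hGroot
  refine ⟨R1, Sum.elim P Q, φ, le_sup_left, ?_, ?_⟩
  · rintro (i | j)
    · exact hP i
    · exact hQ j
  · rintro (i | j) x
    · exact hφroot i x
    · have hmap : (Q j).map (φ : R1 →+* k) = (Q' j).map (φ0 : R4 →+* k) := by
        ext n
        rw [Polynomial.coeff_map, Polynomial.coeff_map]
        have e1 : (((Q j).coeff n : R1) : K) = (S j).coeff n := by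
          rw [← hQ j, Polynomial.coeff_map]
          rfl
        have e2 : (((Q' j).coeff n : R4) : K) = (S j).coeff n := by
          rw [← hQ' j, Polynomial.coeff_map]
          rfl
        have e3 : F ((Q j).coeff n) = algebraMap K (RF K r) (((Q' j).coeff n : R4) : K) := by
          show σ (((Q j).coeff n : R1) : K) = _
          rw [e1, e2]
          exact hS j n
        exact hφc _ _ (hGc _ _ e3)
      show ¬ ((Q j).map (φ : R1 →+* k)).IsRoot x
      rw [hmap]
      exact hroot j x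

end Pool.Agent.LibHP
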