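import Pool.Agent.LibW64.Defs

/-! # Row I3: easy operations with `Avoid`

`W_comp`: if every `(S i).comp q = T i * g` and the `S i` can be avoided, so can the `T i`.
Plan: given `R`, apply the hypothesis to
`R ⊔ Algebra.adjoin k (coefficients of all T i, q i, g i)` (finitely generated) and get `R'`,
`P i`, `φ`. Lift `T i, q i, g i` to `R'[X]` (`Polynomial.lifts`); the identity
`(P i).comp q = T' * g` holds over `R'` by injectivity of `R'.val`. If `x` is a root of `(T').map φ` then
`(q.map φ).eval x` is a root of `(P i).map φ` (`Polynomial.map_comp`, `eval_comp`).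

`W_reindex`: pull back along a map of index types.

`W_const`: polynomials over `k` without roots can be added.
Plan: `(h i).map (algebraMap k R')` with `R'`, `φ` given by the hypothesis; `φ` is a `k`-algebra map so
`((h i).map (algebraMap k R')).map φ = h i`.

`W_empty`: the empty family (`DensePts`, `a := 1`; `R' := R`). -/

set_option autoImplicit false
open Polynomial

namespace Pool.Agent.LibHP

private theorem I3_lift {k K : Type} [Field k] [Field K] [Algebra k K] (R' : Subalgebra k K)
    (f : K[X]) (hf : ∀ n, f.coeff n ∈ R') : ∃ f' : R'[X], f'.map (R'.val : R' →+* K) = f := by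
  have h : f ∈ Polynomial.lifts (R'.val : R' →+* K) := by
    rw [Polynomial.lifts_iff_coeff_lifts]
    intro n
    exact ⟨⟨f.coeff n, hf n⟩, rfl⟩
  rw [Polynomial.mem_lifts] at h
  exact h

theorem W_comp {k K : Type} [Field k] [Field K] [Algebra k K] {ι : Type} [Finite ι]
    (S T : ι → K[X]) (h : ∀ i, ∃ q g : K[X], (S i).comp q = T i * g) (hS : Avoid k S) :
    Avoid k T := by
  classical
  intro R hR
  choose q g hqg using h
  have hfin : (⋃ i, (((T i).coeffs : Set K) ∪ ((q i).coeffs : Set K) ∪ ((g i).coeffs : Set K))).Finite :=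
    Set.finite_iUnion (fun i => (((T i).coeffs.finite_toSet.union (q i).coeffs.finite_toSet).union
      (g i).coeffs.finite_toSet))
  have hFG : (R ⊔ Algebra.adjoin k (⋃ i, (((T i).coeffs : Set K) ∪ ((q i).coeffs : Set K) ∪
      ((g i).coeffs : Set K)))).FG :=
    hR.sup (Subalgebra.fg_adjoin_finset hfin.toFinset |> fun h => by
      rwa [Set.Finite.coe_toFinset] at h)
  obtain ⟨R', P, φ, hRR', hP, hno⟩ := hS _ hFG
  have hmem : ∀ (f : K[X]), (∀ a ∈ f.coeffs, a ∈ (⋃ i, (((T i).coeffs : Set K) ∪
      ((q i).coeffs : Set K) ∪ ((g i).coeffs : Set K)))) → ∀ n, f.coeff n ∈ R' := by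
    intro f hf n
    by_cases h0 : f.coeff n = 0
    · rw [h0]; exact R'.zero_mem
    · exact hRR' ((le_sup_right : Algebra.adjoin k _ ≤ _)
        (Algebra.subset_adjoin (hf _ (Polynomial.coeff_mem_coeffs h0))))
  have hT : ∀ i, ∃ f' : R'[X], f'.map (R'.val : R' →+* K) = T i := fun i =>
    I3_lift R' (T i) (hmem _ (fun a ha => Set.mem_iUnion.2 ⟨i, Or.inl (Or.inl ha)⟩))
  have hq : ∀ i, ∃ f' : R'[X], f'.map (R'.val : R' →+* K) = q i := fun i =>
    I3_lift R' (q i) (hmem _ (fun a ha => Set.mem_iUnion.2 ⟨i, Or.inl (Or.inr ha)⟩))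
  have hg : ∀ i, ∃ f' : R'[X], f'.map (R'.val : R' →+* K) = g i := fun i =>
    I3_lift R' (g i) (hmem _ (fun a ha => Set.mem_iUnion.2 ⟨i, Or.inr ha⟩))
  choose T' hT' using hT
  choose q' hq' using hq
  choose g' hg' using hg
  refine ⟨R', T', φ, le_trans le_sup_left hRR', hT', ?_⟩
  intro i x hx
  have hid : (P i).comp (q' i) = T' i * g' i := by
    apply Polynomial.map_injective (R'.val : R' →+* K) Subtype.val_injective
    rw [Polynomial.map_comp, Polynomial.map_mul, hP, hT', hq', hg', hqg]
  apply hno i (((q' i).map (φ : R' →+* k)).eval x)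
  rw [Polynomial.IsRoot.def] at hx ⊢
  rw [← Polynomial.eval_comp, ← Polynomial.map_comp, hid, Polynomial.map_mul, Polynomial.eval_mul,
    hx, zero_mul]

theorem W_reindex {k K : Type} [Field k] [Field K] [Algebra k K] {ι κ : Type} (e : κ → ι)
    (T : ι → K[X]) (hT : Avoid k T) : Avoid k (fun j => T (e j)) := by
  intro R hR
  obtain ⟨R', P, φ, hRR', hP, hno⟩ := hT R hR
  exact ⟨R', fun j => P (e j), φ, hRR', fun j => hP (e j), fun j => hno (e j)⟩

theorem W_const {k K : Type} [Field k] [Field K] [Algebra k K] {ι κ : Type}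
    (h : ι → k[X]) (hh : ∀ i x, ¬ (h i).IsRoot x) (S : κ → K[X]) (hS : Avoid k S) :
    Avoid k (Sum.elim (fun i => (h i).map (algebraMap k K)) S) := by
  intro R hR
  obtain ⟨R', P, φ, hRR', hP, hno⟩ := hS R hR
  refine ⟨R', Sum.elim (fun i => (h i).map (algebraMap k R')) P, φ, hRR', ?_, ?_⟩
  · rintro (i | j)
    · simp only [Sum.elim_inl]
      rw [Polynomial.map_map]
      rfl
    · simp only [Sum.elim_inr]
      exact hP j
  · rintro (i | j) x
    · simp only [Sum.elim_inl]
      rw [Polynomial.map_map]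
      have : (φ : R' →+* k).comp (algebraMap k R') = RingHom.id k := by
        ext a
        simp
      rw [this, Polynomial.map_id]
      exact hh i x
    · simp only [Sum.elim_inr]
      exact hno j x

theorem W_empty {k K : Type} [Field k] [Field K] [Algebra k K] {ι : Type} [IsEmpty ι]
    (hK : DensePts k K) (T : ι → K[X]) : Avoid k T := by
  intro R hR
  obtain ⟨φ, -⟩ := hK R hR 1 one_ne_zero
  exact ⟨R, fun i => isEmptyElim i, φ, le_rfl, fun i => isEmptyElim i, fun i => isEmptyElim i⟩

end Pool.Agent.LibHP
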