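import Pool.Agent.LibW64.I1
import Pool.Agent.LibW64.I2
import Pool.Agent.LibW64.I3

/-! # Row I4: the induction

Plan. Prove by induction on `n`: for all finite `ι` with `Nat.card ι ≤ n` and all `T` as in the
conclusion, `Avoid k T`. `n = 0`: `ι` is empty, `W_empty`. Step: if `ι` is empty as before; otherwise
choose `i0 : ι` and apply `H (T i0)`.
(1) First alternative `(h, q, g)`: by the induction hypothesis `Avoid k` holds for the restriction of
`T` to `κ := {i // i ≠ i0}`; `W_const` with `ι := Unit` gives `Avoid k (Sum.elim (fun _ => h.map _) T|κ)`,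
then `W_comp` (with `q := X`, `g := 1` on `κ`) and `W_reindex` with
`e : ι → Unit ⊕ κ` (`i0 ↦ inl ()`, `i ↦ inr i`).
(2) Second alternative `(r, σ)`: `ι1 := {i // ∀ z, (T i).eval₂ (sbar σ) z ≠ 0}` contains `i0`,
`κ := {i // ¬ ∀ z, ...}` has smaller cardinality. If `σ` is anchored: `W_I2` with `S := T|κ` and the
induction hypothesis for `S`, then `W_reindex`. If `σ` is of the second kind: for `j : κ` choose
`h j, q j, g j`; the induction hypothesis for the family `h`; `W_I1` gives
`Avoid k (Sum.elim T|ι1 h)`; `W_comp` gives `Avoid k (Sum.elim T|ι1 T|κ)` (on `ι1` use `q := X`,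
`g := 1`), then `W_reindex`. -/

set_option autoImplicit false
open Polynomial

namespace Pool.Agent.LibHP

private theorem I4_card {ι : Type} [Finite ι] (p : ι → Prop) (i0 : ι) (h0 : ¬ p i0) {n : ℕ}
    (hc : Nat.card ι ≤ n + 1) : Nat.card {i // p i} ≤ n := by
  have h : Nat.card {i // p i} < Nat.card ι := by
    classical
    have := Fintype.ofFinite ι
    rw [Nat.card_eq_fintype_card, Nat.card_eq_fintype_card]
    exact Fintype.card_subtype_lt h0
  omega

theorem W_I4 (k K : Type) [Field k] [NumberField k] [Field K] [Algebra k K] (hK : DensePts k K)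
    (H : ∀ T : K[X], T.Monic → Irreducible T → 2 ≤ T.natDegree →
      (∃ (h : k[X]) (q g : K[X]), (∀ x, ¬ h.IsRoot x) ∧
        (h.map (algebraMap k K)).comp q = T * g) ∨
      ∃ (r : ℕ) (σ : K →+* RF K r),
        (∀ c : k, σ (algebraMap k K c) = algebraMap k (RF K r) c) ∧
        (∀ z : RF (AlgebraicClosure K) r, T.eval₂ (sbar σ) z ≠ 0) ∧
        ((∀ a, HasVal (σ a) a) ∨
          ∀ T' : K[X], T'.Monic → Irreducible T' → 2 ≤ T'.natDegree →
            (∃ z : RF (AlgebraicClosure K) r, T'.eval₂ (sbar σ) z = 0) →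
            ∃ h q g : K[X], h.Monic ∧ Irreducible h ∧ 2 ≤ h.natDegree ∧
              (∀ i, σ (h.coeff i) = algebraMap K (RF K r) (h.coeff i)) ∧ h.comp q = T' * g)) :
    ∀ (ι : Type) [Finite ι] (T : ι → K[X]),
      (∀ i, (T i).Monic ∧ Irreducible (T i) ∧ 2 ≤ (T i).natDegree) → Avoid k T := by
  suffices hmain : ∀ n : ℕ, ∀ (ι : Type) [Finite ι] (T : ι → K[X]), Nat.card ι ≤ n →
      (∀ i, (T i).Monic ∧ Irreducible (T i) ∧ 2 ≤ (T i).natDegree) → Avoid k T by
    intro ι _ T hT
    exact hmain (Nat.card ι) ι T le_rfl hT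
  intro n
  induction n with
  | zero =>
    intro ι _ T hc hT
    have hE : IsEmpty ι := by
      rcases isEmpty_or_nonempty ι with hE | hN
      · exact hE
      · have := Nat.card_pos (α := ι)
        omega
    exact W_empty hK T
  | succ n ih =>
    intro ι _ T hc hT
    classical
    rcases isEmpty_or_nonempty ι with hE | ⟨⟨i0⟩⟩
    · exact W_empty hK T
    rcases H (T i0) (hT i0).1 (hT i0).2.1 (hT i0).2.2 with
      ⟨h, q, g, hh, hqg⟩ | ⟨r, σ, hσ, hroot, hσ2⟩
    · have hcard : Nat.card {i // i ≠ i0} ≤ n := I4_card (fun i => i ≠ i0) i0 (by simp) hc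
      have h1 : Avoid k (fun i : {i // i ≠ i0} => T i) :=
        ih {i // i ≠ i0} (fun i => T i) hcard (fun i => hT i)
      have h2 := W_const (fun _ : Unit => h) (fun _ => hh) _ h1
      have h3 : Avoid k (Sum.elim (fun _ : Unit => T i0) (fun i : {i // i ≠ i0} => T i)) := by
        refine W_comp _ _ ?_ h2
        rintro (u | i)
        · exact ⟨q, g, hqg⟩
        · exact ⟨X, 1, by simp⟩
      have h4 := W_reindex
        (fun i : ι => if hi : i = i0 then (Sum.inl () : Unit ⊕ {i // i ≠ i0})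
          else Sum.inr ⟨i, hi⟩) _ h3
      have h5 : (fun j => (Sum.elim (fun _ : Unit => T i0) (fun i : {i // i ≠ i0} => T i))
          (if hi : j = i0 then (Sum.inl () : Unit ⊕ {i // i ≠ i0}) else Sum.inr ⟨j, hi⟩)) = T := by
        funext j
        by_cases hj : j = i0
        · simp [hj]
        · simp [hj]
      rwa [h5] at h4
    · have hcard : Nat.card {i // ¬ ∀ z, (T i).eval₂ (sbar σ) z ≠ 0} ≤ n :=
        I4_card (fun i => ¬ ∀ z, (T i).eval₂ (sbar σ) z ≠ 0) i0 (by simpa using hroot) hc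
      have hsum : Avoid k (Sum.elim (fun i : {i // ∀ z, (T i).eval₂ (sbar σ) z ≠ 0} => T i)
          (fun i : {i // ¬ ∀ z, (T i).eval₂ (sbar σ) z ≠ 0} => T i)) := by
        rcases hσ2 with hanc | hB
        · have h1 : Avoid k (fun i : {i // ¬ ∀ z, (T i).eval₂ (sbar σ) z ≠ 0} => T i) :=
            ih {i // ¬ ∀ z, (T i).eval₂ (sbar σ) z ≠ 0} (fun i => T i) hcard (fun i => hT i)
          exact W_I2 k K r σ hσ hanc _ _ _ _ (fun i => (hT i).1) (fun i => i.2)
            (fun i => (hT i).1) h1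
        · have hch : ∀ j : {i // ¬ ∀ z, (T i).eval₂ (sbar σ) z ≠ 0}, ∃ h q g : K[X],
              h.Monic ∧ Irreducible h ∧ 2 ≤ h.natDegree ∧
              (∀ i, σ (h.coeff i) = algebraMap K (RF K r) (h.coeff i)) ∧ h.comp q = T j * g := by
            intro j
            refine hB (T j) (hT j).1 (hT j).2.1 (hT j).2.2 ?_
            have := j.2
            push Not at this
            exact this
          choose h q g hm hirr hdeg hco hqg using hch
          have h1 : Avoid k h := ih {i // ¬ ∀ z, (T i).eval₂ (sbar σ) z ≠ 0} h hcard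
            (fun j => ⟨hm j, hirr j, hdeg j⟩)
          have h2 := W_I1 k K r σ hσ {i // ∀ z, (T i).eval₂ (sbar σ) z ≠ 0}
            {i // ¬ ∀ z, (T i).eval₂ (sbar σ) z ≠ 0} (fun i => T i) h (fun i => (hT i).1)
            (fun i => i.2) (fun j n => hco j n) h1
          refine W_comp _ _ ?_ h2
          rintro (i | j)
          · exact ⟨X, 1, by simp⟩
          · exact ⟨q j, g j, hqg j⟩
      have h4 := W_reindex
        (fun i : ι => if hi : ∀ z, (T i).eval₂ (sbar σ) z ≠ 0 then
          (Sum.inl ⟨i, hi⟩ : {i // ∀ z, (T i).eval₂ (sbar σ) z ≠ 0} ⊕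
            {i // ¬ ∀ z, (T i).eval₂ (sbar σ) z ≠ 0}) else Sum.inr ⟨i, hi⟩) _ hsum
      have h5 : (fun j => (Sum.elim (fun i : {i // ∀ z, (T i).eval₂ (sbar σ) z ≠ 0} => T i)
          (fun i : {i // ¬ ∀ z, (T i).eval₂ (sbar σ) z ≠ 0} => T i))
          (if hi : ∀ z, (T j).eval₂ (sbar σ) z ≠ 0 then
          (Sum.inl ⟨j, hi⟩ : {i // ∀ z, (T i).eval₂ (sbar σ) z ≠ 0} ⊕
            {i // ¬ ∀ z, (T i).eval₂ (sbar σ) z ≠ 0}) else Sum.inr ⟨j, hi⟩)) = T := by
        funext j
        by_cases hj : ∀ z, (T j).eval₂ (sbar σ) z ≠ 0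
        · rw [dif_pos hj]; rfl
        · rw [dif_neg hj]; rfl
      rwa [h5] at h4

end Pool.Agent.LibHP
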