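import Mathlib

/-! # Row Q1: nondegenerate quadratic forms in at least three variables are irreducible

Partial derivatives of a factor of total degree at most one are constants. -/

set_option autoImplicit false

namespace Pool.Agent.LibHP

private lemma W_Q1_pderiv {K : Type} [Field K] {n : ℕ} (P : MvPolynomial (Fin n) K)
    (hP : P.totalDegree ≤ 1) (i : Fin n) : ∃ c : K, MvPolynomial.pderiv i P = MvPolynomial.C c := by
  classical
  refine ⟨_, (MvPolynomial.totalDegree_eq_zero_iff_eq_C).mp ?_⟩
  rw [MvPolynomial.totalDegree_eq_zero_iff]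
  intro m hm j
  by_contra hne
  rw [MvPolynomial.mem_support_iff, MvPolynomial.coeff_pderiv] at hm
  have h1 : MvPolynomial.coeff (m + Finsupp.single i 1) P = 0 := by
    apply MvPolynomial.coeff_eq_zero_of_totalDegree_lt
    have h2 : (m + Finsupp.single i 1).sum (fun _ e => e) = m.sum (fun _ e => e) + 1 := by
      rw [Finsupp.sum_add_index' (fun _ => rfl) (fun _ _ _ => rfl), Finsupp.sum_single_index rfl]
    have h3 : m j ≤ m.sum (fun _ e => e) := by
      apply Finset.single_le_sum (f := fun a => m a) (fun _ _ => Nat.zero_le _)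
      rw [Finsupp.mem_support_iff]
      exact hne
    have h4 : ∑ k ∈ (m + Finsupp.single i 1).support, (m + Finsupp.single i 1 : Fin n →₀ ℕ) k =
        (m + Finsupp.single i 1).sum (fun _ e => e) := rfl
    rw [h4, h2]
    omega
  exact hm (by rw [h1, zero_mul])

theorem W_Q1 {K : Type} [Field K] [CharZero K] (m : ℕ) (a : Fin (m + 3) → K) (ha : ∀ i, a i ≠ 0) :
    Irreducible (∑ i, MvPolynomial.C (a i) * MvPolynomial.X i ^ 2 :
      MvPolynomial (Fin (m + 3)) K) := by
  classical
  set f : MvPolynomial (Fin (m + 3)) K := ∑ i, MvPolynomial.C (a i) * MvPolynomial.X i ^ 2 with hf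
  have hder : ∀ i, MvPolynomial.pderiv i f = MvPolynomial.C (2 * a i) * MvPolynomial.X i := by
    intro i
    rw [hf, map_sum, Finset.sum_eq_single i]
    · rw [Derivation.leibniz, MvPolynomial.pderiv_C, Derivation.leibniz_pow,
        MvPolynomial.pderiv_X_self]
      simp only [smul_eq_mul, map_mul, map_ofNat]
      ring
    · intro j _ hj
      rw [Derivation.leibniz, MvPolynomial.pderiv_C, Derivation.leibniz_pow,
        MvPolynomial.pderiv_X_of_ne hj]
      simp
    · intro h
      exact absurd (Finset.mem_univ i) h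
  have hder2 : ∀ i, MvPolynomial.pderiv i (MvPolynomial.pderiv i f) = MvPolynomial.C (2 * a i) := by
    intro i
    rw [hder, Derivation.leibniz, MvPolynomial.pderiv_C, MvPolynomial.pderiv_X_self]
    simp
  have hder3 : ∀ i j, j ≠ i → MvPolynomial.pderiv j (MvPolynomial.pderiv i f) = 0 := by
    intro i j hij
    rw [hder, Derivation.leibniz, MvPolynomial.pderiv_C, MvPolynomial.pderiv_X_of_ne hij.symm]
    simp
  have hf0 : f ≠ 0 := by
    intro h
    have h1 := hder2 0
    rw [h, map_zero, map_zero] at h1
    have h2 := MvPolynomial.C_injective (Fin (m + 3)) K (show MvPolynomial.C (0 : K) = MvPolynomial.C (2 * a 0) by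
      rw [map_zero]; exact h1)
    exact (mul_ne_zero two_ne_zero (ha 0)) h2.symm
  have hdeg : f.totalDegree ≤ 2 := by
    rw [hf]
    apply MvPolynomial.totalDegree_finsetSum_le
    intro i _
    refine le_trans (MvPolynomial.totalDegree_mul _ _) ?_
    rw [MvPolynomial.totalDegree_C, zero_add]
    refine le_trans (MvPolynomial.totalDegree_pow _ _) ?_
    rw [MvPolynomial.totalDegree_X]
  have hnotC : ∀ c : K, f ≠ MvPolynomial.C c := by
    intro c h
    have h1 := hder2 0
    rw [h, MvPolynomial.pderiv_C, map_zero] at h1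
    have h2 := MvPolynomial.C_injective (Fin (m + 3)) K (show MvPolynomial.C (0 : K) = MvPolynomial.C (2 * a 0) by
      rw [map_zero]; exact h1)
    exact (mul_ne_zero two_ne_zero (ha 0)) h2.symm
  refine ⟨?_, ?_⟩
  · intro hu
    obtain ⟨c, hc, hc2⟩ := MvPolynomial.isUnit_iff_eq_C_of_isReduced.mp hu
    exact hnotC c hc2
  · intro P Q hPQ
    have hP0 : P ≠ 0 := by
      rintro rfl
      exact hf0 (by rw [hPQ, zero_mul])
    have hQ0 : Q ≠ 0 := by
      rintro rfl
      exact hf0 (by rw [hPQ, mul_zero])
    have htd := MvPolynomial.totalDegree_mul_of_isDomain hP0 hQ0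
    rw [← hPQ] at htd
    have hunit : ∀ R : MvPolynomial (Fin (m + 3)) K, R ≠ 0 → R.totalDegree = 0 → IsUnit R := by
      intro R hR0 hR
      obtain h := MvPolynomial.totalDegree_eq_zero_iff_eq_C.mp hR
      rw [h]
      apply IsUnit.map
      rw [isUnit_iff_ne_zero]
      intro h0
      rw [h0, map_zero] at h
      exact hR0 h
    by_contra hcon
    push Not at hcon
    have hP1 : P.totalDegree ≠ 0 := fun h => hcon.1 (hunit P hP0 h)
    have hQ1 : Q.totalDegree ≠ 0 := fun h => hcon.2 (hunit Q hQ0 h)
    have hP2 : P.totalDegree ≤ 1 := by omega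
    have hQ2 : Q.totalDegree ≤ 1 := by omega
    choose p hp using W_Q1_pderiv P hP2
    choose q hq using W_Q1_pderiv Q hQ2
    have key : ∀ i j, MvPolynomial.pderiv j (MvPolynomial.pderiv i f) =
        MvPolynomial.C (p i * q j + p j * q i) := by
      intro i j
      rw [hPQ, Derivation.leibniz, hp, hq, map_add, smul_eq_mul, smul_eq_mul,
        Derivation.leibniz, Derivation.leibniz,
        MvPolynomial.pderiv_C, MvPolynomial.pderiv_C, hp, hq]
      simp only [smul_eq_mul, map_mul, map_add, mul_zero, zero_add]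
      ring
    have k1 : ∀ i, p i * q i = a i := by
      intro i
      have h := (key i i).symm.trans (hder2 i)
      have h2 := MvPolynomial.C_injective _ _ h
      have h3 : (2 : K) * (p i * q i - a i) = 0 := by linear_combination h2
      rcases mul_eq_zero.mp h3 with h4 | h4
      · exact absurd h4 two_ne_zero
      · exact sub_eq_zero.mp h4
    have k2 : ∀ i j, j ≠ i → p i * q j + p j * q i = 0 := by
      intro i j hij
      have h := (key i j).symm.trans (hder3 i j hij)
      rw [← map_zero MvPolynomial.C] at h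
      exact MvPolynomial.C_injective _ _ h
    obtain ⟨i0, i1, i2, e01, e02, e12⟩ : ∃ i0 i1 i2 : Fin (m + 3), i1 ≠ i0 ∧ i2 ≠ i0 ∧ i2 ≠ i1 := by
      refine ⟨⟨0, by omega⟩, ⟨1, by omega⟩, ⟨2, by omega⟩, ?_, ?_, ?_⟩ <;>
      · intro h
        have := congrArg Fin.val h
        simp at this
    have A := k2 i0 i1 e01
    have B := k2 i0 i2 e02
    have C := k2 i1 i2 e12
    have a0 := k1 i0
    have a1 := k1 i1
    have a2 := k1 i2
    have hz : (2 : K) * (a i0 * a i1 * a i2) = 0 := by
      rw [← a0, ← a1, ← a2]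
      linear_combination (p i1 * q i2 * (p i2 * q i0)) * A - (p i1 * q i0) * (p i2 * q i0) * C +
        (p i1 * q i0) * (p i2 * q i1) * B
    exact (mul_ne_zero two_ne_zero (mul_ne_zero (mul_ne_zero (ha i0) (ha i1)) (ha i2))) hz

end Pool.Agent.LibHP
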