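import Pool.Agent.LibW64.QDefs
import Pool.Agent.LibW64.Q1

/-! # Row Q2: the second point of intersection is generic over `K`

Plan. (a) The denominator `∑ a_j v_j ^ 2`, `v = (0, 1, u)`, is not zero in `RF K (m + 1)`: it is the image
of the polynomial `C (a 1) + ∑ C (a (j+2)) X_j ^ 2`, whose constant coefficient is `a 1 ≠ 0`.
(b) Put `N_i := Q(v) y_i - 2 B(y, v) v_i` (images of polynomials in `u`), `steG a y i = N_i / Q(v)`; `G`
is homogeneous, so `G(N) = Q(v) ^ d G(steG) = 0` already in `MvPolynomial (Fin (m + 1)) K`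
(injectivity), hence `G(N(t)) = 0` for every `t` in every field extension `Ω` of `K`.
(c) Let `q := ∑ C (a i) X_i ^ 2`; it is irreducible (`W_Q1`, cite it), hence prime; let `Ω` be the fraction
field of `MvPolynomial (Fin (m + 3)) K ⧸ (q)`, `W_i` the class of `X_i`. `W_0 ≠ 0`,
`V_1 := W_0 y_1 - W_1 ≠ 0`, `B := ∑ a_i y_i W_i ≠ 0`: nonzero forms of degree one are not divisible by
`q`, which has total degree two (the coefficient of `X_0` in the third one is `a_0 y_0 = a_0 ≠ 0`).
(d) `V_i := W_0 y_i - W_i` (`V_0 = 0`), `t_j := V_{j+2} / V_1`, so `steV t = V / V_1`. Direct computation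
(with `∑ a_i y_i ^ 2 = 0`, `∑ a_i W_i ^ 2 = 0`): `∑ a_i V_i ^ 2 = - 2 W_0 B`, `∑ a_i y_i V_i = - B`, so
`V_1 ^ 2 N_i(t) = - 2 W_0 B y_i + 2 B V_i = - 2 B W_i`. So `0 = G(N(t))` gives, `G` homogeneous of degree
`d`, `(- 2 B / V_1 ^ 2) ^ d G(W) = 0`, so `G(W) = 0` in `Ω`, i.e. `q ∣ G`. -/

set_option autoImplicit false
open Polynomial

namespace Pool.Agent.LibHP

private theorem q2_C {K : Type} [Field K] {n : ℕ} (c : K) :
    algebraMap K (RF K n) c = algebraMap (MvPolynomial (Fin n) K) (RF K n) (MvPolynomial.C c) := by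
  rw [IsScalarTower.algebraMap_apply K (MvPolynomial (Fin n) K) (RF K n), MvPolynomial.algebraMap_eq]

private theorem q2_inj {K : Type} [Field K] {n : ℕ} :
    Function.Injective (algebraMap (MvPolynomial (Fin n) K) (RF K n)) :=
  IsFractionRing.injective _ _

/-- The direction with polynomial entries. -/
private noncomputable def q2v (K : Type) [Field K] (m : ℕ) : Fin (m + 3) → MvPolynomial (Fin (m + 1)) K :=
  Fin.cons 0 (Fin.cons 1 (fun j => MvPolynomial.X j))

private theorem q2v_map {K R : Type} [Field K] [Field R] {m : ℕ}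
    (φ : MvPolynomial (Fin (m + 1)) K →+* R) (i : Fin (m + 3)) :
    φ (q2v K m i) = steV (fun j => φ (MvPolynomial.X j)) i := by
  refine Fin.cases ?_ (fun i => ?_) i
  · exact map_zero φ
  · refine Fin.cases ?_ (fun i => ?_) i
    · exact map_one φ
    · rfl

private noncomputable def q2Q {K : Type} [Field K] {m : ℕ} (a : Fin (m + 3) → K) :
    MvPolynomial (Fin (m + 1)) K := ∑ j, MvPolynomial.C (a j) * q2v K m j ^ 2

private noncomputable def q2B {K : Type} [Field K] {m : ℕ} (a y : Fin (m + 3) → K) :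
    MvPolynomial (Fin (m + 1)) K := ∑ j, MvPolynomial.C (a j) * MvPolynomial.C (y j) * q2v K m j

private noncomputable def q2N {K : Type} [Field K] {m : ℕ} (a y : Fin (m + 3) → K) (i : Fin (m + 3)) :
    MvPolynomial (Fin (m + 1)) K := q2Q a * MvPolynomial.C (y i) - 2 * q2B a y * q2v K m i

private theorem q2Q_ne {K : Type} [Field K] {m : ℕ} (a : Fin (m + 3) → K) (ha : ∀ i, a i ≠ 0) :
    q2Q a ≠ 0 := by
  intro h
  have h2 := congrArg (MvPolynomial.eval (0 : Fin (m + 1) → K)) h
  unfold q2Q at h2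
  rw [map_sum, Fin.sum_univ_succ, Fin.sum_univ_succ] at h2
  simp only [map_mul, map_pow, MvPolynomial.eval_C, map_zero] at h2
  have e0 : MvPolynomial.eval (0 : Fin (m + 1) → K) (q2v K m 0) = 0 := map_zero _
  have e1 : MvPolynomial.eval (0 : Fin (m + 1) → K) (q2v K m (Fin.succ 0)) = 1 := map_one _
  have e2 : ∀ j : Fin (m + 1), MvPolynomial.eval (0 : Fin (m + 1) → K) (q2v K m j.succ.succ) = 0 :=
    fun j => MvPolynomial.eval_X j
  rw [e0, e1] at h2
  simp only [e2] at h2
  simp at h2
  exact ha 1 h2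

/-- homogeneity. -/
private theorem q2_hom {K R : Type} [Field K] [CommRing R] [Algebra K R] {n d : ℕ}
    (G : MvPolynomial (Fin n) K) (hG : G.IsHomogeneous d) (c : R) (x : Fin n → R) :
    MvPolynomial.aeval (fun i => c * x i) G = c ^ d * MvPolynomial.aeval x G := by
  rw [MvPolynomial.aeval_def, MvPolynomial.aeval_def, MvPolynomial.eval₂_eq', MvPolynomial.eval₂_eq',
    Finset.mul_sum]
  refine Finset.sum_congr rfl fun s hs => ?_
  simp only [mul_pow, Finset.prod_mul_distrib]
  rw [Finset.prod_pow_eq_pow_sum]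
  have h1 := hG.degree_eq_sum_deg_support hs
  have h2 : ∑ i, s i = d := by
    rw [h1]
    symm
    refine Finset.sum_subset (Finset.subset_univ _) fun i _ hi => ?_
    exact Finsupp.notMem_support_iff.mp hi
  rw [h2]
  ring

/-- forms of degree one are not divisible by the quadratic form. -/
private theorem q2_lin {K : Type} [Field K] {n : ℕ} (q l : MvPolynomial (Fin n) K)
    (hq : q.IsHomogeneous 2) (hq0 : q ≠ 0) (hl : l.IsHomogeneous 1) (hl0 : l ≠ 0) : ¬ q ∣ l := by
  rintro ⟨g, hg⟩
  have hg0 : g ≠ 0 := by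
    rintro rfl
    exact hl0 (by rw [hg, mul_zero])
  have h1 := MvPolynomial.totalDegree_mul_of_isDomain hq0 hg0
  rw [← hg, hq.totalDegree hq0, hl.totalDegree hl0] at h1
  omega

private theorem q2_key {K : Type} [Field K] [CharZero K] {m : ℕ} {Ω : Type} [Field Ω] [Algebra K Ω]
    (a y : Fin (m + 3) → K) (hy0 : y 0 = 1) (hy : ∑ i, a i * y i ^ 2 = 0) (W : Fin (m + 3) → Ω)
    (hW : ∑ i, algebraMap K Ω (a i) * W i ^ 2 = 0) (hV : W 0 * algebraMap K Ω (y 1) - W 1 ≠ 0)
    (i : Fin (m + 3)) :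
    MvPolynomial.aeval (fun j : Fin (m + 1) => (W 0 * algebraMap K Ω (y j.succ.succ) - W j.succ.succ) /
        (W 0 * algebraMap K Ω (y 1) - W 1)) (q2N a y i) =
      (-2 * (∑ j, algebraMap K Ω (a j) * algebraMap K Ω (y j) * W j) /
        (W 0 * algebraMap K Ω (y 1) - W 1) ^ 2) * W i := by
  set t : Fin (m + 1) → Ω := fun j => (W 0 * algebraMap K Ω (y j.succ.succ) - W j.succ.succ) /
        (W 0 * algebraMap K Ω (y 1) - W 1) with ht
  set V1 := W 0 * algebraMap K Ω (y 1) - W 1 with hV1
  set B := ∑ j, algebraMap K Ω (a j) * algebraMap K Ω (y j) * W j with hB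
  have hst : ∀ i, steV t i = (W 0 * algebraMap K Ω (y i) - W i) / V1 := by
    intro i
    refine Fin.cases ?_ (fun i => ?_) i
    · show (0 : Ω) = _
      rw [hy0, map_one, mul_one, sub_self, zero_div]
    · refine Fin.cases ?_ (fun i => ?_) i
      · show (1 : Ω) = _
        exact (div_self hV).symm
      · rfl
  have hy' : ∑ i, algebraMap K Ω (a i) * algebraMap K Ω (y i) ^ 2 = 0 := by
    have := congrArg (algebraMap K Ω) hy
    rw [map_sum, map_zero] at this
    simpa only [map_mul, map_pow] using this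
  have hvi : ∀ i, MvPolynomial.aeval t (q2v K m i) = (W 0 * algebraMap K Ω (y i) - W i) / V1 := by
    intro i
    rw [← hst]
    have := q2v_map (MvPolynomial.aeval (R := K) t : MvPolynomial (Fin (m + 1)) K →ₐ[K] Ω).toRingHom i
    simpa using this
  have s1 : ∑ j, algebraMap K Ω (a j) * (W 0 * algebraMap K Ω (y j) - W j) ^ 2 = -2 * W 0 * B := by
    have e : ∀ j, algebraMap K Ω (a j) * (W 0 * algebraMap K Ω (y j) - W j) ^ 2 =
        W 0 ^ 2 * (algebraMap K Ω (a j) * algebraMap K Ω (y j) ^ 2) -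
        2 * W 0 * (algebraMap K Ω (a j) * algebraMap K Ω (y j) * W j) + algebraMap K Ω (a j) * W j ^ 2 :=
      fun j => by ring
    simp only [e, Finset.sum_add_distrib, Finset.sum_sub_distrib]
    rw [← Finset.mul_sum, ← Finset.mul_sum, hy', hW, ← hB]
    ring
  have s2 : ∑ j, algebraMap K Ω (a j) * algebraMap K Ω (y j) * (W 0 * algebraMap K Ω (y j) - W j) = -B := by
    have e : ∀ j, algebraMap K Ω (a j) * algebraMap K Ω (y j) * (W 0 * algebraMap K Ω (y j) - W j) =
        W 0 * (algebraMap K Ω (a j) * algebraMap K Ω (y j) ^ 2) -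
        algebraMap K Ω (a j) * algebraMap K Ω (y j) * W j :=
      fun j => by ring
    simp only [e, Finset.sum_sub_distrib]
    rw [← Finset.mul_sum, hy', ← hB]
    ring
  have hQ : MvPolynomial.aeval t (q2Q a) = -2 * W 0 * B / V1 ^ 2 := by
    unfold q2Q
    rw [map_sum, ← s1, Finset.sum_div]
    refine Finset.sum_congr rfl fun j _ => ?_
    rw [map_mul, map_pow, hvi, MvPolynomial.aeval_C, div_pow]
    ring
  have hBt : MvPolynomial.aeval t (q2B a y) = -B / V1 := by
    unfold q2B
    rw [map_sum, ← s2, Finset.sum_div]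
    refine Finset.sum_congr rfl fun j _ => ?_
    rw [map_mul, map_mul, hvi, MvPolynomial.aeval_C, MvPolynomial.aeval_C]
    ring
  unfold q2N
  rw [map_sub, map_mul, map_mul, map_mul, hQ, hBt, hvi, MvPolynomial.aeval_C, map_ofNat]
  field_simp
  ring

theorem W_Q2 {K : Type} [Field K] [CharZero K] (m : ℕ) (a y : Fin (m + 3) → K)
    (ha : ∀ i, a i ≠ 0) (hy0 : y 0 = 1) (hy : ∑ i, a i * y i ^ 2 = 0) (d : ℕ)
    (G : MvPolynomial (Fin (m + 3)) K) (hG : G.IsHomogeneous d)
    (hz : MvPolynomial.aeval (steG a y) G = 0) :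
    (∑ i, MvPolynomial.C (a i) * MvPolynomial.X i ^ 2) ∣ G := by
  -- the polynomial identity
  have hN : MvPolynomial.aeval (q2N a y) G = 0 := by
    have e1 : ∀ i, algebraMap (MvPolynomial (Fin (m + 1)) K) (RF K (m + 1)) (q2N a y i) =
        algebraMap (MvPolynomial (Fin (m + 1)) K) (RF K (m + 1)) (q2Q a) * steG a y i := by
      intro i
      set φ := algebraMap (MvPolynomial (Fin (m + 1)) K) (RF K (m + 1)) with hφ
      have hv := fun i => q2v_map (m := m) φ i
      have hQ : φ (q2Q a) = ∑ j, algebraMap K (RF K (m + 1)) (a j) * steV (fun j => φ (MvPolynomial.X j)) j ^ 2 := by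
        unfold q2Q
        rw [map_sum]
        refine Finset.sum_congr rfl fun j _ => ?_
        rw [map_mul, map_pow, hv, q2_C]
      have hBm : φ (q2B a y) = ∑ j, algebraMap K (RF K (m + 1)) (a j) * algebraMap K (RF K (m + 1)) (y j) *
          steV (fun j => φ (MvPolynomial.X j)) j := by
        unfold q2B
        rw [map_sum]
        refine Finset.sum_congr rfl fun j _ => ?_
        rw [map_mul, map_mul, hv, q2_C, q2_C]
      have hQ0 : φ (q2Q a) ≠ 0 := by
        intro h
        exact q2Q_ne a ha (q2_inj (h.trans (map_zero _).symm))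
      have hst : steG a y i = algebraMap K (RF K (m + 1)) (y i) -
          2 * φ (q2B a y) / φ (q2Q a) * steV (fun j => φ (MvPolynomial.X j)) i := by
        rw [hQ, hBm]; rfl
      rw [hst]
      unfold q2N
      rw [map_sub, map_mul, map_mul, map_mul, hv, q2_C, map_ofNat]
      field_simp
      rfl
    have e2 : MvPolynomial.aeval (fun i => algebraMap (MvPolynomial (Fin (m + 1)) K) (RF K (m + 1)) (q2N a y i)) G = 0 := by
      simp only [e1]
      rw [q2_hom G hG, hz, mul_zero]
    have e3 : algebraMap (MvPolynomial (Fin (m + 1)) K) (RF K (m + 1)) (MvPolynomial.aeval (q2N a y) G) =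
        MvPolynomial.aeval (fun i => algebraMap (MvPolynomial (Fin (m + 1)) K) (RF K (m + 1)) (q2N a y i)) G := by
      rw [← MvPolynomial.aeval_algebraMap_apply]
      rfl
    rw [e2] at e3
    exact q2_inj (e3.trans (map_zero _).symm)
  -- the generic point of the quadric
  set q : MvPolynomial (Fin (m + 3)) K := ∑ i, MvPolynomial.C (a i) * MvPolynomial.X i ^ 2 with hq
  have hirr : Irreducible q := W_Q1 m a ha
  have hprime : Prime q := hirr.prime
  have hqh : q.IsHomogeneous 2 := by
    refine MvPolynomial.IsHomogeneous.sum _ _ _ fun i _ => ?_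
    exact MvPolynomial.isHomogeneous_C_mul_X_pow _ _ _
  set I : Ideal (MvPolynomial (Fin (m + 3)) K) := Ideal.span {q} with hI
  haveI hIp : I.IsPrime := (Ideal.span_singleton_prime hprime.ne_zero).mpr hprime
  let A := MvPolynomial (Fin (m + 3)) K ⧸ I
  let Ω := FractionRing A
  let π : MvPolynomial (Fin (m + 3)) K →ₐ[K] A := Ideal.Quotient.mkₐ K I
  let ρ : MvPolynomial (Fin (m + 3)) K →ₐ[K] Ω := (IsScalarTower.toAlgHom K A Ω).comp π
  have hρ : ∀ p, ρ p = 0 ↔ q ∣ p := by
    intro p
    have h1 : ρ p = algebraMap A Ω (Ideal.Quotient.mk I p) := rfl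
    rw [h1, ← Ideal.mem_span_singleton, ← hI, ← Ideal.Quotient.eq_zero_iff_mem]
    constructor
    · intro h
      exact IsFractionRing.injective A Ω (h.trans (map_zero _).symm)
    · intro h
      rw [h, map_zero]
  set W : Fin (m + 3) → Ω := fun i => ρ (MvPolynomial.X i) with hW
  have hρC : ∀ c, ρ (MvPolynomial.C c) = algebraMap K Ω c := fun c => by
    rw [← MvPolynomial.algebraMap_eq]; exact ρ.commutes c
  have hW0 : ∑ i, algebraMap K Ω (a i) * W i ^ 2 = 0 := by
    have h1 := (hρ q).mpr dvd_rfl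
    rw [hq, map_sum] at h1
    simpa only [map_mul, map_pow, hρC] using h1
  have hV : W 0 * algebraMap K Ω (y 1) - W 1 ≠ 0 := by
    have h1 : W 0 * algebraMap K Ω (y 1) - W 1 =
        ρ (MvPolynomial.C (y 1) * MvPolynomial.X 0 - MvPolynomial.X 1) := by
      rw [map_sub, map_mul, hρC]; ring
    rw [h1, Ne, hρ]
    refine q2_lin q _ hqh hprime.ne_zero ?_ ?_
    · exact (MvPolynomial.isHomogeneous_C_mul_X _ _).sub (MvPolynomial.isHomogeneous_X _ _)
    · intro h
      have h2 := congrArg (MvPolynomial.eval (Pi.single (1 : Fin (m + 3)) (1 : K))) h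
      simp only [map_sub, map_mul, MvPolynomial.eval_C, MvPolynomial.eval_X, map_zero, Pi.single_eq_same] at h2
      rw [Pi.single_eq_of_ne (by exact zero_ne_one)] at h2
      simp at h2
  have hB : ∑ j, algebraMap K Ω (a j) * algebraMap K Ω (y j) * W j ≠ 0 := by
    have h1 : ∑ j, algebraMap K Ω (a j) * algebraMap K Ω (y j) * W j =
        ρ (∑ j, MvPolynomial.C (a j * y j) * MvPolynomial.X j) := by
      rw [map_sum]
      refine Finset.sum_congr rfl fun j _ => ?_
      rw [map_mul, hρC, map_mul]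
    rw [h1, Ne, hρ]
    refine q2_lin q _ hqh hprime.ne_zero ?_ ?_
    · exact MvPolynomial.IsHomogeneous.sum _ _ _ fun i _ => MvPolynomial.isHomogeneous_C_mul_X _ _
    · intro h
      have h2 := congrArg (MvPolynomial.eval (Pi.single (0 : Fin (m + 3)) (1 : K))) h
      rw [map_sum, map_zero, Finset.sum_eq_single 0] at h2
      · rw [map_mul, MvPolynomial.eval_C, MvPolynomial.eval_X, Pi.single_eq_same, hy0] at h2
        simp at h2
        exact ha 0 h2
      · intro b _ hb
        rw [map_mul, MvPolynomial.eval_X, Pi.single_eq_of_ne hb, mul_zero]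
      · intro hb
        exact absurd (Finset.mem_univ _) hb
  have h2 : (2 : Ω) ≠ 0 := by
    have h := (map_ne_zero (algebraMap K Ω)).mpr (two_ne_zero (α := K))
    rwa [map_ofNat] at h
  have hkey := q2_key a y hy0 hy W hW0 hV
  set t : Fin (m + 1) → Ω := fun j => (W 0 * algebraMap K Ω (y j.succ.succ) - W j.succ.succ) /
        (W 0 * algebraMap K Ω (y 1) - W 1) with ht
  have hG0 : MvPolynomial.aeval (fun i => MvPolynomial.aeval t (q2N a y i)) G = 0 := by
    have h1 := congrArg (MvPolynomial.aeval t) hN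
    rw [map_zero] at h1
    rw [← h1]
    exact (MvPolynomial.comp_aeval_apply (q2N a y) (MvPolynomial.aeval t) G).symm
  simp only [hkey] at hG0
  rw [q2_hom G hG] at hG0
  have hc : (-2 * (∑ j, algebraMap K Ω (a j) * algebraMap K Ω (y j) * W j) /
        (W 0 * algebraMap K Ω (y 1) - W 1) ^ 2) ≠ 0 :=
    div_ne_zero (mul_ne_zero (neg_ne_zero.mpr h2) hB) (pow_ne_zero _ hV)
  have hG1 := (mul_eq_zero.mp hG0).resolve_left (pow_ne_zero _ hc)
  rw [← hρ]
  rw [← hG1, hW]
  have h3 := MvPolynomial.comp_aeval_apply (MvPolynomial.X : Fin (m + 3) → MvPolynomial (Fin (m + 3)) K) ρ G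
  rw [MvPolynomial.aeval_X_left, AlgHom.id_apply] at h3
  exact h3

end Pool.Agent.LibHP
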