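import Pool.Agent.LibW64.QDefs

/-! # Row Q2b: easy facts on the second point of intersection

Plan. `steV _ 0 = 0` gives the first one. The second: with `Q := ∑ a_j v_j ^ 2 ≠ 0` (the image of the
polynomial `C (a 1) + ∑ C (a (j+2)) X_j ^ 2`, constant coefficient `a 1 ≠ 0`), `B := ∑ a_j y_j v_j`:
`∑ a_i (y_i - 2 B / Q v_i) ^ 2 = ∑ a_i y_i ^ 2 - 4 B / Q ∑ a_i y_i v_i + 4 B ^ 2 / Q ^ 2 ∑ a_i v_i ^ 2
= 0 - 4 B ^ 2 / Q + 4 B ^ 2 / Q = 0`. The third: `steG a y (j+2) - y (j+2) = - 2 B / Q * u_j`,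
`steG a y 1 - y 1 = - 2 B / Q`, and `B ≠ 0` because some `y_i ≠ 0` with `i ≥ 1`
(`∑ a_i y_i ^ 2 = 0` and `a_0 y_0 ^ 2 = a_0 ≠ 0`), so the polynomial
`a_1 y_1 + ∑ a_{j+2} y_{j+2} X_j` is not zero. So `u_j` is the quotient; a subfield containing all
constants and all `steG a y i` contains all `u_j`, hence everything. -/

set_option autoImplicit false
open Polynomial

namespace Pool.Agent.LibHP

private theorem q2b_C {K : Type} [Field K] {n : ℕ} (c : K) :
    algebraMap K (RF K n) c = algebraMap (MvPolynomial (Fin n) K) (RF K n) (MvPolynomial.C c) := by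
  rw [IsScalarTower.algebraMap_apply K (MvPolynomial (Fin n) K) (RF K n), MvPolynomial.algebraMap_eq]

private theorem q2b_inj {K : Type} [Field K] {n : ℕ} :
    Function.Injective (algebraMap (MvPolynomial (Fin n) K) (RF K n)) :=
  IsFractionRing.injective _ _

/-- sums over `Fin (m + 3)` against the direction. -/
private theorem q2b_sum {Ω : Type} [Field Ω] {m : ℕ} (b : Fin (m + 3) → Ω) (t : Fin (m + 1) → Ω) (k : ℕ)
    (hk : k ≠ 0) :
    ∑ j, b j * steV t j ^ k = b 1 + ∑ j : Fin (m + 1), b j.succ.succ * t j ^ k := by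
  rw [Fin.sum_univ_succ, Fin.sum_univ_succ]
  have h0 : steV t 0 = 0 := rfl
  have h1 : steV t (Fin.succ 0) = 1 := rfl
  have h2 : ∀ j : Fin (m + 1), steV t j.succ.succ = t j := fun j => rfl
  rw [h0, h1]
  simp only [h2]
  rw [zero_pow hk, one_pow, mul_zero, zero_add, mul_one]
  rfl

private theorem q2b_Q {K : Type} [Field K] (m : ℕ) (a : Fin (m + 3) → K) (ha : ∀ i, a i ≠ 0) :
    ∑ j, algebraMap K (RF K (m + 1)) (a j) *
      steV (fun j => algebraMap (MvPolynomial (Fin (m + 1)) K) (RF K (m + 1)) (MvPolynomial.X j)) j ^ 2 ≠ 0 := by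
  rw [q2b_sum _ _ 2 two_ne_zero]
  have e : algebraMap K (RF K (m + 1)) (a 1) + ∑ j : Fin (m + 1), algebraMap K (RF K (m + 1)) (a j.succ.succ) *
      (algebraMap (MvPolynomial (Fin (m + 1)) K) (RF K (m + 1)) (MvPolynomial.X j)) ^ 2 =
      algebraMap (MvPolynomial (Fin (m + 1)) K) (RF K (m + 1))
        (MvPolynomial.C (a 1) + ∑ j : Fin (m + 1), MvPolynomial.C (a j.succ.succ) * MvPolynomial.X j ^ 2) := by
    rw [map_add, map_sum, q2b_C]
    congr 1
    refine Finset.sum_congr rfl fun j _ => ?_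
    rw [map_mul, map_pow, q2b_C]
  rw [e]
  intro h
  have h1 := q2b_inj (h.trans (map_zero _).symm)
  have h2 := congrArg MvPolynomial.constantCoeff h1
  simp at h2
  exact ha 1 h2

private theorem q2b_B {K : Type} [Field K] (m : ℕ) (a y : Fin (m + 3) → K)
    (ha : ∀ i, a i ≠ 0) (hy0 : y 0 = 1) (hy : ∑ i, a i * y i ^ 2 = 0) :
    ∑ j, algebraMap K (RF K (m + 1)) (a j) * algebraMap K (RF K (m + 1)) (y j) *
      steV (fun j => algebraMap (MvPolynomial (Fin (m + 1)) K) (RF K (m + 1)) (MvPolynomial.X j)) j ≠ 0 := by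
  have h0 := q2b_sum (fun j => algebraMap K (RF K (m + 1)) (a j) * algebraMap K (RF K (m + 1)) (y j))
    (fun j => algebraMap (MvPolynomial (Fin (m + 1)) K) (RF K (m + 1)) (MvPolynomial.X j)) 1 one_ne_zero
  simp only [pow_one] at h0
  rw [h0]
  have e : algebraMap K (RF K (m + 1)) (a 1) * algebraMap K (RF K (m + 1)) (y 1) +
      ∑ j : Fin (m + 1), algebraMap K (RF K (m + 1)) (a j.succ.succ) * algebraMap K (RF K (m + 1)) (y j.succ.succ) *
      (algebraMap (MvPolynomial (Fin (m + 1)) K) (RF K (m + 1)) (MvPolynomial.X j)) =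
      algebraMap (MvPolynomial (Fin (m + 1)) K) (RF K (m + 1))
        (MvPolynomial.C (a 1 * y 1) + ∑ j : Fin (m + 1), MvPolynomial.C (a j.succ.succ * y j.succ.succ) *
          MvPolynomial.X j) := by
    rw [map_add, map_sum, ← q2b_C, map_mul]
    congr 1
    refine Finset.sum_congr rfl fun j _ => ?_
    rw [map_mul, ← q2b_C, map_mul]
  rw [e]
  intro h
  have h1 := q2b_inj (h.trans (map_zero _).symm)
  have c1 : a 1 * y 1 = 0 := by
    have h2 := congrArg MvPolynomial.constantCoeff h1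
    simpa using h2
  have c2 : ∀ j : Fin (m + 1), a j.succ.succ * y j.succ.succ = 0 := by
    intro j
    have h2 := congrArg (MvPolynomial.eval (Pi.single j (1 : K))) h1
    rw [map_add, map_sum, map_zero, MvPolynomial.eval_C, c1, zero_add] at h2
    simp only [map_mul (MvPolynomial.eval (Pi.single j (1 : K))), MvPolynomial.eval_C, MvPolynomial.eval_X] at h2
    rw [Finset.sum_eq_single j] at h2
    · simpa using h2
    · intro b _ hb
      rw [Pi.single_eq_of_ne hb, mul_zero]
    · intro hb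
      exact absurd (Finset.mem_univ _) hb
  have y1 : y 1 = 0 := (mul_eq_zero.mp c1).resolve_left (ha 1)
  have y2 : ∀ j : Fin (m + 1), y j.succ.succ = 0 := fun j =>
    (mul_eq_zero.mp (c2 j)).resolve_left (ha _)
  rw [Fin.sum_univ_succ, Fin.sum_univ_succ, hy0] at hy
  have y1' : y (Fin.succ 0) = 0 := y1
  rw [y1'] at hy
  simp only [y2] at hy
  simp at hy
  exact ha 0 hy

theorem W_Q2b {K : Type} [Field K] [CharZero K] (m : ℕ) (a y : Fin (m + 3) → K)
    (ha : ∀ i, a i ≠ 0) (hy0 : y 0 = 1) (hy : ∑ i, a i * y i ^ 2 = 0) :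
    steG a y 0 = 1 ∧
    ∑ i, algebraMap K (RF K (m + 1)) (a i) * steG a y i ^ 2 = 0 ∧
    Subfield.closure (Set.range (algebraMap K (RF K (m + 1))) ∪ Set.range (steG a y)) = ⊤ := by
  have hQ := q2b_Q m a ha
  have hB := q2b_B m a y ha hy0 hy
  set u : Fin (m + 1) → RF K (m + 1) := fun j =>
    algebraMap (MvPolynomial (Fin (m + 1)) K) (RF K (m + 1)) (MvPolynomial.X j) with hu
  set ι := algebraMap K (RF K (m + 1)) with hι
  set Q := ∑ j, ι (a j) * steV u j ^ 2 with hQd
  set B := ∑ j, ι (a j) * ι (y j) * steV u j with hBd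
  have hst : ∀ i, steG a y i = ι (y i) - 2 * B / Q * steV u i := fun i => rfl
  have h2 : (2 : RF K (m + 1)) ≠ 0 := by
    have h := (map_ne_zero (algebraMap K (RF K (m + 1)))).mpr (two_ne_zero (α := K))
    rwa [map_ofNat] at h
  refine ⟨?_, ?_, ?_⟩
  · rw [hst, show steV u 0 = 0 from rfl, hy0, map_one, mul_zero, sub_zero]
  · have hy' : ∑ i, ι (a i) * ι (y i) ^ 2 = 0 := by
      have := congrArg ι hy
      rw [map_sum, map_zero] at this
      simpa only [map_mul, map_pow] using this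
    have e : ∀ i, ι (a i) * steG a y i ^ 2 = ι (a i) * ι (y i) ^ 2 - 4 * B / Q * (ι (a i) * ι (y i) * steV u i) +
        4 * B ^ 2 / Q ^ 2 * (ι (a i) * steV u i ^ 2) := by
      intro i
      rw [hst]
      field_simp
      ring
    simp only [e, Finset.sum_add_distrib, Finset.sum_sub_distrib]
    rw [← Finset.mul_sum, ← Finset.mul_sum, hy', ← hQd, ← hBd]
    field_simp
    ring
  · set S := Subfield.closure (Set.range ι ∪ Set.range (steG a y)) with hS
    have hc : ∀ c, ι c ∈ S := fun c => Subfield.subset_closure (Or.inl ⟨c, rfl⟩)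
    have hs : ∀ i, steG a y i ∈ S := fun i => Subfield.subset_closure (Or.inr ⟨i, rfl⟩)
    have hr : 2 * B / Q ∈ S := by
      have h1 : 2 * B / Q = ι (y 1) - steG a y 1 := by
        rw [hst, show steV u 1 = 1 from rfl]; ring
      rw [h1]
      exact S.sub_mem (hc _) (hs _)
    have hr0 : 2 * B / Q ≠ 0 := div_ne_zero (mul_ne_zero h2 hB) hQ
    have huS : ∀ j, u j ∈ S := by
      intro j
      have h1 : u j = (ι (y j.succ.succ) - steG a y j.succ.succ) / (2 * B / Q) := by
        rw [hst, show steV u j.succ.succ = u j from rfl]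
        field_simp
        ring
      rw [h1]
      exact S.div_mem (S.sub_mem (hc _) (hs _)) hr
    have hp : ∀ p : MvPolynomial (Fin (m + 1)) K,
        algebraMap (MvPolynomial (Fin (m + 1)) K) (RF K (m + 1)) p ∈ S := by
      intro p
      induction p using MvPolynomial.induction_on with
      | C c => rw [← q2b_C]; exact hc c
      | add p q hp hq => rw [map_add]; exact S.add_mem hp hq
      | mul_X p n hp => rw [map_mul]; exact S.mul_mem hp (huS n)
    refine eq_top_iff.mpr fun z _ => ?_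
    obtain ⟨x, w, hw, hz⟩ := IsFractionRing.div_surjective (A := MvPolynomial (Fin (m + 1)) K) z
    rw [← hz]
    exact S.div_mem (hp x) (hp w)

end Pool.Agent.LibHP
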