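import Pool.Agent.LibW64.Defs

/-! # Row Q3: homomorphism defined by a generic point

Plan. For `P : MvPolynomial (Fin (n + 1)) L` (not homogeneous), of total degree `≤ D`, put
`P' := ∑ d ≤ D, X 0 ^ (D - d) * homogeneousComponent d P`, homogeneous of degree `D`; as `y 0 = 1` and
`y' 0 = 1`, `aeval y P = aeval y P'` and `P.eval₂ j y' = P'.eval₂ j y'`. So
`aeval y P = 0 ↔ P.eval₂ j y' = 0` for all `P`: the two homomorphisms `aeval y : L[Y] → K` and
`eval₂Hom j y' : L[Y] → Ω` have the same kernel. So there is an injective `σ0 : (aeval y).range →+* Ω`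
with `σ0 (aeval y P) = P.eval₂ j y'`; by `hgen` the field `K` is the fraction field of
`(aeval y).range` (the set of the quotients of elements of this range is a subfield containing `L` and the
`y i`), so `σ0` extends to `K` (`IsFractionRing.lift`/`IsLocalization.lift`, or define
`σ z := σ0 a / σ0 b`). -/

set_option autoImplicit false
open Polynomial

namespace Pool.Agent.LibHP

private theorem Q3_quot {K : Type} [Field K] (L : Subfield K) (n : ℕ) (y : Fin (n + 1) → K)
    (hgen : Subfield.closure ((L : Set K) ∪ Set.range y) = ⊤) (z : K) :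
    ∃ P P0 : MvPolynomial (Fin (n + 1)) L, MvPolynomial.aeval y P0 ≠ 0 ∧
      z * MvPolynomial.aeval y P0 = MvPolynomial.aeval y P := by
  have hz : z ∈ Subfield.closure ((L : Set K) ∪ Set.range y) := by
    rw [hgen]
    exact Subfield.mem_top z
  induction hz using Subfield.closure_induction with
  | mem x hx =>
    rcases hx with hx | ⟨i, rfl⟩
    · refine ⟨MvPolynomial.C ⟨x, hx⟩, 1, by simp, ?_⟩
      rw [map_one, mul_one, MvPolynomial.aeval_C]
      rfl
    · exact ⟨MvPolynomial.X i, 1, by simp, by simp⟩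
  | one => exact ⟨1, 1, by simp, by simp⟩
  | add a b _ _ ha hb =>
    obtain ⟨P1, Q1, h1, h1'⟩ := ha
    obtain ⟨P2, Q2, h2, h2'⟩ := hb
    refine ⟨P1 * Q2 + P2 * Q1, Q1 * Q2, ?_, ?_⟩
    · rw [map_mul]
      exact mul_ne_zero h1 h2
    · rw [map_mul, map_add, map_mul, map_mul, ← h1', ← h2']
      ring
  | neg a _ ha =>
    obtain ⟨P1, Q1, h1, h1'⟩ := ha
    refine ⟨-P1, Q1, h1, ?_⟩
    rw [map_neg, ← h1']
    ring
  | inv a _ ha =>
    obtain ⟨P1, Q1, h1, h1'⟩ := ha
    by_cases h0 : a = 0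
    · refine ⟨0, 1, by simp, ?_⟩
      rw [h0]
      simp
    · refine ⟨Q1, P1, ?_, ?_⟩
      · rw [← h1']
        exact mul_ne_zero h0 h1
      · rw [← h1', ← mul_assoc, inv_mul_cancel₀ h0, one_mul]
  | mul a b _ _ ha hb =>
    obtain ⟨P1, Q1, h1, h1'⟩ := ha
    obtain ⟨P2, Q2, h2, h2'⟩ := hb
    refine ⟨P1 * P2, Q1 * Q2, ?_, ?_⟩
    · rw [map_mul]
      exact mul_ne_zero h1 h2
    · rw [map_mul, map_mul, ← h1', ← h2']
      ring

private theorem Q3_homog {R : Type} [CommRing R] (n : ℕ) (P : MvPolynomial (Fin (n + 1)) R) :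
    ∃ (D : ℕ) (P' : MvPolynomial (Fin (n + 1)) R), P'.IsHomogeneous D ∧
      ∀ (S : Type) (_ : CommRing S) (f : MvPolynomial (Fin (n + 1)) R →+* S),
        f (MvPolynomial.X 0) = 1 → f P' = f P := by
  refine ⟨P.totalDegree, ∑ d ∈ Finset.range (P.totalDegree + 1),
    MvPolynomial.X 0 ^ (P.totalDegree - d) * MvPolynomial.homogeneousComponent d P, ?_, ?_⟩
  · refine MvPolynomial.IsHomogeneous.sum _ _ _ fun d hd => ?_
    have hd' : P.totalDegree - d + d = P.totalDegree := by
      have := Finset.mem_range.1 hd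
      omega
    have h1 := (MvPolynomial.isHomogeneous_X_pow (R := R) (0 : Fin (n + 1))
      (P.totalDegree - d)).mul (MvPolynomial.homogeneousComponent_isHomogeneous d P)
    rw [hd'] at h1
    exact h1
  · intro S _ f hf
    rw [map_sum]
    calc ∑ d ∈ Finset.range (P.totalDegree + 1),
        f (MvPolynomial.X 0 ^ (P.totalDegree - d) * MvPolynomial.homogeneousComponent d P)
        = ∑ d ∈ Finset.range (P.totalDegree + 1), f (MvPolynomial.homogeneousComponent d P) := by
          refine Finset.sum_congr rfl fun d _ => ?_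
          rw [map_mul, map_pow, hf, one_pow, one_mul]
      _ = f P := by
          rw [← map_sum, MvPolynomial.sum_homogeneousComponent]

theorem W_Q3 {K Ω : Type} [Field K] [Field Ω] (L : Subfield K) (n : ℕ) (y : Fin (n + 1) → K)
    (y' : Fin (n + 1) → Ω) (j : L →+* Ω) (hy0 : y 0 = 1) (hy'0 : y' 0 = 1)
    (h : ∀ (d : ℕ) (G : MvPolynomial (Fin (n + 1)) L), G.IsHomogeneous d →
      (MvPolynomial.aeval y G = 0 ↔ MvPolynomial.eval₂ j y' G = 0))
    (hgen : Subfield.closure ((L : Set K) ∪ Set.range y) = ⊤) :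
    ∃ σ : K →+* Ω, (∀ c : L, σ (c : K) = j c) ∧ ∀ i, σ (y i) = y' i := by
  obtain ⟨e, he⟩ : ∃ e : MvPolynomial (Fin (n + 1)) L →+* K,
      e = (MvPolynomial.aeval y : MvPolynomial (Fin (n + 1)) L →ₐ[L] K).toRingHom := ⟨_, rfl⟩
  have he' : ∀ P, e P = MvPolynomial.aeval y P := fun P => by rw [he]; rfl
  obtain ⟨e', he''⟩ : ∃ e' : MvPolynomial (Fin (n + 1)) L →+* Ω,
      e' = MvPolynomial.eval₂Hom j y' := ⟨_, rfl⟩
  have he2 : ∀ P, e' P = MvPolynomial.eval₂ j y' P := fun P => by rw [he'']; rfl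
  have hker : ∀ P, e P = 0 ↔ e' P = 0 := by
    intro P
    obtain ⟨D, P', hP', hf⟩ := Q3_homog n P
    rw [← hf K _ e (by rw [he', MvPolynomial.aeval_X, hy0]),
      ← hf Ω _ e' (by rw [he2, MvPolynomial.eval₂_X, hy'0]), he', he2]
    exact h D P' hP'
  have hq : ∀ z : K, ∃ P P0 : MvPolynomial (Fin (n + 1)) L, e P0 ≠ 0 ∧ z * e P0 = e P := by
    intro z
    obtain ⟨P, P0, h1, h2⟩ := Q3_quot L n y hgen z
    exact ⟨P, P0, by rw [he']; exact h1, by rw [he', he']; exact h2⟩
  choose p q hq0 hpq using hq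
  have hne : ∀ P, e P ≠ 0 → e' P ≠ 0 := fun P h1 h2 => h1 ((hker P).2 h2)
  have key : ∀ (z : K) (P P0 : MvPolynomial (Fin (n + 1)) L), e P0 ≠ 0 → z * e P0 = e P →
      e' (p z) / e' (q z) = e' P / e' P0 := by
    intro z P P0 h0 h1
    have h2 : e (p z * P0 - P * q z) = 0 := by
      rw [map_sub, map_mul, map_mul, ← hpq z, ← h1]
      ring
    have h3 := (hker _).1 h2
    rw [map_sub, map_mul, map_mul, sub_eq_zero] at h3
    rw [div_eq_div_iff (hne _ (hq0 z)) (hne _ h0)]
    exact h3
  have hone : e' (p 1) / e' (q 1) = 1 := by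
    rw [key 1 1 1 (by simp) (by simp)]
    simp
  refine ⟨{ toFun := fun z => e' (p z) / e' (q z)
            map_one' := hone
            map_mul' := ?_
            map_zero' := ?_
            map_add' := ?_ }, ?_, ?_⟩
  · intro z w
    rw [key (z * w) (p z * p w) (q z * q w)]
    · rw [map_mul, map_mul, mul_div_mul_comm]
    · rw [map_mul]
      exact mul_ne_zero (hq0 z) (hq0 w)
    · rw [map_mul, map_mul, ← hpq z, ← hpq w]
      ring
  · change e' (p 0) / e' (q 0) = 0
    rw [key 0 0 1 (by simp) (by simp)]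
    simp
  · intro z w
    change e' (p (z + w)) / e' (q (z + w)) = e' (p z) / e' (q z) + e' (p w) / e' (q w)
    rw [key (z + w) (p z * q w + p w * q z) (q z * q w)]
    · rw [map_add, map_mul, map_mul, map_mul]
      have h1 := hne _ (hq0 z)
      have h2 := hne _ (hq0 w)
      field_simp
    · rw [map_mul]
      exact mul_ne_zero (hq0 z) (hq0 w)
    · rw [map_mul, map_add, map_mul, map_mul, ← hpq z, ← hpq w]
      ring
  · intro c
    change e' (p (c : K)) / e' (q (c : K)) = j c
    rw [key (c : K) (MvPolynomial.C c) 1 (by simp) (by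
      rw [map_one, mul_one, he', MvPolynomial.aeval_C]; rfl)]
    rw [map_one, div_one, he2, MvPolynomial.eval₂_C]
  · intro i
    change e' (p (y i)) / e' (q (y i)) = y' i
    rw [key (y i) (MvPolynomial.X i) 1 (by simp) (by
      rw [map_one, mul_one, he', MvPolynomial.aeval_X])]
    rw [map_one, div_one, he2, MvPolynomial.eval₂_X]

end Pool.Agent.LibHP
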