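import Pool.Agent.LibW64.Defs

/-! # Row Q4: linear disjointness from genericity

Plan. Let `c : Fin N → K` be linearly independent over `L`, `l : Fin N → K`,
`∑ j, ι (l j) * σ (c j) = 0`.
1. Every element of `K` is a quotient `aeval y P / aeval y P0` with `P, P0 : MvPolynomial (Fin (n+1)) L`
(`hgen`); a common denominator for the finitely many `c j`, and homogenization with `X 0` (`y 0 = 1`, see
row Q3): `c j * aeval y P0 = aeval y (P j)`, `P0` and all `P j` homogeneous of the same degree `D`,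
`aeval y P0 ≠ 0`.
2. `G := ∑ j, C (l j) * (P j).map L.subtype : MvPolynomial (Fin (n+1)) K` is homogeneous of degree `D`
and `G.eval₂ ι (σ ∘ y) = ∑ j, ι (l j) * σ (aeval y (P j)) = σ (aeval y P0) * ∑ j, ι (l j) σ (c j) = 0`
(`σ = ι` on `L`). So `q.map L.subtype ∣ G` by `hK`.
3. Let `B : I → K` be a basis of `K` over `L`, `l j = ∑ i, λ i j • B i`; so
`G = ∑ i, C (B i) * (G i).map L.subtype`, `G i := ∑ j, C (λ i j) * P j`. The quotient `G / q` has a
similar expansion, and comparing (`K[Y]` is the direct sum of the `B i L[Y]`): `q ∣ G i` in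
`MvPolynomial (Fin (n+1)) L` for every `i`. So `aeval y (G i) = 0`, i.e.
`aeval y P0 * ∑ j, λ i j * c j = 0`, so `λ i j = 0` by the linear independence. So `l j = 0`.
(Step 3 without bases: apply an arbitrary `L`-linear map `f : K → L` to the coefficients of
`G = q H`: `f_*(G) = q f_*(H)`, and `f_*(G) = ∑ j, C (f (l j)) * P j`; so `f (l j) = 0` for all `f`
and `j`, so `l j = 0`.) -/

set_option autoImplicit false
open Polynomial

namespace Pool.Agent.LibHP

private theorem Q4_quot {K : Type} [Field K] (L : Subfield K) (n : ℕ) (y : Fin (n + 1) → K)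
    (hgen : Subfield.closure ((L : Set K) ∪ Set.range y) = ⊤) (z : K) :
    ∃ P P0 : MvPolynomial (Fin (n + 1)) L, MvPolynomial.aeval y P0 ≠ 0 ∧
      z * MvPolynomial.aeval y P0 = MvPolynomial.aeval y P := by
  have hz : z ∈ Subfield.closure ((L : Set K) ∪ Set.range y) := by
    rw [hgen]
    exact Subfield.mem_top z
  induction hz using Subfield.closure_induction with
  | mem x hx =>
    rcases hx with hx | ⟨i, rfl⟩
    · refine ⟨MvPolynomial.C ⟨x, hx⟩, 1, by simp, ?_⟩
      rw [map_one, mul_one, MvPolynomial.aeval_C]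
      rfl
    · exact ⟨MvPolynomial.X i, 1, by simp, by simp⟩
  | one => exact ⟨1, 1, by simp, by simp⟩
  | add a b _ _ ha hb =>
    obtain ⟨P1, Q1, h1, h1'⟩ := ha
    obtain ⟨P2, Q2, h2, h2'⟩ := hb
    refine ⟨P1 * Q2 + P2 * Q1, Q1 * Q2, ?_, ?_⟩
    · rw [map_mul]
      exact mul_ne_zero h1 h2
    · rw [map_mul, map_add, map_mul, map_mul, ← h1', ← h2']
      ring
  | neg a _ ha =>
    obtain ⟨P1, Q1, h1, h1'⟩ := ha
    refine ⟨-P1, Q1, h1, ?_⟩
    rw [map_neg, ← h1']
    ring
  | inv a _ ha =>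
    obtain ⟨P1, Q1, h1, h1'⟩ := ha
    by_cases h0 : a = 0
    · refine ⟨0, 1, by simp, ?_⟩
      rw [h0]
      simp
    · refine ⟨Q1, P1, ?_, ?_⟩
      · rw [← h1']
        exact mul_ne_zero h0 h1
      · rw [← h1', ← mul_assoc, inv_mul_cancel₀ h0, one_mul]
  | mul a b _ _ ha hb =>
    obtain ⟨P1, Q1, h1, h1'⟩ := ha
    obtain ⟨P2, Q2, h2, h2'⟩ := hb
    refine ⟨P1 * P2, Q1 * Q2, ?_, ?_⟩
    · rw [map_mul]
      exact mul_ne_zero h1 h2
    · rw [map_mul, map_mul, ← h1', ← h2']
      ring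


/-- homogenization of degree `D` -/
private noncomputable def Q4_H {R : Type} [CommRing R] {n : ℕ} (D : ℕ)
    (P : MvPolynomial (Fin (n + 1)) R) : MvPolynomial (Fin (n + 1)) R :=
  ∑ d ∈ Finset.range (D + 1),
    MvPolynomial.X 0 ^ (D - d) * MvPolynomial.homogeneousComponent d P

private theorem Q4_H_hom {R : Type} [CommRing R] {n : ℕ} (D : ℕ)
    (P : MvPolynomial (Fin (n + 1)) R) : (Q4_H D P).IsHomogeneous D := by
  refine MvPolynomial.IsHomogeneous.sum _ _ _ fun d hd => ?_
  have hd' : D - d + d = D := by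
    have := Finset.mem_range.1 hd
    omega
  have h1 := (MvPolynomial.isHomogeneous_X_pow (R := R) (0 : Fin (n + 1))
    (D - d)).mul (MvPolynomial.homogeneousComponent_isHomogeneous d P)
  rw [hd'] at h1
  exact h1

private theorem Q4_H_map {R S : Type} [CommRing R] [CommRing S] {n : ℕ} (D : ℕ)
    (P : MvPolynomial (Fin (n + 1)) R) (hD : P.totalDegree ≤ D)
    (f : MvPolynomial (Fin (n + 1)) R →+* S) (hf : f (MvPolynomial.X 0) = 1) :
    f (Q4_H D P) = f P := by
  unfold Q4_H
  rw [map_sum]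
  have h1 : ∀ d ∈ Finset.range (D + 1),
      f (MvPolynomial.X 0 ^ (D - d) * MvPolynomial.homogeneousComponent d P) =
      f (MvPolynomial.homogeneousComponent d P) := by
    intro d _
    rw [map_mul, map_pow, hf, one_pow, one_mul]
  rw [Finset.sum_congr rfl h1, ← map_sum]
  congr 1
  have h2 : Finset.range (P.totalDegree + 1) ⊆ Finset.range (D + 1) :=
    Finset.range_subset_range.2 (by omega)
  rw [← Finset.sum_subset h2]
  · exact MvPolynomial.sum_homogeneousComponent P
  · intro d _ hd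
    apply MvPolynomial.homogeneousComponent_eq_zero
    have h3 : ¬ d < P.totalDegree + 1 := fun h => hd (Finset.mem_range.2 h)
    omega

/-- Apply an additive map to the coefficients. -/
private noncomputable def Q4_Λ {K E : Type} [Field K] [Field E] {r : ℕ} (l : E →+ K)
    (P : MvPolynomial (Fin r) E) : MvPolynomial (Fin r) K :=
  ∑ s ∈ P.support, MvPolynomial.monomial s (l (P.coeff s))

private theorem Q4_coeff {K E : Type} [Field K] [Field E] {r : ℕ} (l : E →+ K)
    (P : MvPolynomial (Fin r) E) (s : Fin r →₀ ℕ) :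
    (Q4_Λ l P).coeff s = l (P.coeff s) := by
  classical
  unfold Q4_Λ
  rw [MvPolynomial.coeff_sum]
  simp only [MvPolynomial.coeff_monomial]
  rw [Finset.sum_ite_eq' P.support s (fun s' => l (P.coeff s'))]
  split_ifs with h
  · rfl
  · rw [MvPolynomial.notMem_support_iff.1 h, map_zero]

private theorem Q4_Λ_mul {K E : Type} [Field K] [Field E] {r : ℕ} (F : K →+* E) (l : E →+ K)
    (hl : ∀ a x, l (F a * x) = a * l x)
    (p : MvPolynomial (Fin r) K) (P : MvPolynomial (Fin r) E) :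
    Q4_Λ l (MvPolynomial.map F p * P) = p * Q4_Λ l P := by
  classical
  ext s
  rw [Q4_coeff, MvPolynomial.coeff_mul, MvPolynomial.coeff_mul, map_sum]
  refine Finset.sum_congr rfl fun x _ => ?_
  rw [MvPolynomial.coeff_map, hl, Q4_coeff]

private theorem Q4_Λ_sum {K E ι : Type} [Field K] [Field E] {r : ℕ} (l : E →+ K)
    (s : Finset ι) (P : ι → MvPolynomial (Fin r) E) :
    Q4_Λ l (∑ i ∈ s, P i) = ∑ i ∈ s, Q4_Λ l (P i) := by
  ext m
  rw [Q4_coeff, MvPolynomial.coeff_sum, map_sum, MvPolynomial.coeff_sum]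
  exact Finset.sum_congr rfl fun i _ => (Q4_coeff l (P i) m).symm

private theorem Q4_Λ_C {K E : Type} [Field K] [Field E] {r : ℕ} (l : E →+ K) (a : E) :
    Q4_Λ (r := r) l (MvPolynomial.C a) = MvPolynomial.C (l a) := by
  classical
  ext m
  rw [Q4_coeff, MvPolynomial.coeff_C, MvPolynomial.coeff_C]
  split_ifs
  · rfl
  · exact map_zero l

theorem W_Q4 {K Ω : Type} [Field K] [Field Ω] (L : Subfield K) (n : ℕ)
    (q : MvPolynomial (Fin (n + 1)) L) (y : Fin (n + 1) → K) (ι σ : K →+* Ω)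
    (hισ : ∀ c ∈ L, σ c = ι c) (hy0 : y 0 = 1) (hq : MvPolynomial.aeval y q = 0)
    (hgen : Subfield.closure ((L : Set K) ∪ Set.range y) = ⊤)
    (hK : ∀ (d : ℕ) (G : MvPolynomial (Fin (n + 1)) K), G.IsHomogeneous d →
      MvPolynomial.eval₂ ι (fun i => σ (y i)) G = 0 → (MvPolynomial.map L.subtype q) ∣ G) :
    LinDisj L ι σ := by
  classical
  intro N l c hc hsum
  -- common denominator
  choose p p0 hp0 hp using fun j => Q4_quot L n y hgen (c j)
  obtain ⟨e, he⟩ : ∃ e : MvPolynomial (Fin (n + 1)) L →+* K,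
      e = (MvPolynomial.aeval y : MvPolynomial (Fin (n + 1)) L →ₐ[L] K).toRingHom := ⟨_, rfl⟩
  have he' : ∀ P, e P = MvPolynomial.aeval y P := fun P => by rw [he]; rfl
  obtain ⟨Q, hQ⟩ : ∃ Q : MvPolynomial (Fin (n + 1)) L, Q = ∏ j, p0 j := ⟨_, rfl⟩
  obtain ⟨P, hP⟩ : ∃ P : Fin N → MvPolynomial (Fin (n + 1)) L,
      P = fun j => p j * ∏ i ∈ Finset.univ.erase j, p0 i := ⟨_, rfl⟩
  have hQ0 : e Q ≠ 0 := by
    rw [hQ, map_prod]
    exact Finset.prod_ne_zero_iff.2 fun j _ => by rw [he']; exact hp0 j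
  have hPQ : ∀ j, c j * e Q = e (P j) := by
    intro j
    rw [hQ, hP, ← Finset.mul_prod_erase Finset.univ p0 (Finset.mem_univ j), map_mul, map_mul,
      ← mul_assoc, he' (p0 j), hp j, he' (p j)]
  -- homogenization
  obtain ⟨D, hD⟩ : ∃ D : ℕ, D = Finset.univ.sup fun j => (P j).totalDegree := ⟨_, rfl⟩
  have hDj : ∀ j, (P j).totalDegree ≤ D := fun j => by
    rw [hD]
    exact Finset.le_sup (f := fun j => (P j).totalDegree) (Finset.mem_univ j)
  have hX : e (MvPolynomial.X 0) = 1 := by rw [he', MvPolynomial.aeval_X, hy0]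
  have hH : ∀ j, e (Q4_H D (P j)) = c j * e Q := fun j => by
    rw [Q4_H_map D (P j) (hDj j) e hX, hPQ j]
  -- the evaluation of polynomials with coefficients in L
  have hev : ∀ R : MvPolynomial (Fin (n + 1)) L,
      MvPolynomial.eval₂ ι (fun i => σ (y i)) (MvPolynomial.map L.subtype R) = σ (e R) := by
    intro R
    rw [MvPolynomial.eval₂_map, he', MvPolynomial.aeval_def, MvPolynomial.eval₂_comp_left]
    congr 1
    ext x
    exact (hισ x x.2).symm
  obtain ⟨G, hG⟩ : ∃ G : MvPolynomial (Fin (n + 1)) K,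
      G = ∑ j, MvPolynomial.map L.subtype (Q4_H D (P j)) * MvPolynomial.C (l j) := ⟨_, rfl⟩
  have hGh : G.IsHomogeneous D := by
    rw [hG]
    refine MvPolynomial.IsHomogeneous.sum _ _ _ fun j _ => ?_
    have h1 := ((Q4_H_hom D (P j)).map L.subtype).mul
      (MvPolynomial.isHomogeneous_C (Fin (n + 1)) (l j))
    exact h1
  have hG0 : MvPolynomial.eval₂ ι (fun i => σ (y i)) G = 0 := by
    have h1 : MvPolynomial.eval₂ ι (fun i => σ (y i)) G =
        MvPolynomial.eval₂Hom ι (fun i => σ (y i)) G := rfl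
    rw [h1, hG, map_sum]
    have h2 : ∀ j, MvPolynomial.eval₂Hom ι (fun i => σ (y i))
        (MvPolynomial.map L.subtype (Q4_H D (P j)) * MvPolynomial.C (l j)) =
        σ (e Q) * (ι (l j) * σ (c j)) := by
      intro j
      rw [map_mul, MvPolynomial.coe_eval₂Hom, hev, MvPolynomial.eval₂_C, hH, map_mul]
      ring
    rw [Finset.sum_congr rfl fun j _ => h2 j, ← Finset.mul_sum, hsum, mul_zero]
  obtain ⟨W, hW⟩ := hK D G hGh hG0
  intro j₀
  rw [← Module.forall_dual_apply_eq_zero_iff L (l j₀)]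
  intro f
  have hl : ∀ (a : L) (x : K), f.toAddMonoidHom (L.subtype a * x) = a * f.toAddMonoidHom x := by
    intro a x
    have h1 : L.subtype a * x = a • x := (Algebra.smul_def a x).symm
    change f (L.subtype a * x) = a * f x
    rw [h1, map_smul, smul_eq_mul]
  have h3 : Q4_Λ f.toAddMonoidHom G = q * Q4_Λ f.toAddMonoidHom W := by
    rw [hW, Q4_Λ_mul L.subtype f.toAddMonoidHom hl]
  have h4 : Q4_Λ f.toAddMonoidHom G =
      ∑ j, Q4_H D (P j) * MvPolynomial.C (f (l j)) := by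
    rw [hG, Q4_Λ_sum]
    refine Finset.sum_congr rfl fun j _ => ?_
    rw [Q4_Λ_mul L.subtype f.toAddMonoidHom hl, Q4_Λ_C]
    rfl
  have h5 : e (∑ j, Q4_H D (P j) * MvPolynomial.C (f (l j))) = 0 := by
    rw [← h4, h3, map_mul, he' q, hq, zero_mul]
  have h6 : e Q * ∑ j, f (l j) • c j = 0 := by
    rw [← h5, map_sum, Finset.mul_sum]
    refine Finset.sum_congr rfl fun j _ => ?_
    rw [map_mul, hH, he' (MvPolynomial.C _), MvPolynomial.aeval_C, Algebra.smul_def]
    ring
  have h7 : ∑ j, f (l j) • c j = 0 := (mul_eq_zero.1 h6).resolve_left hQ0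
  exact Fintype.linearIndependent_iff.1 hc (fun j => f (l j)) h7 j₀

end Pool.Agent.LibHP
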