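import Pool.Agent.LibW64.Q2
import Pool.Agent.LibW64.Q2b
import Pool.Agent.LibW64.Q3
import Pool.Agent.LibW64.Q4

/-! # Row Q5: quadrics

Plan. From `IsQuadricField`: `m, a, y`. `r := m + 1`, `aK i := (a i : K)`. `W_Q3` with `n := m + 2`,
`Ω := RF K (m + 1)`, `j := (algebraMap K _).comp L.subtype`, `y' := steG aK y`: the equivalence:
`aeval y G = 0 → q ∣ G → G.eval₂ j y' = 0` (genericity of `y`; `q.eval₂ j y' = 0` by `W_Q2b`), and
conversely `G.eval₂ j y' = 0` is `aeval (steG aK y) (G.map L.subtype) = 0`, so by `W_Q2`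
`q_K ∣ G.map L.subtype`, so `aeval y G = 0` (evaluate at `y`). This gives `σ`. `LinDisj`: `W_Q4` with
`ι := algebraMap K _` and `W_Q2`. The closure is everything by `W_Q2b` (`σ (y i) = steG aK y i`), so the
last condition of `FibreDominated` is trivial. -/

set_option autoImplicit false
open Polynomial

namespace Pool.Agent.LibHP

theorem W_Q5 {K : Type} [Field K] [CharZero K] (L : Subfield K) (h : IsQuadricField L) :
    FibreDominated L := by
  obtain ⟨m, a, y, ha, hy0, hy, hgenr, hgen⟩ := h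
  have haK : ∀ i, (fun i => (a i : K)) i ≠ 0 := by
    intro i h0
    exact ha i (Subtype.ext h0)
  obtain ⟨hb0, hb1, hb2⟩ := W_Q2b m (fun i => (a i : K)) y haK hy0 hy
  have hqK : MvPolynomial.map L.subtype
      (∑ i, MvPolynomial.C (a i) * MvPolynomial.X i ^ 2 : MvPolynomial (Fin (m + 3)) L) =
      ∑ i, MvPolynomial.C ((fun i => (a i : K)) i) * MvPolynomial.X i ^ 2 := by
    rw [map_sum]
    refine Finset.sum_congr rfl fun i _ => ?_
    rw [map_mul, map_pow, MvPolynomial.map_C, MvPolynomial.map_X]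
    rfl
  have hqy : MvPolynomial.aeval y
      (∑ i, MvPolynomial.C (a i) * MvPolynomial.X i ^ 2 : MvPolynomial (Fin (m + 3)) L) = 0 := by
    rw [map_sum, ← hy]
    refine Finset.sum_congr rfl fun i _ => ?_
    rw [map_mul, map_pow, MvPolynomial.aeval_C, MvPolynomial.aeval_X]
    rfl
  have hqs : MvPolynomial.aeval (steG (fun i => (a i : K)) y)
      (∑ i, MvPolynomial.C ((fun i => (a i : K)) i) * MvPolynomial.X i ^ 2 :
        MvPolynomial (Fin (m + 3)) K) = 0 := by
    rw [map_sum, ← hb1]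
    refine Finset.sum_congr rfl fun i _ => ?_
    rw [map_mul, map_pow, MvPolynomial.aeval_C, MvPolynomial.aeval_X]
  have key : ∀ G : MvPolynomial (Fin (m + 3)) L,
      MvPolynomial.eval₂ ((algebraMap K (RF K (m + 1))).comp L.subtype)
        (steG (fun i => (a i : K)) y) G =
      MvPolynomial.aeval (steG (fun i => (a i : K)) y) (MvPolynomial.map L.subtype G) := by
    intro G
    rw [MvPolynomial.aeval_def, MvPolynomial.eval₂_map]
  have key2 : ∀ G : MvPolynomial (Fin (m + 3)) L,
      MvPolynomial.aeval y G = MvPolynomial.aeval y (MvPolynomial.map L.subtype G) := by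
    intro G
    rw [MvPolynomial.aeval_def, MvPolynomial.aeval_def, MvPolynomial.eval₂_map]
    rfl
  have hcond : ∀ (d : ℕ) (G : MvPolynomial (Fin (m + 2 + 1)) L), G.IsHomogeneous d →
      (MvPolynomial.aeval y G = 0 ↔
        MvPolynomial.eval₂ ((algebraMap K (RF K (m + 1))).comp L.subtype)
          (steG (fun i => (a i : K)) y) G = 0) := by
    intro d G hG
    constructor
    · intro h0
      obtain ⟨H, hH⟩ := hgenr d G hG h0
      rw [key, hH, map_mul, map_mul, hqK, hqs, zero_mul]
    · intro h0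
      rw [key] at h0
      obtain ⟨H, hH⟩ := W_Q2 m (fun i => (a i : K)) y haK hy0 hy d
        (MvPolynomial.map L.subtype G) (hG.map _) h0
      rw [key2, hH, map_mul, ← hqK, ← key2, hqy, zero_mul]
  obtain ⟨σ, hσ1, hσ2⟩ := W_Q3 L (m + 2) y (steG (fun i => (a i : K)) y)
    ((algebraMap K (RF K (m + 1))).comp L.subtype) hy0 hb0 hcond hgen
  have hσL : ∀ c ∈ L, σ c = algebraMap K (RF K (m + 1)) c := fun c hc => hσ1 ⟨c, hc⟩
  refine ⟨m + 1, σ, hσL, ?_, ?_⟩
  · refine W_Q4 L (m + 2) _ y (algebraMap K (RF K (m + 1))) σ hσL hy0 hqy hgen ?_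
    intro d G hG h0
    rw [hqK]
    refine W_Q2 m (fun i => (a i : K)) y haK hy0 hy d G hG ?_
    rw [MvPolynomial.aeval_def, ← h0]
    have h1 : (fun i => σ (y i)) = steG (fun i => (a i : K)) y := funext hσ2
    rw [h1]
  · intro z _
    have hle : Subfield.closure (Set.range (algebraMap K (RF K (m + 1))) ∪
        Set.range (steG (fun i => (a i : K)) y)) ≤
        Subfield.closure (Set.range (algebraMap K (RF K (m + 1))) ∪ Set.range σ) := by
      refine Subfield.closure_mono (Set.union_subset_union_right _ ?_)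
      rintro _ ⟨i, rfl⟩
      exact ⟨y i, hσ2 i⟩
    exact hle (hb2 ▸ Subfield.mem_top z)

end Pool.Agent.LibHP
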