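import Pool.Agent.LibW64.Defs

/-! # Quadrics: stereographic projection from the generic point -/

set_option autoImplicit false
open Polynomial

namespace Pool.Agent.LibHP

/-- The direction `(0, 1, t)`. -/
def steV {Ω : Type} [Field Ω] {m : ℕ} (t : Fin (m + 1) → Ω) : Fin (m + 3) → Ω :=
  Fin.cons 0 (Fin.cons 1 t)

/-- The second point of intersection of the quadric `∑ a_i Y_i ^ 2 = 0` with the line through its
point `y` in the direction `(0, 1, t)`. -/
def ste {Ω : Type} [Field Ω] {m : ℕ} (a y : Fin (m + 3) → Ω) (t : Fin (m + 1) → Ω) :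
    Fin (m + 3) → Ω :=
  fun i => y i - 2 * (∑ j, a j * y j * steV t j) / (∑ j, a j * steV t j ^ 2) * steV t i

/-- The same with values in `K(u_1, ..., u_{m+1})`, for the variable direction `(0, 1, u)`. -/
noncomputable def steG {K : Type} [Field K] {m : ℕ} (a y : Fin (m + 3) → K) :
    Fin (m + 3) → RF K (m + 1) :=
  ste (fun i => algebraMap K (RF K (m + 1)) (a i)) (fun i => algebraMap K (RF K (m + 1)) (y i))
    (fun j => algebraMap (MvPolynomial (Fin (m + 1)) K) (RF K (m + 1)) (MvPolynomial.X j))

end Pool.Agent.LibHP
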